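import Pool.Agent.KS.Tr

/-! Part (B), deterministic side, file 1: paths inside a class. -/

namespace Pool.JN

open Finset Pool.KS

set_option linter.unusedSectionVars false

variable {I J : Type*} [Fintype I] [Fintype J] [DecidableEq I] [DecidableEq J]

/-- delete the rows `A` and the columns `B` -/
def del (A : Finset I) (B : Finset J) (E : Finset (I × J)) : Finset (I × J) :=
  E.filter (fun e => e.1 ∉ A ∧ e.2 ∉ B)

theorem mem_del {A : Finset I} {B : Finset J} {E : Finset (I × J)} {e : I × J} :
    e ∈ del A B E ↔ e ∈ E ∧ e.1 ∉ A ∧ e.2 ∉ B := by simp [del]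

theorem del_sub (A : Finset I) (B : Finset J) (E : Finset (I × J)) : del A B E ⊆ E :=
  Finset.filter_subset _ _

theorem dR_del (r : I) (A : Finset I) (B : Finset J) (E : Finset (I × J)) :
    dR r (del A B E) = del (insert r A) B E := by
  ext e
  simp only [mem_dR, mem_del, Finset.mem_insert, not_or]
  tauto

theorem dC_del (c : J) (A : Finset I) (B : Finset J) (E : Finset (I × J)) :
    dC c (del A B E) = del A (insert c B) E := by
  ext e
  simp only [mem_dC, mem_del, Finset.mem_insert, not_or]
  tauto

/-- every column outside `B` with a neighbour in `A` has a neighbour outside `A` -/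
def cond (A : Finset I) (B : Finset J) (E : Finset (I × J)) : Prop :=
  ∀ t, t ∉ B → (∃ r, r ∈ A ∧ (r, t) ∈ E) → ∃ r, r ∉ A ∧ (r, t) ∈ E

/-- the rows `A` can be matched into the columns `B'` -/
def PM (A : Finset I) (B' : Finset J) (E : Finset (I × J)) : Prop :=
  ∃ M : Finset (I × J), M ⊆ E ∧ IsMatching M ∧ (∀ e ∈ M, e.1 ∈ A ∧ e.2 ∈ B') ∧ M.card = A.card

/-- alternating walk `b, r, c, ...` avoiding the used rows and columns -/
inductive Reach (E : Finset (I × J)) :
    ℕ → Finset I → Finset J → J → Finset I → Finset J → J → Prop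
  | zero (A : Finset I) (B : Finset J) (b : J) : Reach E 0 A B b A B b
  | succ {k : ℕ} {A : Finset I} {B : Finset J} {b : J} {r : I} {c : J} {A' : Finset I}
      {B' : Finset J} {l : J} (hrA : r ∉ A) (hcB : c ∉ B) (h1 : (r, b) ∈ E) (h2 : (r, c) ∈ E)
      (h : Reach E k (insert r A) (insert c B) c A' B' l) : Reach E (k + 1) A B b A' B' l

theorem Reach.subR {E : Finset (I × J)} {k : ℕ} {A : Finset I} {B : Finset J} {b : J}
    {A' : Finset I} {B' : Finset J} {l : J} (h : Reach E k A B b A' B' l) : A ⊆ A' := by
  induction h with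
  | zero => exact Finset.Subset.refl _
  | succ hrA hcB h1 h2 h ih => exact (Finset.subset_insert _ _).trans ih

theorem Reach.subC {E : Finset (I × J)} {k : ℕ} {A : Finset I} {B : Finset J} {b : J}
    {A' : Finset I} {B' : Finset J} {l : J} (h : Reach E k A B b A' B' l) : B ⊆ B' := by
  induction h with
  | zero => exact Finset.Subset.refl _
  | succ hrA hcB h1 h2 h ih => exact (Finset.subset_insert _ _).trans ih

theorem Reach.mem {E : Finset (I × J)} {k : ℕ} {A : Finset I} {B : Finset J} {b : J}
    {A' : Finset I} {B' : Finset J} {l : J} (h : Reach E k A B b A' B' l) (hb : b ∈ B) :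
    l ∈ B' := by
  induction h with
  | zero => exact hb
  | succ hrA hcB h1 h2 h ih => exact ih (Finset.mem_insert_self _ _)

theorem isMatching_union {M1 M2 : Finset (I × J)} {A1 A2 : Finset I} {B1 B2 : Finset J}
    (h1 : IsMatching M1) (h2 : IsMatching M2) (m1 : ∀ e ∈ M1, e.1 ∈ A1 ∧ e.2 ∈ B1)
    (m2 : ∀ e ∈ M2, e.1 ∈ A2 ∧ e.2 ∈ B2) (hA : Disjoint A1 A2) (hB : Disjoint B1 B2) :
    IsMatching (M1 ∪ M2) ∧ (M1 ∪ M2).card = M1.card + M2.card := by
  constructor
  · intro e he e' he' hh
    rw [Finset.mem_union] at he he'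
    rcases he with he | he <;> rcases he' with he' | he'
    · exact h1 e he e' he' hh
    · exfalso
      rcases hh with hh | hh
      · exact Finset.disjoint_left.mp hA (m1 e he).1 (hh ▸ (m2 e' he').1)
      · exact Finset.disjoint_left.mp hB (m1 e he).2 (hh ▸ (m2 e' he').2)
    · exfalso
      rcases hh with hh | hh
      · exact Finset.disjoint_left.mp hA (m1 e' he').1 (hh ▸ (m2 e he).1)
      · exact Finset.disjoint_left.mp hB (m1 e' he').2 (hh ▸ (m2 e he).2)
    · exact h2 e he e' he' hh
  · apply Finset.card_union_of_disjoint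
    rw [Finset.disjoint_left]
    intro e he he'
    exact Finset.disjoint_left.mp hA (m1 e he).1 (m2 e he').1

theorem PM_union {E : Finset (I × J)} {A1 A2 : Finset I} {B1 B2 : Finset J}
    (h1 : PM A1 B1 E) (h2 : PM A2 B2 E) (hA : Disjoint A1 A2) (hB : Disjoint B1 B2) :
    PM (A1 ∪ A2) (B1 ∪ B2) E := by
  obtain ⟨M1, s1, i1, m1, c1⟩ := h1
  obtain ⟨M2, s2, i2, m2, c2⟩ := h2
  obtain ⟨hm, hc⟩ := isMatching_union i1 i2 m1 m2 hA hB
  refine ⟨M1 ∪ M2, Finset.union_subset s1 s2, hm, ?_, ?_⟩
  · intro e he
    rw [Finset.mem_union] at he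
    rcases he with he | he
    · exact ⟨Finset.mem_union_left _ (m1 e he).1, Finset.mem_union_left _ (m1 e he).2⟩
    · exact ⟨Finset.mem_union_right _ (m2 e he).1, Finset.mem_union_right _ (m2 e he).2⟩
  · rw [hc, c1, c2, Finset.card_union_of_disjoint hA]

theorem PM_mono {E : Finset (I × J)} {A : Finset I} {B1 B2 : Finset J}
    (h1 : PM A B1 E) (h : B1 ⊆ B2) : PM A B2 E := by
  obtain ⟨M1, s1, i1, m1, c1⟩ := h1
  exact ⟨M1, s1, i1, fun e he => ⟨(m1 e he).1, h (m1 e he).2⟩, c1⟩

theorem PM_single {E : Finset (I × J)} {r : I} {c : J} (h : (r, c) ∈ E) :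
    PM {r} {c} E := by
  refine ⟨{(r, c)}, by simpa using h, ?_, ?_, by simp⟩
  · intro e he e' he' _
    rw [Finset.mem_singleton] at he he'
    rw [he, he']
  · intro e he
    rw [Finset.mem_singleton] at he
    subst he
    simp

/-- a matching of the deleted graph together with a matching of `A` -/
theorem nu_add_PM {E : Finset (I × J)} {A : Finset I} {B B' : Finset J}
    (h : PM A B' E) (hB : B' ⊆ B) : nu (del A B E) + A.card ≤ nu E := by
  obtain ⟨M1, s1, i1, m1, c1⟩ := h
  obtain ⟨M2, s2, i2, c2⟩ := exists_max (del A B E)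
  have m2 : ∀ e ∈ M2, e.1 ∈ Aᶜ ∧ e.2 ∈ Bᶜ := by
    intro e he
    have := mem_del.mp (s2 he)
    exact ⟨Finset.mem_compl.mpr this.2.1, Finset.mem_compl.mpr this.2.2⟩
  obtain ⟨hm, hc⟩ := isMatching_union i2 i1 m2 m1
    (Finset.disjoint_left.mpr (fun x hx hx' => (Finset.mem_compl.mp hx) hx'))
    (Finset.disjoint_left.mpr (fun x hx hx' => (Finset.mem_compl.mp hx) (hB hx')))
  rw [← c2, ← c1, ← hc]
  exact card_le_nu hm (Finset.union_subset (s2.trans (del_sub _ _ _)) s1)

theorem isolated_Rm {F : Finset (I × J)} {t : J} (h : ∀ r, (r, t) ∉ F) : t ∈ Rm F := by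
  rw [mem_Rm]
  congr 1
  ext e
  rw [mem_dC]
  constructor
  · exact fun h' => h'.1
  · intro he
    refine ⟨he, ?_⟩
    intro hh
    apply h e.1
    rw [← hh]
    exact he

/-- the transposed row criterion -/
theorem mem_Rm_iff {b : J} {G : Finset (I × J)} :
    b ∈ Rm G ↔ ∀ r, (r, b) ∈ G → r ∉ Lm (dC b G) := by
  rw [← Lm_tr, mem_Lm_iff]
  constructor
  · intro h r hr
    have h1 := h r (mem_tr.mpr hr)
    rwa [← tr_dC, Rm_tr] at h1
  · intro h r hr
    have h1 := h r (mem_tr.mp hr)
    rwa [← tr_dC, Rm_tr]

theorem nu_two {F : Finset (I × J)} {r : I} {b : J} (h : (r, b) ∈ F) :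
    nu (dR r (dC b F)) + 1 ≤ nu F := by
  have h1 := nu_add_PM (A := {r}) (B := {b}) (PM_single h) (Finset.Subset.refl _)
  have h2 : del {r} {b} F = dR r (dC b F) := by
    ext e
    simp only [mem_dR, mem_dC, mem_del, Finset.mem_singleton]
    tauto
  rw [h2] at h1
  simpa using h1

/-- Lemma D -/
theorem lemD (n : ℕ) : ∀ (A : Finset I) (B : Finset J) (b l : J) (E : Finset (I × J)),
    (Aᶜ).card ≤ n → b ∈ B → b ∈ Rm (del A (B.erase b) E) →
    l ∈ cls (del A (B.erase b) E) b → l ≠ b →
    ∃ (k : ℕ) (A' : Finset I) (B' : Finset J), 1 ≤ k ∧ k ≤ n ∧ Reach E k A B b A' B' l ∧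
      nu (del A' B' E) + (A' \ A).card = nu (del A (B.erase b) E) ∧
      (∀ t, t ∉ B' → (∃ r, r ∈ A' \ A ∧ (r, t) ∈ E) → ∃ r, r ∉ A' ∧ (r, t) ∈ E) ∧
      ∀ c ∈ insert b (B' \ B), PM (A' \ A) ((insert b (B' \ B)).erase c) E := by
  induction n with
  | zero =>
    intro A B b l E hn hb hbF hl hlb
    exfalso
    have hA : A = univ := by
      rw [Nat.le_zero, Finset.card_eq_zero, Finset.compl_eq_empty_iff] at hn
      exact hn
    have hE : ∀ e, e ∉ del A (B.erase b) E := by
      intro e he
      rw [mem_del, hA] at he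
      exact he.2.1 (Finset.mem_univ _)
    have h1 : l ∈ Rm (dC b (del A (B.erase b) E)) :=
      isolated_Rm (fun r hr => hE _ ((dC_sub b _) hr))
    rcases (mem_cls.mp hl).2 with h2 | h2
    · exact hlb h2
    · exact h2 h1
  | succ n ih =>
    intro A B b l E hn hb hbF hl hlb
    set F := del A (B.erase b) E with hF
    have hlR : l ∈ Rm F := (mem_cls.mp hl).1
    have hlb2 : l ∉ Rm (dC b F) := by
      rcases (mem_cls.mp hl).2 with h | h
      · exact absurd h hlb
      · exact h
    have hnu1 : nu F = nu (dC l (dC b F)) + 1 := (not_mem_both hbF).mp hlb2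
    have hbl : b ∉ Rm (dC l F) := by
      rw [not_mem_Rm, dC_comm b l F, (mem_Rm.mp hlR)]
      exact hnu1
    rw [mem_Rm_iff] at hbl
    push Not at hbl
    obtain ⟨r, hr1, hr2⟩ := hbl
    have hrF : (r, b) ∈ F := (dC_sub l F) hr1
    have hrE : (r, b) ∈ E := (mem_del.mp hrF).1
    have hrA : r ∉ A := (mem_del.mp hrF).2.1
    set E2 := dR r (dC b F) with hE2
    have hnu2 : nu (dC l E2) + 1 = nu F := by
      rw [mem_Lm] at hr2
      rw [hE2, ← dR_dC r l (dC b F), dC_comm l b F, hr2, dC_comm b l F]
      exact hnu1.symm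
    have hnu3 : nu E2 + 1 ≤ nu F := nu_two hrF
    have hlE2 : l ∈ Rm E2 := by
      rw [mem_Rm]
      have := nu_dC_le l E2
      omega
    have hnu4 : nu E2 + 1 = nu F := by
      rw [mem_Rm] at hlE2
      omega
    have hadd := mem_Rm_add (i := r) (E := dC b F) (j := l)
    have hhit : ∃ t, (r, t) ∈ dC b F ∧ t ∈ Rm E2 := by
      by_contra hcon
      push Not at hcon
      exact hlb2 (hadd.mpr ⟨hlE2, Or.inl hcon⟩)
    have hall : ∀ t, (r, t) ∈ dC b F → t ∈ Rm E2 → t ∈ cls E2 l := by
      intro t ht htR
      by_contra hcon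
      exact hlb2 (hadd.mpr ⟨hlE2, Or.inr ⟨t, ht, htR, hcon⟩⟩)
    obtain ⟨c, hc1, hc2⟩ := hhit
    have hc3 := hall c hc1 hc2
    have hcF : (r, c) ∈ F := (mem_dC.mp hc1).1
    have hcb : c ≠ b := (mem_dC.mp hc1).2
    have hcE : (r, c) ∈ E := (mem_del.mp hcF).1
    have hcB : c ∉ B := by
      intro h
      exact (mem_del.mp hcF).2.2 (Finset.mem_erase.mpr ⟨hcb, h⟩)
    have hcc : l ∈ cls E2 c := cls_symm hlE2 hc3
    have hE2' : E2 = del (insert r A) B E := by
      rw [hE2, hF, dC_del, dR_del, Finset.insert_erase hb]
    -- columns isolated in E2 and hit by r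
    have hiso : ∀ t, t ∉ B → (r, t) ∈ E → (∀ r', (r', t) ∉ E2) → t = l := by
      intro t htB hrt hno
      by_contra htl
      have htb : t ≠ b := fun h => htB (h ▸ hb)
      have h1 : (r, t) ∈ dC b F := by
        rw [mem_dC, hF, mem_del]
        refine ⟨⟨hrt, hrA, ?_⟩, htb⟩
        intro h
        exact htB (Finset.mem_of_mem_erase h)
      have h2 := hall t h1 (isolated_Rm hno)
      rcases (mem_cls.mp h2).2 with h3 | h3
      · exact htl h3
      · exact h3 (isolated_Rm (fun r' hr' => hno r' ((dC_sub l E2) hr')))
    have hcardn : ((insert r A)ᶜ).card ≤ n := by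
      have h1 : (insert r A)ᶜ = (Aᶜ).erase r := by
        ext x
        simp only [Finset.mem_compl, Finset.mem_insert, Finset.mem_erase, not_or]
      rw [h1, Finset.card_erase_of_mem (Finset.mem_compl.mpr hrA)]
      omega
    by_cases hcl : c = l
    · subst hcl
      refine ⟨1, insert r A, insert c B, le_rfl, by omega,
        Reach.succ hrA hcB hrE hcE (Reach.zero _ _ _), ?_, ?_, ?_⟩
      · have h1 : (insert r A) \ A = {r} := by
          ext x; simp only [Finset.mem_sdiff, Finset.mem_insert, Finset.mem_singleton]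
          constructor
          · rintro ⟨h1 | h1, h2⟩
            · exact h1
            · exact absurd h1 h2
          · rintro rfl; exact ⟨Or.inl rfl, hrA⟩
        rw [h1, Finset.card_singleton, ← dC_del, ← hE2']
        exact hnu2
      · intro t ht ⟨r', hr', hrt'⟩
        have hr'' : r' = r := by
          rcases Finset.mem_sdiff.mp hr' with ⟨h1, h2⟩
          rcases Finset.mem_insert.mp h1 with h1 | h1
          · exact h1
          · exact absurd h1 h2
        subst hr''
        by_contra hcon
        push Not at hcon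
        have htB : t ∉ B := fun h => ht (Finset.mem_insert_of_mem h)
        have := hiso t htB hrt' (fun r1 hr1 => by
          rw [hE2', mem_del] at hr1
          exact hcon r1 hr1.2.1 hr1.1)
        exact ht (this ▸ Finset.mem_insert_self _ _)
      · have h1 : (insert r A) \ A = {r} := by
          ext x; simp only [Finset.mem_sdiff, Finset.mem_insert, Finset.mem_singleton]
          constructor
          · rintro ⟨h1 | h1, h2⟩
            · exact h1
            · exact absurd h1 h2
          · rintro rfl; exact ⟨Or.inl rfl, hrA⟩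
        have h2 : (insert c B) \ B = {c} := by
          ext x; simp only [Finset.mem_sdiff, Finset.mem_insert, Finset.mem_singleton]
          constructor
          · rintro ⟨h1 | h1, h2⟩
            · exact h1
            · exact absurd h1 h2
          · rintro rfl; exact ⟨Or.inl rfl, hcB⟩
        rw [h1, h2]
        intro c' hc'
        rcases Finset.mem_insert.mp hc' with h3 | h3
        · subst h3
          refine PM_mono (PM_single hcE) ?_
          intro x hx
          rw [Finset.mem_singleton] at hx
          subst hx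
          simp [hcb]
        · rw [Finset.mem_singleton] at h3
          subst h3
          refine PM_mono (PM_single hrE) ?_
          intro x hx
          rw [Finset.mem_singleton] at hx
          subst hx
          simp [hcb.symm]
    · have hE3 : del (insert r A) ((insert c B).erase c) E = E2 := by
        rw [Finset.erase_insert hcB, hE2']
      obtain ⟨k, A', B', hk1, hkn, hreach, hnu, hcond, hPM⟩ :=
        ih (insert r A) (insert c B) c l E hcardn (Finset.mem_insert_self _ _)
          (by rw [hE3]; exact hc2) (by rw [hE3]; exact hcc) (fun h => hcl h.symm)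
      rw [hE3] at hnu
      have hsubR := hreach.subR
      have hsubC := hreach.subC
      have hrA' : r ∈ A' := hsubR (Finset.mem_insert_self _ _)
      have hcB' : c ∈ B' := hsubC (Finset.mem_insert_self _ _)
      have hAd : A' \ A = insert r (A' \ insert r A) := by
        ext x
        simp only [Finset.mem_sdiff, Finset.mem_insert, not_or]
        constructor
        · rintro ⟨h1, h2⟩
          by_cases hx : x = r
          · exact Or.inl hx
          · exact Or.inr ⟨h1, hx, h2⟩
        · rintro (h1 | ⟨h1, h2, h3⟩)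
          · subst h1; exact ⟨hrA', hrA⟩
          · exact ⟨h1, h3⟩
      have hBd : B' \ B = insert c (B' \ insert c B) := by
        ext x
        simp only [Finset.mem_sdiff, Finset.mem_insert, not_or]
        constructor
        · rintro ⟨h1, h2⟩
          by_cases hx : x = c
          · exact Or.inl hx
          · exact Or.inr ⟨h1, hx, h2⟩
        · rintro (h1 | ⟨h1, h2, h3⟩)
          · subst h1; exact ⟨hcB', hcB⟩
          · exact ⟨h1, h3⟩
      have hrn : r ∉ A' \ insert r A := by simp
      refine ⟨k + 1, A', B', by omega, by omega, Reach.succ hrA hcB hrE hcE hreach, ?_, ?_, ?_⟩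
      · rw [hAd, Finset.card_insert_of_notMem hrn]
        omega
      · intro t ht hex
        by_cases h1 : ∃ r', r' ∈ A' \ insert r A ∧ (r', t) ∈ E
        · exact hcond t ht h1
        · push Not at h1
          obtain ⟨r', hr', hrt'⟩ := hex
          rw [hAd, Finset.mem_insert] at hr'
          have hr'' : r' = r := by
            rcases hr' with h2 | h2
            · exact h2
            · exact absurd hrt' (h1 r' h2)
          subst hr''
          by_contra hcon
          push Not at hcon
          have htB : t ∉ B := fun h => ht (hsubC (Finset.mem_insert_of_mem h))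
          have := hiso t htB hrt' (fun r1 hr1 => by
            rw [hE2', mem_del] at hr1
            by_cases h3 : r1 ∈ A'
            · exact h1 r1 (Finset.mem_sdiff.mpr ⟨h3, hr1.2.1⟩) hr1.1
            · exact hcon r1 h3 hr1.1)
          exact ht (this ▸ hreach.mem (Finset.mem_insert_self _ _))
      · intro c' hc'
        rw [hBd] at hc' ⊢
        rw [hAd]
        have hdR : Disjoint (A' \ insert r A) {r} := by
          rw [Finset.disjoint_singleton_right]; exact hrn
        have hbn : b ∉ insert c (B' \ insert c B) := by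
          rw [← hBd]
          intro h
          exact (Finset.mem_sdiff.mp h).2 hb
        rcases Finset.mem_insert.mp hc' with h3 | h3
        · subst h3
          have h4 := PM_union (hPM c (Finset.mem_insert_self _ _)) (PM_single hcE) hdR
            (by rw [Finset.disjoint_singleton_right]; exact Finset.notMem_erase _ _)
          rw [Finset.union_comm, ← Finset.insert_eq] at h4
          refine PM_mono h4 ?_
          rw [Finset.union_comm, ← Finset.insert_eq, Finset.insert_erase
            (Finset.mem_insert_self _ _), Finset.erase_insert hbn]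
        · have h4 := PM_union (hPM c' h3) (PM_single hrE) hdR
            (by
              rw [Finset.disjoint_singleton_right]
              intro h
              exact hbn (Finset.mem_of_mem_erase h))
          rw [Finset.union_comm, ← Finset.insert_eq] at h4
          refine PM_mono h4 ?_
          rw [Finset.union_comm, ← Finset.insert_eq]
          intro x hx
          have hc'b : c' ≠ b := fun h => hbn (h ▸ h3)
          rcases Finset.mem_insert.mp hx with h5 | h5
          · subst h5
            exact Finset.mem_erase.mpr ⟨hc'b.symm, Finset.mem_insert_self _ _⟩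
          · exact Finset.mem_erase.mpr ⟨(Finset.mem_erase.mp h5).1,
              Finset.mem_insert_of_mem (Finset.mem_erase.mp h5).2⟩

end Pool.JN
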