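import Pool.Agent.JN.B1

/-! Part (B), deterministic side, file 2: extension of tight pairs. -/

namespace Pool.JN

open Finset Pool.KS

set_option linter.unusedSectionVars false

variable {I J : Type*} [Fintype I] [Fintype J] [DecidableEq I] [DecidableEq J]

def Tight (A : Finset I) (B : Finset J) (E : Finset (I × J)) : Prop :=
  nu (del A B E) + A.card = nu E ∧ ∀ c ∈ B, PM A (B.erase c) E

theorem dC_HB {A : Finset I} {B S : Finset J} {E : Finset (I × J)} {x : J} (hx : x ∈ S)
    (hS : S ⊆ B) : dC x (del A (B \ S) E) = del A (B \ S.erase x) E := by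
  rw [dC_del]
  congr 1
  ext y
  simp only [Finset.mem_insert, Finset.mem_sdiff, Finset.mem_erase]
  constructor
  · rintro (h | ⟨h1, h2⟩)
    · subst h; exact ⟨hS hx, fun h => h.1 rfl⟩
    · exact ⟨h1, fun h => h2 h.2⟩
  · rintro ⟨h1, h2⟩
    by_cases hy : y = x
    · exact Or.inl hy
    · exact Or.inr ⟨h1, fun h => h2 ⟨hy, h⟩⟩

theorem Rm_del_mono (A : Finset I) (E : Finset (I × J)) : Rm E ⊆ Rm (del A ∅ E) := by
  induction A using Finset.induction_on with
  | empty =>
    have : del (∅ : Finset I) (∅ : Finset J) E = E := by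
      ext e; simp [mem_del]
    rw [this]
  | insert r A hr ih =>
    rw [← dR_del]
    exact ih.trans (Rm_sub_dR r _)

theorem lemM {A : Finset I} {B : Finset J} {E : Finset (I × J)} {j l : J}
    (hT : Tight A B E) (hjB : j ∈ B) (hjR : j ∈ Rm E) (hl : l ∈ cls E j) (hlB : l ∉ B) :
    ∃ b ∈ B, b ∈ Rm (del A (B.erase b) E) ∧ l ∈ cls (del A (B.erase b) E) b := by
  obtain ⟨hT1, hT2⟩ := hT
  have hlj : l ≠ j := fun h => hlB (h ▸ hjB)
  have hlR : l ∈ Rm E := (mem_cls.mp hl).1
  have hboth : nu E = nu (dC l (dC j E)) + 1 := by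
    rw [← not_mem_both hjR]
    rcases (mem_cls.mp hl).2 with h | h
    · exact absurd h hlj
    · exact h
  -- l is not missable in H
  have h1 : l ∉ Rm (del A B E) := by
    intro h
    rw [mem_Rm, dC_del] at h
    obtain ⟨M, s, i, m, c⟩ := hT2 j hjB
    have hPM : PM A (B.erase j) (dC l (dC j E)) := by
      refine ⟨M, ?_, i, m, c⟩
      intro e he
      rw [mem_dC, mem_dC]
      have h2 := (m e he).2
      rw [Finset.mem_erase] at h2
      refine ⟨⟨s he, h2.1⟩, ?_⟩
      intro h3
      exact hlB (h3 ▸ h2.2)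
    have h2 := nu_add_PM (B := B) hPM (Finset.erase_subset _ _)
    have h3 : del A B (dC l (dC j E)) = del A (insert l B) E := by
      ext e
      simp only [mem_del, mem_dC, Finset.mem_insert, not_or]
      constructor
      · rintro ⟨⟨⟨h4, h5⟩, h6⟩, h7, h8⟩
        exact ⟨h4, h7, h6, h8⟩
      · rintro ⟨h4, h5, h6, h7⟩
        exact ⟨⟨⟨h4, fun h8 => h7 (h8 ▸ hjB)⟩, h6⟩, h5, h7⟩
    rw [h3, h] at h2
    omega
  -- single columns
  have h2 : ∀ b ∈ B, b ∈ Rm (del A (B \ {b}) E) := by
    intro b hb
    rw [mem_Rm, dC_HB (Finset.mem_singleton_self b) (by simpa using hb)]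
    have h3 : ({b} : Finset J).erase b = ∅ := by simp
    rw [h3, Finset.sdiff_empty]
    have h4 := nu_add_PM (hT2 b hb) (Finset.Subset.refl _)
    rw [Finset.sdiff_singleton_eq_erase]
    have h5 : nu (del A B E) ≤ nu (del A (B.erase b) E) := by
      apply nu_mono
      intro e he
      rw [mem_del] at he ⊢
      exact ⟨he.1, he.2.1, fun h => he.2.2 (Finset.mem_of_mem_erase h)⟩
    omega
  have h3 : ∀ (n : ℕ) (S : Finset J), S ⊆ B → S.card = n → ∀ b ∈ S,
      b ∈ Rm (del A (B \ S) E) := by
    intro n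
    induction n with
    | zero =>
      intro S _ hc b hb
      rw [Finset.card_eq_zero] at hc
      subst hc
      simp at hb
    | succ n ih =>
      intro S hS hc b hb
      by_cases hn : n = 0
      · subst hn
        obtain ⟨x, hx⟩ := Finset.card_eq_one.mp hc
        subst hx
        rw [Finset.mem_singleton] at hb
        subst hb
        exact h2 b (hS (Finset.mem_singleton_self b))
      · have h4 : ∃ x ∈ S, x ≠ b := by
          by_contra hcon
          push Not at hcon
          have : S ⊆ {b} := fun x hx => by rw [Finset.mem_singleton]; exact hcon x hx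
          have := Finset.card_le_card this
          rw [Finset.card_singleton] at this
          omega
        obtain ⟨x, hx, hxb⟩ := h4
        have h5 := ih (S.erase x) ((Finset.erase_subset _ _).trans hS)
          (by rw [Finset.card_erase_of_mem hx]; omega) b (Finset.mem_erase.mpr ⟨hxb.symm, hb⟩)
        rw [← dC_HB hx hS] at h5
        exact mono_Rm hxb.symm h5
  have h4 : ∀ (n : ℕ) (S : Finset J), S ⊆ B → S.card = n → l ∈ Rm (del A (B \ S) E) →
      ∃ b ∈ S, l ∈ Rm (del A (B \ {b}) E) := by
    intro n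
    induction n with
    | zero =>
      intro S _ hc hlS
      rw [Finset.card_eq_zero] at hc
      subst hc
      rw [Finset.sdiff_empty] at hlS
      exact absurd hlS h1
    | succ n ih =>
      intro S hS hc hlS
      by_cases hn : n = 0
      · subst hn
        obtain ⟨x, hx⟩ := Finset.card_eq_one.mp hc
        subst hx
        exact ⟨x, Finset.mem_singleton_self x, hlS⟩
      · obtain ⟨x, hx, y, hy, hxy⟩ := Finset.one_lt_card.mp (by omega : 1 < S.card)
        have hcx : (S.erase x).card = n := by rw [Finset.card_erase_of_mem hx]; omega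
        have hcy : (S.erase y).card = n := by rw [Finset.card_erase_of_mem hy]; omega
        have hxR := h3 _ S hS rfl x hx
        have hyR := h3 _ S hS rfl y hy
        by_cases h5 : l ∈ Rm (del A (B \ S.erase x) E)
        · obtain ⟨b, hb, hb2⟩ := ih _ ((Finset.erase_subset _ _).trans hS) hcx h5
          exact ⟨b, Finset.mem_of_mem_erase hb, hb2⟩
        by_cases h6 : l ∈ Rm (del A (B \ S.erase y) E)
        · obtain ⟨b, hb, hb2⟩ := ih _ ((Finset.erase_subset _ _).trans hS) hcy h6
          exact ⟨b, Finset.mem_of_mem_erase hb, hb2⟩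
        exfalso
        rw [← dC_HB hx hS] at h5
        rw [← dC_HB hy hS] at h6
        have h7 : l ∈ cls (del A (B \ S) E) x := mem_cls.mpr ⟨hlS, Or.inr h5⟩
        have h8 : l ∈ cls (del A (B \ S) E) y := mem_cls.mpr ⟨hlS, Or.inr h6⟩
        have h9 : y ∈ cls (del A (B \ S) E) x := cls_trans hxR h7 (cls_symm hyR h8)
        rcases (mem_cls.mp h9).2 with h10 | h10
        · exact hxy h10.symm
        · apply h10
          rw [dC_HB hx hS]
          exact h3 _ _ ((Finset.erase_subset _ _).trans hS) rfl y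
            (Finset.mem_erase.mpr ⟨hxy.symm, hy⟩)
  obtain ⟨b, hb, hb2⟩ := h4 _ B (Finset.Subset.refl _) rfl (by
    rw [Finset.sdiff_self]
    exact Rm_del_mono A E hlR)
  have hb3 := h2 b hb
  rw [Finset.sdiff_singleton_eq_erase] at hb2 hb3
  refine ⟨b, hb, hb3, mem_cls.mpr ⟨hb2, Or.inr ?_⟩⟩
  rw [dC_del, Finset.insert_erase hb]
  exact h1

/-- the extension step -/
theorem ext_step {A : Finset I} {B : Finset J} {E : Finset (I × J)} {j l : J}
    (hT : Tight A B E) (hC : cond A B E) (hjB : j ∈ B) (hjR : j ∈ Rm E) (hl : l ∈ cls E j)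
    (hlB : l ∉ B) :
    ∃ b ∈ B, ∃ (k : ℕ) (A' : Finset I) (B' : Finset J), 1 ≤ k ∧ k ≤ Fintype.card I ∧
      Reach E k A B b A' B' l ∧ Tight A' B' E ∧ cond A' B' E := by
  obtain ⟨b, hb, hbR, hbl⟩ := lemM hT hjB hjR hl hlB
  obtain ⟨k, A', B', hk1, hkn, hreach, hnu, hcond, hPM⟩ :=
    lemD (Aᶜ).card A B b l E le_rfl hb hbR hbl (fun h => hlB (h ▸ hb))
  have hsubR := hreach.subR
  have hsubC := hreach.subC
  have hkI : k ≤ Fintype.card I := hkn.trans (Finset.card_le_univ _)
  refine ⟨b, hb, k, A', B', hk1, hkI, hreach, ?_, ?_⟩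
  · have hHb : nu (del A (B.erase b) E) = nu (del A B E) := by
      rw [mem_Rm, dC_del, Finset.insert_erase hb] at hbR
      exact hbR.symm
    have hcard : A'.card = A.card + (A' \ A).card := by
      have := Finset.card_sdiff_add_card_eq_card hsubR
      omega
    obtain ⟨hT1, hT2⟩ := hT
    refine ⟨by omega, ?_⟩
    have hAu : A ∪ (A' \ A) = A' := by
      rw [Finset.union_sdiff_of_subset hsubR]
    have hdA : Disjoint A (A' \ A) := Finset.disjoint_sdiff
    intro c hc
    by_cases hcB : c ∈ B
    · have h1 := PM_union (hT2 c hcB) (hPM b (Finset.mem_insert_self _ _)) hdA (by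
        rw [Finset.disjoint_left]
        intro x hx hx'
        rw [Finset.mem_erase, Finset.mem_insert, Finset.mem_sdiff] at hx'
        rcases hx'.2 with h | h
        · exact hx'.1 h
        · exact h.2 (Finset.mem_of_mem_erase hx))
      rw [hAu] at h1
      refine PM_mono h1 ?_
      intro x hx
      rw [Finset.mem_union] at hx
      rcases hx with hx | hx
      · rw [Finset.mem_erase] at hx
        exact Finset.mem_erase.mpr ⟨hx.1, hsubC hx.2⟩
      · rw [Finset.mem_erase, Finset.mem_insert, Finset.mem_sdiff] at hx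
        rcases hx.2 with h | h
        · exact absurd h hx.1
        · exact Finset.mem_erase.mpr ⟨fun h' => h.2 (h' ▸ hcB), h.1⟩
    · have h1 := PM_union (hT2 b hb) (hPM c (Finset.mem_insert_of_mem
        (Finset.mem_sdiff.mpr ⟨hc, hcB⟩))) hdA (by
        rw [Finset.disjoint_left]
        intro x hx hx'
        rw [Finset.mem_erase, Finset.mem_insert, Finset.mem_sdiff] at hx'
        rw [Finset.mem_erase] at hx
        rcases hx'.2 with h | h
        · exact hx.1 h
        · exact h.2 hx.2)
      rw [hAu] at h1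
      refine PM_mono h1 ?_
      intro x hx
      rw [Finset.mem_union] at hx
      rcases hx with hx | hx
      · rw [Finset.mem_erase] at hx
        exact Finset.mem_erase.mpr ⟨fun h' => hcB (h' ▸ hx.2), hsubC hx.2⟩
      · rw [Finset.mem_erase, Finset.mem_insert, Finset.mem_sdiff] at hx
        refine Finset.mem_erase.mpr ⟨hx.1, ?_⟩
        rcases hx.2 with h | h
        · rw [h]; exact hsubC hb
        · exact h.1
  · intro t ht hex
    by_cases h1 : ∃ r, r ∈ A' \ A ∧ (r, t) ∈ E
    · exact hcond t ht h1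
    · obtain ⟨r, hr, hrt⟩ := hex
      have hrA : r ∈ A := by
        by_contra h2
        exact h1 ⟨r, Finset.mem_sdiff.mpr ⟨hr, h2⟩, hrt⟩
      obtain ⟨r2, hr2, hrt2⟩ := hC t (fun h => ht (hsubC h)) ⟨r, hrA, hrt⟩
      refine ⟨r2, ?_, hrt2⟩
      intro h3
      exact h1 ⟨r2, Finset.mem_sdiff.mpr ⟨h3, hr2⟩, hrt2⟩

theorem tight_start {E : Finset (I × J)} {j : J} (hj : j ∈ Rm E) :
    Tight (∅ : Finset I) {j} E ∧ cond (∅ : Finset I) {j} E := by
  refine ⟨⟨?_, ?_⟩, ?_⟩
  · have : del (∅ : Finset I) {j} E = dC j E := by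
      ext e; simp [mem_del, mem_dC]
    rw [this, Finset.card_empty, add_zero]
    exact mem_Rm.mp hj
  · intro c _
    exact ⟨∅, Finset.empty_subset _, by intro e he; simp at he, by simp, by simp⟩
  · rintro t _ ⟨r, hr, _⟩
    simp at hr

end Pool.JN
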