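import Pool.Agent.JN.B2

/-! Part (B), file 3: counting. -/

namespace Pool.JN

open Finset Pool.KS

set_option linter.unusedSectionVars false

variable {I J : Type*} [Fintype I] [Fintype J] [DecidableEq I] [DecidableEq J]

/-- sum over all `k`-step extensions -/
noncomputable def Nk (Φ : Finset I → Finset J → J → ℝ) (E : Finset (I × J)) :
    ℕ → Finset I → Finset J → J → ℝ
  | 0, A, B, c => Φ A B c
  | k + 1, A, B, c => ∑ r ∈ Aᶜ, ∑ c' ∈ Bᶜ,
      if (r, c) ∈ E ∧ (r, c') ∈ E then Nk Φ E k (insert r A) (insert c' B) c' else 0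

open Classical in
/-- the counting function with `m` targets -/
noncomputable def Cm (E : Finset (I × J)) : ℕ → Finset I → Finset J → ℝ
  | 0, A, B => if cond A B E then 1 else 0
  | m + 1, A, B => ∑ b ∈ B, (Cm E m A B +
      ∑ k ∈ range (Fintype.card I), Nk (fun A' B' _ => Cm E m A' B') E (k + 1) A B b)

theorem Nk_nonneg {Φ : Finset I → Finset J → J → ℝ} {E : Finset (I × J)}
    (h : ∀ A B c, 0 ≤ Φ A B c) : ∀ (k : ℕ) (A : Finset I) (B : Finset J) (c : J),
    0 ≤ Nk Φ E k A B c := by
  intro k
  induction k with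
  | zero => intro A B c; exact h A B c
  | succ k ih =>
    intro A B c
    unfold Nk
    refine Finset.sum_nonneg (fun r _ => Finset.sum_nonneg (fun c' _ => ?_))
    split_ifs
    · exact ih _ _ _
    · exact le_rfl

theorem Cm_nonneg (E : Finset (I × J)) : ∀ (m : ℕ) (A : Finset I) (B : Finset J),
    0 ≤ Cm E m A B := by
  intro m
  induction m with
  | zero => intro A B; unfold Cm; split_ifs <;> norm_num
  | succ m ih =>
    intro A B
    unfold Cm
    refine Finset.sum_nonneg (fun b _ => add_nonneg (ih A B) ?_)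
    exact Finset.sum_nonneg (fun k _ => Nk_nonneg (fun A B _ => ih A B) _ _ _ _)

theorem Reach.le_Nk {Φ : Finset I → Finset J → J → ℝ} {E : Finset (I × J)}
    (hΦ : ∀ A B c, 0 ≤ Φ A B c) {k : ℕ} {A : Finset I} {B : Finset J} {b : J}
    {A' : Finset I} {B' : Finset J} {l : J} (h : Reach E k A B b A' B' l) :
    Φ A' B' l ≤ Nk Φ E k A B b := by
  induction h with
  | zero => exact le_rfl
  | @succ k A B b r c A' B' l hrA hcB h1 h2 h ih =>
    refine ih.trans ?_
    show _ ≤ ∑ r ∈ Aᶜ, ∑ c' ∈ Bᶜ,
      if (r, b) ∈ E ∧ (r, c') ∈ E then Nk Φ E k (insert r A) (insert c' B) c' else 0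
    have h3 : ∀ r' ∈ Aᶜ, 0 ≤ ∑ c' ∈ Bᶜ,
        (if (r', b) ∈ E ∧ (r', c') ∈ E then Nk Φ E k (insert r' A) (insert c' B) c' else 0) :=
      fun r' _ => Finset.sum_nonneg (fun c' _ => by
        split_ifs
        · exact Nk_nonneg hΦ _ _ _ _
        · exact le_rfl)
    refine le_trans ?_ (Finset.single_le_sum h3 (Finset.mem_compl.mpr hrA))
    have h4 : ∀ c' ∈ Bᶜ, 0 ≤
        (if (r, b) ∈ E ∧ (r, c') ∈ E then Nk Φ E k (insert r A) (insert c' B) c' else 0) :=
      fun c' _ => by
        split_ifs
        · exact Nk_nonneg hΦ _ _ _ _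
        · exact le_rfl
    refine le_trans ?_ (Finset.single_le_sum h4 (Finset.mem_compl.mpr hcB))
    rw [if_pos ⟨h1, h2⟩]

theorem sum_Nk (Ψ : Finset I → Finset J → ℝ) (E : Finset (I × J)) :
    ∀ (k : ℕ) (A : Finset I) (B : Finset J) (b : J),
    ∑ l : J, Nk (fun A' B' c' => if c' = l then Ψ A' B' else 0) E k A B b =
      Nk (fun A' B' _ => Ψ A' B') E k A B b := by
  intro k
  induction k with
  | zero =>
    intro A B b
    show ∑ l : J, (if b = l then Ψ A B else 0) = Ψ A B
    simp
  | succ k ih =>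
    intro A B b
    show ∑ l : J, ∑ r ∈ Aᶜ, ∑ c' ∈ Bᶜ, (if (r, b) ∈ E ∧ (r, c') ∈ E then
        Nk (fun A' B' c' => if c' = l then Ψ A' B' else 0) E k (insert r A) (insert c' B) c'
        else 0) =
      ∑ r ∈ Aᶜ, ∑ c' ∈ Bᶜ, (if (r, b) ∈ E ∧ (r, c') ∈ E then
        Nk (fun A' B' _ => Ψ A' B') E k (insert r A) (insert c' B) c' else 0)
    rw [Finset.sum_comm]
    refine Finset.sum_congr rfl (fun r _ => ?_)
    rw [Finset.sum_comm]
    refine Finset.sum_congr rfl (fun c' _ => ?_)
    split_ifs with h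
    · exact ih _ _ _
    · simp

theorem count {E : Finset (I × J)} {j : J} (hjR : j ∈ Rm E) : ∀ (m : ℕ) (A : Finset I)
    (B : Finset J), Tight A B E → cond A B E → j ∈ B →
    ((cls E j).card : ℝ) ^ m ≤ Cm E m A B := by
  classical
  intro m
  induction m with
  | zero =>
    intro A B _ hC _
    unfold Cm
    rw [if_pos hC, pow_zero]
  | succ m ih =>
    intro A B hT hC hjB
    set s : ℝ := ((cls E j).card : ℝ) with hs
    have hs0 : 0 ≤ s := Nat.cast_nonneg _
    set X : J → ℝ := fun l => ∑ b ∈ B, ∑ k ∈ range (Fintype.card I),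
      Nk (fun A' B' c' => if c' = l then Cm E m A' B' else 0) E (k + 1) A B b with hX
    have hX0 : ∀ l, 0 ≤ X l := fun l => Finset.sum_nonneg (fun b _ =>
      Finset.sum_nonneg (fun k _ => Nk_nonneg (fun A' B' c' => by
        split_ifs
        · exact Cm_nonneg E m A' B'
        · exact le_rfl) _ _ _ _))
    have h1 : ∀ l ∈ cls E j, s ^ m ≤ (if l ∈ B then Cm E m A B else 0) + X l := by
      intro l hl
      by_cases hlB : l ∈ B
      · rw [if_pos hlB]
        have := ih A B hT hC hjB
        linarith [hX0 l]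
      · rw [if_neg hlB, zero_add]
        obtain ⟨b, hb, k, A', B', hk1, hkI, hreach, hT', hC'⟩ := ext_step hT hC hjB hjR hl hlB
        have h2 := ih A' B' hT' hC' (hreach.subC hjB)
        obtain ⟨k', rfl⟩ : ∃ k', k = k' + 1 := ⟨k - 1, by omega⟩
        have h3 := hreach.le_Nk (Φ := fun A' B' c' => if c' = l then Cm E m A' B' else 0)
          (fun A' B' c' => by
            split_ifs
            · exact Cm_nonneg E m A' B'
            · exact le_rfl)
        simp only [if_true] at h3
        refine h2.trans (h3.trans ?_)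
        have h4 : ∀ b' ∈ B, 0 ≤ ∑ k ∈ range (Fintype.card I),
            Nk (fun A' B' c' => if c' = l then Cm E m A' B' else 0) E (k + 1) A B b' :=
          fun b' _ => Finset.sum_nonneg (fun k _ => Nk_nonneg (fun A' B' c' => by
            split_ifs
            · exact Cm_nonneg E m A' B'
            · exact le_rfl) _ _ _ _)
        refine le_trans ?_ (Finset.single_le_sum h4 hb)
        exact Finset.single_le_sum (f := fun k =>
          Nk (fun A' B' c' => if c' = l then Cm E m A' B' else 0) E (k + 1) A B b)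
          (fun k _ => Nk_nonneg (fun A' B' c' => by
            split_ifs
            · exact Cm_nonneg E m A' B'
            · exact le_rfl) _ _ _ _) (Finset.mem_range.mpr (by omega))
    have h2 : s ^ (m + 1) = ∑ l ∈ cls E j, s ^ m := by
      rw [Finset.sum_const, nsmul_eq_mul, pow_succ, mul_comm]
    rw [h2]
    refine (Finset.sum_le_sum h1).trans ?_
    have hCm : Cm E (m + 1) A B = ∑ b ∈ B, (Cm E m A B +
      ∑ k ∈ range (Fintype.card I), Nk (fun A' B' _ => Cm E m A' B') E (k + 1) A B b) := rfl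
    rw [Finset.sum_add_distrib, hCm, Finset.sum_add_distrib]
    refine add_le_add ?_ ?_
    · have h3 : ∑ l ∈ cls E j, (if l ∈ B then Cm E m A B else 0) ≤
          ∑ l : J, (if l ∈ B then Cm E m A B else 0) :=
        Finset.sum_le_sum_of_subset_of_nonneg (Finset.subset_univ _) (fun l _ _ => by
          split_ifs
          · exact Cm_nonneg E m A B
          · exact le_rfl)
      refine h3.trans (le_of_eq ?_)
      rw [Finset.sum_ite_mem, Finset.univ_inter]
    · have h3 : ∑ l ∈ cls E j, X l ≤ ∑ l : J, X l :=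
        Finset.sum_le_sum_of_subset_of_nonneg (Finset.subset_univ _) (fun l _ _ => hX0 l)
      refine h3.trans (le_of_eq ?_)
      rw [hX]
      simp only
      rw [Finset.sum_comm]
      refine Finset.sum_congr rfl (fun b _ => ?_)
      rw [Finset.sum_comm]
      exact Finset.sum_congr rfl (fun k _ => sum_Nk (Cm E m) E (k + 1) A B b)

theorem cls_pow_le {E : Finset (I × J)} {j : J} (hjR : j ∈ Rm E) (m : ℕ) :
    ((cls E j).card : ℝ) ^ m ≤ Cm E m ∅ {j} :=
  count hjR m ∅ {j} (tight_start hjR).1 (tight_start hjR).2 (Finset.mem_singleton_self j)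

end Pool.JN
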