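import Pool.Agent.JN.B3
import Mathlib.Analysis.Convex.SpecificFunctions.Basic

/-! Part (B), file 4: probability of the condition. -/

namespace Pool.JN

open Finset Pool.KS

set_option linter.unusedSectionVars false

variable {I J : Type*} [Fintype I] [Fintype J] [DecidableEq I] [DecidableEq J]

/-- entries at most `th`, row and column sums at most one -/
structure Sub (p : I × J → ℝ) (th : ℝ) : Prop where
  h0 : ∀ e, 0 ≤ p e
  h1 : ∀ e, p e ≤ th
  hr : ∀ i, ∑ j, p (i, j) ≤ 1
  hc : ∀ j, ∑ i, p (i, j) ≤ 1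

/-- the decay rate -/
noncomputable def be (th : ℝ) : ℝ := Real.exp (-(1 / (1 - th))) * (1 - Real.exp (-1))

theorem be_pos (th : ℝ) : 0 < be th := by
  unfold be
  have h1 : Real.exp (-1) < 1 := by rw [Real.exp_lt_one_iff]; norm_num
  have h2 := Real.exp_pos (-(1 / (1 - th)))
  exact mul_pos h2 (by linarith)

theorem be_le_one {th : ℝ} (h : th < 1) : be th ≤ 1 := by
  unfold be
  have h1 : Real.exp (-(1 / (1 - th))) ≤ 1 := by
    rw [Real.exp_le_one_iff]
    have : 0 < 1 / (1 - th) := by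
      apply div_pos one_pos; linarith
    linarith
  have h2 := Real.exp_pos (-(1 / (1 - th)))
  have h3 := Real.exp_pos (-1)
  have h4 : Real.exp (-1) < 1 := by rw [Real.exp_lt_one_iff]; norm_num
  nlinarith

/-- mass between the rows `A` and the columns outside `B` -/
noncomputable def outer (p : I × J → ℝ) (A : Finset I) (B : Finset J) : ℝ :=
  ∑ t ∈ Bᶜ, ∑ r ∈ A, p (r, t)

/-- indicator that column `t` has no neighbour in `S` -/
noncomputable def avc (t : J) (E : Finset (I × J)) (S : Finset I) : ℝ :=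
  if ∀ r ∈ S, (r, t) ∉ E then 1 else 0

theorem avc_eq (t : J) (E : Finset (I × J)) (S : Finset I) : avc t E S = av t (tr E) S := by
  unfold avc av
  congr 1
  apply propext
  constructor
  · intro h r hr hh
    rw [mem_tr] at hh
    exact h r hr hh
  · intro h r hr hh
    exact h r hr (mem_tr.mpr hh)

theorem tr_dR' (t : J) (E : Finset (J × I)) : tr (dR t E) = dC t (tr E) := by
  have h := tr_dC t (tr E)
  rw [tr_tr] at h
  rw [← h, tr_tr]

theorem Ex_avc (p : I × J → ℝ) (t : J) (S : Finset I) (G : Finset (I × J) → ℝ)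
    (hG : ∀ E, G (dC t E) = G E) :
    Ex p (fun E => G E * avc t E S) = Ex p G * ∏ r ∈ S, (1 - p (r, t)) := by
  have h1 : Ex p (fun E => G E * avc t E S) =
      Ex p (fun E => (fun E' => G (tr E') * av t E' S) (tr E)) :=
    Ex_congr p (fun E => by simp only [tr_tr, avc_eq])
  rw [h1, Ex_tr p (fun E' => G (tr E') * av t E' S),
    Ex_av_fixed (pt p) t S (fun E' => G (tr E')) (fun E' => by rw [tr_dR', hG])]
  congr 1
  rw [← Ex_tr]
  exact Ex_congr p (fun E => by rw [tr_tr])

/-- indicator of the condition at column `t` -/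
noncomputable def ct (A : Finset I) (t : J) (E : Finset (I × J)) : ℝ :=
  1 - avc t E Aᶜ + avc t E univ

open Classical in
theorem cond_prod (A : Finset I) (B : Finset J) (E : Finset (I × J)) :
    (if cond A B E then (1 : ℝ) else 0) = ∏ t ∈ Bᶜ, ct A t E := by
  have hct : ∀ t, ct A t E =
      if ((∃ r, r ∈ A ∧ (r, t) ∈ E) → ∃ r, r ∉ A ∧ (r, t) ∈ E) then 1 else 0 := by
    intro t
    unfold ct avc
    by_cases h1 : ∃ r, r ∉ A ∧ (r, t) ∈ E
    · rw [if_neg, if_neg, if_pos (fun _ => h1)]
      · ring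
      · intro h
        obtain ⟨r, _, hr⟩ := h1
        exact h r (Finset.mem_univ r) hr
      · intro h
        obtain ⟨r, hrA, hr⟩ := h1
        exact h r (Finset.mem_compl.mpr hrA) hr
    · rw [if_pos (fun r hr hh => h1 ⟨r, Finset.mem_compl.mp hr, hh⟩)]
      by_cases h2 : ∃ r, r ∈ A ∧ (r, t) ∈ E
      · rw [if_neg, if_neg (fun h => h1 (h h2))]
        · ring
        · intro h
          obtain ⟨r, _, hr⟩ := h2
          exact h r (Finset.mem_univ r) hr
      · rw [if_pos, if_pos (fun h => absurd h h2)]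
        · ring
        · intro r _ hr
          by_cases h3 : r ∈ A
          · exact h2 ⟨r, h3, hr⟩
          · exact h1 ⟨r, h3, hr⟩
  rw [Finset.prod_congr rfl (fun t _ => hct t), Finset.prod_boole]
  congr 1
  unfold cond
  apply propext
  constructor
  · intro h t ht
    exact h t (Finset.mem_compl.mp ht)
  · intro h t ht
    exact h t (Finset.mem_compl.mpr ht)

theorem avc_dC {t t' : J} (h : t' ≠ t) (E : Finset (I × J)) (S : Finset I) :
    avc t' (dC t E) S = avc t' E S := by
  unfold avc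
  simp only [mem_dC]
  congr 1
  apply propext
  constructor
  · intro h1 r hr hh; exact h1 r hr ⟨hh, h⟩
  · intro h1 r hr hh; exact h1 r hr hh.1

theorem Ex_subset (p : I × J → ℝ) (F0 : Finset (I × J)) :
    Ex p (fun E => if F0 ⊆ E then 1 else 0) = ∏ e ∈ F0, p e := by
  classical
  induction F0 using Finset.induction_on with
  | empty => simpa using Ex_one p
  | insert e F0 he ih =>
    rw [Finset.prod_insert he, ← ih, ← Ex_mul_left, Ex_toggle p e, Ex_toggle p e
      (fun E => p e * if F0 ⊆ E then 1 else 0)]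
    refine Ex_congr p (fun E => ?_)
    have h1 : ¬ (insert e F0 ⊆ E.erase e) := by
      intro h
      exact Finset.notMem_erase e E (h (Finset.mem_insert_self e F0))
    have h2 : (insert e F0 ⊆ insert e E) ↔ (F0 ⊆ insert e E) := by
      constructor
      · intro h; exact (Finset.subset_insert _ _).trans h
      · intro h; exact Finset.insert_subset (Finset.mem_insert_self e E) h
    have h3 : (F0 ⊆ E.erase e) ↔ (F0 ⊆ insert e E) := by
      constructor
      · intro h; exact h.trans ((Finset.erase_subset _ _).trans (Finset.subset_insert _ _))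
      · intro h x hx
        have hxe : x ≠ e := fun hh => he (hh ▸ hx)
        rcases Finset.mem_insert.mp (h hx) with h4 | h4
        · exact absurd h4 hxe
        · exact Finset.mem_erase.mpr ⟨hxe, h4⟩
    rw [if_neg h1]
    by_cases h4 : F0 ⊆ insert e E
    · rw [if_pos (h2.mpr h4), if_pos (h3.mpr h4), if_pos h4]; ring
    · rw [if_neg (fun h => h4 (h2.mp h)), if_neg (fun h => h4 (h3.mp h)), if_neg h4]; ring

theorem Ex_cond_aux (p : I × J → ℝ) (A : Finset I) (B : Finset J) (F0 : Finset (I × J))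
    (hF : ∀ e ∈ F0, e.2 ∈ B) (T : Finset J) : T ⊆ Bᶜ →
    Ex p (fun E => (if F0 ⊆ E then 1 else 0) * ∏ t ∈ T, ct A t E) =
      (∏ e ∈ F0, p e) * ∏ t ∈ T, (1 - (∏ r ∈ Aᶜ, (1 - p (r, t))) + ∏ r, (1 - p (r, t))) := by
  classical
  induction T using Finset.induction_on with
  | empty =>
    intro _
    simp only [Finset.prod_empty, mul_one]
    exact Ex_subset p F0
  | insert t T ht ih =>
    intro hT
    have hT' : T ⊆ Bᶜ := (Finset.subset_insert _ _).trans hT
    have htB : t ∉ B := Finset.mem_compl.mp (hT (Finset.mem_insert_self t T))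
    set G : Finset (I × J) → ℝ := fun E => (if F0 ⊆ E then 1 else 0) * ∏ t ∈ T, ct A t E with hG
    have hGd : ∀ E, G (dC t E) = G E := by
      intro E
      rw [hG]
      simp only
      have h1 : (F0 ⊆ dC t E) ↔ (F0 ⊆ E) := by
        constructor
        · intro h; exact h.trans (dC_sub t E)
        · intro h e he
          rw [mem_dC]
          exact ⟨h he, fun hh => htB (hh ▸ hF e he)⟩
      have h2 : ∏ t' ∈ T, ct A t' (dC t E) = ∏ t' ∈ T, ct A t' E := by
        refine Finset.prod_congr rfl (fun t' ht' => ?_)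
        have hne : t' ≠ t := fun hh => ht (hh ▸ ht')
        unfold ct
        rw [avc_dC hne, avc_dC hne]
      rw [h2]
      simp only [h1]
    have h3 : Ex p (fun E => (if F0 ⊆ E then 1 else 0) * ∏ t ∈ insert t T, ct A t E) =
        Ex p (fun E => (G E - G E * avc t E Aᶜ) + G E * avc t E univ) := by
      refine Ex_congr p (fun E => ?_)
      rw [Finset.prod_insert ht, hG]
      simp only
      unfold ct
      ring
    rw [h3, Ex_add, Ex_sub, Ex_avc p t _ G hGd, Ex_avc p t _ G hGd, ih hT',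
      Finset.prod_insert ht]
    ring

theorem one_sub_ge {th x : ℝ} (hth : th < 1) (h0 : 0 ≤ x) (h1 : x ≤ th) :
    Real.exp (-(x / (1 - th))) ≤ 1 - x := by
  have hx : x < 1 := by linarith
  have h2 : Real.exp (-(x / (1 - th))) ≤ Real.exp (-(x / (1 - x))) := by
    apply Real.exp_le_exp.mpr
    have : x / (1 - x) ≤ x / (1 - th) := by
      apply div_le_div_of_nonneg_left h0 (by linarith) (by linarith)
    linarith
  refine h2.trans ?_
  rw [Real.exp_neg]
  have h3 : 1 - x = (1 + x / (1 - x))⁻¹ := by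
    have : 1 - x ≠ 0 := by linarith
    field_simp
    ring
  rw [h3]
  have h4 : (1 - x) = (1 - x) := rfl
  apply inv_anti₀
  · have : 0 ≤ x / (1 - x) := div_nonneg h0 (by linarith)
    linarith
  · have h5 := Real.add_one_le_exp (x / (1 - x))
    rw [← h3]
    linarith

theorem Ex_cond {p : I × J → ℝ} {th : ℝ} (hp : Sub p th) (hth : th < 1) (A : Finset I)
    (B : Finset J) (F0 : Finset (I × J)) (hF : ∀ e ∈ F0, e.1 ∈ A ∧ e.2 ∈ B) :
    Ex p (fun E => (if F0 ⊆ E then 1 else 0) * Cm E 0 A B) ≤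
      (∏ e ∈ F0, p e) * Real.exp (-(be th * outer p A B)) := by
  classical
  have h1 : Ex p (fun E => (if F0 ⊆ E then 1 else 0) * Cm E 0 A B) =
      Ex p (fun E => (if F0 ⊆ E then 1 else 0) * ∏ t ∈ Bᶜ, ct A t E) := by
    refine Ex_congr p (fun E => ?_)
    rw [← cond_prod]
    rfl
  rw [h1, Ex_cond_aux p A B F0 (fun e he => (hF e he).2) Bᶜ (Finset.Subset.refl _)]
  refine mul_le_mul_of_nonneg_left ?_ (Finset.prod_nonneg (fun e _ => hp.h0 e))
  have h2 : Real.exp (-(be th * outer p A B)) =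
      ∏ t ∈ Bᶜ, Real.exp (-(be th * ∑ r ∈ A, p (r, t))) := by
    rw [← Real.exp_sum]
    congr 1
    unfold outer
    rw [Finset.mul_sum, Finset.sum_neg_distrib]
  rw [h2]
  refine Finset.prod_le_prod (fun t _ => ?_) (fun t _ => ?_)
  · have h3 : ∏ r ∈ Aᶜ, (1 - p (r, t)) ≤ 1 :=
      Finset.prod_le_one (fun r _ => by linarith [hp.h1 (r, t)])
        (fun r _ => by linarith [hp.h0 (r, t)])
    have h4 : 0 ≤ ∏ r, (1 - p (r, t)) :=
      Finset.prod_nonneg (fun r _ => by linarith [hp.h1 (r, t)])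
    linarith
  · set s : ℝ := ∑ r ∈ A, p (r, t) with hs
    have hs0 : 0 ≤ s := Finset.sum_nonneg (fun r _ => hp.h0 _)
    have hs1 : s ≤ 1 := (Finset.sum_le_sum_of_subset_of_nonneg (Finset.subset_univ A)
      (fun r _ _ => hp.h0 _)).trans (hp.hc t)
    have h3 : (∏ r, (1 - p (r, t))) = (∏ r ∈ A, (1 - p (r, t))) * ∏ r ∈ Aᶜ, (1 - p (r, t)) :=
      (Finset.prod_mul_prod_compl A _).symm
    have hA : ∏ r ∈ A, (1 - p (r, t)) ≤ Real.exp (-s) := by
      have h4 : ∏ r ∈ A, (1 - p (r, t)) ≤ ∏ r ∈ A, Real.exp (-p (r, t)) :=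
        Finset.prod_le_prod (fun r _ => by linarith [hp.h1 (r, t)])
          (fun r _ => Real.one_sub_le_exp_neg _)
      refine h4.trans (le_of_eq ?_)
      rw [← Real.exp_sum, Finset.sum_neg_distrib]
    have hA0 : 0 ≤ ∏ r ∈ A, (1 - p (r, t)) :=
      Finset.prod_nonneg (fun r _ => by linarith [hp.h1 (r, t)])
    have hQ : Real.exp (-(1 / (1 - th))) ≤ ∏ r ∈ Aᶜ, (1 - p (r, t)) := by
      have h4 : ∏ r ∈ Aᶜ, Real.exp (-(p (r, t) / (1 - th))) ≤ ∏ r ∈ Aᶜ, (1 - p (r, t)) :=
        Finset.prod_le_prod (fun r _ => (Real.exp_pos _).le)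
          (fun r _ => one_sub_ge hth (hp.h0 _) (hp.h1 _))
      refine le_trans ?_ h4
      rw [← Real.exp_sum]
      apply Real.exp_le_exp.mpr
      rw [Finset.sum_neg_distrib, ← Finset.sum_div]
      have h5 : ∑ r ∈ Aᶜ, p (r, t) ≤ 1 :=
        (Finset.sum_le_sum_of_subset_of_nonneg (Finset.subset_univ _)
          (fun r _ _ => hp.h0 _)).trans (hp.hc t)
      have h6 : (∑ r ∈ Aᶜ, p (r, t)) / (1 - th) ≤ 1 / (1 - th) :=
        div_le_div_of_nonneg_right h5 (by linarith)
      linarith
    have hconv : Real.exp (-s) ≤ 1 - (1 - Real.exp (-1)) * s := by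
      have h4 := convexOn_exp.2 (Set.mem_univ (0 : ℝ)) (Set.mem_univ (-1 : ℝ))
        (by linarith : (0 : ℝ) ≤ 1 - s) hs0 (by ring)
      simp only [smul_eq_mul, mul_zero, zero_add, Real.exp_zero, mul_one] at h4
      have h5 : s * -1 = -s := by ring
      rw [h5] at h4
      linarith
    set Q : ℝ := ∏ r ∈ Aᶜ, (1 - p (r, t)) with hQd
    set P : ℝ := ∏ r ∈ A, (1 - p (r, t)) with hPd
    rw [h3]
    have h6 : (1 - Real.exp (-1)) * s ≤ 1 - P := by linarith
    have h7 : 0 ≤ (1 - Real.exp (-1)) * s := by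
      have : Real.exp (-1) < 1 := by rw [Real.exp_lt_one_iff]; norm_num
      exact mul_nonneg (by linarith) hs0
    have h8 : be th * s ≤ Q * (1 - P) := by
      unfold be
      have h9 := mul_le_mul hQ h6 h7 ((Real.exp_pos _).le.trans hQ)
      nlinarith
    have h9 := Real.one_sub_le_exp_neg (be th * s)
    nlinarith

end Pool.JN
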