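import Pool.Agent.JN.B4
import Mathlib.Analysis.SpecialFunctions.Exp
import Mathlib.Topology.Algebra.InfiniteSum.Real

/-! Part (B), file 5: moments of class sizes. -/

namespace Pool.JN

open Finset Pool.KS

set_option linter.unusedSectionVars false

variable {I J : Type*} [Fintype I] [Fintype J] [DecidableEq I] [DecidableEq J]

/-- the remaining factor after `k` steps -/
noncomputable def Rk (b : ℝ) (k : ℕ) (x : ℝ) : ℝ :=
  if k = 0 then 1 else Real.exp b * (1 - x)

theorem Rk_le {b : ℝ} (hb0 : 0 ≤ b) (hb1 : b ≤ 1) (k : ℕ) {x : ℝ} (hx0 : 0 ≤ x) (hx1 : x ≤ 1) :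
    Real.exp (b * x) * Rk b k x ≤ Real.exp b := by
  unfold Rk
  split_ifs with h
  · rw [mul_one]
    apply Real.exp_le_exp.mpr
    nlinarith
  · have h1 : 1 - x ≤ Real.exp (-(b * x)) := by
      refine (Real.one_sub_le_exp_neg x).trans ?_
      apply Real.exp_le_exp.mpr
      nlinarith
    have h2 : Real.exp (b * x) * (1 - x) ≤ 1 := by
      have h3 := mul_le_mul_of_nonneg_left h1 (Real.exp_pos (b * x)).le
      rw [← Real.exp_add, add_neg_cancel, Real.exp_zero] at h3
      exact h3
    have h3 := mul_le_mul_of_nonneg_left h2 (Real.exp_pos b).le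
    calc Real.exp (b * x) * (Real.exp b * (1 - x))
        = Real.exp b * (Real.exp (b * x) * (1 - x)) := by ring
      _ ≤ Real.exp b * 1 := h3
      _ = Real.exp b := mul_one _

theorem Rk_nonneg {b : ℝ} (k : ℕ) {x : ℝ} (hx1 : x ≤ 1) : 0 ≤ Rk b k x := by
  unfold Rk
  split_ifs
  · norm_num
  · exact mul_nonneg (Real.exp_pos _).le (by linarith)

theorem x_exp_le {b x : ℝ} (hb1 : b ≤ 1) (hx1 : x ≤ 1) :
    x * Real.exp (-(b * x)) ≤ Real.exp (-b) := by
  have h1 : x ≤ Real.exp (-(b * (1 - x))) := by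
    refine le_trans ?_ (Real.one_sub_le_exp_neg _)
    nlinarith
  have h2 := mul_le_mul_of_nonneg_right h1 (Real.exp_pos (-(b * x))).le
  rw [← Real.exp_add] at h2
  refine h2.trans (le_of_eq ?_)
  congr 1
  ring

theorem outer_insert (p : I × J → ℝ) {A : Finset I} {B : Finset J} {r : I} {c : J}
    (hr : r ∉ A) (hc : c ∉ B) :
    outer p (insert r A) (insert c B) =
      outer p A B + (∑ t ∈ Bᶜ, p (r, t)) - ∑ r' ∈ insert r A, p (r', c) := by
  unfold outer
  have h1 : (insert c B)ᶜ = Bᶜ.erase c := by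
    ext x
    simp only [Finset.mem_compl, Finset.mem_insert, Finset.mem_erase, not_or]
  have h2 := Finset.sum_erase_add Bᶜ (fun t => ∑ r' ∈ insert r A, p (r', t))
    (Finset.mem_compl.mpr hc)
  have h3 : ∑ t ∈ Bᶜ, ∑ r' ∈ insert r A, p (r', t) =
      (∑ t ∈ Bᶜ, p (r, t)) + ∑ t ∈ Bᶜ, ∑ r' ∈ A, p (r', t) := by
    rw [← Finset.sum_add_distrib]
    exact Finset.sum_congr rfl (fun t _ => Finset.sum_insert hr)
  rw [h1]
  linarith

section rec

variable {p : I × J → ℝ} {th : ℝ}

/-- the recursion over the steps -/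
theorem Nk_bound (hp : Sub p th) (hth : th < 1)
    (Φ : Finset (I × J) → Finset I → Finset J → J → ℝ) (w : ℕ → ℝ) (hw : ∀ s, 0 ≤ w s)
    (hyp : ∀ (A : Finset I) (B : Finset J) (c : J) (F0 : Finset (I × J)),
      (∀ e ∈ F0, e.1 ∈ A ∧ e.2 ∈ B) →
      Ex p (fun E => (if F0 ⊆ E then 1 else 0) * Φ E A B c) ≤
        (∏ e ∈ F0, p e) * (w B.card * Real.exp (-(be th * outer p A B)))) :
    ∀ (k : ℕ) (A : Finset I) (B : Finset J) (c : J) (F0 : Finset (I × J)),
      (∀ e ∈ F0, e.1 ∈ A ∧ e.2 ∈ B) → c ∈ B →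
      Ex p (fun E => (if F0 ⊆ E then 1 else 0) * Nk (Φ E) E k A B c) ≤
        ((∏ e ∈ F0, p e) * (w (B.card + k) * Real.exp (-(be th * outer p A B)))) *
          (Real.exp (-(be th * k)) * Rk (be th) k (∑ r ∈ A, p (r, c))) := by
  have hb0 := (be_pos th).le
  have hb1 := be_le_one hth
  intro k
  induction k with
  | zero =>
    intro A B c F0 hF _
    refine (hyp A B c F0 hF).trans (le_of_eq ?_)
    unfold Rk
    simp
  | succ k ih =>
    intro A B c F0 hF hcB
    set P0 : ℝ := ∏ e ∈ F0, p e with hP0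
    have hP0' : 0 ≤ P0 := Finset.prod_nonneg (fun e _ => hp.h0 e)
    set K : ℝ := P0 * (w (B.card + (k + 1)) * Real.exp (-(be th * outer p A B))) with hK
    have hK0 : 0 ≤ K := mul_nonneg hP0' (mul_nonneg (hw _) (Real.exp_pos _).le)
    have h1 : Ex p (fun E => (if F0 ⊆ E then 1 else 0) * Nk (Φ E) E (k + 1) A B c) =
        ∑ r ∈ Aᶜ, ∑ c' ∈ Bᶜ, Ex p (fun E =>
          (if insert (r, c) (insert (r, c') F0) ⊆ E then 1 else 0) *
            Nk (Φ E) E k (insert r A) (insert c' B) c') := by
      have e1 : ∀ r ∈ Aᶜ, ∑ c' ∈ Bᶜ, Ex p (fun E =>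
          (if insert (r, c) (insert (r, c') F0) ⊆ E then 1 else 0) *
            Nk (Φ E) E k (insert r A) (insert c' B) c') =
          Ex p (fun E => ∑ c' ∈ Bᶜ,
          (if insert (r, c) (insert (r, c') F0) ⊆ E then 1 else 0) *
            Nk (Φ E) E k (insert r A) (insert c' B) c') := fun r _ =>
        (Ex_sum p Bᶜ (fun c' E => 
          (if insert (r, c) (insert (r, c') F0) ⊆ E then 1 else 0) *
            Nk (Φ E) E k (insert r A) (insert c' B) c')).symm
      rw [Finset.sum_congr rfl e1, ← Ex_sum p Aᶜ (fun r E => ∑ c' ∈ Bᶜ,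
          (if insert (r, c) (insert (r, c') F0) ⊆ E then 1 else 0) *
            Nk (Φ E) E k (insert r A) (insert c' B) c')]
      refine Ex_congr p (fun E => ?_)
      show (if F0 ⊆ E then (1 : ℝ) else 0) * (∑ r ∈ Aᶜ, ∑ c' ∈ Bᶜ,
        if (r, c) ∈ E ∧ (r, c') ∈ E then Nk (Φ E) E k (insert r A) (insert c' B) c' else 0) = _
      rw [Finset.mul_sum]
      refine Finset.sum_congr rfl (fun r _ => ?_)
      rw [Finset.mul_sum]
      refine Finset.sum_congr rfl (fun c' _ => ?_)
      by_cases h2 : F0 ⊆ E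
      · by_cases h3 : (r, c) ∈ E ∧ (r, c') ∈ E
        · rw [if_pos h2, if_pos h3, if_pos]
          exact Finset.insert_subset h3.1 (Finset.insert_subset h3.2 h2)
        · rw [if_pos h2, if_neg h3, if_neg]
          · ring
          · intro h4
            exact h3 ⟨h4 (Finset.mem_insert_self _ _),
              h4 (Finset.mem_insert_of_mem (Finset.mem_insert_self _ _))⟩
      · have h3 : ¬ insert (r, c) (insert (r, c') F0) ⊆ E := fun h4 =>
          h2 ((Finset.subset_insert _ _).trans ((Finset.subset_insert _ _).trans h4))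
        rw [if_neg h2, zero_mul, if_neg h3, zero_mul]
    rw [h1]
    have h2 : ∀ r ∈ Aᶜ, ∀ c' ∈ Bᶜ, Ex p (fun E =>
          (if insert (r, c) (insert (r, c') F0) ⊆ E then 1 else 0) *
            Nk (Φ E) E k (insert r A) (insert c' B) c') ≤
        p (r, c) * (p (r, c') * (K * (Real.exp (-(be th * ∑ t ∈ Bᶜ, p (r, t))) *
          (Real.exp (be th) * Real.exp (-(be th * k)))))) := by
      intro r hr c' hc'
      have hrA : r ∉ A := Finset.mem_compl.mp hr
      have hcB' : c' ∉ B := Finset.mem_compl.mp hc'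
      have hne : c ≠ c' := fun h => hcB' (h ▸ hcB)
      have h3 := ih (insert r A) (insert c' B) c' (insert (r, c) (insert (r, c') F0))
        (by
          intro e he
          rcases Finset.mem_insert.mp he with h4 | h4
          · rw [h4]; exact ⟨Finset.mem_insert_self _ _, Finset.mem_insert_of_mem hcB⟩
          rcases Finset.mem_insert.mp h4 with h4 | h4
          · rw [h4]; exact ⟨Finset.mem_insert_self _ _, Finset.mem_insert_self _ _⟩
          · exact ⟨Finset.mem_insert_of_mem (hF e h4).1, Finset.mem_insert_of_mem (hF e h4).2⟩)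
        (Finset.mem_insert_self _ _)
      refine h3.trans ?_
      have n1 : (r, c') ∉ F0 := fun h => hrA (hF _ h).1
      have n2 : (r, c) ∉ insert (r, c') F0 := by
        intro h
        rcases Finset.mem_insert.mp h with h4 | h4
        · exact hne (Prod.mk.inj h4).2
        · exact hrA (hF _ h4).1
      rw [Finset.prod_insert n2, Finset.prod_insert n1, Finset.card_insert_of_notMem hcB',
        outer_insert p hrA hcB']
      set x : ℝ := ∑ t ∈ Bᶜ, p (r, t) with hx
      set y : ℝ := ∑ r' ∈ insert r A, p (r', c') with hy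
      have hy0 : 0 ≤ y := Finset.sum_nonneg (fun _ _ => hp.h0 _)
      have hy1 : y ≤ 1 := (Finset.sum_le_sum_of_subset_of_nonneg (Finset.subset_univ _)
        (fun _ _ _ => hp.h0 _)).trans (hp.hc c')
      have e1 : Real.exp (-(be th * (outer p A B + x - y))) =
          Real.exp (-(be th * outer p A B)) * (Real.exp (-(be th * x)) *
            Real.exp (be th * y)) := by
        rw [← Real.exp_add, ← Real.exp_add]; congr 1; ring
      have e2 : B.card + 1 + k = B.card + (k + 1) := by ring
      rw [e1, e2]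
      have h5 := Rk_le hb0 hb1 k hy0 hy1
      have h6 : 0 ≤ p (r, c) * (p (r, c') * (K * (Real.exp (-(be th * x)) *
          Real.exp (-(be th * k))))) := by
        have := hp.h0 (r, c); have := hp.h0 (r, c')
        positivity
      have h7 := mul_le_mul_of_nonneg_left h5 h6
      refine le_trans (le_of_eq ?_) (h7.trans (le_of_eq ?_))
      · rw [hK, ← hP0]; ring
      · ring
    refine (Finset.sum_le_sum (fun r hr => Finset.sum_le_sum (fun c' hc' => h2 r hr c' hc'))).trans
      ?_
    have h3 : ∀ r ∈ Aᶜ, ∑ c' ∈ Bᶜ, p (r, c) * (p (r, c') *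
        (K * (Real.exp (-(be th * ∑ t ∈ Bᶜ, p (r, t))) *
          (Real.exp (be th) * Real.exp (-(be th * k)))))) ≤
        p (r, c) * (K * (Real.exp (-(be th * (k + 1))) * Real.exp (be th))) := by
      intro r _
      rw [← Finset.mul_sum, ← Finset.sum_mul]
      refine mul_le_mul_of_nonneg_left ?_ (hp.h0 _)
      set x : ℝ := ∑ t ∈ Bᶜ, p (r, t) with hx
      have hx1 : x ≤ 1 := (Finset.sum_le_sum_of_subset_of_nonneg (Finset.subset_univ _)
        (fun _ _ _ => hp.h0 _)).trans (hp.hr r)
      have h4 := x_exp_le hb1 hx1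
      have h5 : 0 ≤ K * (Real.exp (be th) * Real.exp (-(be th * k))) := by positivity
      have h6 := mul_le_mul_of_nonneg_left h4 h5
      refine le_trans (le_of_eq ?_) (h6.trans (le_of_eq ?_))
      · ring
      · have e1 : Real.exp (-(be th * ((k : ℝ) + 1))) =
            Real.exp (-(be th * k)) * Real.exp (-be th) := by
          rw [← Real.exp_add]; congr 1; ring
        rw [e1]; ring
    refine (Finset.sum_le_sum h3).trans ?_
    rw [← Finset.sum_mul]
    have h4 : ∑ r ∈ Aᶜ, p (r, c) ≤ 1 - ∑ r ∈ A, p (r, c) := by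
      have h5 := Finset.sum_add_sum_compl A (fun r => p (r, c))
      have h6 := hp.hc c
      linarith
    have h5 : 0 ≤ K * (Real.exp (-(be th * (k + 1))) * Real.exp (be th)) := by positivity
    have h6 := mul_le_mul_of_nonneg_right h4 h5
    refine h6.trans (le_of_eq ?_)
    unfold Rk
    rw [if_neg (Nat.succ_ne_zero k)]
    push_cast
    ring

/-- the constants -/
noncomputable def Sm (th : ℝ) (m : ℕ) : ℝ :=
  ∑' k : ℕ, ((k : ℝ) + 2) ^ m * Real.exp (-(be th * k))

noncomputable def Dm (th : ℝ) : ℕ → ℝ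
  | 0 => 1
  | m + 1 => Dm th m * (1 + Sm th m)

theorem Sm_summable (th : ℝ) (m : ℕ) :
    Summable (fun k : ℕ => ((k : ℝ) + 2) ^ m * Real.exp (-(be th * k))) := by
  have h1 := Real.summable_pow_mul_exp_neg_nat_mul m (be_pos th)
  have h2 := (summable_nat_add_iff 2).mpr h1
  have h3 := h2.mul_left (Real.exp (be th * 2))
  refine h3.congr (fun k => ?_)
  push_cast
  have : Real.exp (-(be th * k)) = Real.exp (be th * 2) * Real.exp (-be th * ((k : ℝ) + 2)) := by
    rw [← Real.exp_add]; congr 1; ring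
  rw [this]; ring

theorem Sm_ge (th : ℝ) (m n : ℕ) :
    ∑ k ∈ range n, ((k : ℝ) + 2) ^ m * Real.exp (-(be th * k)) ≤ Sm th m :=
  (Sm_summable th m).sum_le_tsum _ (fun k _ => by positivity)

theorem Sm_nonneg (th : ℝ) (m : ℕ) : 0 ≤ Sm th m :=
  tsum_nonneg (fun k => by positivity)

theorem Dm_nonneg (th : ℝ) (m : ℕ) : 0 ≤ Dm th m := by
  induction m with
  | zero => unfold Dm; norm_num
  | succ m ih => unfold Dm; exact mul_nonneg ih (by linarith [Sm_nonneg th m])

theorem Cm_bound (hp : Sub p th) (hth : th < 1) : ∀ (m : ℕ) (A : Finset I) (B : Finset J)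
    (F0 : Finset (I × J)), (∀ e ∈ F0, e.1 ∈ A ∧ e.2 ∈ B) →
    Ex p (fun E => (if F0 ⊆ E then 1 else 0) * Cm E m A B) ≤
      (∏ e ∈ F0, p e) * ((Dm th m * (B.card : ℝ) ^ m) * Real.exp (-(be th * outer p A B))) := by
  have hb0 := (be_pos th).le
  intro m
  induction m with
  | zero =>
    intro A B F0 hF
    refine (Ex_cond hp hth A B F0 hF).trans (le_of_eq ?_)
    unfold Dm
    ring
  | succ m ih =>
    intro A B F0 hF
    set P0 : ℝ := ∏ e ∈ F0, p e with hP0
    have hP0' : 0 ≤ P0 := Finset.prod_nonneg (fun e _ => hp.h0 e)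
    set G : ℝ := Real.exp (-(be th * outer p A B)) with hG
    have hG0 : 0 < G := Real.exp_pos _
    have h1 : Ex p (fun E => (if F0 ⊆ E then 1 else 0) * Cm E (m + 1) A B) =
        ∑ b ∈ B, (Ex p (fun E => (if F0 ⊆ E then 1 else 0) * Cm E m A B) +
          ∑ k ∈ range (Fintype.card I), Ex p (fun E => (if F0 ⊆ E then 1 else 0) *
            Nk (fun A' B' _ => Cm E m A' B') E (k + 1) A B b)) := by
      have h2 : ∀ b ∈ B, Ex p (fun E => (if F0 ⊆ E then 1 else 0) * Cm E m A B) +
          ∑ k ∈ range (Fintype.card I), Ex p (fun E => (if F0 ⊆ E then 1 else 0) *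
            Nk (fun A' B' _ => Cm E m A' B') E (k + 1) A B b) =
          Ex p (fun E => (if F0 ⊆ E then 1 else 0) * Cm E m A B +
            ∑ k ∈ range (Fintype.card I), (if F0 ⊆ E then 1 else 0) *
              Nk (fun A' B' _ => Cm E m A' B') E (k + 1) A B b) := by
        intro b _
        rw [Ex_add, Ex_sum]
      rw [Finset.sum_congr rfl h2, ← Ex_sum p B (fun b E =>
        (if F0 ⊆ E then 1 else 0) * Cm E m A B +
            ∑ k ∈ range (Fintype.card I), (if F0 ⊆ E then 1 else 0) *
              Nk (fun A' B' _ => Cm E m A' B') E (k + 1) A B b)]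
      refine Ex_congr p (fun E => ?_)
      show (if F0 ⊆ E then (1 : ℝ) else 0) * (∑ b ∈ B, (Cm E m A B +
        ∑ k ∈ range (Fintype.card I), Nk (fun A' B' _ => Cm E m A' B') E (k + 1) A B b)) = _
      rw [Finset.mul_sum]
      refine Finset.sum_congr rfl (fun b _ => ?_)
      rw [mul_add, Finset.mul_sum]
    rw [h1]
    rcases Finset.eq_empty_or_nonempty B with hB | hB
    · subst hB
      simp only [Finset.sum_empty, Finset.card_empty, Nat.cast_zero]
      rw [zero_pow (Nat.succ_ne_zero m)]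
      simp
    have hs1 : (1 : ℝ) ≤ B.card := by exact_mod_cast Finset.card_pos.mpr hB
    set s : ℝ := (B.card : ℝ) with hs
    have hD := Dm_nonneg th m
    have h2 : ∀ b ∈ B, Ex p (fun E => (if F0 ⊆ E then 1 else 0) * Cm E m A B) +
          ∑ k ∈ range (Fintype.card I), Ex p (fun E => (if F0 ⊆ E then 1 else 0) *
            Nk (fun A' B' _ => Cm E m A' B') E (k + 1) A B b) ≤
        P0 * ((Dm th m * s ^ m) * G) * (1 + Sm th m) := by
      intro b hb
      have h3 := ih A B F0 hF
      have h4 : ∀ k ∈ range (Fintype.card I), Ex p (fun E => (if F0 ⊆ E then 1 else 0) *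
            Nk (fun A' B' _ => Cm E m A' B') E (k + 1) A B b) ≤
          P0 * ((Dm th m * s ^ m) * G) * (((k : ℝ) + 2) ^ m * Real.exp (-(be th * k))) := by
        intro k _
        have h5 := Nk_bound hp hth (fun E A' B' _ => Cm E m A' B')
          (fun s => Dm th m * (s : ℝ) ^ m) (fun s => by positivity)
          (fun A B _ F0 hF => ih A B F0 hF) (k + 1) A B b F0 hF hb
        refine h5.trans ?_
        have h6 : Real.exp (-(be th * ((k + 1 : ℕ) : ℝ))) *
            Rk (be th) (k + 1) (∑ r ∈ A, p (r, b)) ≤ Real.exp (-(be th * k)) := by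
          unfold Rk
          rw [if_neg (Nat.succ_ne_zero k)]
          have h7 : 0 ≤ ∑ r ∈ A, p (r, b) := Finset.sum_nonneg (fun _ _ => hp.h0 _)
          have e1 : Real.exp (-(be th * ((k + 1 : ℕ) : ℝ))) * Real.exp (be th) =
              Real.exp (-(be th * k)) := by
            rw [← Real.exp_add]; congr 1; push_cast; ring
          rw [← mul_assoc, e1]
          have h8 := Real.exp_pos (-(be th * k))
          nlinarith
        have h7 : ((B.card + (k + 1) : ℕ) : ℝ) ^ m ≤ s ^ m * ((k : ℝ) + 2) ^ m := by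
          rw [← mul_pow]
          apply pow_le_pow_left₀ (Nat.cast_nonneg _)
          push_cast
          have hk : (0 : ℝ) ≤ k := Nat.cast_nonneg k
          nlinarith
        have h8 : P0 * (Dm th m * ((B.card + (k + 1) : ℕ) : ℝ) ^ m * G) ≤
            P0 * ((Dm th m * (s ^ m * ((k : ℝ) + 2) ^ m)) * G) := by
          refine mul_le_mul_of_nonneg_left ?_ hP0'
          refine mul_le_mul_of_nonneg_right ?_ hG0.le
          exact mul_le_mul_of_nonneg_left h7 hD
        have h9 : 0 ≤ P0 * ((Dm th m * (s ^ m * ((k : ℝ) + 2) ^ m)) * G) := by positivity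
        have h10 : 0 ≤ Real.exp (-(be th * ((k + 1 : ℕ) : ℝ))) *
            Rk (be th) (k + 1) (∑ r ∈ A, p (r, b)) := by
          refine mul_nonneg (Real.exp_pos _).le (Rk_nonneg _ ?_)
          exact (Finset.sum_le_sum_of_subset_of_nonneg (Finset.subset_univ _)
            (fun _ _ _ => hp.h0 _)).trans (hp.hc b)
        calc _ ≤ (P0 * ((Dm th m * (s ^ m * ((k : ℝ) + 2) ^ m)) * G)) *
              Real.exp (-(be th * k)) := mul_le_mul h8 h6 h10 h9
          _ = _ := by ring
      have h5 := Finset.sum_le_sum h4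
      rw [← Finset.mul_sum] at h5
      have h6 := Sm_ge th m (Fintype.card I)
      have h7 : 0 ≤ P0 * ((Dm th m * s ^ m) * G) := by positivity
      have h8 := mul_le_mul_of_nonneg_left h6 h7
      linarith
    refine (Finset.sum_le_sum h2).trans (le_of_eq ?_)
    rw [Finset.sum_const, nsmul_eq_mul]
    show s * (P0 * (Dm th m * s ^ m * G) * (1 + Sm th m)) =
      P0 * (Dm th m * (1 + Sm th m) * s ^ (m + 1) * G)
    rw [pow_succ]
    ring

/-- Theorem B: all moments of class sizes are bounded by constants. -/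
theorem cls_moment (hp : Sub p th) (hth : th < 1) (m : ℕ) (j : J) :
    Ex p (fun E => if j ∈ Rm E then ((cls E j).card : ℝ) ^ m else 0) ≤ Dm th m := by
  have h1 : Ex p (fun E => if j ∈ Rm E then ((cls E j).card : ℝ) ^ m else 0) ≤
      Ex p (fun E => (if (∅ : Finset (I × J)) ⊆ E then 1 else 0) * Cm E m ∅ {j}) := by
    refine Ex_mono hp.h0 (fun e => (hp.h1 e).trans hth.le) (fun E => ?_)
    rw [if_pos (Finset.empty_subset E), one_mul]
    split_ifs with h
    · exact cls_pow_le h m
    · exact Cm_nonneg E m _ _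
  refine h1.trans ((Cm_bound hp hth m ∅ {j} ∅ (by simp)).trans (le_of_eq ?_))
  unfold outer
  simp

end rec

end Pool.JN
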