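import Pool.Agent.JN.B5
import Pool.Agent.KX.Upper

/-! Part (B), file 6: rows, environments, exchange events, Cauchy-Schwarz. -/

namespace Pool.JN

open Finset Pool.KS

set_option linter.unusedSectionVars false

section general

variable {ε : Type*} [Fintype ε] [DecidableEq ε]

theorem Ex_nonneg {p : ε → ℝ} (h0 : ∀ e, 0 ≤ p e) (h1 : ∀ e, p e ≤ 1) {f : Finset ε → ℝ}
    (h : ∀ E, 0 ≤ f E) : 0 ≤ Ex p f :=
  Finset.sum_nonneg (fun E _ => mul_nonneg (W_nonneg h0 h1 E) (h E))

/-- Cauchy-Schwarz for expectations. -/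
theorem Ex_cs {p : ε → ℝ} (h0 : ∀ e, 0 ≤ p e) (h1 : ∀ e, p e ≤ 1) (f g : Finset ε → ℝ) :
    (Ex p (fun E => f E * g E)) ^ 2 ≤ Ex p (fun E => f E ^ 2) * Ex p (fun E => g E ^ 2) := by
  unfold Ex
  have h := Finset.sum_mul_sq_le_sq_mul_sq (univ : Finset (Finset ε))
    (fun E => Real.sqrt (W p E) * f E) (fun E => Real.sqrt (W p E) * g E)
  have hw := fun E => W_nonneg h0 h1 E
  have e1 : ∀ E : Finset ε, Real.sqrt (W p E) * f E * (Real.sqrt (W p E) * g E) =
      W p E * (f E * g E) := fun E => by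
    have := Real.mul_self_sqrt (hw E)
    calc _ = (Real.sqrt (W p E) * Real.sqrt (W p E)) * (f E * g E) := by ring
      _ = _ := by rw [this]
  have e2 : ∀ (u : Finset ε → ℝ) (E : Finset ε), (Real.sqrt (W p E) * u E) ^ 2 =
      W p E * u E ^ 2 := fun u E => by
    rw [mul_pow, Real.sq_sqrt (hw E)]
  simp only [e1, e2] at h
  exact h

theorem Ex_cs_sqrt {p : ε → ℝ} (h0 : ∀ e, 0 ≤ p e) (h1 : ∀ e, p e ≤ 1) (f g : Finset ε → ℝ) :
    Ex p (fun E => f E * g E) ≤
      Real.sqrt (Ex p (fun E => f E ^ 2)) * Real.sqrt (Ex p (fun E => g E ^ 2)) := by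
  rw [← Real.sqrt_mul (Ex_nonneg h0 h1 (fun E => sq_nonneg _))]
  exact Real.le_sqrt_of_sq_le (Ex_cs h0 h1 f g)

theorem Ex_mem (p : ε → ℝ) (e : ε) (h : Finset ε → ℝ)
    (hh : ∀ E, h (E.erase e) = h (insert e E)) :
    Ex p (fun E => if e ∈ E then h E else 0) = p e * Ex p h := by
  rw [Ex_toggle p e (fun E => if e ∈ E then h E else 0), Ex_toggle p e h, ← Ex_mul_left]
  refine Ex_congr p (fun E => ?_)
  rw [if_neg (Finset.notMem_erase e E), if_pos (Finset.mem_insert_self e E), hh E]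
  ring

end general

variable {I J : Type*} [Fintype I] [Fintype J] [DecidableEq I] [DecidableEq J]
variable {p : I × J → ℝ} {th : ℝ}

theorem Sub.le_one (hp : Sub p th) (hth : th < 1) (e : I × J) : p e ≤ 1 := (hp.h1 e).trans hth.le

theorem Sub.mono {q : I × J → ℝ} (hp : Sub p th) (h0 : ∀ e, 0 ≤ q e) (h : ∀ e, q e ≤ p e) :
    Sub q th where
  h0 := h0
  h1 := fun e => (h e).trans (hp.h1 e)
  hr := fun i => (Finset.sum_le_sum (fun j _ => h (i, j))).trans (hp.hr i)
  hc := fun j => (Finset.sum_le_sum (fun i _ => h (i, j))).trans (hp.hc j)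

/-- entries in `Z` set to zero -/
theorem Sub.zero (hp : Sub p th) (Z : I × J → Prop) [DecidablePred Z] :
    Sub (fun e => if Z e then 0 else p e) th :=
  hp.mono (fun e => by split_ifs; exacts [le_rfl, hp.h0 e])
    (fun e => by split_ifs; exacts [hp.h0 e, le_rfl])

theorem Sub.pt (hp : Sub p th) : Sub (pt p) th where
  h0 := fun _ => hp.h0 _
  h1 := fun _ => hp.h1 _
  hr := fun i => hp.hc i
  hc := fun j => hp.hr j

theorem Ex_del (p : I × J → ℝ) (A : Finset I) (B : Finset J) (G : Finset (I × J) → ℝ) :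
    Ex p (fun E => G (del A B E)) = Ex (fun e => if e.1 ∈ A ∨ e.2 ∈ B then 0 else p e) G := by
  have h1 : ∀ E : Finset (I × J), del A B E =
      E \ univ.filter (fun e : I × J => e.1 ∈ A ∨ e.2 ∈ B) := by
    intro E
    ext x
    simp only [mem_del, Finset.mem_sdiff, Finset.mem_filter, Finset.mem_univ, true_and, not_or]
  have h2 : Ex p (fun E => G (del A B E)) =
      Ex p (fun E => G (E \ univ.filter (fun e : I × J => e.1 ∈ A ∨ e.2 ∈ B))) :=
    Ex_congr p (fun E => by rw [h1])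
  rw [h2, Pool.KX.up_sdiff]
  congr 1
  funext x
  simp

/-- moments of the class sizes after deleting rows and columns -/
theorem cls_moment_del (hp : Sub p th) (hth : th < 1) (m : ℕ) (j : J) (A : Finset I)
    (B : Finset J) :
    Ex p (fun E => if j ∈ Rm (del A B E) then ((cls (del A B E) j).card : ℝ) ^ m else 0) ≤
      Dm th m := by
  rw [Ex_del p A B (fun E => if j ∈ Rm E then ((cls E j).card : ℝ) ^ m else 0)]
  exact cls_moment (hp.zero _) hth m j

/-- moments of the row class sizes -/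
theorem clsR_moment (hp : Sub p th) (hth : th < 1) (m : ℕ) (i : I) :
    Ex p (fun E => if i ∈ Lm E then ((cls (tr E) i).card : ℝ) ^ m else 0) ≤ Dm th m := by
  have h1 : Ex p (fun E => if i ∈ Lm E then ((cls (tr E) i).card : ℝ) ^ m else 0) =
      Ex (pt p) (fun E => if i ∈ Rm E then ((cls E i).card : ℝ) ^ m else 0) := by
    rw [← Ex_tr]
    refine Ex_congr p (fun E => ?_)
    rw [Rm_tr]
  rw [h1]
  exact cls_moment hp.pt hth m i

/-- the number of columns killed by row `i` is at most the size of the class of any column hit -/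
theorem sum_mij_le {i : I} {E : Finset (I × J)} {l : J} (hl : (i, l) ∈ E)
    (hR : l ∈ Rm (dR i E)) : ∑ j, mij i j E ≤ ((cls (dR i E) l).card : ℝ) := by
  classical
  have h1 : ∑ j, mij i j E = (((univ : Finset J).filter
      (fun j => j ∈ Rm (dR i E) ∧ j ∉ Rm E)).card : ℝ) := by
    unfold mij
    rw [Finset.card_filter]
    push_cast
    exact Finset.sum_congr rfl (fun _ _ => rfl)
  rw [h1]
  exact_mod_cast Finset.card_le_card (fun j hj => by
    rw [Finset.mem_filter] at hj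
    obtain ⟨_, h2, h3⟩ := hj
    rw [mem_Rm_add (i := i)] at h3
    push Not at h3
    obtain ⟨_, h4⟩ := h3 h2
    exact cls_symm h2 (h4 l hl hR))

theorem sum_mij_pow_le (i : I) (E : Finset (I × J)) {m : ℕ} (hm : m ≠ 0) :
    (∑ j, mij i j E) ^ m ≤ ∑ l, (if (i, l) ∈ E then
      (if l ∈ Rm (dR i E) then ((cls (dR i E) l).card : ℝ) ^ m else 0) else 0) := by
  classical
  have hn : ∀ l : J, 0 ≤ (if (i, l) ∈ E then
      (if l ∈ Rm (dR i E) then ((cls (dR i E) l).card : ℝ) ^ m else 0) else (0 : ℝ)) := by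
    intro l
    split_ifs <;> positivity
  have h0 : 0 ≤ ∑ j, mij i j E := Finset.sum_nonneg (fun j _ => by unfold mij; split_ifs <;> simp)
  by_cases h : ∃ l, (i, l) ∈ E ∧ l ∈ Rm (dR i E)
  · obtain ⟨l, hl, hR⟩ := h
    refine le_trans ?_ (Finset.single_le_sum (fun l _ => hn l) (Finset.mem_univ l))
    rw [if_pos hl, if_pos hR]
    exact pow_le_pow_left₀ h0 (sum_mij_le hl hR) m
  · have h1 : ∑ j, mij i j E = 0 := by
      refine Finset.sum_eq_zero (fun j _ => ?_)
      unfold mij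
      rw [if_neg]
      rintro ⟨h2, h3⟩
      rw [mem_Rm_add (i := i)] at h3
      push Not at h3
      obtain ⟨⟨t, ht, htR⟩, _⟩ := h3 h2
      exact h ⟨t, ht, htR⟩
    rw [h1, zero_pow hm]
    exact Finset.sum_nonneg (fun l _ => hn l)

theorem mij_moment (hp : Sub p th) (hth : th < 1) {m : ℕ} (hm : m ≠ 0) (i : I) :
    Ex p (fun E => (∑ j, mij i j E) ^ m) ≤ Dm th m := by
  have h1 := Ex_mono hp.h0 (hp.le_one hth) (fun E => sum_mij_pow_le i E hm)
  rw [Ex_sum] at h1
  refine h1.trans ?_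
  have h2 : ∀ l ∈ (univ : Finset J), Ex p (fun E => if (i, l) ∈ E then
      (if l ∈ Rm (dR i E) then ((cls (dR i E) l).card : ℝ) ^ m else 0) else 0) ≤
      p (i, l) * Dm th m := by
    intro l _
    rw [Ex_mem p (i, l) (fun E => if l ∈ Rm (dR i E) then ((cls (dR i E) l).card : ℝ) ^ m else 0)
      (fun E => by rw [dR_erase, dR_insert])]
    refine mul_le_mul_of_nonneg_left ?_ (hp.h0 _)
    rw [Pool.KX.up_dR p i (fun E => if l ∈ Rm E then ((cls E l).card : ℝ) ^ m else 0)]
    exact cls_moment (hp.zero _) hth m l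
  refine (Finset.sum_le_sum h2).trans ?_
  rw [← Finset.sum_mul]
  have h3 := hp.hr i
  have h4 := Dm_nonneg th m
  nlinarith

theorem mij_tr (i : I) (j : J) (E : Finset (I × J)) : mij j i (tr E) = mij i j E := by
  unfold mij
  rw [← tr_dC, Rm_tr, Rm_tr]
  simp only [cross_symm i j E]

theorem mij_moment_col (hp : Sub p th) (hth : th < 1) {m : ℕ} (hm : m ≠ 0) (j : J) :
    Ex p (fun E => (∑ i, mij i j E) ^ m) ≤ Dm th m := by
  have h1 : Ex p (fun E => (∑ i, mij i j E) ^ m) =
      Ex (pt p) (fun E => (∑ i, mij j i E) ^ m) := by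
    rw [← Ex_tr]
    exact Ex_congr p (fun E => by simp only [mij_tr])
  rw [h1]
  exact mij_moment hp.pt hth hm j

/-- class sizes on a bad event -/
theorem cls_moment_bad (hp : Sub p th) (hth : th < 1) (m : ℕ) (j : J)
    (bad : Finset (I × J) → ℝ) (h0 : ∀ E, bad E = 0 ∨ bad E = 1) :
    Ex p (fun E => (if j ∈ Rm E then ((cls E j).card : ℝ) ^ m else 0) * bad E) ≤
      Real.sqrt (Dm th (2 * m)) * Real.sqrt (Ex p bad) := by
  have h1 := Ex_cs_sqrt hp.h0 (hp.le_one hth)
    (fun E => if j ∈ Rm E then ((cls E j).card : ℝ) ^ m else 0) bad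
  refine h1.trans ?_
  have e1 : Ex p (fun E => bad E ^ 2) = Ex p bad := Ex_congr p (fun E => by
    rcases h0 E with h | h <;> rw [h] <;> norm_num)
  have e2 : Ex p (fun E => (if j ∈ Rm E then ((cls E j).card : ℝ) ^ m else 0) ^ 2) =
      Ex p (fun E => if j ∈ Rm E then ((cls E j).card : ℝ) ^ (2 * m) else 0) :=
    Ex_congr p (fun E => by
      split_ifs
      · rw [← pow_mul, mul_comm]
      · norm_num)
  rw [e1, e2]
  exact mul_le_mul_of_nonneg_right (Real.sqrt_le_sqrt (cls_moment hp hth (2 * m) j))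
    (Real.sqrt_nonneg _)

end Pool.JN
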