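import Pool.Agent.JN.Tk

/-! Module Cp (difficulty 2). Compactness: the minimiser is the uniform matrix.

PROOF. card I = card J = n >= 1 (if n = 0 trivial). Let Q be the set of p : I × J -> ℝ with 0 <= p <= M, all row and column sums 1, sum p^2 <= K:
 compact (closed subset of Set.pi univ (Icc 0 M), finite dimensional), and p -> Ex p nu is continuous (finite sum of finite products).
 Q contains the given p, so a minimiser q ∈ Q exists (IsCompact.exists_isMinOn). If two rows of q differ, av2 q i k ∈ Q (entries <= M by averaging, row sums 1,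
 column sums unchanged, sum of squares: ((x+y)/2)^2 * 2 <= x^2 + y^2) and has a smaller value (avg_lt), contradiction. So all rows of q are equal,
 hence q(i,j) = 1/n (column sum n q(i,j) = 1): q = uniform. So F(uniform) <= F(p). If p is not uniform, two rows of p differ (otherwise p would be uniform),
 av2 p i k ∈ Q has F(av2) < F(p) and F(uniform) <= F(av2).
-/

namespace Pool.JN

open Finset Pool.KS

set_option linter.unusedSectionVars false

variable {I J : Type*} [Fintype I] [Fintype J] [DecidableEq I] [DecidableEq J]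

/-- the feasible set -/
def Cp_Q (I J : Type*) [Fintype I] [Fintype J] (M K : ℝ) : Set (I × J → ℝ) :=
  {p | (∀ e, 0 ≤ p e) ∧ (∀ e, p e ≤ M) ∧ (∀ i, ∑ j, p (i, j) = 1) ∧
    (∀ j, ∑ i, p (i, j) = 1) ∧ ∑ i, ∑ j, p (i, j) ^ 2 ≤ K}

omit [DecidableEq I] [DecidableEq J] in
theorem Cp_compact (M K : ℝ) : IsCompact (Cp_Q I J M K) := by
  have h1 : IsCompact (Set.pi Set.univ (fun _ : I × J => Set.Icc (0 : ℝ) M)) :=
    isCompact_univ_pi (fun _ => isCompact_Icc)
  refine h1.of_isClosed_subset ?_ ?_
  · unfold Cp_Q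
    refine IsClosed.inter ?_ (IsClosed.inter ?_ (IsClosed.inter ?_ (IsClosed.inter ?_ ?_)))
    · show IsClosed {p : I × J → ℝ | ∀ e, 0 ≤ p e}
      rw [Set.ofPred_forall]
      exact isClosed_iInter (fun e => isClosed_le continuous_const (continuous_apply e))
    · show IsClosed {p : I × J → ℝ | ∀ e, p e ≤ M}
      rw [Set.ofPred_forall]
      exact isClosed_iInter (fun e => isClosed_le (continuous_apply e) continuous_const)
    · show IsClosed {p : I × J → ℝ | ∀ i, ∑ j, p (i, j) = 1}
      rw [Set.ofPred_forall]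
      exact isClosed_iInter (fun i => isClosed_eq
        (continuous_finsetSum _ (fun j _ => continuous_apply (i, j))) continuous_const)
    · show IsClosed {p : I × J → ℝ | ∀ j, ∑ i, p (i, j) = 1}
      rw [Set.ofPred_forall]
      exact isClosed_iInter (fun j => isClosed_eq
        (continuous_finsetSum _ (fun i _ => continuous_apply (i, j))) continuous_const)
    · show IsClosed {p : I × J → ℝ | ∑ i, ∑ j, p (i, j) ^ 2 ≤ K}
      exact isClosed_le (continuous_finsetSum _ (fun i _ =>
        continuous_finsetSum _ (fun j _ => (continuous_apply (i, j)).pow 2))) continuous_const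
  · intro p hp e _
    exact ⟨hp.1 e, hp.2.1 e⟩

theorem Cp_cont (f : Finset (I × J) → ℝ) : Continuous (fun p : I × J → ℝ => Ex p f) := by
  unfold Ex W
  refine continuous_finsetSum _ (fun E _ => Continuous.mul ?_ continuous_const)
  refine continuous_finsetProd _ (fun e _ => ?_)
  by_cases h : e ∈ E
  · simp only [if_pos h]
    exact continuous_apply e
  · simp only [if_neg h]
    exact continuous_const.sub (continuous_apply e)

theorem Cp_av2 {p : I × J → ℝ} {M K : ℝ} (hp : p ∈ Cp_Q I J M K) {i k : I} (h : k ≠ i) :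
    av2 p i k ∈ Cp_Q I J M K := by
  obtain ⟨h0, h1, hr, hc, hsq⟩ := hp
  refine ⟨fun e => ?_, fun e => ?_, fun i' => ?_, fun j => ?_, ?_⟩
  · unfold av2
    split_ifs
    · have a := h0 (i, e.2)
      have b := h0 (k, e.2)
      linarith
    · exact h0 e
  · unfold av2
    split_ifs
    · have a := h1 (i, e.2)
      have b := h1 (k, e.2)
      linarith
    · exact h1 e
  · unfold av2
    by_cases h2 : i' = i ∨ i' = k
    · simp only [if_pos h2]
      rw [← Finset.sum_div, Finset.sum_add_distrib, hr, hr]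
      norm_num
    · simp only [if_neg h2]
      exact hr i'
  · have e1 : ∀ i', av2 p i k (i', j) = p (i', j) +
        (if i' = i then (p (k, j) - p (i, j)) / 2 else 0) +
        (if i' = k then (p (i, j) - p (k, j)) / 2 else 0) := by
      intro i'
      unfold av2
      by_cases h2 : i' = i
      · have h3 : i' ≠ k := fun hh => h (hh.symm.trans h2)
        rw [if_pos (Or.inl h2), if_pos h2, if_neg h3, h2]
        ring
      · by_cases h3 : i' = k
        · rw [if_pos (Or.inr h3), if_neg h2, if_pos h3, h3]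
          ring
        · rw [if_neg (not_or.mpr ⟨h2, h3⟩), if_neg h2, if_neg h3]
          ring
    simp only [e1]
    rw [Finset.sum_add_distrib, Finset.sum_add_distrib, Finset.sum_ite_eq' univ i,
      Finset.sum_ite_eq' univ k, if_pos (Finset.mem_univ _), if_pos (Finset.mem_univ _), hc j]
    ring
  · refine le_trans ?_ hsq
    rw [Finset.sum_comm, Finset.sum_comm (f := fun i j => p (i, j) ^ 2)]
    refine Finset.sum_le_sum (fun j _ => ?_)
    have e1 : ∀ i', av2 p i k (i', j) ^ 2 = p (i', j) ^ 2 +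
        (if i' = i then ((p (i, j) + p (k, j)) / 2) ^ 2 - p (i, j) ^ 2 else 0) +
        (if i' = k then ((p (i, j) + p (k, j)) / 2) ^ 2 - p (k, j) ^ 2 else 0) := by
      intro i'
      unfold av2
      by_cases h2 : i' = i
      · have h3 : i' ≠ k := fun hh => h (hh.symm.trans h2)
        rw [if_pos (Or.inl h2), if_pos h2, if_neg h3, h2]
        ring
      · by_cases h3 : i' = k
        · rw [if_pos (Or.inr h3), if_neg h2, if_pos h3, h3]
          ring
        · rw [if_neg (not_or.mpr ⟨h2, h3⟩), if_neg h2, if_neg h3]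
          ring
    simp only [e1]
    rw [Finset.sum_add_distrib, Finset.sum_add_distrib, Finset.sum_ite_eq' univ i,
      Finset.sum_ite_eq' univ k, if_pos (Finset.mem_univ _), if_pos (Finset.mem_univ _)]
    nlinarith [sq_nonneg (p (i, j) - p (k, j))]

omit [DecidableEq I] [DecidableEq J] in
theorem Cp_unif {p : I × J → ℝ} {M K : ℝ} (hp : p ∈ Cp_Q I J M K)
    (h : ∀ i k j, p (i, j) = p (k, j)) : p = (fun _ => 1 / (Fintype.card I : ℝ)) := by
  funext e
  obtain ⟨i, j⟩ := e
  have h1 := hp.2.2.2.1 j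
  have h2 : ∑ i', p (i', j) = ∑ _i' : I, p (i, j) :=
    Finset.sum_congr rfl (fun i' _ => h i' i j)
  rw [h2, Finset.sum_const, Finset.card_univ, nsmul_eq_mul] at h1
  have h3 : (Fintype.card I : ℝ) ≠ 0 := by
    intro h0
    rw [h0, zero_mul] at h1
    norm_num at h1
  rw [eq_div_iff h3, mul_comm]
  exact h1

theorem uniform_min {p : I × J → ℝ} {M K l : ℝ} (hl : Real.exp (-l) = l) (hM0 : 0 ≤ M)
    (hK0 : 0 ≤ K) (hs : Small M K) (hcard : Fintype.card I = Fintype.card J)
    (h0 : ∀ e, 0 ≤ p e) (h1 : ∀ e, p e ≤ M)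
    (hr : ∀ i, ∑ j, p (i, j) = 1) (hc : ∀ j, ∑ i, p (i, j) = 1)
    (hsq : ∑ i, ∑ j, p (i, j) ^ 2 ≤ K) :
    Ex (fun _ : I × J => 1 / (Fintype.card I : ℝ)) (fun E => (nu E : ℝ)) ≤
        Ex p (fun E => (nu E : ℝ)) ∧
      (p ≠ (fun _ => 1 / (Fintype.card I : ℝ)) →
        Ex (fun _ : I × J => 1 / (Fintype.card I : ℝ)) (fun E => (nu E : ℝ)) <
          Ex p (fun E => (nu E : ℝ))) := by
  have hp : p ∈ Cp_Q I J M K := ⟨h0, h1, hr, hc, hsq⟩
  obtain ⟨q, hq, hmin⟩ := (Cp_compact (I := I) (J := J) M K).exists_isMinOn ⟨p, hp⟩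
    (Cp_cont (fun E : Finset (I × J) => (nu E : ℝ))).continuousOn
  have hmin' : ∀ r ∈ Cp_Q I J M K, Ex q (fun E : Finset (I × J) => (nu E : ℝ)) ≤
      Ex r (fun E => (nu E : ℝ)) := fun r hr => hmin hr
  have hqu : q = (fun _ => 1 / (Fintype.card I : ℝ)) := by
    refine Cp_unif hq (fun i k j => ?_)
    by_contra hne
    have hki : k ≠ i := by
      rintro rfl
      exact hne rfl
    have h2 := avg_lt hl hM0 hK0 hs hq.1 hq.2.1 hq.2.2.1 hq.2.2.2.1 hq.2.2.2.2 hki ⟨j, hne⟩
    exact absurd (hmin' _ (Cp_av2 hq hki)) (not_le.mpr h2)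
  rw [← hqu]
  refine ⟨hmin' p hp, fun hpq => ?_⟩
  by_contra hcon
  apply hpq
  rw [hqu]
  refine Cp_unif hp (fun i k j => ?_)
  by_contra hne
  have hki : k ≠ i := by
    rintro rfl
    exact hne rfl
  have h2 := avg_lt hl hM0 hK0 hs h0 h1 hr hc hsq hki ⟨j, hne⟩
  have h3 := hmin' _ (Cp_av2 hp hki)
  exact hcon (lt_of_le_of_lt h3 h2)

end Pool.JN
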