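import Pool.Agent.JN.D0

/-! Module Cv (difficulty 3). The exact covariance identity of two rows.

PROOF. i ≠ k, H = H2 i k E = dR k (dR i E) (= dR i (dR k E), dR_comm), R = Rm H, u = U p i R, v = U p k R, r = rr p i k E = sum_c κ^k_c κ^i_c.
 From KS: Ex_Xi2, Ex_XiXi: Ex Xi_i = Ex (u + r), Ex Xi_k = Ex (v + r), Ex Xi_i Xi_k = Ex (u v + r). Hence
   Ex (Xi_i - l)(Xi_k - l) = Ex [(u-l)(v-l) + (1-2l) r].
 NEW: Ex (Ut_i - l)(Ut_k - l) = Ex [(u - l + r)(v - l + r)]. By Phi_Rm (row k added to H, Φ = U p i):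
   Ut p i E = U p i (Rm (dR i E)) = u + sum_c (av_k(R \ cl c) - av_k(R)) κ^i_c, and Ut p k E = v + sum_c (av_i(R \ cl c) - av_i(R)) κ^k_c
   (av_dR; H does not contain the rows i, k). Multiply; every product av_k(S) av_i(S') with S, S' depending on H only has
   expectation Ex U p k (S) U p i (S') (times H-measurable factors: apply Ex_av twice as in Ex_av_av / Ex_XiXi, or first
   a general lemma: Ex (G(H) av_i(S(H)) av_k(S'(H))) = Ex (G(H) U p i (S(H)) U p k (S'(H)))).
 Subtract the two identities. (rr_symm: multiplication commutes and dR_comm.)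
-/

namespace Pool.JN

open Finset Pool.KS

set_option linter.unusedSectionVars false

variable {I J : Type*} [Fintype I] [Fintype J] [DecidableEq I] [DecidableEq J]

theorem Cv_H_i (i k : I) (E : Finset (I × J)) : H2 i k (dR i E) = H2 i k E := by
  unfold H2
  rw [dR_dR]

theorem Cv_H_k (i k : I) (E : Finset (I × J)) : H2 i k (dR k E) = H2 i k E := by
  unfold H2
  rw [dR_comm i k E, dR_dR]

theorem Cv_key_i (p : I × J → ℝ) (i k : I) (G : Finset (I × J) → ℝ)
    (S : Finset (I × J) → Finset J) :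
    Ex p (fun E => G (H2 i k E) * av i E (S (H2 i k E))) =
      Ex p (fun E => G (H2 i k E) * U p i (S (H2 i k E))) :=
  Ex_av p i (fun E => G (H2 i k E)) (fun E => S (H2 i k E))
    (fun E => by simp only [Cv_H_i]) (fun E => by simp only [Cv_H_i])

theorem Cv_key_k (p : I × J → ℝ) (i k : I) (G : Finset (I × J) → ℝ)
    (S : Finset (I × J) → Finset J) :
    Ex p (fun E => G (H2 i k E) * av k E (S (H2 i k E))) =
      Ex p (fun E => G (H2 i k E) * U p k (S (H2 i k E))) :=
  Ex_av p k (fun E => G (H2 i k E)) (fun E => S (H2 i k E))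
    (fun E => by simp only [Cv_H_k]) (fun E => by simp only [Cv_H_k])

theorem Cv_key_ik (p : I × J → ℝ) {i k : I} (h : k ≠ i) (G : Finset (I × J) → ℝ)
    (S S' : Finset (I × J) → Finset J) :
    Ex p (fun E => G (H2 i k E) * (av i E (S (H2 i k E)) * av k E (S' (H2 i k E)))) =
      Ex p (fun E => G (H2 i k E) * (U p i (S (H2 i k E)) * U p k (S' (H2 i k E)))) := by
  have h1 : ∀ E, G (H2 i k E) * (av i E (S (H2 i k E)) * av k E (S' (H2 i k E))) =
      (G (H2 i k E) * av k E (S' (H2 i k E))) * av i E (S (H2 i k E)) := fun E => by ring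
  rw [Ex_congr p h1]
  rw [Ex_av p i (fun E => G (H2 i k E) * av k E (S' (H2 i k E))) (fun E => S (H2 i k E))
    (fun E => by simp only [Cv_H_i, av_dR h]) (fun E => by simp only [Cv_H_i])]
  have h2 : ∀ E, (G (H2 i k E) * av k E (S' (H2 i k E))) * U p i (S (H2 i k E)) =
      (fun H => G H * U p i (S H)) (H2 i k E) * av k E (S' (H2 i k E)) := fun E => by
    simp only
    ring
  rw [Ex_congr p h2, Cv_key_k p i k (fun H => G H * U p i (S H)) S']
  exact Ex_congr p (fun E => by ring)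

/-- rows `i` alone -/
theorem Cv_lin_i (p : I × J → ℝ) (i k : I) (G : Finset (I × J) → ℝ)
    (a : Finset (I × J) → Finset J → ℝ) :
    Ex p (fun E => G (H2 i k E) * ∑ c : Finset J,
      (av i E (Rm (H2 i k E) \ cl (H2 i k E) c) - av i E (Rm (H2 i k E))) * a (H2 i k E) c) =
    Ex p (fun E => G (H2 i k E) * ∑ c : Finset J, pcl p i (H2 i k E) c * a (H2 i k E) c) := by
  have h1 : ∀ E, G (H2 i k E) * ∑ c : Finset J,
      (av i E (Rm (H2 i k E) \ cl (H2 i k E) c) - av i E (Rm (H2 i k E))) * a (H2 i k E) c =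
      ∑ c : Finset J, ((fun H => G H * a H c) (H2 i k E) *
          av i E ((fun H => Rm H \ cl H c) (H2 i k E)) -
        (fun H => G H * a H c) (H2 i k E) * av i E ((fun H => Rm H) (H2 i k E))) := by
    intro E
    rw [Finset.mul_sum]
    exact Finset.sum_congr rfl (fun c _ => by simp only; ring)
  have h2 : ∀ E, G (H2 i k E) * ∑ c : Finset J, pcl p i (H2 i k E) c * a (H2 i k E) c =
      ∑ c : Finset J, ((fun H => G H * a H c) (H2 i k E) *
          U p i ((fun H => Rm H \ cl H c) (H2 i k E)) -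
        (fun H => G H * a H c) (H2 i k E) * U p i ((fun H => Rm H) (H2 i k E))) := by
    intro E
    rw [Finset.mul_sum]
    exact Finset.sum_congr rfl (fun c _ => by simp only [pcl]; ring)
  rw [Ex_congr p h1, Ex_congr p h2, Ex_sum, Ex_sum]
  refine Finset.sum_congr rfl (fun c _ => ?_)
  rw [Ex_sub, Ex_sub, Cv_key_i p i k (fun H => G H * a H c) (fun H => Rm H \ cl H c),
    Cv_key_i p i k (fun H => G H * a H c) (fun H => Rm H)]

theorem Cv_lin_k (p : I × J → ℝ) (i k : I) (G : Finset (I × J) → ℝ)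
    (a : Finset (I × J) → Finset J → ℝ) :
    Ex p (fun E => G (H2 i k E) * ∑ c : Finset J,
      (av k E (Rm (H2 i k E) \ cl (H2 i k E) c) - av k E (Rm (H2 i k E))) * a (H2 i k E) c) =
    Ex p (fun E => G (H2 i k E) * ∑ c : Finset J, pcl p k (H2 i k E) c * a (H2 i k E) c) := by
  have h1 : ∀ E, G (H2 i k E) * ∑ c : Finset J,
      (av k E (Rm (H2 i k E) \ cl (H2 i k E) c) - av k E (Rm (H2 i k E))) * a (H2 i k E) c =
      ∑ c : Finset J, ((fun H => G H * a H c) (H2 i k E) *
          av k E ((fun H => Rm H \ cl H c) (H2 i k E)) -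
        (fun H => G H * a H c) (H2 i k E) * av k E ((fun H => Rm H) (H2 i k E))) := by
    intro E
    rw [Finset.mul_sum]
    exact Finset.sum_congr rfl (fun c _ => by simp only; ring)
  have h2 : ∀ E, G (H2 i k E) * ∑ c : Finset J, pcl p k (H2 i k E) c * a (H2 i k E) c =
      ∑ c : Finset J, ((fun H => G H * a H c) (H2 i k E) *
          U p k ((fun H => Rm H \ cl H c) (H2 i k E)) -
        (fun H => G H * a H c) (H2 i k E) * U p k ((fun H => Rm H) (H2 i k E))) := by
    intro E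
    rw [Finset.mul_sum]
    exact Finset.sum_congr rfl (fun c _ => by simp only [pcl]; ring)
  rw [Ex_congr p h1, Ex_congr p h2, Ex_sum, Ex_sum]
  refine Finset.sum_congr rfl (fun c _ => ?_)
  rw [Ex_sub, Ex_sub, Cv_key_k p i k (fun H => G H * a H c) (fun H => Rm H \ cl H c),
    Cv_key_k p i k (fun H => G H * a H c) (fun H => Rm H)]

theorem Cv_bil (p : I × J → ℝ) {i k : I} (h : k ≠ i)
    (a b : Finset (I × J) → Finset J → ℝ) :
    Ex p (fun E => (∑ c : Finset J,
      (av i E (Rm (H2 i k E) \ cl (H2 i k E) c) - av i E (Rm (H2 i k E))) * a (H2 i k E) c) *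
      (∑ c : Finset J,
      (av k E (Rm (H2 i k E) \ cl (H2 i k E) c) - av k E (Rm (H2 i k E))) * b (H2 i k E) c)) =
    Ex p (fun E => (∑ c : Finset J, pcl p i (H2 i k E) c * a (H2 i k E) c) *
      (∑ c : Finset J, pcl p k (H2 i k E) c * b (H2 i k E) c)) := by
  have h1 : ∀ E, (∑ c : Finset J,
      (av i E (Rm (H2 i k E) \ cl (H2 i k E) c) - av i E (Rm (H2 i k E))) * a (H2 i k E) c) *
      (∑ c : Finset J,
      (av k E (Rm (H2 i k E) \ cl (H2 i k E) c) - av k E (Rm (H2 i k E))) * b (H2 i k E) c) =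
      ∑ c : Finset J, ∑ d : Finset J,
      (((fun H => a H c * b H d) (H2 i k E) * (av i E ((fun H => Rm H \ cl H c) (H2 i k E)) *
          av k E ((fun H => Rm H \ cl H d) (H2 i k E))) -
        (fun H => a H c * b H d) (H2 i k E) * (av i E ((fun H => Rm H \ cl H c) (H2 i k E)) *
          av k E ((fun H => Rm H) (H2 i k E)))) -
        ((fun H => a H c * b H d) (H2 i k E) * (av i E ((fun H => Rm H) (H2 i k E)) *
          av k E ((fun H => Rm H \ cl H d) (H2 i k E))) -
        (fun H => a H c * b H d) (H2 i k E) * (av i E ((fun H => Rm H) (H2 i k E)) *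
          av k E ((fun H => Rm H) (H2 i k E))))) := by
    intro E
    rw [Finset.sum_mul_sum]
    exact Finset.sum_congr rfl (fun c _ => Finset.sum_congr rfl (fun d _ => by simp only; ring))
  have h2 : ∀ E, (∑ c : Finset J, pcl p i (H2 i k E) c * a (H2 i k E) c) *
      (∑ c : Finset J, pcl p k (H2 i k E) c * b (H2 i k E) c) =
      ∑ c : Finset J, ∑ d : Finset J,
      (((fun H => a H c * b H d) (H2 i k E) * (U p i ((fun H => Rm H \ cl H c) (H2 i k E)) *
          U p k ((fun H => Rm H \ cl H d) (H2 i k E))) -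
        (fun H => a H c * b H d) (H2 i k E) * (U p i ((fun H => Rm H \ cl H c) (H2 i k E)) *
          U p k ((fun H => Rm H) (H2 i k E)))) -
        ((fun H => a H c * b H d) (H2 i k E) * (U p i ((fun H => Rm H) (H2 i k E)) *
          U p k ((fun H => Rm H \ cl H d) (H2 i k E))) -
        (fun H => a H c * b H d) (H2 i k E) * (U p i ((fun H => Rm H) (H2 i k E)) *
          U p k ((fun H => Rm H) (H2 i k E))))) := by
    intro E
    rw [Finset.sum_mul_sum]
    exact Finset.sum_congr rfl (fun c _ => Finset.sum_congr rfl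
      (fun d _ => by simp only [pcl]; ring))
  rw [Ex_congr p h1, Ex_congr p h2, Ex_sum, Ex_sum]
  refine Finset.sum_congr rfl (fun c _ => ?_)
  rw [Ex_sum, Ex_sum]
  refine Finset.sum_congr rfl (fun d _ => ?_)
  rw [Ex_sub, Ex_sub, Ex_sub, Ex_sub, Ex_sub, Ex_sub,
    Cv_key_ik p h (fun H => a H c * b H d) (fun H => Rm H \ cl H c) (fun H => Rm H \ cl H d),
    Cv_key_ik p h (fun H => a H c * b H d) (fun H => Rm H \ cl H c) (fun H => Rm H),
    Cv_key_ik p h (fun H => a H c * b H d) (fun H => Rm H) (fun H => Rm H \ cl H d),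
    Cv_key_ik p h (fun H => a H c * b H d) (fun H => Rm H) (fun H => Rm H)]

theorem Cv_Ut_i (p : I × J → ℝ) {i k : I} (h : k ≠ i) (E : Finset (I × J)) :
    Ut p i E = U p i (Rm (H2 i k E)) + ∑ c : Finset J,
      (av k E (Rm (H2 i k E) \ cl (H2 i k E) c) - av k E (Rm (H2 i k E))) *
        pcl p i (H2 i k E) c := by
  unfold Ut
  rw [Phi_Rm (fun S => U p i S) k (dR i E)]
  simp only [av_dR h]
  rfl

theorem Cv_Ut_k (p : I × J → ℝ) {i k : I} (h : k ≠ i) (E : Finset (I × J)) :
    Ut p k E = U p k (Rm (H2 i k E)) + ∑ c : Finset J,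
      (av i E (Rm (H2 i k E) \ cl (H2 i k E) c) - av i E (Rm (H2 i k E))) *
        pcl p k (H2 i k E) c := by
  have h1 : H2 i k E = H2 k i E := by
    unfold H2
    exact dR_comm k i E
  rw [h1]
  exact Cv_Ut_i p h.symm E

theorem Cv_U_mono {p : I × J → ℝ} (h0 : ∀ e, 0 ≤ p e) (h1 : ∀ e, p e ≤ 1) (i : I)
    (H : Finset (I × J)) (c : Finset J) : 0 ≤ pcl p i H c := by
  unfold pcl U
  have e1 : (∏ j ∈ Rm H \ cl H c, (1 - p (i, j))) * ∏ j ∈ cl H c, (1 - p (i, j)) =
      ∏ j ∈ Rm H, (1 - p (i, j)) := Finset.prod_sdiff (cl_sub H c)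
  have e2 : ∏ j ∈ cl H c, (1 - p (i, j)) ≤ 1 :=
    Finset.prod_le_one (fun j _ => by linarith [h1 (i, j)]) (fun j _ => by linarith [h0 (i, j)])
  have e3 : 0 ≤ ∏ j ∈ Rm H \ cl H c, (1 - p (i, j)) :=
    Finset.prod_nonneg (fun j _ => by linarith [h1 (i, j)])
  rw [← e1, sub_nonneg]
  calc _ ≤ (∏ j ∈ Rm H \ cl H c, (1 - p (i, j))) * 1 := mul_le_mul_of_nonneg_left e2 e3
    _ = _ := mul_one _

theorem rr_symm (p : I × J → ℝ) (i k : I) (E : Finset (I × J)) : rr p k i E = rr p i k E := by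
  have h1 : H2 k i E = H2 i k E := by
    unfold H2
    exact dR_comm i k E
  unfold rr
  rw [h1]
  exact Finset.sum_congr rfl (fun c _ => mul_comm _ _)

theorem rr_nonneg {p : I × J → ℝ} (h0 : ∀ e, 0 ≤ p e) (h1 : ∀ e, p e ≤ 1) (i k : I)
    (E : Finset (I × J)) : 0 ≤ rr p i k E :=
  Finset.sum_nonneg (fun c _ => mul_nonneg (Cv_U_mono h0 h1 k _ c) (Cv_U_mono h0 h1 i _ c))

theorem cov_pair (p : I × J → ℝ) (l : ℝ) {i k : I} (h : k ≠ i) :
    Ex p (fun E => (Xi i E - l) * (Xi k E - l)) =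
      Ex p (fun E => (Ut p i E - l) * (Ut p k E - l)) + (1 - 2 * l) * Ex p (rr p i k) -
      Ex p (fun E => rr p i k E *
        ((U p i (Rm (H2 i k E)) - l) + (U p k (Rm (H2 i k E)) - l)) + rr p i k E ^ 2) := by
  have a1 : Ex p (Xi i) = Ex p (fun E => U p i (Rm (H2 i k E))) + Ex p (rr p i k) := by
    rw [← Ex_add]
    exact Ex_Xi2 p h
  have a2 : Ex p (Xi k) = Ex p (fun E => U p k (Rm (H2 i k E))) + Ex p (rr p i k) := by
    rw [← Ex_add, Ex_Xi2 p h.symm]
    refine Ex_congr p (fun E => ?_)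
    have h1 : dR i (dR k E) = H2 i k E := by
      unfold H2
      exact dR_comm i k E
    have h2 := rr_symm p i k E
    unfold rr at h2
    have h3 : H2 k i E = H2 i k E := h1
    rw [h3] at h2
    unfold rr
    rw [h1, ← h2]
  have a3 : Ex p (fun E => Xi i E * Xi k E) =
      Ex p (fun E => U p i (Rm (H2 i k E)) * U p k (Rm (H2 i k E))) + Ex p (rr p i k) := by
    rw [← Ex_add]
    exact Ex_XiXi p h
  have a4 : Ex p (fun E => (Xi i E - l) * (Xi k E - l)) =
      Ex p (fun E => Xi i E * Xi k E) - l * Ex p (Xi i) - l * Ex p (Xi k) + l ^ 2 := by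
    have h1 : ∀ E : Finset (I × J), (Xi i E - l) * (Xi k E - l) =
        ((Xi i E * Xi k E - l * Xi i E) - l * Xi k E) + l ^ 2 := fun E => by ring
    rw [Ex_congr p h1, Ex_add, Ex_sub, Ex_sub, Ex_mul_left, Ex_mul_left, Ex_const]
  have b1 : Ex p (fun E => (Ut p i E - l) * (Ut p k E - l)) =
      Ex p (fun E => (U p i (Rm (H2 i k E)) - l) * (U p k (Rm (H2 i k E)) - l)) +
      Ex p (fun E => (U p i (Rm (H2 i k E)) - l) * rr p i k E) +
      Ex p (fun E => (U p k (Rm (H2 i k E)) - l) * rr p i k E) +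
      Ex p (fun E => rr p i k E ^ 2) := by
    have h1 : ∀ E, (Ut p i E - l) * (Ut p k E - l) =
        (((U p i (Rm (H2 i k E)) - l) * (U p k (Rm (H2 i k E)) - l) +
        (fun H => U p i (Rm H) - l) (H2 i k E) * ∑ c : Finset J,
          (av i E (Rm (H2 i k E) \ cl (H2 i k E) c) - av i E (Rm (H2 i k E))) *
            (fun H c => pcl p k H c) (H2 i k E) c) +
        (fun H => U p k (Rm H) - l) (H2 i k E) * ∑ c : Finset J,
          (av k E (Rm (H2 i k E) \ cl (H2 i k E) c) - av k E (Rm (H2 i k E))) *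
            (fun H c => pcl p i H c) (H2 i k E) c) +
        (∑ c : Finset J,
          (av i E (Rm (H2 i k E) \ cl (H2 i k E) c) - av i E (Rm (H2 i k E))) *
            (fun H c => pcl p k H c) (H2 i k E) c) *
        (∑ c : Finset J,
          (av k E (Rm (H2 i k E) \ cl (H2 i k E) c) - av k E (Rm (H2 i k E))) *
            (fun H c => pcl p i H c) (H2 i k E) c) := by
      intro E
      rw [Cv_Ut_i p h E, Cv_Ut_k p h E]
      simp only
      ring
    rw [Ex_congr p h1, Ex_add, Ex_add, Ex_add,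
      Cv_lin_i p i k (fun H => U p i (Rm H) - l) (fun H c => pcl p k H c),
      Cv_lin_k p i k (fun H => U p k (Rm H) - l) (fun H c => pcl p i H c),
      Cv_bil p h (fun H c => pcl p k H c) (fun H c => pcl p i H c)]
    have e1 : ∀ E, ∑ c : Finset J, pcl p i (H2 i k E) c * pcl p k (H2 i k E) c =
        rr p i k E := fun E => Finset.sum_congr rfl (fun c _ => mul_comm _ _)
    have e2 : ∀ E, ∑ c : Finset J, pcl p k (H2 i k E) c * pcl p i (H2 i k E) c =
        rr p i k E := fun E => rfl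
    simp only [e1, e2]
    congr 1
    exact Ex_congr p (fun E => by ring)
  have b2 : Ex p (fun E => (U p i (Rm (H2 i k E)) - l) * (U p k (Rm (H2 i k E)) - l)) =
      Ex p (fun E => U p i (Rm (H2 i k E)) * U p k (Rm (H2 i k E))) -
      l * Ex p (fun E => U p i (Rm (H2 i k E))) - l * Ex p (fun E => U p k (Rm (H2 i k E))) +
      l ^ 2 := by
    have h1 : ∀ E : Finset (I × J),
        (U p i (Rm (H2 i k E)) - l) * (U p k (Rm (H2 i k E)) - l) =
        ((U p i (Rm (H2 i k E)) * U p k (Rm (H2 i k E)) - l * U p i (Rm (H2 i k E))) -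
          l * U p k (Rm (H2 i k E))) + l ^ 2 := fun E => by ring
    rw [Ex_congr p h1, Ex_add, Ex_sub, Ex_sub, Ex_mul_left, Ex_mul_left, Ex_const]
  have b3 : Ex p (fun E => rr p i k E *
        ((U p i (Rm (H2 i k E)) - l) + (U p k (Rm (H2 i k E)) - l)) + rr p i k E ^ 2) =
      Ex p (fun E => (U p i (Rm (H2 i k E)) - l) * rr p i k E) +
      Ex p (fun E => (U p k (Rm (H2 i k E)) - l) * rr p i k E) +
      Ex p (fun E => rr p i k E ^ 2) := by
    rw [← Ex_add, ← Ex_add]
    exact Ex_congr p (fun E => by ring)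
  rw [a4, a3, a1, a2, b1, b2, b3]
  ring

end Pool.JN
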