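import Pool.Agent.KS.Main2

/-! The bound with a quadratic gain. -/

namespace Pool.JN

open Finset Pool.KS

set_option linter.unusedSectionVars false

variable {I J : Type*} [Fintype I] [Fintype J] [DecidableEq I] [DecidableEq J]

open Real in
theorem row_ineq3 {J K : Type*} [Fintype J] [Fintype K] [DecidableEq K] {l : ℝ}
    (hl : exp (-l) = l) {a : J → ℝ} (h0 : ∀ j, 0 ≤ a j) (h1 : ∀ j, a j ≤ 7722 / 10000)
    (hsum : ∑ j, a j = 1) (R : Finset J) (κ : J → K) :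
    exp (-TT a R) + ∑ k, exp (-TT a R) * (exp (TT a (R.filter (fun j => κ j = k))) - 1) ≤
      l * exp (-TT a R) + l - ff l (exp (-TT a R)) +
        (∑ j, a j ^ 2) * (1542 / 10000 * ff l (exp (-TT a R))) +
      (∑ j, a j ^ 2) * (9 / 10 * ff l (exp (-TT a R)) -
        9 / 20 * ((1 - 2 * l) * exp (-TT a R) + l ^ 2) + 117 / 500 * exp (-TT a R)
        - 4 / 10000) +
      ∑ k, exp (-TT a R) * (exp (TT a (R.filter (fun j => κ j = k))) - 1) *
        ∑ j ∈ R.filter (fun j => κ j = k), om (a j) := by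
  have h1' : ∀ j, a j ≤ 78 / 100 := fun j => by linarith [h1 j]
  set u := exp (-TT a R) with hu
  have hu0 : 0 < u := exp_pos _
  have hT : ∑ k, TT a (R.filter (fun j => κ j = k)) = TT a R := by
    unfold TT
    exact Finset.sum_fiberwise R κ (fun j => -log (1 - a j))
  have hcl : ∑ k, (u * (exp (TT a (R.filter (fun j => κ j = k))) - 1) -
      u * (exp (TT a (R.filter (fun j => κ j = k))) - 1) *
        ∑ j ∈ R.filter (fun j => κ j = k), om (a j)) ≤ u * TT a R := by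
    rw [← hT, Finset.mul_sum]
    refine Finset.sum_le_sum (fun k _ => ?_)
    have := mul_le_mul_of_nonneg_left
      (class_row' h0 h1' (R.filter (fun j => κ j = k))) hu0.le
    linarith
  rw [Finset.sum_sub_distrib] at hcl
  have hff : ff l u = -(u * TT a R) - (1 - l) * u + l := by
    unfold ff
    rw [hu, log_exp]; ring
  have hg0 : 0 ≤ ∑ j, a j ^ 2 := Finset.sum_nonneg (fun j _ => sq_nonneg _)
  have hf0 := ff_nonneg hl hu0
  have hnum := row_num2 hl hu0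
  have h3 := mul_le_mul_of_nonneg_left hnum hg0
  have h4 : (∑ j, a j ^ 2) * (10542 / 10000 * ff l u - 9 / 20 * ((1 - 2 * l) * u + l ^ 2)
      + 117 / 500 * u) = (∑ j, a j ^ 2) * (9 / 10 * ff l u - 9 / 20 * ((1 - 2 * l) * u + l ^ 2)
      + 117 / 500 * u - 4 / 10000) + (∑ j, a j ^ 2) * (1542 / 10000 * ff l u)
      + (∑ j, a j ^ 2) * (4 / 10000) := by ring
  rw [h4] at h3
  have h5 : u + u * TT a R = l * u + l - ff l u := by rw [hff]; ring
  linarith



theorem row_exp3 {l : ℝ} (hl : Real.exp (-l) = l) (p : I × J → ℝ) (hp0 : ∀ e, 0 ≤ p e)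
    (hp1 : ∀ e, p e ≤ 7722 / 10000) (i : I) (hsum : ∑ j, p (i, j) = 1) :
    Ex p (fun E => U p i (Rm (dR i E)) + ∑ c : Finset J, pcl p i (dR i E) c) ≤
      l * Ex p (Xi i) + l - Ex p (fun E => ff l (U p i (Rm (dR i E)))) +
      (∑ j, p (i, j) ^ 2) * (1542 / 10000 * Ex p (fun E => ff l (U p i (Rm (dR i E))))) +
      (∑ j, p (i, j) ^ 2) * (9 / 10 * Ex p (fun E => ff l (U p i (Rm (dR i E)))) -
        9 / 20 * ((1 - 2 * l) * Ex p (Xi i) + l ^ 2) + 117 / 500 * Ex p (Xi i) - 4 / 10000) +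
      ∑ j, om (p (i, j)) * Ex p (mij i j) := by
  have hlt : ∀ j, p (i, j) < 1 := fun j => by linarith [hp1 (i, j)]
  have hle1 : ∀ e, p e ≤ 1 := fun e => by linarith [hp1 e]
  rw [← Ex_omega p i (fun j => om (p (i, j))), Ex_Xi]
  have hpt : ∀ E : Finset (I × J), U p i (Rm (dR i E)) + ∑ c : Finset J, pcl p i (dR i E) c ≤
      (l * U p i (Rm (dR i E)) + l - ff l (U p i (Rm (dR i E))) +
        (∑ j, p (i, j) ^ 2) * (1542 / 10000 * ff l (U p i (Rm (dR i E))))) +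
      (∑ j, p (i, j) ^ 2) * (9 / 10 * ff l (U p i (Rm (dR i E))) -
        9 / 20 * ((1 - 2 * l) * U p i (Rm (dR i E)) + l ^ 2) +
        117 / 500 * U p i (Rm (dR i E)) - 4 / 10000) +
      ∑ c : Finset J, pcl p i (dR i E) c * ∑ j ∈ cl (dR i E) c, om (p (i, j)) := by
    intro E
    have h := row_ineq3 hl (a := fun j => p (i, j)) (fun j => hp0 _) (fun j => hp1 _) hsum
      (Rm (dR i E)) (cls (dR i E))
    rw [← U_eq p i hlt] at h
    have e1 : ∀ c : Finset J, U p i (Rm (dR i E)) *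
        (Real.exp (TT (fun j => p (i, j)) ((Rm (dR i E)).filter (fun j => cls (dR i E) j = c))) - 1)
        = pcl p i (dR i E) c := by
      intro c
      rw [pcl_eq p i hlt, ← U_eq p i hlt]; rfl
    simp only [e1] at h
    exact h
  refine le_trans (Ex_mono hp0 hle1 hpt) (le_of_eq ?_)
  rw [Ex_add, Ex_add, Ex_mul_left, Ex_add, Ex_sub, Ex_add, Ex_mul_left, Ex_mul_left, Ex_const,
    Ex_sub, Ex_add, Ex_sub, Ex_mul_left, Ex_mul_left, Ex_mul_left, Ex_add, Ex_mul_left, Ex_const,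
    Ex_const, Ex_mul_left]

theorem bound_small3 {l : ℝ} (hl : Real.exp (-l) = l) (p : I × J → ℝ) (S : Finset I)
    (T : Finset J) (hp0 : ∀ e, 0 ≤ p e) (hp1 : ∀ e, p e ≤ 7722 / 10000)
    (hrow : ∀ i ∈ S, ∑ j, p (i, j) = 1) (hcol : ∀ j ∈ T, ∑ i, p (i, j) = 1)
    (hS : ∀ i, i ∉ S → ∀ j, p (i, j) = 0) (hT : ∀ j, j ∉ T → ∀ i, p (i, j) = 0)
    (hc : S.card = T.card) :
    (2 * (1 - l) - l ^ 2) * S.card + 4 / 10000 * ∑ i ∈ S, gg p T i i +
      ∑ i ∈ S, (1 / 10 - 1542 / 10000 * gg p T i i) *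
        Ex p (fun E => ff l (U p i (Rm (dR i E)))) ≤
      Ex p (fun E => (nu E : ℝ)) := by
  have hle1 : ∀ e, p e ≤ 1 := fun e => by linarith [hp1 e]
  have hlo := lam_lo hl
  have hrow' : ∀ i ∈ S, ∑ j ∈ T, p (i, j) = 1 := by
    intro i hi
    rw [← hrow i hi]
    exact Finset.sum_subset (Finset.subset_univ _) (fun j _ hj => hT j hj i)
  have hcol' : ∀ j ∈ T, ∑ i ∈ S, p (i, j) = 1 := by
    intro j hj
    rw [← hcol j hj]
    exact Finset.sum_subset (Finset.subset_univ _) (fun i _ hi => hS i hi j)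
  have hgi : ∀ i, ∑ j, p (i, j) ^ 2 = gg p T i i := by
    intro i
    unfold gg
    symm
    have : ∑ j ∈ T, p (i, j) * p (i, j) = ∑ j ∈ T, p (i, j) ^ 2 :=
      Finset.sum_congr rfl (fun j _ => by ring)
    rw [this]
    refine Finset.sum_subset (Finset.subset_univ _) (fun j _ hj => ?_)
    rw [hT j hj i]; norm_num
  have hom0 : om 0 = 0 := by unfold om; norm_num
  -- abbreviations
  set x : I → ℝ := fun i => Ex p (Xi i) with hx
  set F : I → ℝ := fun i => Ex p (fun E => ff l (U p i (Rm (dR i E)))) with hF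
  set RR : I → ℝ := fun i => Ex p (fun E => U p i (Rm (dR i E)) +
    ∑ c : Finset J, pcl p i (dR i E) c) with hRR
  set M : ℝ := ∑ i ∈ S, ∑ j ∈ T, om (p (i, j)) * Ex p (mij i j) with hM
  -- rows
  have hrows : ∑ i ∈ S, RR i ≤ ∑ i ∈ S, (l * x i + l - F i + gg p T i i * (1542 / 10000 * F i) +
      gg p T i i * (9 / 10 * F i - 9 / 20 * ((1 - 2 * l) * x i + l ^ 2) + 117 / 500 * x i
        - 4 / 10000)) + M := by
    rw [hM, ← Finset.sum_add_distrib]
    refine Finset.sum_le_sum (fun i hi => ?_)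
    have h := row_exp3 hl p hp0 hp1 i (hrow i hi)
    rw [hgi i] at h
    have e : ∑ j ∈ T, om (p (i, j)) * Ex p (mij i j) = ∑ j, om (p (i, j)) * Ex p (mij i j) := by
      refine Finset.sum_subset (Finset.subset_univ _) (fun j _ hj => ?_)
      rw [hT j hj i, hom0, zero_mul]
    rw [e]
    exact h
  -- columns
  have hcols : ∑ j ∈ T, Ex p (Yj j) ≤
      Ex p (fun E => ∑ j ∈ T, Qf l (∑ i ∈ Lm E, p (i, j)) (∑ i ∈ Lm E, p (i, j) ^ 2)) - M := by
    rw [Ex_sum, hM, Finset.sum_comm, ← Finset.sum_sub_distrib]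
    refine Finset.sum_le_sum (fun j hj => ?_)
    have h := col_exp' hl p hp0 hp1 j (hcol j hj)
    have e : ∑ i ∈ S, om (p (i, j)) * Ex p (mij i j) = ∑ i, om (p (i, j)) * Ex p (mij i j) := by
      refine Finset.sum_subset (Finset.subset_univ _) (fun i _ hi => ?_)
      rw [hS i hi j, hom0, zero_mul]
    rw [e]
    exact h
  have hcs : Ex p (fun E => ∑ j ∈ T, Qf l (∑ i ∈ Lm E, p (i, j)) (∑ i ∈ Lm E, p (i, j) ^ 2)) =
      (l * T.card - l * ∑ i ∈ S, (x i - l)) +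
      9 / 20 * (∑ i ∈ S, gg p T i i * ((1 - 2 * l) * x i + l ^ 2) +
        ∑ i ∈ S, ∑ k ∈ S.erase i, gg p T i k * Ex p (fun E => (Xi i E - l) * (Xi k E - l))) -
      117 / 500 * ∑ i ∈ S, gg p T i i * x i := by
    rw [Ex_congr p (fun E => col_sum (l := l) p S T hrow' hcol' hS E)]
    rw [Ex_sub, Ex_add, Ex_sub, Ex_const, Ex_mul_left, Ex_mul_left, Ex_mul_left, Ex_add, Ex_sum,
      Ex_sum, Ex_sum, Ex_sum]
    have a1 : ∑ k ∈ S, Ex p (fun E => Xi k E - l) = ∑ i ∈ S, (x i - l) := by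
      refine Finset.sum_congr rfl (fun i _ => ?_)
      rw [Ex_sub, Ex_const]
    have a2 : ∑ k ∈ S, Ex p (fun E => gg p T k k * ((1 - 2 * l) * Xi k E + l ^ 2)) =
        ∑ i ∈ S, gg p T i i * ((1 - 2 * l) * x i + l ^ 2) := by
      refine Finset.sum_congr rfl (fun i _ => ?_)
      rw [Ex_mul_left, Ex_add, Ex_mul_left, Ex_const]
    have a3 : ∑ k ∈ S, Ex p (fun E => ∑ k_1 ∈ S.erase k,
        gg p T k k_1 * ((Xi k E - l) * (Xi k_1 E - l))) =
        ∑ i ∈ S, ∑ k ∈ S.erase i, gg p T i k * Ex p (fun E => (Xi i E - l) * (Xi k E - l)) := by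
      refine Finset.sum_congr rfl (fun i _ => ?_)
      rw [Ex_sum]
      refine Finset.sum_congr rfl (fun k _ => ?_)
      rw [Ex_mul_left]
    have a4 : ∑ k ∈ S, Ex p (fun E => gg p T k k * Xi k E) = ∑ i ∈ S, gg p T i i * x i := by
      refine Finset.sum_congr rfl (fun i _ => ?_)
      rw [Ex_mul_left]
    rw [a1, a2, a3, a4]
  have hpair : ∑ i ∈ S, ∑ k ∈ S.erase i, gg p T i k * Ex p (fun E => (Xi i E - l) * (Xi k E - l)) ≤
      2 * ∑ i ∈ S, (1 - gg p T i i) * F i := by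
    rw [← off_diag (l := l) p S T hrow' hcol' F]
    refine Finset.sum_le_sum (fun i hi => Finset.sum_le_sum (fun k hk => ?_))
    have hk' := Finset.mem_erase.mp hk
    refine mul_le_mul_of_nonneg_left ?_ (Finset.sum_nonneg (fun j _ => mul_nonneg (hp0 _) (hp0 _)))
    exact pair_exp hl p hp0 hp1 hk'.1 (hrow i hi) (hrow k hk'.2)
  -- the matching number
  rw [Ex_nu]
  have n1 : ∑ j ∈ T, (1 - Ex p (Yj j)) ≤ ∑ j, (1 - Ex p (Yj j)) := by
    refine Finset.sum_le_sum_of_subset_of_nonneg (Finset.subset_univ _) (fun j _ _ => ?_)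
    have : Ex p (Yj j) ≤ Ex p (fun _ => 1) := Ex_mono hp0 hle1 (fun E => by
      unfold Yj; split_ifs <;> norm_num)
    rw [Ex_one] at this
    linarith
  have n2 : ∑ i ∈ S, (1 - RR i) ≤ ∑ i, (1 - RR i) := by
    refine Finset.sum_le_sum_of_subset_of_nonneg (Finset.subset_univ _) (fun i _ _ => ?_)
    have : RR i ≤ Ex p (fun _ => 1) := by
      rw [hRR]
      simp only
      rw [← Ex_adj]
      exact Ex_mono hp0 hle1 (fun E => by unfold av; split_ifs <;> norm_num)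
    rw [Ex_one] at this
    linarith
  have n3 : ∑ j ∈ T, (1 - Ex p (Yj j)) = T.card - ∑ j ∈ T, Ex p (Yj j) := by
    rw [Finset.sum_sub_distrib]; simp
  have n4 : ∑ i ∈ S, (1 - RR i) = S.card - ∑ i ∈ S, RR i := by
    rw [Finset.sum_sub_distrib]; simp
  -- algebra
  have alg : ∑ i ∈ S, (l * x i + l - F i + gg p T i i * (1542 / 10000 * F i) +
      gg p T i i * (9 / 10 * F i - 9 / 20 * ((1 - 2 * l) * x i + l ^ 2) + 117 / 500 * x i
        - 4 / 10000)) =
      (l + l ^ 2) * S.card + l * ∑ i ∈ S, (x i - l) - 9 / 10 * ∑ i ∈ S, (1 - gg p T i i) * F i -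
      ∑ i ∈ S, (1 / 10 - 1542 / 10000 * gg p T i i) * F i -
      9 / 20 * ∑ i ∈ S, gg p T i i * ((1 - 2 * l) * x i + l ^ 2) +
      117 / 500 * ∑ i ∈ S, gg p T i i * x i - 4 / 10000 * ∑ i ∈ S, gg p T i i := by
    have c1 : ((l + l ^ 2) * S.card : ℝ) = ∑ i ∈ S, (l + l ^ 2) := by
      rw [Finset.sum_const, nsmul_eq_mul]; ring
    rw [c1, Finset.mul_sum, Finset.mul_sum, Finset.mul_sum, Finset.mul_sum, Finset.mul_sum,
      ← Finset.sum_add_distrib, ← Finset.sum_sub_distrib, ← Finset.sum_sub_distrib,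
      ← Finset.sum_sub_distrib, ← Finset.sum_add_distrib, ← Finset.sum_sub_distrib]
    exact Finset.sum_congr rfl (fun i _ => by ring)
  rw [alg] at hrows
  rw [hcs] at hcols
  have hcR : (S.card : ℝ) = T.card := by exact_mod_cast hc
  have fin : (2 * (1 - l) - l ^ 2) * (S.card : ℝ) + 4 / 10000 * ∑ i ∈ S, gg p T i i +
      ∑ i ∈ S, (1 / 10 - 1542 / 10000 * gg p T i i) * F i ≤
      (T.card - ∑ j ∈ T, Ex p (Yj j)) + (S.card - ∑ i ∈ S, RR i) := by
    rw [← hcR] at hcols ⊢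
    nlinarith [hcols, hrows, hpair]
  rw [n3] at n1
  rw [n4] at n2
  refine fin.trans ?_
  exact add_le_add n1 n2


theorem ff_ge_sq {l u : ℝ} (hl : Real.exp (-l) = l) (hu : 0 < u) (hu1 : u ≤ 1) :
    (u - l) ^ 2 / 2 ≤ ff l u := by
  have hlo := lam_lo hl
  have hhi := lam_hi hl
  have hl0 : 0 < l := by linarith
  by_cases h : l ≤ u
  · exact ff_quad hl h hu1
  · push Not at h
    obtain ⟨z, hz⟩ : ∃ z, u = l * (1 + z) := ⟨u / l - 1, by field_simp; ring⟩
    have hz0 : z < 0 := by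
      by_contra hh
      push Not at hh
      nlinarith
    have hz1 : -1 < z := by
      by_contra hh
      push Not at hh
      nlinarith
    have hT3 := T3 (y := z) hz1
    have hfu : ff l u = l * ((1 + z) * Real.log (1 + z) - z) := by
      unfold ff
      rw [hz, Real.log_mul hl0.ne' (by linarith : (1 + z) ≠ 0), log_lam hl]; ring
    rw [hfu, hz]
    have h1 : l * (z ^ 2 / 2 - z ^ 3 / 6) ≤ l * ((1 + z) * Real.log (1 + z) - z) :=
      mul_le_mul_of_nonneg_left (by linarith) hl0.le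
    refine le_trans ?_ h1
    have h2 : 0 ≤ l * z ^ 2 * (1 / 2 - z / 6 - l / 2) := by
      have : 0 ≤ 1 / 2 - z / 6 - l / 2 := by linarith
      positivity
    nlinarith

theorem ff_le_lam {l u : ℝ} (hl : Real.exp (-l) = l) (hu : 0 < u) (hu1 : u ≤ 1) :
    ff l u ≤ l := by
  have hhi := lam_hi hl
  unfold ff
  have h1 : Real.log u ≤ 0 := Real.log_nonpos hu.le hu1
  nlinarith [mul_nonneg hu.le (neg_nonneg.mpr h1)]

theorem U_pos {p : I × J → ℝ} {i : I} (h : ∀ j, p (i, j) < 1) (S : Finset J) : 0 < U p i S :=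
  Finset.prod_pos (fun j _ => sub_pos.mpr (h j))

theorem U_le_one {p : I × J → ℝ} {i : I} (h0 : ∀ j, 0 ≤ p (i, j)) (h : ∀ j, p (i, j) ≤ 1)
    (S : Finset J) : U p i S ≤ 1 :=
  Finset.prod_le_one (fun j _ => sub_nonneg.mpr (h j)) (fun j _ => by linarith [h0 j])

/-- The slack of the linear bound controls the variances of the rows. -/
theorem slack_rows {l : ℝ} (hl : Real.exp (-l) = l) (p : I × J → ℝ) (S : Finset I)
    (T : Finset J) (hp0 : ∀ e, 0 ≤ p e) (hp1 : ∀ e, p e ≤ 7722 / 10000)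
    (hrow : ∀ i ∈ S, ∑ j, p (i, j) = 1) (hcol : ∀ j ∈ T, ∑ i, p (i, j) = 1)
    (hS : ∀ i, i ∉ S → ∀ j, p (i, j) = 0) (hT : ∀ j, j ∉ T → ∀ i, p (i, j) = 0)
    (hc : S.card = T.card) :
    ∑ i ∈ S, Ex p (fun E => (U p i (Rm (dR i E)) - l) ^ 2) ≤
      5000 * (Ex p (fun E => (nu E : ℝ)) - (2 * (1 - l) - l ^ 2) * S.card) := by
  have h := bound_small3 hl p S T hp0 hp1 hrow hcol hS hT hc
  have hle1 : ∀ e, p e ≤ 1 := fun e => by linarith [hp1 e]
  have hhi := lam_hi hl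
  have hg0 : ∀ i, 0 ≤ gg p T i i := fun i =>
    Finset.sum_nonneg (fun j _ => mul_nonneg (hp0 _) (hp0 _))
  set F : I → ℝ := fun i => Ex p (fun E => ff l (U p i (Rm (dR i E)))) with hF
  set X := Ex p (fun E => (nu E : ℝ)) - (2 * (1 - l) - l ^ 2) * S.card with hX
  have hF0 : ∀ i, 0 ≤ F i := by
    intro i
    have : Ex p (fun _ => (0 : ℝ)) ≤ F i := Ex_mono hp0 hle1 (fun E =>
      ff_nonneg hl (U_pos (fun j => by linarith [hp1 (i, j)]) _))
    rwa [Ex_const] at this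
  have hF1 : ∀ i, F i ≤ l := by
    intro i
    have : F i ≤ Ex p (fun _ => l) := Ex_mono hp0 hle1 (fun E =>
      ff_le_lam hl (U_pos (fun j => by linarith [hp1 (i, j)]) _)
        (U_le_one (fun j => hp0 _) (fun j => hle1 _) _))
    rwa [Ex_const] at this
  have hsq : ∀ i, Ex p (fun E => (U p i (Rm (dR i E)) - l) ^ 2) ≤ 2 * F i := by
    intro i
    rw [hF]
    simp only
    rw [← Ex_mul_left]
    refine Ex_mono hp0 hle1 (fun E => ?_)
    have := ff_ge_sq hl (U_pos (fun j => by linarith [hp1 (i, j)]) (Rm (dR i E)))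
      (U_le_one (fun j => hp0 (i, j)) (fun j => hle1 (i, j)) (Rm (dR i E)))
    linarith
  have e1 : ∑ i ∈ S, (1 / 10 - 1542 / 10000 * gg p T i i) * F i =
      1 / 10 * ∑ i ∈ S, F i - 1542 / 10000 * ∑ i ∈ S, gg p T i i * F i := by
    rw [Finset.mul_sum, Finset.mul_sum, ← Finset.sum_sub_distrib]
    exact Finset.sum_congr rfl (fun i _ => by ring)
  have e2 : ∑ i ∈ S, gg p T i i * F i ≤ ∑ i ∈ S, gg p T i i * (5672 / 10000) := by
    refine Finset.sum_le_sum (fun i _ => mul_le_mul_of_nonneg_left ?_ (hg0 i))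
    linarith [hF1 i]
  rw [← Finset.sum_mul] at e2
  have hFs : 0 ≤ ∑ i ∈ S, F i := Finset.sum_nonneg (fun i _ => hF0 i)
  have hG : 0 ≤ ∑ i ∈ S, gg p T i i := Finset.sum_nonneg (fun i _ => hg0 i)
  have h' : 4 / 10000 * ∑ i ∈ S, gg p T i i + (1 / 10 * ∑ i ∈ S, F i -
      1542 / 10000 * ∑ i ∈ S, gg p T i i * F i) ≤ X := by
    rw [hX]
    have e3 := h
    rw [e1] at e3
    linarith
  -- without the variances
  have hG2 := bound_small2 hl p S T hp0 hp1 hrow hcol hS hT hc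
  have hG3 : 4 / 10000 * ∑ i ∈ S, gg p T i i ≤ X := by rw [hX]; linarith
  calc ∑ i ∈ S, Ex p (fun E => (U p i (Rm (dR i E)) - l) ^ 2) ≤ ∑ i ∈ S, 2 * F i :=
        Finset.sum_le_sum (fun i _ => hsq i)
    _ = 2 * ∑ i ∈ S, F i := by rw [Finset.mul_sum]
    _ ≤ _ := by
      have hX0 : 0 ≤ X := by linarith [mul_nonneg (show (0 : ℝ) ≤ 4 / 10000 by norm_num) hG]
      linarith

/-- The slack of the linear bound controls the sum of squares. -/
theorem slack_sq {l : ℝ} (hl : Real.exp (-l) = l) (p : I × J → ℝ) (S : Finset I)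
    (T : Finset J) (hp0 : ∀ e, 0 ≤ p e) (hp1 : ∀ e, p e ≤ 7722 / 10000)
    (hrow : ∀ i ∈ S, ∑ j, p (i, j) = 1) (hcol : ∀ j ∈ T, ∑ i, p (i, j) = 1)
    (hS : ∀ i, i ∉ S → ∀ j, p (i, j) = 0) (hT : ∀ j, j ∉ T → ∀ i, p (i, j) = 0)
    (hc : S.card = T.card) :
    ∑ i ∈ S, gg p T i i ≤
      2500 * (Ex p (fun E => (nu E : ℝ)) - (2 * (1 - l) - l ^ 2) * S.card) := by
  have hG2 := bound_small2 hl p S T hp0 hp1 hrow hcol hS hT hc
  linarith

/-- The slack of the linear bound controls the variances of the columns. -/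
theorem slack_cols {l : ℝ} (hl : Real.exp (-l) = l) (p : I × J → ℝ) (S : Finset I)
    (T : Finset J) (hp0 : ∀ e, 0 ≤ p e) (hp1 : ∀ e, p e ≤ 7722 / 10000)
    (hrow : ∀ i ∈ S, ∑ j, p (i, j) = 1) (hcol : ∀ j ∈ T, ∑ i, p (i, j) = 1)
    (hS : ∀ i, i ∉ S → ∀ j, p (i, j) = 0) (hT : ∀ j, j ∉ T → ∀ i, p (i, j) = 0)
    (hc : S.card = T.card) :
    ∑ j ∈ T, Ex p (fun E => (U (pt p) j (Lm (dC j E)) - l) ^ 2) ≤
      5000 * (Ex p (fun E => (nu E : ℝ)) - (2 * (1 - l) - l ^ 2) * S.card) := by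
  have h := slack_rows hl (pt p) T S (fun e => hp0 _) (fun e => hp1 _) hcol hrow hT hS hc.symm
  have e1 : Ex (pt p) (fun E => (nu E : ℝ)) = Ex p (fun E => (nu E : ℝ)) := by
    rw [← Ex_tr]
    exact Ex_congr p (fun E => by rw [nu_tr])
  have e2 : ∀ j, Ex (pt p) (fun E => (U (pt p) j (Rm (dR j E)) - l) ^ 2) =
      Ex p (fun E => (U (pt p) j (Lm (dC j E)) - l) ^ 2) := by
    intro j
    rw [← Ex_tr]
    refine Ex_congr p (fun E => ?_)
    rw [← tr_dC, Rm_tr]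
  rw [e1, Finset.sum_congr rfl (fun j _ => e2 j), ← hc] at h
  exact h

end Pool.JN
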