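import Pool.Agent.JN.LIN
import Pool.Agent.JN.Slack

/-! Block T1 (matrices with small entries): definitions. -/

namespace Pool.JN

open Finset Pool.KS

set_option linter.unusedSectionVars false

variable {I J : Type*} [Fintype I] [Fintype J] [DecidableEq I] [DecidableEq J]

/-- the constant of the block: bounds the first four moments of class sizes -/
noncomputable def BB : ℝ := 1 + Dm (1 / 2) 1 + Dm (1 / 2) 2 + Dm (1 / 2) 3 + Dm (1 / 2) 4

theorem BB_one : 1 ≤ BB := by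
  unfold BB
  have h1 := Dm_nonneg (1 / 2) 1
  have h2 := Dm_nonneg (1 / 2) 2
  have h3 := Dm_nonneg (1 / 2) 3
  have h4 := Dm_nonneg (1 / 2) 4
  linarith

theorem cls_BB {p : I × J → ℝ} (hp : Sub p (1 / 2)) (m : ℕ) (hm1 : 1 ≤ m) (hm4 : m ≤ 4) (j : J) :
    Ex p (fun E => if j ∈ Rm E then ((cls E j).card : ℝ) ^ m else 0) ≤ BB := by
  refine (cls_moment hp (by norm_num) m j).trans ?_
  have h1 := Dm_nonneg (1 / 2) 1
  have h2 := Dm_nonneg (1 / 2) 2
  have h3 := Dm_nonneg (1 / 2) 3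
  have h4 := Dm_nonneg (1 / 2) 4
  unfold BB
  interval_cases m <;> linarith

/-- sum of the weights `d` over the missable columns -/
noncomputable def LR (d : J → ℝ) (E : Finset (I × J)) : ℝ := ∑ j ∈ Rm E, d j

/-- squared euclidean norm -/
noncomputable def nsq {κ : Type*} [Fintype κ] (d : κ → ℝ) : ℝ := ∑ j, d j ^ 2

/-- squared norm of row `i` -/
noncomputable def nr (p : I × J → ℝ) (i : I) : ℝ := ∑ j, p (i, j) ^ 2

/-- probability that row `i` misses the columns which are missable without row `i` -/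
noncomputable def Ut (p : I × J → ℝ) (i : I) (E : Finset (I × J)) : ℝ := U p i (Rm (dR i E))

/-- the graph without the rows `i` and `k` -/
def H2 (i k : I) (E : Finset (I × J)) : Finset (I × J) := dR k (dR i E)

/-- conditional probability, given the graph without the rows `i, k`, that `i` and `k` both hit
exactly one and the same class (= that rows `i, k` are parallel) -/
noncomputable def rr (p : I × J → ℝ) (i k : I) (E : Finset (I × J)) : ℝ :=
  ∑ c : Finset J, pcl p k (H2 i k E) c * pcl p i (H2 i k E) c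

/-- mass (for row `i`) of the columns which stop being missable when row `i` is added -/
noncomputable def kl (p : I × J → ℝ) (i : I) (E : Finset (I × J)) : ℝ :=
  ∑ j ∈ Rm (dR i E) \ Rm E, p (i, j)

/-- matrices with small entries, row and column sums in `[1 - 2M, 1]` on `S` and `T`, zero
outside `S × T` -/
structure Env (p : I × J → ℝ) (S : Finset I) (T : Finset J) (M K : ℝ) : Prop where
  M0 : 0 ≤ M
  K0 : 0 ≤ K
  h0 : ∀ e, 0 ≤ p e
  h1 : ∀ e, p e ≤ M
  zS : ∀ i, i ∉ S → ∀ j, p (i, j) = 0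
  zT : ∀ j, j ∉ T → ∀ i, p (i, j) = 0
  hr : ∀ i, ∑ j, p (i, j) ≤ 1
  hc : ∀ j, ∑ i, p (i, j) ≤ 1
  rS : ∀ i ∈ S, 1 - 2 * M ≤ ∑ j, p (i, j)
  cT : ∀ j ∈ T, 1 - 2 * M ≤ ∑ i, p (i, j)
  dS : ∑ i ∈ S, (1 - ∑ j, p (i, j)) ^ 2 ≤ 4 * M
  dT : ∑ j ∈ T, (1 - ∑ i, p (i, j)) ^ 2 ≤ 4 * M
  sq : ∑ i, ∑ j, p (i, j) ^ 2 ≤ K

/-- the smallness condition of the block -/
def Small (M K : ℝ) : Prop := 100000 * BB ^ 3 * Real.sqrt (M * (K + 1)) ≤ 1

theorem Small.M_le {M K : ℝ} (h : Small M K) (hM : 0 ≤ M) (hK : 0 ≤ K) :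
    M ≤ 1 / 10 ^ 10 := by
  unfold Small at h
  have hB := BB_one
  have hB3 : 1 ≤ BB ^ 3 := one_le_pow₀ hB
  have hs : 0 ≤ Real.sqrt (M * (K + 1)) := Real.sqrt_nonneg _
  have h1 : 100000 * Real.sqrt (M * (K + 1)) ≤ 1 := by nlinarith
  have h2 : Real.sqrt (M * (K + 1)) ≤ 1 / 100000 := by linarith
  have h3 : M * (K + 1) ≤ (1 / 100000) ^ 2 := by
    rw [← Real.sqrt_le_left (by norm_num)]
    exact h2
  have h4 : M ≤ M * (K + 1) := by nlinarith
  refine h4.trans (h3.trans (le_of_eq (by norm_num)))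

theorem Env.tr {p : I × J → ℝ} {S : Finset I} {T : Finset J} {M K : ℝ} (h : Env p S T M K) :
    Env (pt p) T S M K := by
  refine ⟨h.M0, h.K0, fun e => h.h0 _, fun e => h.h1 _, h.zT, h.zS, h.hc, h.hr, h.cT, h.rS,
    h.dT, h.dS, ?_⟩
  rw [Finset.sum_comm]
  exact h.sq

theorem Env.sub {p : I × J → ℝ} {S : Finset I} {T : Finset J} {M K : ℝ} (h : Env p S T M K)
    (hM : M ≤ 1 / 2) : Sub p (1 / 2) :=
  ⟨h.h0, fun e => (h.h1 e).trans hM, h.hr, h.hc⟩

/-- row `i` of `p` set to zero -/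
def zr (p : I × J → ℝ) (i : I) : I × J → ℝ := fun e => if e.1 = i then 0 else p e

theorem Ex_zr (p : I × J → ℝ) (i : I) (G : Finset (I × J) → ℝ) :
    Ex p (fun E => G (dR i E)) = Ex (zr p i) G := KX.up_dR p i G

theorem Sub.zr {p : I × J → ℝ} {th : ℝ} (h : Sub p th) (i : I) :
    Sub (zr p i) th := by
  have key : ∀ e, JN.zr p i e ≤ p e := by
    intro e
    unfold JN.zr
    split_ifs
    · exact h.h0 e
    · exact le_rfl
  refine ⟨fun e => ?_, fun e => ?_, fun i' => ?_, fun j => ?_⟩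
  · unfold JN.zr; split_ifs
    · exact le_rfl
    · exact h.h0 e
  · exact (key e).trans (h.h1 e)
  · exact (Finset.sum_le_sum (fun j _ => key _)).trans (h.hr i')
  · exact (Finset.sum_le_sum (fun i _ => key _)).trans (h.hc j)

/-- Schur: a matrix with row and column sums at most one is a contraction of `ℓ²` -/
theorem schur (p : I × J → ℝ) (h0 : ∀ e, 0 ≤ p e) (hr : ∀ i, ∑ j, p (i, j) ≤ 1)
    (hc : ∀ j, ∑ i, p (i, j) ≤ 1) (e : I → ℝ) :
    ∑ j, (∑ i, p (i, j) * e i) ^ 2 ≤ ∑ i, e i ^ 2 := by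
  calc ∑ j, (∑ i, p (i, j) * e i) ^ 2 ≤ ∑ j, ∑ i, p (i, j) * e i ^ 2 := by
        refine Finset.sum_le_sum (fun j _ => ?_)
        have h := Finset.sum_mul_sq_le_sq_mul_sq Finset.univ (fun i => Real.sqrt (p (i, j)))
          (fun i => Real.sqrt (p (i, j)) * e i)
        have e1 : ∑ i, Real.sqrt (p (i, j)) * (Real.sqrt (p (i, j)) * e i) =
            ∑ i, p (i, j) * e i := by
          refine Finset.sum_congr rfl (fun i _ => ?_)
          rw [← mul_assoc, Real.mul_self_sqrt (h0 _)]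
        have e2 : ∑ i, Real.sqrt (p (i, j)) ^ 2 = ∑ i, p (i, j) :=
          Finset.sum_congr rfl (fun i _ => Real.sq_sqrt (h0 _))
        have e3 : ∑ i, (Real.sqrt (p (i, j)) * e i) ^ 2 = ∑ i, p (i, j) * e i ^ 2 := by
          refine Finset.sum_congr rfl (fun i _ => ?_)
          rw [mul_pow, Real.sq_sqrt (h0 _)]
        rw [e1, e2, e3] at h
        have h3 : 0 ≤ ∑ i, p (i, j) * e i ^ 2 :=
          Finset.sum_nonneg (fun i _ => mul_nonneg (h0 _) (sq_nonneg _))
        calc _ ≤ (∑ i, p (i, j)) * ∑ i, p (i, j) * e i ^ 2 := h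
          _ ≤ 1 * ∑ i, p (i, j) * e i ^ 2 := mul_le_mul_of_nonneg_right (hc j) h3
          _ = _ := one_mul _
    _ = ∑ i, (∑ j, p (i, j)) * e i ^ 2 := by
        rw [Finset.sum_comm]
        exact Finset.sum_congr rfl (fun i _ => by rw [Finset.sum_mul])
    _ ≤ ∑ i, 1 * e i ^ 2 :=
        Finset.sum_le_sum (fun i _ => mul_le_mul_of_nonneg_right (hr i) (sq_nonneg _))
    _ = _ := Finset.sum_congr rfl (fun i _ => one_mul _)

theorem LR_eq (d : J → ℝ) (E : Finset (I × J)) : LR d E = ∑ j, d j * Yj j E := by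
  unfold LR Yj
  simp only [mul_ite, mul_one, mul_zero]
  rw [← Finset.sum_filter]
  exact Finset.sum_congr (by ext j; simp) (fun _ _ => rfl)

/-- Minkowski for `Ex` -/
theorem Ex_mink {ε : Type*} [Fintype ε] [DecidableEq ε] {p : ε → ℝ} (h0 : ∀ e, 0 ≤ p e)
    (h1 : ∀ e, p e ≤ 1) (f g : Finset ε → ℝ) :
    Real.sqrt (Ex p (fun E => (f E + g E) ^ 2)) ≤
      Real.sqrt (Ex p (fun E => f E ^ 2)) + Real.sqrt (Ex p (fun E => g E ^ 2)) := by
  have hf : 0 ≤ Ex p (fun E => f E ^ 2) := Ex_nonneg h0 h1 (fun E => sq_nonneg _)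
  have hg : 0 ≤ Ex p (fun E => g E ^ 2) := Ex_nonneg h0 h1 (fun E => sq_nonneg _)
  have hcs := Ex_cs_sqrt h0 h1 f g
  rw [Real.sqrt_le_left (by positivity)]
  have e1 : Ex p (fun E => (f E + g E) ^ 2) =
      Ex p (fun E => f E ^ 2) + 2 * Ex p (fun E => f E * g E) + Ex p (fun E => g E ^ 2) := by
    rw [← Ex_mul_left, ← Ex_add, ← Ex_add]
    exact Ex_congr p (fun E => by ring)
  rw [e1, add_sq, Real.sq_sqrt hf, Real.sq_sqrt hg]
  nlinarith

/-- deviation of the mass of the missable columns (without row `i`) for row `i` -/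
noncomputable def tt (p : I × J → ℝ) (l : ℝ) (i : I) (E : Finset (I × J)) : ℝ :=
  ∑ j ∈ Rm (dR i E), p (i, j) - l

/-- probability that a vertex with law `a` misses `S` -/
noncomputable def Ua (a : J → ℝ) (S : Finset J) : ℝ := ∏ j ∈ S, (1 - a j)

/-- probability that the nonempty set of hit missable columns lies in class `c`, law `a` -/
noncomputable def ka (a : J → ℝ) (H : Finset (I × J)) (c : Finset J) : ℝ :=
  Ua a (Rm H \ cl H c) - Ua a (Rm H)

/-- the rows `i` and `k` replaced by their average -/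
noncomputable def av2 (p : I × J → ℝ) (i k : I) : I × J → ℝ :=
  fun e => if e.1 = i ∨ e.1 = k then (p (i, e.2) + p (k, e.2)) / 2 else p e

theorem rr_eq (p : I × J → ℝ) (i k : I) (E : Finset (I × J)) : rr p i k E =
    ∑ c : Finset J, ka (fun j => p (k, j)) (H2 i k E) c * ka (fun j => p (i, j)) (H2 i k E) c :=
  rfl

/-- the class with label `cls H j` of a missable column is `cls H j` -/
theorem cl_cls {H : Finset (I × J)} {j : J} (hj : j ∈ Rm H) : cl H (cls H j) = cls H j := by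
  ext l
  rw [mem_cl]
  constructor
  · rintro ⟨h1, h2⟩
    rw [← h2]
    exact cls_self h1
  · intro h
    exact ⟨(mem_cls.mp h).1, cls_eq hj h⟩

/-- sums over classes as sums over missable columns -/
theorem sum_classes (H : Finset (I × J)) (w : J → ℝ) (G : Finset J → ℝ) :
    ∑ c : Finset J, (∑ j ∈ cl H c, w j) * G (cl H c) = ∑ j ∈ Rm H, w j * G (cls H j) := by
  classical
  have h1 : ∑ j ∈ Rm H, w j * G (cls H j) =
      ∑ c : Finset J, ∑ j ∈ (Rm H).filter (fun j => cls H j = c), w j * G (cls H j) :=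
    (Finset.sum_fiberwise (Rm H) (cls H) (fun j => w j * G (cls H j))).symm
  rw [h1]
  refine Finset.sum_congr rfl (fun c _ => ?_)
  rw [Finset.sum_mul]
  refine Finset.sum_congr rfl (fun j hj => ?_)
  obtain ⟨hj1, hj2⟩ := Finset.mem_filter.mp hj
  rw [← cl_cls hj1, hj2]

end Pool.JN
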