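import Pool.Agent.JN.D0

/-! Module Dl (difficulty 2). Deterministic: effect of one column on a linear functional of the missable columns.

PROOFS. (1) Column j is isolated in dC j E, so it is missable there; therefore the sum runs over (Rm (dC j E)).erase j.
 By mono_Rm, (Rm (dC j E)).erase j ⊆ (Rm E).erase j.
 If j ∈ Rm E: an l ∈ Rm E, l ≠ j, is outside Rm (dC j E) iff l ∈ cls E j (mem_cls), and j ∈ cls E j: hence
   Rm E = (Rm (dC j E)).erase j ∪ cls E j, disjoint.
 If j ∉ Rm E: nu E = nu (dC j E) + 1. For l ∈ Rm E, l ≠ j (l ≠ j automatically): nu (dC l E) = nu E,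
   nu (dC j (dC l E)) >= nu (dC l E) - 1 = nu (dC j E), so l ∈ Rm (dC j E) (dC_comm). Hence Rm E = (Rm (dC j E)).erase j.
 (2) Cauchy-Schwarz (sum_{l in cls j} d_l)^2 <= |cls j| sum_{l in cls j} d_l^2, and, since l ∈ cls E j ⇔ j ∈ cls E l and then
   cls E l = cls E j (cls_symm, cls_eq):  sum_{j in R} |cls j| sum_{l in cls j} d_l^2 = sum_{l in R} d_l^2 sum_{j in cls l} |cls j|
   = sum_{l in R} d_l^2 |cls l|^2.
 (3) Cauchy-Schwarz: (sum_l d_l * (d_l |cls l|^2))^2 <= (sum d_l^2)(sum d_l^2 |cls l|^4), sums over Rm E.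
 (4) General version of the interchange (used elsewhere).
-/

namespace Pool.JN

open Finset Pool.KS

set_option linter.unusedSectionVars false

variable {I J : Type*} [Fintype I] [Fintype J] [DecidableEq I] [DecidableEq J]

theorem LR_sub (d : J → ℝ) (j : J) (E : Finset (I × J)) :
    LR d E - ∑ l ∈ (Rm (dC j E)).erase j, d l =
      if j ∈ Rm E then ∑ l ∈ cls E j, d l else 0 := by
  unfold LR
  by_cases hj : j ∈ Rm E
  · rw [if_pos hj]
    have h1 : (Rm (dC j E)).erase j = Rm E \ cls E j := by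
      ext l
      rw [mem_erase, mem_sdiff, mem_cls]
      constructor
      · rintro ⟨h1, h2⟩
        refine ⟨mono_Rm h1 h2, ?_⟩
        rintro ⟨_, h3 | h3⟩
        · exact h1 h3
        · exact h3 h2
      · rintro ⟨h1, h2⟩
        by_contra h3
        apply h2
        refine ⟨h1, ?_⟩
        by_cases h4 : l = j
        · exact Or.inl h4
        · right
          intro h5
          exact h3 ⟨h4, h5⟩
    have h2 : cls E j ⊆ Rm E := fun l hl => (mem_cls.mp hl).1
    rw [h1, ← Finset.sum_sdiff h2]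
    ring
  · rw [if_neg hj]
    have h1 : Rm E = (Rm (dC j E)).erase j := by
      ext l
      rw [mem_erase]
      constructor
      · intro hl
        have hlj : l ≠ j := by
          rintro rfl
          exact hj hl
        refine ⟨hlj, ?_⟩
        rw [mem_Rm] at hl ⊢
        rw [not_mem_Rm] at hj
        have h2 := nu_le_dC j (dC l E)
        have h3 := nu_dC_le l (dC j E)
        rw [dC_comm j l E] at h2
        omega
      · rintro ⟨h1, h2⟩
        exact mono_Rm h1 h2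
    rw [← h1, sub_self]

theorem sum_cls_comm (w : J → ℝ) (v : J → ℝ) (E : Finset (I × J)) (r : ℕ) :
    ∑ j ∈ Rm E, w j * (((cls E j).card : ℝ) ^ r * ∑ l ∈ cls E j, v l) =
      ∑ l ∈ Rm E, v l * (((cls E l).card : ℝ) ^ r * ∑ j ∈ cls E l, w j) := by
  have h1 : ∀ (w v : J → ℝ), ∑ j ∈ Rm E, w j * (((cls E j).card : ℝ) ^ r * ∑ l ∈ cls E j, v l) =
      ∑ j ∈ Rm E, ∑ l ∈ Rm E, if l ∈ cls E j then w j * ((cls E j).card : ℝ) ^ r * v l else 0 := by
    intro w v
    refine Finset.sum_congr rfl fun j _ => ?_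
    rw [← Finset.sum_filter]
    have h2 : (Rm E).filter (fun l => l ∈ cls E j) = cls E j := by
      ext l
      rw [mem_filter]
      exact ⟨fun h => h.2, fun h => ⟨(mem_cls.mp h).1, h⟩⟩
    rw [h2, ← Finset.mul_sum]
    ring
  rw [h1, h1, Finset.sum_comm]
  refine Finset.sum_congr rfl fun l hl => Finset.sum_congr rfl fun j hj => ?_
  by_cases h : l ∈ cls E j
  · have h2 : j ∈ cls E l := cls_symm hj h
    rw [if_pos h, if_pos h2, cls_eq hj h]
    ring
  · rw [if_neg h, if_neg (fun h2 => h (cls_symm hl h2))]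

theorem sum_cls_sq (d : J → ℝ) (E : Finset (I × J)) :
    ∑ j ∈ Rm E, (∑ l ∈ cls E j, d l) ^ 2 ≤ ∑ l ∈ Rm E, d l ^ 2 * ((cls E l).card : ℝ) ^ 2 := by
  have h := sum_cls_comm (fun _ => (1 : ℝ)) (fun l => d l ^ 2) E 1
  calc ∑ j ∈ Rm E, (∑ l ∈ cls E j, d l) ^ 2
      ≤ ∑ j ∈ Rm E, 1 * (((cls E j).card : ℝ) ^ 1 * ∑ l ∈ cls E j, d l ^ 2) := by
        refine Finset.sum_le_sum fun j _ => ?_
        rw [one_mul, pow_one]
        exact sq_sum_le_card_mul_sum_sq
    _ = _ := by
        rw [h]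
        refine Finset.sum_congr rfl fun l _ => ?_
        rw [Finset.sum_const, nsmul_eq_mul]
        ring

theorem sum_cls_four (d : J → ℝ) (E : Finset (I × J)) :
    (∑ l ∈ Rm E, d l ^ 2 * ((cls E l).card : ℝ) ^ 2) ^ 2 ≤
      nsq d * ∑ l ∈ Rm E, d l ^ 2 * ((cls E l).card : ℝ) ^ 4 := by
  have h := Finset.sum_mul_sq_le_sq_mul_sq (Rm E) d (fun l => d l * ((cls E l).card : ℝ) ^ 2)
  have h1 : ∑ l ∈ Rm E, d l * (d l * ((cls E l).card : ℝ) ^ 2) =
      ∑ l ∈ Rm E, d l ^ 2 * ((cls E l).card : ℝ) ^ 2 :=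
    Finset.sum_congr rfl fun l _ => by ring
  have h2 : ∑ l ∈ Rm E, (d l * ((cls E l).card : ℝ) ^ 2) ^ 2 =
      ∑ l ∈ Rm E, d l ^ 2 * ((cls E l).card : ℝ) ^ 4 :=
    Finset.sum_congr rfl fun l _ => by ring
  rw [h1, h2] at h
  refine h.trans (mul_le_mul_of_nonneg_right ?_ ?_)
  · unfold nsq
    exact Finset.sum_le_sum_of_subset_of_nonneg (Finset.subset_univ _) (fun _ _ _ => sq_nonneg _)
  · exact Finset.sum_nonneg fun l _ => by positivity

end Pool.JN
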