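import Pool.Agent.JN.B6

/-! Efron-Stein inequalities (second and fourth moments) for independent blocks of edges. -/

namespace Pool.JN

open Finset Pool.KS

set_option linter.unusedSectionVars false

section general

variable {ε : Type*} [Fintype ε] [DecidableEq ε]

/-- block `Z` taken from `E'`, the rest from `E` -/
def mix (Z E E' : Finset ε) : Finset ε := (E \ Z) ∪ (E' ∩ Z)

theorem mem_mix {Z E E' : Finset ε} {x : ε} :
    x ∈ mix Z E E' ↔ (x ∈ Z ∧ x ∈ E') ∨ (x ∉ Z ∧ x ∈ E) := by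
  unfold mix
  simp only [Finset.mem_union, Finset.mem_sdiff, Finset.mem_inter]
  tauto

theorem W_mix (p : ε → ℝ) (Z E E' : Finset ε) :
    W p (mix Z E E') * W p (mix Z E' E) = W p E * W p E' := by
  unfold W
  rw [← Finset.prod_mul_distrib, ← Finset.prod_mul_distrib]
  refine Finset.prod_congr rfl (fun x _ => ?_)
  simp only [mem_mix]
  by_cases h : x ∈ Z
  · simp only [h, true_and, not_true_eq_false, false_and, or_false]
    ring
  · simp only [h, false_and, not_false_eq_true, true_and, false_or]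

/-- expectation over two independent copies -/
noncomputable def E2 (p : ε → ℝ) (F : Finset ε → Finset ε → ℝ) : ℝ :=
  ∑ x : Finset ε × Finset ε, (W p x.1 * W p x.2) * F x.1 x.2

theorem E2_eq (p : ε → ℝ) (F : Finset ε → Finset ε → ℝ) :
    E2 p F = Ex p (fun E => Ex p (fun E' => F E E')) := by
  unfold E2 Ex
  rw [← Finset.univ_product_univ, Finset.sum_product]
  refine Finset.sum_congr rfl (fun E _ => ?_)
  rw [Finset.mul_sum]
  refine Finset.sum_congr rfl (fun E' _ => ?_)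
  ring

theorem mix_mix (Z E E' : Finset ε) : mix Z (mix Z E E') (mix Z E' E) = E := by
  ext x
  simp only [mem_mix]
  tauto

theorem E2_mix (p : ε → ℝ) (Z : Finset ε) (F : Finset ε → Finset ε → ℝ) :
    E2 p (fun E E' => F (mix Z E E') (mix Z E' E)) = E2 p F := by
  unfold E2
  let e : Finset ε × Finset ε ≃ Finset ε × Finset ε :=
    ⟨fun x => (mix Z x.1 x.2, mix Z x.2 x.1), fun x => (mix Z x.1 x.2, mix Z x.2 x.1),
      fun x => by
        apply Prod.ext
        · exact mix_mix Z x.1 x.2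
        · exact mix_mix Z x.2 x.1,
      fun x => by
        apply Prod.ext
        · exact mix_mix Z x.1 x.2
        · exact mix_mix Z x.2 x.1⟩
  rw [← Equiv.sum_comp e (fun x => (W p x.1 * W p x.2) * F x.1 x.2)]
  refine Finset.sum_congr rfl (fun x _ => ?_)
  show _ = (W p (mix Z x.1 x.2) * W p (mix Z x.2 x.1)) * F (mix Z x.1 x.2) (mix Z x.2 x.1)
  rw [W_mix]

/-- average over block `Z` -/
noncomputable def Av (p : ε → ℝ) (Z : Finset ε) (f : Finset ε → ℝ) (E : Finset ε) : ℝ :=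
  Ex p (fun E' => f (mix Z E E'))

theorem Ex_mix (p : ε → ℝ) (Z : Finset ε) (f : Finset ε → ℝ) :
    Ex p (fun E => Ex p (fun E' => f (mix Z E E'))) = Ex p f := by
  rw [← E2_eq p (fun E E' => f (mix Z E E'))]
  have h := E2_mix p Z (fun E _ => f E)
  rw [h, E2_eq]
  refine Ex_congr p (fun E => ?_)
  rw [Ex_const]

theorem Ex_Av (p : ε → ℝ) (Z : Finset ε) (f : Finset ε → ℝ) : Ex p (Av p Z f) = Ex p f :=
  Ex_mix p Z f

/-- `g` does not depend on block `Z` -/
def Free (Z : Finset ε) (g : Finset ε → ℝ) : Prop := ∀ E E', g (mix Z E E') = g E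

theorem Free.of {Z : Finset ε} {g : Finset ε → ℝ} (h : ∀ E, g (E \ Z) = g E) : Free Z g := by
  intro E E'
  rw [← h (mix Z E E'), ← h E]
  congr 1
  ext x
  simp only [Finset.mem_sdiff, mem_mix]
  tauto

theorem Av_free (p : ε → ℝ) (Z : Finset ε) (f : Finset ε → ℝ) : Free Z (Av p Z f) := by
  intro E E''
  unfold Av
  refine Ex_congr p (fun E' => ?_)
  congr 1
  ext x
  simp only [mem_mix]
  tauto

theorem Av_Av (p : ε → ℝ) {Z Z' : Finset ε} (hd : Disjoint Z Z') (f : Finset ε → ℝ)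
    (E : Finset ε) : Av p Z (Av p Z' f) E = Av p (Z ∪ Z') f E := by
  unfold Av
  have h : ∀ E' E'' : Finset ε, mix Z' (mix Z E E') E'' = mix (Z ∪ Z') E (mix Z' E' E'') := by
    intro E' E''
    ext x
    have hx : x ∈ Z → x ∉ Z' := fun h1 h2 => Finset.disjoint_left.mp hd h1 h2
    simp only [mem_mix, Finset.mem_union]
    tauto
  have h2 : Ex p (fun E' => Ex p (fun E'' => f (mix Z' (mix Z E E') E''))) =
      Ex p (fun E' => Ex p (fun E'' => f (mix (Z ∪ Z') E (mix Z' E' E'')))) :=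
    Ex_congr p (fun E' => Ex_congr p (fun E'' => by rw [h]))
  rw [h2, Ex_mix p Z' (fun G => f (mix (Z ∪ Z') E G))]

theorem Ex_Av_mul (p : ε → ℝ) {Z : Finset ε} (f : Finset ε → ℝ) {g : Finset ε → ℝ}
    (hg : Free Z g) : Ex p (fun E => Av p Z f E * g E) = Ex p (fun E => f E * g E) := by
  rw [← Ex_mix p Z (fun E => f E * g E)]
  refine Ex_congr p (fun E => ?_)
  unfold Av
  rw [mul_comm, ← Ex_mul_left]
  refine Ex_congr p (fun E' => ?_)
  rw [hg E E', mul_comm]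

theorem Ex_sub_Av (p : ε → ℝ) (Z : Finset ε) (f : Finset ε → ℝ) :
    Ex p (fun E => (f E - Av p Z f E) ^ 2) =
      Ex p (fun E => f E ^ 2) - Ex p (fun E => Av p Z f E ^ 2) := by
  have h1 := Ex_Av_mul p f (Av_free p Z f)
  have h2 : Ex p (fun E => (f E - Av p Z f E) ^ 2) =
      Ex p (fun E => f E ^ 2) - 2 * Ex p (fun E => f E * Av p Z f E) +
        Ex p (fun E => Av p Z f E * Av p Z f E) := by
    rw [← Ex_mul_left, ← Ex_sub, ← Ex_add]
    exact Ex_congr p (fun E => by ring)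
  have h3 : Ex p (fun E => Av p Z f E ^ 2) = Ex p (fun E => Av p Z f E * Av p Z f E) :=
    Ex_congr p (fun E => by ring)
  rw [h2, h3, ← h1]
  ring

theorem Ex_sub_Av_le {p : ε → ℝ} (h0 : ∀ e, 0 ≤ p e) (h1 : ∀ e, p e ≤ 1) {Z : Finset ε}
    (f : Finset ε → ℝ) {g : Finset ε → ℝ} (hg : Free Z g) :
    Ex p (fun E => (f E - Av p Z f E) ^ 2) ≤ Ex p (fun E => (f E - g E) ^ 2) := by
  have hfree : Free Z (fun E => Av p Z f E - g E) := fun E E' => by
    show Av p Z f (mix Z E E') - g (mix Z E E') = Av p Z f E - g E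
    rw [Av_free p Z f E E', hg E E']
  have h2 := Ex_Av_mul p f hfree
  have h3 : Ex p (fun E => (f E - g E) ^ 2) = Ex p (fun E => (f E - Av p Z f E) ^ 2) +
      Ex p (fun E => (Av p Z f E - g E) ^ 2) +
      2 * (Ex p (fun E => f E * (Av p Z f E - g E)) -
        Ex p (fun E => Av p Z f E * (Av p Z f E - g E))) := by
    rw [← Ex_sub, ← Ex_mul_left, ← Ex_add, ← Ex_add]
    exact Ex_congr p (fun E => by ring)
  have h4 : 0 ≤ Ex p (fun E => (Av p Z f E - g E) ^ 2) := Ex_nonneg h0 h1 (fun E => sq_nonneg _)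
  rw [h3, h2]
  linarith

theorem Av_sub (p : ε → ℝ) (Z : Finset ε) (f g : Finset ε → ℝ) (E : Finset ε) :
    Av p Z (fun E => f E - g E) E = Av p Z f E - Av p Z g E := by
  unfold Av
  rw [Ex_sub]

theorem Av_contr {p : ε → ℝ} (h0 : ∀ e, 0 ≤ p e) (h1 : ∀ e, p e ≤ 1) (Z : Finset ε)
    (f : Finset ε → ℝ) : Ex p (fun E => Av p Z f E ^ 2) ≤ Ex p (fun E => f E ^ 2) := by
  have h2 := Ex_sub_Av p Z f
  have h3 : 0 ≤ Ex p (fun E => (f E - Av p Z f E) ^ 2) := Ex_nonneg h0 h1 (fun E => sq_nonneg _)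
  linarith

theorem es_aux {κ : Type*} [DecidableEq κ] {p : ε → ℝ} (h0 : ∀ e, 0 ≤ p e) (h1 : ∀ e, p e ≤ 1)
    (Z : κ → Finset ε) (f : Finset ε → ℝ) (s : Finset κ) :
    (∀ j ∈ s, ∀ l ∈ s, j ≠ l → Disjoint (Z j) (Z l)) →
    Ex p (fun E => f E ^ 2) - Ex p (fun E => Av p (s.biUnion Z) f E ^ 2) ≤
      ∑ j ∈ s, Ex p (fun E => (f E - Av p (Z j) f E) ^ 2) := by
  induction s using Finset.induction_on with
  | empty =>
    intro _
    have h2 : ∀ E : Finset ε, Av p ((∅ : Finset κ).biUnion Z) f E = f E := by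
      intro E
      unfold Av
      have h3 : ∀ E' : Finset ε, mix ((∅ : Finset κ).biUnion Z) E E' = E := by
        intro E'
        ext x
        simp [mem_mix]
      rw [Ex_congr p (fun E' => by rw [h3 E']), Ex_const]
    simp only [h2]
    simp
  | insert j s hj ih =>
    intro hd
    have ih' := ih (fun a ha b hb hab => hd a (Finset.mem_insert_of_mem ha) b
      (Finset.mem_insert_of_mem hb) hab)
    have hdis : Disjoint (s.biUnion Z) (Z j) := by
      rw [Finset.disjoint_biUnion_left]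
      intro a ha
      exact hd a (Finset.mem_insert_of_mem ha) j (Finset.mem_insert_self j s)
        (fun h => hj (h ▸ ha))
    rw [Finset.sum_insert hj, Finset.biUnion_insert]
    set Zs := s.biUnion Z with hZs
    have h2 := Ex_sub_Av p (Z j) (Av p Zs f)
    have h3 : ∀ E, Av p (Z j) (Av p Zs f) E = Av p (Z j ∪ Zs) f E :=
      fun E => Av_Av p hdis.symm f E
    have h4 : ∀ E, Av p Zs (Av p (Z j) f) E = Av p (Z j ∪ Zs) f E := by
      intro E
      rw [Av_Av p hdis f E, Finset.union_comm]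
    have h5 := Av_contr h0 h1 Zs (fun E => f E - Av p (Z j) f E)
    simp only [Av_sub, h4] at h5
    simp only [h3] at h2
    rw [h2] at h5
    linarith

theorem Av_univ (p : ε → ℝ) (f : Finset ε → ℝ) (E : Finset ε) : Av p univ f E = Ex p f := by
  unfold Av
  refine Ex_congr p (fun E' => ?_)
  congr 1
  ext x
  simp [mem_mix]

/-- **Efron-Stein inequality.** -/
theorem efron_stein {κ : Type*} [DecidableEq κ] {p : ε → ℝ} (h0 : ∀ e, 0 ≤ p e)
    (h1 : ∀ e, p e ≤ 1) (Z : κ → Finset ε) (s : Finset κ)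
    (hd : ∀ j ∈ s, ∀ l ∈ s, j ≠ l → Disjoint (Z j) (Z l)) (hu : s.biUnion Z = univ)
    (f : Finset ε → ℝ) (g : κ → Finset ε → ℝ) (hg : ∀ j ∈ s, Free (Z j) (g j)) :
    Ex p (fun E => f E ^ 2) - Ex p f ^ 2 ≤ ∑ j ∈ s, Ex p (fun E => (f E - g j E) ^ 2) := by
  have h2 := es_aux h0 h1 Z f s hd
  rw [hu] at h2
  simp only [Av_univ, Ex_const] at h2
  exact h2.trans (Finset.sum_le_sum (fun j hj => Ex_sub_Av_le h0 h1 f (hg j hj)))

theorem Ex_var (p : ε → ℝ) (f : Finset ε → ℝ) :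
    Ex p (fun E => (f E - Ex p f) ^ 2) = Ex p (fun E => f E ^ 2) - Ex p f ^ 2 := by
  set c := Ex p f with hc
  have h2 : Ex p (fun E => (f E - c) ^ 2) =
      Ex p (fun E => f E ^ 2) - 2 * c * Ex p f + Ex p (fun _ => c ^ 2) := by
    rw [← Ex_mul_left, ← Ex_sub, ← Ex_add]
    exact Ex_congr p (fun E => by ring)
  rw [h2, Ex_const, ← hc]
  ring

theorem sum_sq_le {κ : Type*} (s : Finset κ) {a : κ → ℝ} (ha : ∀ j, 0 ≤ a j) :
    ∑ j ∈ s, a j ^ 2 ≤ (∑ j ∈ s, a j) ^ 2 := by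
  have h : ∀ j ∈ s, a j ^ 2 ≤ a j * ∑ k ∈ s, a k := by
    intro j hj
    rw [sq]
    exact mul_le_mul_of_nonneg_left (Finset.single_le_sum (fun k _ => ha k) hj) (ha j)
  refine (Finset.sum_le_sum h).trans (le_of_eq ?_)
  rw [← Finset.sum_mul, sq]

/-- **Fourth moment Efron-Stein inequality.** -/
theorem efron_stein4 {κ : Type*} [DecidableEq κ] {p : ε → ℝ} (h0 : ∀ e, 0 ≤ p e)
    (h1 : ∀ e, p e ≤ 1) (Z : κ → Finset ε) (s : Finset κ)
    (hd : ∀ j ∈ s, ∀ l ∈ s, j ≠ l → Disjoint (Z j) (Z l)) (hu : s.biUnion Z = univ)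
    (f : Finset ε → ℝ) (g : κ → Finset ε → ℝ) (hg : ∀ j ∈ s, Free (Z j) (g j)) :
    Ex p (fun E => (f E - Ex p f) ^ 4) ≤
      70 * Ex p (fun E => (∑ j ∈ s, (f E - g j E) ^ 2) ^ 2) := by
  set c := Ex p f with hc
  set V : Finset ε → ℝ := fun E => ∑ j ∈ s, (f E - g j E) ^ 2 with hV
  set X : ℝ := Ex p (fun E => (f E - c) ^ 4) with hX
  set B : ℝ := Ex p (fun E => V E ^ 2) with hB
  have hX0 : 0 ≤ X := Ex_nonneg h0 h1 (fun E => by positivity)
  have hB0 : 0 ≤ B := Ex_nonneg h0 h1 (fun E => sq_nonneg _)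
  have hV0 : ∀ E, 0 ≤ V E := fun E => Finset.sum_nonneg (fun j _ => sq_nonneg _)
  -- variance
  have hvar : Ex p (fun E => (f E - c) ^ 2) ≤ Ex p V := by
    rw [hc, Ex_var, hV, Ex_sum]
    exact efron_stein h0 h1 Z s hd hu f g hg
  have hEV : Ex p V ^ 2 ≤ B := by
    have h2 := Ex_cs h0 h1 V (fun _ => 1)
    simp only [mul_one, one_pow, Ex_const] at h2
    exact h2
  have hvar0 : 0 ≤ Ex p (fun E => (f E - c) ^ 2) := Ex_nonneg h0 h1 (fun E => sq_nonneg _)
  have hEV0 : 0 ≤ Ex p V := Ex_nonneg h0 h1 hV0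
  have hsq : Ex p (fun E => (f E - c) ^ 2) ^ 2 ≤ B :=
    (pow_le_pow_left₀ hvar0 hvar 2).trans hEV
  -- Efron-Stein for the square
  have hes := efron_stein h0 h1 Z s hd hu (fun E => (f E - c) ^ 2)
    (fun j E => (g j E - c) ^ 2) (fun j hj E E' => by
      show (g j (mix (Z j) E E') - c) ^ 2 = (g j E - c) ^ 2
      rw [hg j hj E E'])
  rw [← Ex_sum] at hes
  have e1 : Ex p (fun E => ((f E - c) ^ 2) ^ 2) = X := Ex_congr p (fun E => by ring)
  rw [e1] at hes
  have h3 : Ex p (fun E => ∑ j ∈ s, ((f E - c) ^ 2 - (g j E - c) ^ 2) ^ 2) ≤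
      8 * Ex p (fun E => (f E - c) ^ 2 * V E) + 2 * B := by
    rw [hB, ← Ex_mul_left, ← Ex_mul_left, ← Ex_add]
    refine Ex_mono h0 h1 (fun E => ?_)
    have h4 : ∑ j ∈ s, ((f E - c) ^ 2 - (g j E - c) ^ 2) ^ 2 ≤
        ∑ j ∈ s, (8 * ((f E - c) ^ 2 * (f E - g j E) ^ 2) + 2 * ((f E - g j E) ^ 2) ^ 2) := by
      refine Finset.sum_le_sum (fun j _ => ?_)
      have e2 : (f E - c) ^ 2 - (g j E - c) ^ 2 =
          (f E - g j E) * (2 * (f E - c) - (f E - g j E)) := by ring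
      rw [e2, mul_pow]
      have h5 : (2 * (f E - c) - (f E - g j E)) ^ 2 ≤
          8 * (f E - c) ^ 2 + 2 * (f E - g j E) ^ 2 := by
        nlinarith [sq_nonneg (2 * (f E - c) + (f E - g j E))]
      have h6 := mul_le_mul_of_nonneg_left h5 (sq_nonneg (f E - g j E))
      refine h6.trans (le_of_eq ?_)
      ring
    refine h4.trans ?_
    rw [Finset.sum_add_distrib, ← Finset.mul_sum, ← Finset.mul_sum, ← Finset.mul_sum]
    have h5 : ∑ j ∈ s, ((f E - g j E) ^ 2) ^ 2 ≤ V E ^ 2 := by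
      rw [hV]
      exact sum_sq_le s (fun j => sq_nonneg _)
    show 8 * ((f E - c) ^ 2 * ∑ j ∈ s, (f E - g j E) ^ 2) +
      2 * ∑ j ∈ s, ((f E - g j E) ^ 2) ^ 2 ≤ 8 * ((f E - c) ^ 2 * V E) + 2 * V E ^ 2
    have h6 : ∑ j ∈ s, (f E - g j E) ^ 2 = V E := rfl
    rw [h6]
    linarith
  have h4 : Ex p (fun E => (f E - c) ^ 2 * V E) ≤ Real.sqrt X * Real.sqrt B := by
    have h5 := Ex_cs_sqrt h0 h1 (fun E => (f E - c) ^ 2) V
    rw [e1] at h5
    exact h5
  set x := Real.sqrt X with hx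
  set b := Real.sqrt B with hb
  have hx0 : 0 ≤ x := Real.sqrt_nonneg _
  have hb0 : 0 ≤ b := Real.sqrt_nonneg _
  have hxX : x ^ 2 = X := Real.sq_sqrt hX0
  have hbB : b ^ 2 = B := Real.sq_sqrt hB0
  have h5 : x ^ 2 ≤ 3 * b ^ 2 + 8 * (x * b) := by
    rw [hxX, hbB]
    linarith
  have h6 : x ≤ 8.36 * b := by
    by_contra h
    push Not at h
    nlinarith
  have h7 : x ^ 2 ≤ (8.36 * b) ^ 2 := pow_le_pow_left₀ hx0 h6 2
  rw [hxX, mul_pow, hbB] at h7
  have : (8.36 : ℝ) ^ 2 ≤ 70 := by norm_num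
  nlinarith

end general

section cols

variable {I J : Type*} [Fintype I] [Fintype J] [DecidableEq I] [DecidableEq J]

/-- the edges of column `j` -/
def Zc (j : J) : Finset (I × J) := univ.filter (fun e => e.2 = j)

theorem sdiff_Zc (j : J) (E : Finset (I × J)) : E \ Zc j = dC j E := by
  ext x
  simp only [Zc, mem_dC, Finset.mem_sdiff, Finset.mem_filter, Finset.mem_univ, true_and]

theorem Zc_disj {j l : J} (h : j ≠ l) : Disjoint (Zc j : Finset (I × J)) (Zc l) := by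
  rw [Finset.disjoint_left]
  intro x hx hx'
  simp only [Zc, Finset.mem_filter, Finset.mem_univ, true_and] at hx hx'
  exact h (hx.symm.trans hx')

theorem Zc_univ : (univ : Finset J).biUnion (fun j => (Zc j : Finset (I × J))) = univ := by
  ext x
  simp [Zc]

/-- Efron-Stein over the columns -/
theorem es_cols {p : I × J → ℝ} (h0 : ∀ e, 0 ≤ p e) (h1 : ∀ e, p e ≤ 1)
    (f : Finset (I × J) → ℝ) (g : J → Finset (I × J) → ℝ) (hg : ∀ j E, g j (dC j E) = g j E) :
    Ex p (fun E => (f E - Ex p f) ^ 2) ≤ ∑ j, Ex p (fun E => (f E - g j E) ^ 2) := by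
  rw [Ex_var]
  exact efron_stein h0 h1 Zc univ (fun j _ l _ h => Zc_disj h) Zc_univ f g
    (fun j _ => Free.of (fun E => by rw [sdiff_Zc, hg]))

/-- fourth moment Efron-Stein over the columns -/
theorem es_cols4 {p : I × J → ℝ} (h0 : ∀ e, 0 ≤ p e) (h1 : ∀ e, p e ≤ 1)
    (f : Finset (I × J) → ℝ) (g : J → Finset (I × J) → ℝ) (hg : ∀ j E, g j (dC j E) = g j E) :
    Ex p (fun E => (f E - Ex p f) ^ 4) ≤
      70 * Ex p (fun E => (∑ j, (f E - g j E) ^ 2) ^ 2) :=
  efron_stein4 h0 h1 Zc univ (fun j _ l _ h => Zc_disj h) Zc_univ f g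
    (fun j _ => Free.of (fun E => by rw [sdiff_Zc, hg]))

end cols

end Pool.JN
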