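import Pool.Agent.JN.D0

/-! Module Em (difficulty 2). Deleting a row costs at most a factor 8 in expectations of nonnegative functions.

PROOF. Ex_av_fixed (KS/Prob) with T = univ and G E = f (dR k E): Ex (G * av k · univ) = Ex G * U p k univ.
 On the event av k E univ = 1 (row k has no edge) dR k E = E, so G E * av = f E * av <= f E. Hence Ex G * U p k univ <= Ex p f.
 U p k univ = prod_j (1 - p_kj) >= exp(-2 sum p_kj) >= exp(-2), because 1 - x >= exp(-2x) on [0,1/2] (concavity / log (1-x) >= -2x),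
 and exp 2 <= 8.
-/

namespace Pool.JN

open Finset Pool.KS

set_option linter.unusedSectionVars false

variable {I J : Type*} [Fintype I] [Fintype J] [DecidableEq I] [DecidableEq J]

theorem em_U_ge {p : I × J → ℝ} (hp : Sub p (1 / 2)) (k : I) : 1 / 8 ≤ U p k univ := by
  have h1 : ∀ j : J, Real.exp (-(p (k, j) / (1 - 1 / 2))) ≤ 1 - p (k, j) :=
    fun j => one_sub_ge (by norm_num) (hp.h0 _) (hp.h1 _)
  have h2 : ∏ j : J, Real.exp (-(p (k, j) / (1 - 1 / 2))) ≤ U p k univ :=
    Finset.prod_le_prod (fun j _ => (Real.exp_pos _).le) (fun j _ => h1 j)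
  have h3 : ∏ j : J, Real.exp (-(p (k, j) / (1 - 1 / 2))) =
      Real.exp (-(2 * ∑ j, p (k, j))) := by
    rw [← Real.exp_sum]
    congr 1
    rw [Finset.mul_sum, ← Finset.sum_neg_distrib]
    exact Finset.sum_congr rfl (fun j _ => by ring)
  have h4 : Real.exp (-2) ≤ Real.exp (-(2 * ∑ j, p (k, j))) := by
    apply Real.exp_le_exp.mpr
    have := hp.hr k
    linarith
  have h5 : 1 / 8 ≤ Real.exp (-2) := by
    rw [Real.exp_neg, one_div]
    apply inv_anti₀ (Real.exp_pos 2)
    have h6 : Real.exp 2 = Real.exp 1 * Real.exp 1 := by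
      rw [← Real.exp_add]; norm_num
    have h7 := Real.exp_one_lt_d9
    have h8 := Real.exp_pos 1
    rw [h6]
    nlinarith
  linarith

theorem Ex_dR_le {p : I × J → ℝ} (hp : Sub p (1 / 2)) (k : I) (f : Finset (I × J) → ℝ)
    (hf : ∀ E, 0 ≤ f E) : Ex p (fun E => f (dR k E)) ≤ 8 * Ex p f := by
  have h0 : ∀ e, 0 ≤ p e := hp.h0
  have h1 : ∀ e, p e ≤ 1 := fun e => hp.le_one (by norm_num) e
  have key := Ex_av_fixed p k univ (fun E => f (dR k E)) (fun E => by
    show f (dR k (dR k E)) = f (dR k E)
    rw [dR_dR])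
  have h2 : Ex p (fun E => f (dR k E) * av k E univ) ≤ Ex p f := by
    refine Ex_mono h0 h1 (fun E => ?_)
    by_cases h : ∀ j ∈ (univ : Finset J), (k, j) ∉ E
    · rw [av_one h, mul_one]
      have h3 : dR k E = E := by
        ext e
        rw [mem_dR]
        constructor
        · exact fun h => h.1
        · intro he
          refine ⟨he, ?_⟩
          intro hk
          apply h e.2 (Finset.mem_univ _)
          rw [← hk]
          exact he
      rw [h3]
    · push Not at h
      obtain ⟨j, hj, hjE⟩ := h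
      rw [av_zero hj hjE, mul_zero]
      exact hf E
  rw [key] at h2
  have h4 := em_U_ge hp k
  have h5 : 0 ≤ Ex p (fun E => f (dR k E)) := Ex_nonneg h0 h1 (fun E => hf _)
  nlinarith

end Pool.JN
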