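import Pool.Agent.JN.Cp

/-! Module Fi (difficulty 2). T1: there is eps > 0 such that the uniform matrix is the unique minimiser among all doubly stochastic matrices with entries <= eps.

PROOF. K = 6251, choose M = eps > 0 with Small eps K: e.g. eps = 1 / (6252 * (100000 * BB^3)^2): sqrt(eps (K+1)) = 1/(100000 BB^3).
 If sum p^2 <= 6251: uniform_min. If sum p^2 > 6251: main_bound2 (KS): F(p) >= γ n + (4/10000) sum p^2 > γ n + 5/2 >= F(uniform) (KX.fx_univ_upper for n = N+1 >= 2;
 for n <= 1: entries <= eps < 1 is impossible for n = 1 since the row sum is 1; n = 0 trivial: both sides are equal, p = uniform as functions on an empty type).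
-/

namespace Pool.JN

open Finset Pool.KS

set_option linter.unusedSectionVars false

variable {I J : Type*} [Fintype I] [Fintype J] [DecidableEq I] [DecidableEq J]

theorem fi_exists_l : ∃ l : ℝ, Real.exp (-l) = l := by
  have hc : ContinuousOn (fun x : ℝ => x - Real.exp (-x)) (Set.Icc 0 1) := by
    apply Continuous.continuousOn
    fun_prop
  have h1 := intermediate_value_Icc (by norm_num : (0 : ℝ) ≤ 1) hc
  have h2 : (0 : ℝ) ∈ Set.Icc ((fun x : ℝ => x - Real.exp (-x)) 0)
      ((fun x : ℝ => x - Real.exp (-x)) 1) := by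
    constructor
    · simp
    · have h3 : Real.exp (-1) ≤ 1 := by
        rw [Real.exp_le_one_iff]
        norm_num
      show (0 : ℝ) ≤ 1 - Real.exp (-1)
      linarith
  obtain ⟨l, _, hl⟩ := h1 h2
  refine ⟨l, ?_⟩
  have hl' : l - Real.exp (-l) = 0 := hl
  linarith

theorem t1 : ∃ eps : ℝ, 0 < eps ∧ ∀ {I J : Type} [Fintype I] [Fintype J] [DecidableEq I]
    [DecidableEq J] (p : I × J → ℝ), Fintype.card I = Fintype.card J → (∀ e, 0 ≤ p e) →
    (∀ e, p e ≤ eps) → (∀ i, ∑ j, p (i, j) = 1) → (∀ j, ∑ i, p (i, j) = 1) →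
    Ex (fun _ : I × J => 1 / (Fintype.card I : ℝ)) (fun E => (nu E : ℝ)) ≤
        Ex p (fun E => (nu E : ℝ)) ∧
      (p ≠ (fun _ => 1 / (Fintype.card I : ℝ)) →
        Ex (fun _ : I × J => 1 / (Fintype.card I : ℝ)) (fun E => (nu E : ℝ)) <
          Ex p (fun E => (nu E : ℝ))) := by
  obtain ⟨l, hl⟩ := fi_exists_l
  obtain ⟨A, hA⟩ : ∃ A : ℝ, A = 100000 * BB ^ 3 := ⟨_, rfl⟩
  have hA1 : 1 ≤ A := by
    rw [hA]
    have h1 : 1 ≤ BB ^ 3 := one_le_pow₀ BB_one
    linarith
  have hA0 : 0 < A := by linarith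
  have heps0 : 0 < 1 / (6252 * A ^ 2) := by positivity
  have hsmall : Small (1 / (6252 * A ^ 2)) 6251 := by
    unfold Small
    rw [← hA]
    have h1 : 1 / (6252 * A ^ 2) * (6251 + 1) = (1 / A) ^ 2 := by
      field_simp
      norm_num
    rw [h1, Real.sqrt_sq (by positivity), mul_one_div, div_self hA0.ne']
  refine ⟨1 / (6252 * A ^ 2), heps0, ?_⟩
  intro I J _ _ _ _ p hcard h0 h1 hr hc
  by_cases hsq : ∑ i, ∑ j, p (i, j) ^ 2 ≤ 6251
  · exact uniform_min hl heps0.le (by norm_num) hsmall hcard h0 h1 hr hc hsq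
  · push Not at hsq
    have hle1 : ∀ e, p e ≤ 1 := by
      intro e
      refine (h1 e).trans ?_
      rw [div_le_one (by positivity)]
      nlinarith
    have h2 : ∑ i, ∑ j, p (i, j) ^ 2 ≤ (Fintype.card I : ℝ) := by
      calc ∑ i, ∑ j, p (i, j) ^ 2 ≤ ∑ i : I, ∑ j : J, p (i, j) := by
            refine Finset.sum_le_sum (fun i _ => Finset.sum_le_sum (fun j _ => ?_))
            have h3 := h0 (i, j)
            have h4 := hle1 (i, j)
            nlinarith
        _ = ∑ _i : I, (1 : ℝ) := Finset.sum_congr rfl (fun i _ => hr i)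
        _ = (Fintype.card I : ℝ) := by
            rw [Finset.sum_const, Finset.card_univ, nsmul_eq_mul, mul_one]
    have h3 : (6251 : ℝ) < (Fintype.card I : ℝ) := lt_of_lt_of_le hsq h2
    have h4 : 6251 < Fintype.card I := by exact_mod_cast h3
    obtain ⟨N, hN⟩ : ∃ N, Fintype.card I = N + 1 := ⟨Fintype.card I - 1, by omega⟩
    have hN0 : 0 < N := by omega
    have h5 := Pool.KX.fx_univ_upper (I := I) (J := J) N hN0 hN (by omega) hl
    have h6 := main_bound2 hl p hcard h0 hr hc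
    have h7 : ((Fintype.card I : ℕ) : ℝ) = (N : ℝ) + 1 := by rw [hN]; push_cast; ring
    rw [h7] at h6 ⊢
    have h8 : Ex (fun _ : I × J => 1 / ((N : ℝ) + 1)) (fun E => (nu E : ℝ)) <
        Ex p (fun E => (nu E : ℝ)) := by linarith
    exact ⟨h8.le, fun _ => h8⟩

end Pool.JN
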