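import Pool.Agent.JN.D0
import Pool.Agent.JN.Dl

/-! Module Kl (difficulty 3). Mass of the columns killed by row i.

PROOFS. H = dR i E, R = Rm H, U = U p i. pcl p i H c = U(R \ cl c) - U(R) = U(R \ cl c) (1 - prod_{cl c} (1-p_ij)), in [0, sum_{cl c} p_ij]
 (cl H c ⊆ R; 1 - prod (1-x_j) <= sum x_j).
 sum_dR: Rm E ⊆ Rm (dR i E) (Rm_sub_dR), Yj j E = 1[j ∈ Rm E].
 kl_bound / kl_sq: use Phi_Rm (an identity for each fixed E and every Φ, also depending on E) with Φ(S) = (p_i(R) - p_i(S))^r, r = 1, 2,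
   p_i(S) = sum_{j∈S} p_ij: Φ(Rm E) = (kl p i E)^r (Rm E ⊆ R), Φ(R) = 0, Φ(R \ cl c) = p_i(cl c)^r. Hence
   (kl p i E)^r = sum_c (av_i(R \ cl c) - av_i(R)) p_i(cl c)^r, and by Ex_av (as in the proof of Ex_Phi)
   Ex (kl)^r = Ex sum_c pcl p i H c * p_i(cl c)^r <= Ex sum_c p_i(cl c)^(r+1).
   r = 1: p_i(cl c)^2 <= |cl c| sum_{cl c} p_ij^2; sum over c with sum_classes: = sum_{j∈R} p_ij^2 |cls H j|; expectation over dR i E:
     Ex_zr, Sub.zr, cls_BB (m = 1): <= BB nr.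
   r = 2: p_i(cl c)^3 <= (M |cl c|) p_i(cl c)^2 <= M |cl c|^2 sum p_ij^2; cls_BB (m = 2): <= M BB nr.
-/

namespace Pool.JN

open Finset Pool.KS

set_option linter.unusedSectionVars false

variable {I J : Type*} [Fintype I] [Fintype J] [DecidableEq I] [DecidableEq J]

theorem pcl_bounds {p : I × J → ℝ} (h0 : ∀ e, 0 ≤ p e) (h1 : ∀ e, p e ≤ 1) (i : I)
    (H : Finset (I × J)) (c : Finset J) :
    0 ≤ pcl p i H c ∧ pcl p i H c ≤ ∑ j ∈ cl H c, p (i, j) := by
  have hU : U p i (Rm H) = U p i (Rm H \ cl H c) * U p i (cl H c) := by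
    unfold U
    exact (Finset.prod_sdiff (cl_sub H c)).symm
  have hU1 : U p i (Rm H \ cl H c) ≤ 1 :=
    Finset.prod_le_one (fun j _ => by linarith [h1 (i, j)]) (fun j _ => by linarith [h0 (i, j)])
  have hU0 : 0 ≤ U p i (Rm H \ cl H c) := Finset.prod_nonneg (fun j _ => by linarith [h1 (i, j)])
  have hV1 : U p i (cl H c) ≤ 1 :=
    Finset.prod_le_one (fun j _ => by linarith [h1 (i, j)]) (fun j _ => by linarith [h0 (i, j)])
  have hV0 : 1 - ∑ j ∈ cl H c, p (i, j) ≤ U p i (cl H c) := by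
    have := weierstrass (f := fun j => p (i, j)) (fun j => h0 _) (fun j => h1 _) (cl H c)
    unfold U
    linarith
  have hx : 0 ≤ ∑ j ∈ cl H c, p (i, j) := Finset.sum_nonneg (fun j _ => h0 _)
  unfold pcl
  rw [hU]
  constructor
  · nlinarith
  · nlinarith

theorem sum_dR (p : I × J → ℝ) (i : I) (E : Finset (I × J)) :
    ∑ j ∈ Rm (dR i E), p (i, j) = ∑ j, p (i, j) * Yj j E + kl p i E := by
  have h1 := LR_eq (fun j => p (i, j)) E
  unfold LR at h1
  rw [← h1]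
  unfold kl
  rw [add_comm]
  exact (Finset.sum_sdiff (Rm_sub_dR i E)).symm

theorem kl_nonneg {p : I × J → ℝ} (h0 : ∀ e, 0 ≤ p e) (i : I) (E : Finset (I × J)) :
    0 ≤ kl p i E := by
  exact Finset.sum_nonneg (fun j _ => h0 _)

/-- the mass of class `c` for row `i` -/
noncomputable def klx (p : I × J → ℝ) (i : I) (H : Finset (I × J)) (c : Finset J) : ℝ :=
  ∑ j ∈ cl H c, p (i, j)

theorem kl_phi (p : I × J → ℝ) (i : I) (E : Finset (I × J)) (r : ℕ) (hr : r ≠ 0) :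
    kl p i E ^ r = ∑ c : Finset J,
      (av i E (Rm (dR i E) \ cl (dR i E) c) - av i E (Rm (dR i E))) *
        klx p i (dR i E) c ^ r := by
  have h := Phi_Rm (fun S => (∑ j ∈ Rm (dR i E), p (i, j) - ∑ j ∈ S, p (i, j)) ^ r) i E
  have e1 : ∑ j ∈ Rm (dR i E), p (i, j) - ∑ j ∈ Rm E, p (i, j) = kl p i E := by
    unfold kl
    rw [← Finset.sum_sdiff (Rm_sub_dR i E)]
    ring
  have e2 : ∀ c : Finset J, ∑ j ∈ Rm (dR i E), p (i, j) -
      ∑ j ∈ Rm (dR i E) \ cl (dR i E) c, p (i, j) = klx p i (dR i E) c := by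
    intro c
    unfold klx
    rw [← Finset.sum_sdiff (cl_sub (dR i E) c)]
    ring
  simp only [e1, e2, sub_self, zero_pow hr, sub_zero, zero_add] at h
  exact h

theorem kl_Ex (p : I × J → ℝ) (i : I) (r : ℕ) (hr : r ≠ 0) :
    Ex p (fun E => kl p i E ^ r) = Ex p (fun E => ∑ c : Finset J,
      pcl p i (dR i E) c * klx p i (dR i E) c ^ r) := by
  have h1 : ∀ E : Finset (I × J), kl p i E ^ r = ∑ c : Finset J,
      (klx p i (dR i E) c ^ r * av i E (Rm (dR i E) \ cl (dR i E) c) -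
        klx p i (dR i E) c ^ r * av i E (Rm (dR i E))) := by
    intro E
    rw [kl_phi p i E r hr]
    exact Finset.sum_congr rfl (fun c _ => by ring)
  have h2 : ∀ E : Finset (I × J), ∑ c : Finset J,
      pcl p i (dR i E) c * klx p i (dR i E) c ^ r = ∑ c : Finset J,
      (klx p i (dR i E) c ^ r * U p i (Rm (dR i E) \ cl (dR i E) c) -
        klx p i (dR i E) c ^ r * U p i (Rm (dR i E))) := by
    intro E
    refine Finset.sum_congr rfl (fun c _ => ?_)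
    unfold pcl
    ring
  rw [Ex_congr p h1, Ex_congr p h2, Ex_sum, Ex_sum]
  refine Finset.sum_congr rfl (fun c _ => ?_)
  rw [Ex_sub, Ex_sub]
  rw [Ex_av p i (fun E => klx p i (dR i E) c ^ r) (fun E => Rm (dR i E) \ cl (dR i E) c)
    (fun E => by simp only [dR_dR]) (fun E => by simp only [dR_dR])]
  rw [Ex_av p i (fun E => klx p i (dR i E) c ^ r) (fun E => Rm (dR i E))
    (fun E => by simp only [dR_dR]) (fun E => by simp only [dR_dR])]

theorem kl_mom {p : I × J → ℝ} (hp : Sub p (1 / 2)) (i : I) (m : ℕ) (hm1 : 1 ≤ m)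
    (hm4 : m ≤ 4) :
    Ex p (fun E => ∑ j ∈ Rm (dR i E), p (i, j) ^ 2 * ((cls (dR i E) j).card : ℝ) ^ m) ≤
      BB * nr p i := by
  have h1 : ∀ E : Finset (I × J),
      ∑ j ∈ Rm (dR i E), p (i, j) ^ 2 * ((cls (dR i E) j).card : ℝ) ^ m =
      ∑ j, p (i, j) ^ 2 * (if j ∈ Rm (dR i E) then ((cls (dR i E) j).card : ℝ) ^ m else 0) := by
    intro E
    simp only [mul_ite, mul_zero]
    rw [← Finset.sum_filter]
    exact Finset.sum_congr (by ext j; simp) (fun _ _ => rfl)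
  rw [Ex_congr p h1, Ex_sum]
  unfold nr
  rw [Finset.mul_sum]
  refine Finset.sum_le_sum (fun j _ => ?_)
  rw [Ex_mul_left, mul_comm]
  refine mul_le_mul_of_nonneg_right ?_ (sq_nonneg _)
  rw [Ex_zr p i (fun E => if j ∈ Rm E then ((cls E j).card : ℝ) ^ m else 0)]
  exact cls_BB (hp.zr i) m hm1 hm4 j

theorem kl_x_nonneg {p : I × J → ℝ} (h0 : ∀ e, 0 ≤ p e) (i : I) (H : Finset (I × J))
    (c : Finset J) : 0 ≤ klx p i H c := Finset.sum_nonneg (fun j _ => h0 _)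

theorem kl_x_sq (p : I × J → ℝ) (i : I) (H : Finset (I × J)) (c : Finset J) :
    klx p i H c ^ 2 ≤ ((cl H c).card : ℝ) * ∑ j ∈ cl H c, p (i, j) ^ 2 :=
  sq_sum_le_card_mul_sum_sq

theorem kl_bound {p : I × J → ℝ} (hp : Sub p (1 / 2)) (i : I) :
    Ex p (kl p i) ≤ BB * nr p i := by
  have h0 : ∀ e, 0 ≤ p e := hp.h0
  have h1 : ∀ e, p e ≤ 1 := fun e => hp.le_one (by norm_num) e
  have e1 : Ex p (kl p i) = Ex p (fun E => kl p i E ^ 1) :=
    Ex_congr p (fun E => (pow_one _).symm)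
  rw [e1, kl_Ex p i 1 one_ne_zero]
  refine le_trans ?_ (kl_mom hp i 1 le_rfl (by norm_num))
  refine Ex_mono h0 h1 (fun E => ?_)
  have h2 : ∑ j ∈ Rm (dR i E), p (i, j) ^ 2 * ((cls (dR i E) j).card : ℝ) ^ 1 =
      ∑ c : Finset J, (∑ j ∈ cl (dR i E) c, p (i, j) ^ 2) * ((cl (dR i E) c).card : ℝ) ^ 1 :=
    (sum_classes (dR i E) (fun j => p (i, j) ^ 2) (fun S => (S.card : ℝ) ^ 1)).symm
  rw [h2]
  refine Finset.sum_le_sum (fun c _ => ?_)
  have h3 := pcl_bounds h0 h1 i (dR i E) c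
  have h4 := kl_x_nonneg h0 i (dR i E) c
  have h5 := kl_x_sq p i (dR i E) c
  have h6 : pcl p i (dR i E) c ≤ klx p i (dR i E) c := h3.2
  rw [pow_one, pow_one]
  calc pcl p i (dR i E) c * klx p i (dR i E) c
      ≤ klx p i (dR i E) c * klx p i (dR i E) c := mul_le_mul_of_nonneg_right h6 h4
    _ = klx p i (dR i E) c ^ 2 := (sq _).symm
    _ ≤ _ := h5
    _ = _ := mul_comm _ _

theorem kl_sq {p : I × J → ℝ} (hp : Sub p (1 / 2)) {M : ℝ} (hM : ∀ e, p e ≤ M) (i : I) :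
    Ex p (fun E => kl p i E ^ 2) ≤ M * BB * nr p i := by
  have h0 : ∀ e, 0 ≤ p e := hp.h0
  have h1 : ∀ e, p e ≤ 1 := fun e => hp.le_one (by norm_num) e
  rcases isEmpty_or_nonempty J with hJ | hJ
  · have e1 : ∀ E : Finset (I × J), kl p i E ^ 2 = 0 := by
      intro E
      unfold kl
      rw [Finset.eq_empty_of_isEmpty (Rm (dR i E) \ Rm E), Finset.sum_empty]
      norm_num
    have e2 : nr p i = 0 := by
      unfold nr
      exact Finset.sum_of_isEmpty _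
    rw [Ex_congr p e1, Ex_const, e2, mul_zero]
  obtain ⟨j0⟩ := hJ
  have hM0 : 0 ≤ M := (h0 (i, j0)).trans (hM (i, j0))
  rw [kl_Ex p i 2 two_ne_zero]
  have h9 : Ex p (fun E => ∑ c : Finset J, pcl p i (dR i E) c * klx p i (dR i E) c ^ 2) ≤
      Ex p (fun E => M *
        ∑ j ∈ Rm (dR i E), p (i, j) ^ 2 * ((cls (dR i E) j).card : ℝ) ^ 2) := by
    refine Ex_mono h0 h1 (fun E => ?_)
    have h2 : ∑ j ∈ Rm (dR i E), p (i, j) ^ 2 * ((cls (dR i E) j).card : ℝ) ^ 2 =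
        ∑ c : Finset J, (∑ j ∈ cl (dR i E) c, p (i, j) ^ 2) * ((cl (dR i E) c).card : ℝ) ^ 2 :=
      (sum_classes (dR i E) (fun j => p (i, j) ^ 2) (fun S => (S.card : ℝ) ^ 2)).symm
    rw [h2, Finset.mul_sum]
    refine Finset.sum_le_sum (fun c _ => ?_)
    have h3 := pcl_bounds h0 h1 i (dR i E) c
    have h4 := kl_x_nonneg h0 i (dR i E) c
    have h5 := kl_x_sq p i (dR i E) c
    have h6 : pcl p i (dR i E) c ≤ klx p i (dR i E) c := h3.2
    have h7 : klx p i (dR i E) c ≤ M * ((cl (dR i E) c).card : ℝ) := by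
      unfold klx
      have := Finset.sum_le_card_nsmul (cl (dR i E) c) (fun j => p (i, j)) M (fun j _ => hM _)
      rw [nsmul_eq_mul] at this
      linarith
    have h8 : 0 ≤ klx p i (dR i E) c ^ 2 := sq_nonneg _
    have h10 : 0 ≤ M * ((cl (dR i E) c).card : ℝ) := h4.trans h7
    calc pcl p i (dR i E) c * klx p i (dR i E) c ^ 2
        ≤ (M * ((cl (dR i E) c).card : ℝ)) * klx p i (dR i E) c ^ 2 :=
          mul_le_mul_of_nonneg_right (h6.trans h7) h8
      _ ≤ (M * ((cl (dR i E) c).card : ℝ)) *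
          (((cl (dR i E) c).card : ℝ) * ∑ j ∈ cl (dR i E) c, p (i, j) ^ 2) :=
          mul_le_mul_of_nonneg_left h5 h10
      _ = _ := by ring
  refine h9.trans ?_
  rw [Ex_mul_left, mul_assoc]
  exact mul_le_mul_of_nonneg_left (kl_mom hp i 2 (by norm_num) (by norm_num)) hM0

end Pool.JN
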