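import Pool.Agent.JN.D0

/-! Variance and fourth moment of linear functionals of the missable columns. -/

namespace Pool.JN

open Finset Pool.KS

set_option linter.unusedSectionVars false

variable {I J : Type*} [Fintype I] [Fintype J] [DecidableEq I] [DecidableEq J]

theorem D2_le : Dm (1 / 2) 2 ≤ BB := by
  have h1 := Dm_nonneg (1 / 2) 1
  have h3 := Dm_nonneg (1 / 2) 3
  have h4 := Dm_nonneg (1 / 2) 4
  unfold BB; linarith

theorem D4_le : Dm (1 / 2) 4 ≤ BB := by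
  have h1 := Dm_nonneg (1 / 2) 1
  have h3 := Dm_nonneg (1 / 2) 3
  have h2 := Dm_nonneg (1 / 2) 2
  unfold BB; linarith

theorem nsq_nonneg (d : J → ℝ) : 0 ≤ nsq d := Finset.sum_nonneg (fun _ _ => sq_nonneg _)

theorem var_LR {p : I × J → ℝ} (hp : Sub p (1 / 2)) (d : J → ℝ) :
    Ex p (fun E => (LR d E - Ex p (LR d)) ^ 2) ≤ BB * nsq d :=
  (lin2 hp (by norm_num) d).trans (mul_le_mul_of_nonneg_right D2_le (nsq_nonneg d))

theorem fourth_LR {p : I × J → ℝ} (hp : Sub p (1 / 2)) (d : J → ℝ) :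
    Ex p (fun E => (LR d E - Ex p (LR d)) ^ 4) ≤ 100 * BB ^ 2 * nsq d ^ 2 := by
  refine (lin4 hp (by norm_num) d).trans ?_
  have h1 := BB_one
  have h2 : Dm (1 / 2) 4 * nsq d ^ 2 ≤ BB * nsq d ^ 2 :=
    mul_le_mul_of_nonneg_right D4_le (sq_nonneg _)
  have h3 : BB * nsq d ^ 2 ≤ BB ^ 2 * nsq d ^ 2 := by
    refine mul_le_mul_of_nonneg_right ?_ (sq_nonneg _)
    nlinarith
  have h4 : 0 ≤ BB ^ 2 * nsq d ^ 2 := by positivity
  show 70 * (Dm (1 / 2) 4 * nsq d ^ 2) ≤ _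
  nlinarith

theorem var_LR_zr {p : I × J → ℝ} (hp : Sub p (1 / 2)) (d : J → ℝ) (i : I) :
    Ex p (fun E => (LR d (dR i E) - Ex p (fun E => LR d (dR i E))) ^ 2) ≤ BB * nsq d := by
  have h1 : Ex p (fun E => LR d (dR i E)) = Ex (zr p i) (LR d) := Ex_zr p i (LR d)
  rw [h1, Ex_zr p i (fun E => (LR d E - Ex (zr p i) (LR d)) ^ 2)]
  exact var_LR (hp.zr i) d

theorem fourth_LR_zr {p : I × J → ℝ} (hp : Sub p (1 / 2)) (d : J → ℝ) (i : I) :
    Ex p (fun E => (LR d (dR i E) - Ex p (fun E => LR d (dR i E))) ^ 4) ≤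
      100 * BB ^ 2 * nsq d ^ 2 := by
  have h1 : Ex p (fun E => LR d (dR i E)) = Ex (zr p i) (LR d) := Ex_zr p i (LR d)
  rw [h1, Ex_zr p i (fun E => (LR d E - Ex (zr p i) (LR d)) ^ 4)]
  exact fourth_LR (hp.zr i) d

end Pool.JN
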