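import Pool.Agent.JN.ES

/-! Concentration of Lipschitz functions of the set of missable columns. -/

namespace Pool.JN

open Finset Pool.KS

set_option linter.unusedSectionVars false

variable {I J : Type*} [Fintype I] [Fintype J] [DecidableEq I] [DecidableEq J]

/-- missable columns when column `l` is deleted, without `l` itself -/
noncomputable def Rx (l : J) (E : Finset (I × J)) : Finset J := (Rm (dC l E)).erase l

theorem Rx_dC (l : J) (E : Finset (I × J)) : Rx l (dC l E) = Rx l E := by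
  unfold Rx
  rw [dC_dC]

theorem Rm_eq_in {l : J} {E : Finset (I × J)} :
    Rm E = Rx l E ∪ cls E l ∧ Disjoint (Rx l E) (cls E l) := by
  constructor
  · ext j
    simp only [Rx, Finset.mem_union, Finset.mem_erase, mem_cls]
    constructor
    · intro hj
      by_cases h : j = l
      · exact Or.inr ⟨hj, Or.inl h⟩
      by_cases h2 : j ∈ Rm (dC l E)
      · exact Or.inl ⟨h, h2⟩
      · exact Or.inr ⟨hj, Or.inr h2⟩
    · rintro (h | h)
      · exact mono_Rm h.1 h.2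
      · exact h.1
  · rw [Finset.disjoint_left]
    intro j hj hj'
    simp only [Rx, Finset.mem_erase, mem_cls] at hj hj'
    rcases hj'.2 with h | h
    · exact hj.1 h
    · exact h hj.2

theorem Rm_eq_out {l : J} {E : Finset (I × J)} (hl : l ∉ Rm E) : Rm E = Rx l E := by
  ext j
  simp only [Rx, Finset.mem_erase]
  constructor
  · intro hj
    have hne : j ≠ l := fun h => hl (h ▸ hj)
    refine ⟨hne, ?_⟩
    rw [not_mem_Rm] at hl
    rw [mem_Rm] at hj ⊢
    have h1 := nu_le_dC l (dC j E)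
    rw [dC_comm l j E] at h1
    have h2 := nu_dC_le j (dC l E)
    omega
  · intro h
    exact mono_Rm h.1 h.2

/-- change of a Lipschitz function when column `l` is deleted -/
theorem delta_le {Φ : Finset J → ℝ} {d : J → ℝ}
    (hΦ : ∀ S T : Finset J, Disjoint S T → |Φ (S ∪ T) - Φ S| ≤ ∑ j ∈ T, d j) (l : J)
    (E : Finset (I × J)) :
    (Φ (Rm E) - Φ (Rx l E)) ^ 2 ≤
      if l ∈ Rm E then ((cls E l).card : ℝ) * ∑ j ∈ cls E l, d j ^ 2 else 0 := by
  split_ifs with hl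
  · obtain ⟨h1, h2⟩ := Rm_eq_in (l := l) (E := E)
    have h3 := hΦ _ _ h2
    rw [← h1] at h3
    have h4 : (Φ (Rm E) - Φ (Rx l E)) ^ 2 ≤ (∑ j ∈ cls E l, d j) ^ 2 := by
      rw [← sq_abs]
      exact pow_le_pow_left₀ (abs_nonneg _) h3 2
    exact h4.trans sq_sum_le_card_mul_sum_sq
  · rw [← Rm_eq_out hl, sub_self]
    norm_num

/-- the variance proxy -/
theorem proxy_le {Φ : Finset J → ℝ} {d : J → ℝ}
    (hΦ : ∀ S T : Finset J, Disjoint S T → |Φ (S ∪ T) - Φ S| ≤ ∑ j ∈ T, d j)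
    (E : Finset (I × J)) :
    ∑ l, (Φ (Rm E) - Φ (Rx l E)) ^ 2 ≤
      ∑ j, d j ^ 2 * (if j ∈ Rm E then ((cls E j).card : ℝ) ^ 2 else 0) := by
  refine (Finset.sum_le_sum (fun l _ => delta_le hΦ l E)).trans (le_of_eq ?_)
  have h1 : ∀ l : J, (if l ∈ Rm E then ((cls E l).card : ℝ) * ∑ j ∈ cls E l, d j ^ 2 else 0) =
      ∑ j, if l ∈ Rm E ∧ j ∈ cls E l then ((cls E l).card : ℝ) * d j ^ 2 else 0 := by
    intro l
    split_ifs with hl
    · rw [Finset.mul_sum, ← Finset.sum_filter_add_sum_filter_not univ (fun j => j ∈ cls E l)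
        (fun j => if l ∈ Rm E ∧ j ∈ cls E l then ((cls E l).card : ℝ) * d j ^ 2 else 0)]
      have e1 : ∑ j ∈ univ.filter (fun j => ¬ (j ∈ cls E l)),
          (if l ∈ Rm E ∧ j ∈ cls E l then ((cls E l).card : ℝ) * d j ^ 2 else 0) = 0 := by
        refine Finset.sum_eq_zero (fun j hj => ?_)
        rw [if_neg (fun h => (Finset.mem_filter.mp hj).2 h.2)]
      rw [e1, add_zero]
      refine Finset.sum_congr (by ext j; simp) (fun j hj => ?_)
      rw [if_pos ⟨hl, (Finset.mem_filter.mp hj).2⟩]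
    · symm
      exact Finset.sum_eq_zero (fun j _ => if_neg (fun h => hl h.1))
  rw [Finset.sum_congr rfl (fun l _ => h1 l), Finset.sum_comm]
  refine Finset.sum_congr rfl (fun j _ => ?_)
  split_ifs with hj
  · have h2 : ∀ l : J, (if l ∈ Rm E ∧ j ∈ cls E l then ((cls E l).card : ℝ) * d j ^ 2 else 0) =
        if l ∈ cls E j then ((cls E j).card : ℝ) * d j ^ 2 else 0 := by
      intro l
      by_cases h : l ∈ cls E j
      · have hl : l ∈ Rm E := (mem_cls.mp h).1
        rw [if_pos h, if_pos ⟨hl, cls_symm hj h⟩, cls_eq hj h]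
      · rw [if_neg h, if_neg]
        rintro ⟨hl, h3⟩
        exact h (cls_symm hl h3)
    rw [Finset.sum_congr rfl (fun l _ => h2 l), Finset.sum_ite_mem, Finset.univ_inter,
      Finset.sum_const, nsmul_eq_mul]
    ring
  · rw [mul_zero]
    refine Finset.sum_eq_zero (fun l _ => ?_)
    rw [if_neg]
    rintro ⟨_, h⟩
    exact hj (mem_cls.mp h).1

variable {p : I × J → ℝ} {th : ℝ}

/-- **Variance bound** for Lipschitz functions of the missable columns. -/
theorem lip2 (hp : Sub p th) (hth : th < 1) {Φ : Finset J → ℝ} {d : J → ℝ}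
    (hΦ : ∀ S T : Finset J, Disjoint S T → |Φ (S ∪ T) - Φ S| ≤ ∑ j ∈ T, d j) :
    Ex p (fun E => (Φ (Rm E) - Ex p (fun E => Φ (Rm E))) ^ 2) ≤ Dm th 2 * ∑ j, d j ^ 2 := by
  have h1 := es_cols hp.h0 (hp.le_one hth) (fun E => Φ (Rm E)) (fun l E => Φ (Rx l E))
    (fun l E => by rw [Rx_dC])
  rw [← Ex_sum] at h1
  refine h1.trans ((Ex_mono hp.h0 (hp.le_one hth) (fun E => proxy_le hΦ E)).trans ?_)
  rw [Ex_sum, Finset.mul_sum]
  refine Finset.sum_le_sum (fun j _ => ?_)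
  rw [Ex_mul_left, mul_comm]
  exact mul_le_mul_of_nonneg_right (cls_moment hp hth 2 j) (sq_nonneg _)

/-- **Fourth moment bound** for Lipschitz functions of the missable columns. -/
theorem lip4 (hp : Sub p th) (hth : th < 1) {Φ : Finset J → ℝ} {d : J → ℝ}
    (hΦ : ∀ S T : Finset J, Disjoint S T → |Φ (S ∪ T) - Φ S| ≤ ∑ j ∈ T, d j) :
    Ex p (fun E => (Φ (Rm E) - Ex p (fun E => Φ (Rm E))) ^ 4) ≤
      70 * (Dm th 4 * (∑ j, d j ^ 2) ^ 2) := by
  have h1 := es_cols4 hp.h0 (hp.le_one hth) (fun E => Φ (Rm E)) (fun l E => Φ (Rx l E))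
    (fun l E => by rw [Rx_dC])
  refine h1.trans (mul_le_mul_of_nonneg_left ?_ (by norm_num))
  have h2 : ∀ E : Finset (I × J), (∑ l, (Φ (Rm E) - Φ (Rx l E)) ^ 2) ^ 2 ≤
      (∑ j, d j ^ 2) * ∑ j, d j ^ 2 * (if j ∈ Rm E then ((cls E j).card : ℝ) ^ 4 else 0) := by
    intro E
    have h3 := pow_le_pow_left₀ (Finset.sum_nonneg (fun l _ => sq_nonneg _))
      (proxy_le hΦ E) 2
    refine h3.trans ?_
    have h4 := Finset.sum_mul_sq_le_sq_mul_sq (univ : Finset J) d
      (fun j => d j * (if j ∈ Rm E then ((cls E j).card : ℝ) ^ 2 else 0))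
    have e1 : ∀ j : J, d j * (d j * (if j ∈ Rm E then ((cls E j).card : ℝ) ^ 2 else 0)) =
        d j ^ 2 * (if j ∈ Rm E then ((cls E j).card : ℝ) ^ 2 else 0) := fun j => by ring
    have e2 : ∀ j : J, (d j * (if j ∈ Rm E then ((cls E j).card : ℝ) ^ 2 else 0)) ^ 2 =
        d j ^ 2 * (if j ∈ Rm E then ((cls E j).card : ℝ) ^ 4 else 0) := fun j => by
      split_ifs <;> ring
    simp only [e1, e2] at h4
    exact h4
  refine (Ex_mono hp.h0 (hp.le_one hth) h2).trans ?_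
  rw [Ex_mul_left, Ex_sum]
  have h5 : ∑ j, Ex p (fun E => d j ^ 2 * (if j ∈ Rm E then ((cls E j).card : ℝ) ^ 4 else 0)) ≤
      Dm th 4 * ∑ j, d j ^ 2 := by
    rw [Finset.mul_sum]
    refine Finset.sum_le_sum (fun j _ => ?_)
    rw [Ex_mul_left, mul_comm]
    exact mul_le_mul_of_nonneg_right (cls_moment hp hth 4 j) (sq_nonneg _)
  have h6 : 0 ≤ ∑ j, d j ^ 2 := Finset.sum_nonneg (fun j _ => sq_nonneg _)
  have h7 := mul_le_mul_of_nonneg_left h5 h6
  refine h7.trans (le_of_eq ?_)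
  ring

theorem lin_lip (d : J → ℝ) (S T : Finset J) (h : Disjoint S T) :
    |(∑ j ∈ S ∪ T, d j) - ∑ j ∈ S, d j| ≤ ∑ j ∈ T, |d j| := by
  rw [Finset.sum_union h, add_sub_cancel_left]
  exact Finset.abs_sum_le_sum_abs _ _

/-- **Variance of a linear statistic.** -/
theorem lin2 (hp : Sub p th) (hth : th < 1) (d : J → ℝ) :
    Ex p (fun E => ((∑ j ∈ Rm E, d j) - Ex p (fun E => ∑ j ∈ Rm E, d j)) ^ 2) ≤
      Dm th 2 * ∑ j, d j ^ 2 := by
  have h := lip2 hp hth (Φ := fun S => ∑ j ∈ S, d j) (d := fun j => |d j|) (lin_lip d)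
  simpa only [sq_abs] using h

/-- **Fourth central moment of a linear statistic.** -/
theorem lin4 (hp : Sub p th) (hth : th < 1) (d : J → ℝ) :
    Ex p (fun E => ((∑ j ∈ Rm E, d j) - Ex p (fun E => ∑ j ∈ Rm E, d j)) ^ 4) ≤
      70 * (Dm th 4 * (∑ j, d j ^ 2) ^ 2) := by
  have h := lip4 hp hth (Φ := fun S => ∑ j ∈ S, d j) (d := fun j => |d j|) (lin_lip d)
  simpa only [sq_abs] using h

theorem weierstrass {f : J → ℝ} (h0 : ∀ j, 0 ≤ f j) (h1 : ∀ j, f j ≤ 1) (T : Finset J) :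
    1 - ∑ j ∈ T, f j ≤ ∏ j ∈ T, (1 - f j) := by
  induction T using Finset.induction_on with
  | empty => simp
  | insert a T ha ih =>
    rw [Finset.sum_insert ha, Finset.prod_insert ha]
    have h2 : ∏ j ∈ T, (1 - f j) ≤ 1 :=
      Finset.prod_le_one (fun j _ => by linarith [h1 j]) (fun j _ => by linarith [h0 j])
    nlinarith [h0 a, h1 a]

theorem U_lip {q : I × J → ℝ} {i : I} (h0 : ∀ j, 0 ≤ q (i, j)) (h1 : ∀ j, q (i, j) ≤ 1)
    (S T : Finset J) (h : Disjoint S T) : |U q i (S ∪ T) - U q i S| ≤ ∑ j ∈ T, q (i, j) := by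
  have hU : ∀ S : Finset J, 0 ≤ U q i S ∧ U q i S ≤ 1 := by
    intro S
    unfold U
    exact ⟨Finset.prod_nonneg (fun j _ => by linarith [h1 j]),
      Finset.prod_le_one (fun j _ => by linarith [h1 j]) (fun j _ => by linarith [h0 j])⟩
  have hT : 1 - ∑ j ∈ T, q (i, j) ≤ U q i T := by
    unfold U
    exact weierstrass h0 h1 T
  have e : U q i (S ∪ T) = U q i S * U q i T := by
    unfold U
    exact Finset.prod_union h
  rw [e, abs_le]
  obtain ⟨h2, h3⟩ := hU S
  obtain ⟨h4, h5⟩ := hU T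
  have h6 : 0 ≤ ∑ j ∈ T, q (i, j) := Finset.sum_nonneg (fun j _ => h0 j)
  constructor <;> nlinarith

end Pool.JN
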