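import Pool.Agent.JN.LIN

/-! Local formula, file 1 (deterministic): special rows `S` and special columns `T` added to a
bulk graph `del S T E`. -/

namespace Pool.JN

open Finset Pool.KS

set_option linter.unusedSectionVars false

variable {I J : Type*} [Fintype I] [Fintype J] [DecidableEq I] [DecidableEq J]

theorem tr_del (A : Finset I) (B : Finset J) (E : Finset (I × J)) :
    tr (del A B E) = del B A (tr E) := by
  ext e
  simp only [mem_tr, mem_del, Prod.fst_swap, Prod.snd_swap]
  tauto

theorem del_del (A A' : Finset I) (B B' : Finset J) (E : Finset (I × J)) :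
    del A B (del A' B' E) = del (A ∪ A') (B ∪ B') E := by
  ext e
  simp only [mem_del, Finset.mem_union, not_or]
  tauto

theorem del_empty (E : Finset (I × J)) : del (∅ : Finset I) (∅ : Finset J) E = E := by
  ext e
  simp [mem_del]

/-- adding unhit rows changes neither `nu` nor the missable columns -/
theorem add_rows (S' : Finset I) : ∀ G : Finset (I × J),
    (∀ e ∈ G, e.1 ∈ S' → e.2 ∉ Rm (del S' ∅ G)) →
    nu G = nu (del S' ∅ G) ∧ Rm G = Rm (del S' ∅ G) := by
  induction S' using Finset.induction_on with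
  | empty =>
    intro G _
    rw [del_empty]
    exact ⟨rfl, rfl⟩
  | insert a S' ha ih =>
    intro G h
    have e1 : del S' ∅ (dR a G) = del (insert a S') ∅ G := by
      ext e
      simp only [mem_del, mem_dR, Finset.mem_insert, not_or]
      tauto
    obtain ⟨h1, h2⟩ := ih (dR a G) (fun e he hS => by
      rw [e1]
      exact h e (dR_sub a G he) (Finset.mem_insert_of_mem hS))
    rw [e1] at h1 h2
    have h3 : ∀ j, (a, j) ∈ G → j ∉ Rm (dR a G) := by
      intro j hj
      rw [h2]
      exact h _ hj (Finset.mem_insert_self _ _)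
    refine ⟨(nu_rec_neg h3).trans h1, ?_⟩
    ext j
    rw [mem_Rm_add (i := a), ← h2]
    constructor
    · intro hh; exact hh.1
    · intro hh; exact ⟨hh, Or.inl h3⟩

/-- adding unhit columns changes neither `nu` nor the missable rows -/
theorem add_cols (T' : Finset J) (G : Finset (I × J))
    (h : ∀ e ∈ G, e.2 ∈ T' → e.1 ∉ Lm (del ∅ T' G)) :
    nu G = nu (del ∅ T' G) ∧ Lm G = Lm (del ∅ T' G) := by
  have h1 := add_rows T' (tr G) (fun e he hT => by
    rw [← tr_del, Rm_tr]
    exact h e.swap (mem_tr.mp he) hT)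
  rw [← tr_del, nu_tr, nu_tr, Rm_tr, Rm_tr] at h1
  exact h1

/-- adding rows which hit at every stage -/
theorem gain_rows (S' : Finset I) : ∀ G : Finset (I × J),
    (∀ S'' ⊆ S', ∀ i ∈ S', i ∉ S'' → ∃ j, (i, j) ∈ G ∧ j ∈ Rm (del (S' \ S'') ∅ G)) →
    nu G = nu (del S' ∅ G) + S'.card := by
  induction S' using Finset.induction_on with
  | empty =>
    intro G _
    rw [del_empty, Finset.card_empty, add_zero]
  | insert a S' ha ih =>
    intro G h
    have e1 : ∀ S'' : Finset I, a ∉ S'' → del (S' \ S'') ∅ (dR a G) =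
        del (insert a S' \ S'') ∅ G := by
      intro S'' hS''
      ext e
      simp only [mem_del, mem_dR, Finset.mem_insert, Finset.mem_sdiff, not_and, not_not]
      constructor
      · rintro ⟨⟨h1, h2⟩, h3, h4⟩
        refine ⟨h1, ?_, h4⟩
        rintro (h5 | h5)
        · exact absurd h5 h2
        · exact h3 h5
      · rintro ⟨h1, h3, h4⟩
        refine ⟨⟨h1, ?_⟩, ?_, h4⟩
        · intro h5
          have := h3 (Or.inl h5)
          rw [h5] at this
          exact hS'' this
        · intro h5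
          exact h3 (Or.inr h5)
    have h1 := ih (dR a G) (fun S'' hS'' i hi hi' => by
      have haS : a ∉ S'' := fun hh => ha (hS'' hh)
      obtain ⟨j, hj1, hj2⟩ := h S'' (hS''.trans (Finset.subset_insert _ _)) i
        (Finset.mem_insert_of_mem hi) hi'
      refine ⟨j, ?_, ?_⟩
      · rw [mem_dR]
        refine ⟨hj1, ?_⟩
        intro h5
        apply ha
        rw [← h5]
        exact hi
      · rw [e1 S'' haS]
        exact hj2)
    have e2 : del S' ∅ (dR a G) = del (insert a S') ∅ G := by
      ext e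
      simp only [mem_del, mem_dR, Finset.mem_insert, not_or]
      tauto
    rw [e2] at h1
    obtain ⟨j, hj1, hj2⟩ := h S' (Finset.subset_insert _ _) a (Finset.mem_insert_self _ _) ha
    have e3 : del (insert a S' \ S') ∅ G = dR a G := by
      ext e
      simp only [mem_del, mem_dR, Finset.mem_insert, Finset.mem_sdiff, not_and, not_not]
      constructor
      · rintro ⟨h2, h3, _⟩
        refine ⟨h2, ?_⟩
        intro h4
        have := h3 (Or.inl h4)
        rw [h4] at this
        exact ha this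
      · rintro ⟨h2, h3⟩
        refine ⟨h2, ?_, by simp⟩
        rintro (h4 | h4)
        · exact absurd h4 h3
        · exact h4
    rw [e3] at hj2
    rw [nu_rec_pos hj1 hj2, h1, Finset.card_insert_of_notMem ha, add_assoc]

/-- adding columns which hit at every stage -/
theorem gain_cols (T' : Finset J) (G : Finset (I × J))
    (h : ∀ T'' ⊆ T', ∀ j ∈ T', j ∉ T'' → ∃ i, (i, j) ∈ G ∧ i ∈ Lm (del ∅ (T' \ T'') G)) :
    nu G = nu (del ∅ T' G) + T'.card := by
  have h1 := gain_rows T' (tr G) (fun T'' hT'' j hj hj' => by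
    obtain ⟨i, hi1, hi2⟩ := h T'' hT'' j hj hj'
    refine ⟨i, mem_tr.mpr hi1, ?_⟩
    rw [← tr_del, Rm_tr]
    exact hi2)
  rw [← tr_del, nu_tr, nu_tr] at h1
  exact h1

theorem nu_le_delR (A : Finset I) : ∀ E : Finset (I × J), nu E ≤ nu (del A ∅ E) + A.card := by
  induction A using Finset.induction_on with
  | empty => intro E; rw [del_empty]; simp
  | insert a A ha ih =>
    intro E
    have h2 := nu_le_dR a E
    have h3 := ih (dR a E)
    have e2 : del A ∅ (dR a E) = del (insert a A) ∅ E := by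
      ext e
      simp only [mem_del, mem_dR, Finset.mem_insert, not_or]
      tauto
    rw [e2] at h3
    rw [Finset.card_insert_of_notMem ha]
    omega

theorem nu_le_del (A : Finset I) (B : Finset J) (E : Finset (I × J)) :
    nu E ≤ nu (del A B E) + (A.card + B.card) := by
  have h2 := nu_le_delR A E
  have h3 := nu_le_delR B (tr (del A ∅ E))
  rw [← tr_del, nu_tr, nu_tr, del_del] at h3
  simp only [Finset.empty_union, Finset.union_empty] at h3
  omega

theorem nu_union_le (G G' : Finset (I × J)) : nu (G ∪ G') ≤ nu G + nu G' := by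
  obtain ⟨M, hs, hM, hc⟩ := exists_max (G ∪ G')
  rw [← hc]
  have h1 : M.card ≤ (M ∩ G).card + (M ∩ G').card := by
    have h2 : M ⊆ (M ∩ G) ∪ (M ∩ G') := by
      intro e he
      rcases Finset.mem_union.mp (hs he) with h | h
      · exact Finset.mem_union_left _ (Finset.mem_inter.mpr ⟨he, h⟩)
      · exact Finset.mem_union_right _ (Finset.mem_inter.mpr ⟨he, h⟩)
    exact (Finset.card_le_card h2).trans (Finset.card_union_le _ _)
  have h2 := card_le_nu (hM.mono (Finset.inter_subset_left (s₂ := G))) Finset.inter_subset_right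
  have h3 := card_le_nu (hM.mono (Finset.inter_subset_left (s₂ := G'))) Finset.inter_subset_right
  omega

/-- the block of `E` on the rows `A` and the columns `B` -/
def bl (A : Finset I) (B : Finset J) (E : Finset (I × J)) : Finset (I × J) :=
  E.filter (fun e => e.1 ∈ A ∧ e.2 ∈ B)

theorem mem_bl {A : Finset I} {B : Finset J} {E : Finset (I × J)} {e : I × J} :
    e ∈ bl A B E ↔ e ∈ E ∧ e.1 ∈ A ∧ e.2 ∈ B := by simp [bl]

theorem nu_bl_le (A : Finset I) (B : Finset J) (E : Finset (I × J)) :
    nu (bl A B E) ≤ A.card := by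
  obtain ⟨M, hs, hM, hc⟩ := exists_max (bl A B E)
  rw [← hc]
  refine Finset.card_le_card_of_injOn Prod.fst (fun e he => ?_) (fun e he e' he' h => ?_)
  · exact (mem_bl.mp (hs he)).2.1
  · exact hM e he e' he' (Or.inl h)

theorem nu_del_bl (A : Finset I) (B : Finset J) (E : Finset (I × J)) :
    nu (del A B E) + nu (bl A B E) ≤ nu E := by
  obtain ⟨M1, s1, i1, c1⟩ := exists_max (del A B E)
  obtain ⟨M2, s2, i2, c2⟩ := exists_max (bl A B E)
  obtain ⟨hm, hc⟩ := isMatching_union (A1 := Aᶜ) (B1 := Bᶜ) (A2 := A) (B2 := B) i1 i2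
    (fun e he => by
      have := mem_del.mp (s1 he)
      exact ⟨Finset.mem_compl.mpr this.2.1, Finset.mem_compl.mpr this.2.2⟩)
    (fun e he => (mem_bl.mp (s2 he)).2)
    (Finset.disjoint_left.mpr (fun x hx hx' => (Finset.mem_compl.mp hx) hx'))
    (Finset.disjoint_left.mpr (fun x hx hx' => (Finset.mem_compl.mp hx) hx'))
  rw [← c1, ← c2, ← hc]
  refine card_le_nu hm ?_
  intro e he
  rcases Finset.mem_union.mp he with h | h
  · exact (mem_del.mp (s1 h)).1
  · exact (mem_bl.mp (s2 h)).1

open Classical in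
/-- special rows that hit the missable columns of the bulk -/
noncomputable def S1 (S : Finset I) (T : Finset J) (E : Finset (I × J)) : Finset I :=
  S.filter (fun i => ∃ j, (i, j) ∈ E ∧ j ∉ T ∧ j ∈ Rm (del S T E))

open Classical in
/-- special columns that hit the missable rows of the bulk -/
noncomputable def T1 (S : Finset I) (T : Finset J) (E : Finset (I × J)) : Finset J :=
  T.filter (fun j => ∃ i, (i, j) ∈ E ∧ i ∉ S ∧ i ∈ Lm (del S T E))

theorem mem_S1 {S : Finset I} {T : Finset J} {E : Finset (I × J)} {i : I} :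
    i ∈ S1 S T E ↔ i ∈ S ∧ ∃ j, (i, j) ∈ E ∧ j ∉ T ∧ j ∈ Rm (del S T E) := by
  unfold S1
  rw [Finset.mem_filter]

theorem mem_T1 {S : Finset I} {T : Finset J} {E : Finset (I × J)} {j : J} :
    j ∈ T1 S T E ↔ j ∈ T ∧ ∃ i, (i, j) ∈ E ∧ i ∉ S ∧ i ∈ Lm (del S T E) := by
  unfold T1
  rw [Finset.mem_filter]

/-- the value of the local formula -/
noncomputable def LV (S : Finset I) (T : Finset J) (E : Finset (I × J)) : ℕ :=
  nu (del S T E) + (S1 S T E).card + (T1 S T E).card +
    nu (bl (S \ S1 S T E) (T \ T1 S T E) E)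

/-- **Deterministic local formula** on the good event. -/
theorem local_det (S : Finset I) (T : Finset J) (E : Finset (I × J))
    (g1 : ∀ S' ⊆ S, ∀ i ∈ S, i ∉ S' → ∀ j, (i, j) ∈ E → j ∉ T → j ∈ Rm (del S T E) →
      j ∈ Rm (del (S \ S') T E))
    (g2 : ∀ S' ⊆ S, ∀ T' ⊆ T, ∀ j ∈ T, j ∉ T' → ∀ i, (i, j) ∈ E → i ∉ S →
      i ∈ Lm (del S T E) → i ∈ Lm (del (S \ S') (T \ T') (E \ bl S T E)))
    (g3 : ∀ S' ⊆ S, ∀ j ∈ T, ∀ i, (i, j) ∈ E → i ∉ S → i ∈ Lm (del (S \ S') T E) →
      i ∈ Lm (del S T E)) :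
    nu E = LV S T E := by
  unfold LV
  set A := S1 S T E with hA
  set B := T1 S T E with hB
  have hAS : A ⊆ S := fun i hi => (mem_S1.mp hi).1
  have hBT : B ⊆ T := fun j hj => (mem_T1.mp hj).1
  refine le_antisymm ?_ ?_
  · -- upper bound
    have u1 := nu_le_del A B E
    set G := del A B E \ bl (S \ A) (T \ B) E with hG
    have u2 : nu (del A B E) ≤ nu (bl (S \ A) (T \ B) E) + nu G := by
      refine le_trans (nu_mono ?_) (nu_union_le _ _)
      intro e he
      by_cases h : e ∈ bl (S \ A) (T \ B) E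
      · exact Finset.mem_union_left _ h
      · exact Finset.mem_union_right _ (Finset.mem_sdiff.mpr ⟨he, h⟩)
    have e1 : del ∅ (T \ B) G = del A T E := by
      ext e
      simp only [hG, mem_del, mem_bl, Finset.mem_sdiff, Finset.notMem_empty, not_false_eq_true,
        true_and]
      constructor
      · rintro ⟨⟨⟨h1, h2, h3⟩, _⟩, h4⟩
        exact ⟨h1, h2, fun h5 => h4 ⟨h5, h3⟩⟩
      · rintro ⟨h1, h2, h3⟩
        exact ⟨⟨⟨h1, h2, fun h4 => h3 (hBT h4)⟩, fun h4 => h3 h4.2.2.1⟩, fun h4 => h3 h4.1⟩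
    have u3 := add_cols (T \ B) G (fun e he hT => by
      rw [e1]
      intro hL
      rw [hG, Finset.mem_sdiff, mem_del] at he
      obtain ⟨⟨h1, h2, h3⟩, h4⟩ := he
      rw [Finset.mem_sdiff] at hT
      have hiS : e.1 ∉ S := by
        intro h5
        exact h4 (mem_bl.mpr ⟨h1, Finset.mem_sdiff.mpr ⟨h5, h2⟩, Finset.mem_sdiff.mpr hT⟩)
      have e2 : S \ (S \ A) = A := by
        exact Finset.sdiff_sdiff_eq_self hAS
      have h5 := g3 (S \ A) Finset.sdiff_subset e.2 hT.1 e.1 h1 hiS (by rw [e2]; exact hL)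
      exact hT.2 (mem_T1.mpr ⟨hT.1, e.1, h1, hiS, h5⟩))
    rw [e1] at u3
    have e2 : del (S \ A) ∅ (del A T E) = del S T E := by
      rw [del_del]
      congr 1
      · rw [Finset.sdiff_union_of_subset hAS]
      · simp
    have u4 := add_rows (S \ A) (del A T E) (fun e he hS => by
      rw [e2]
      intro hR
      rw [mem_del] at he
      rw [Finset.mem_sdiff] at hS
      exact hS.2 (mem_S1.mpr ⟨hS.1, e.2, he.1, he.2.2, hR⟩))
    rw [e2] at u4
    have := u3.1
    have := u4.1
    omega
  · -- lower bound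
    have l1 := nu_del_bl (S \ A) (T \ B) E
    set E0 := E \ bl S T E with hE0
    have l1' : nu (del (S \ A) (T \ B) E0) ≤ nu (del (S \ A) (T \ B) E) := by
      refine nu_mono (fun e he => ?_)
      rw [mem_del] at he ⊢
      exact ⟨(Finset.mem_sdiff.mp he.1).1, he.2⟩
    have e0 : ∀ X : Finset I, del X T E0 = del X T E := by
      intro X
      ext e
      simp only [hE0, mem_del, mem_bl, Finset.mem_sdiff]
      constructor
      · rintro ⟨⟨h1, _⟩, h2⟩; exact ⟨h1, h2⟩
      · rintro ⟨h1, h2⟩; exact ⟨⟨h1, fun h3 => h2.2 h3.2.2⟩, h2⟩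
    have e1 : del ∅ B (del (S \ A) (T \ B) E0) = del (S \ A) T E := by
      rw [del_del, ← e0]
      congr 1
      · simp
      · rw [Finset.union_comm, Finset.sdiff_union_of_subset hBT]
    have l2 := gain_cols B (del (S \ A) (T \ B) E0) (fun T'' hT'' j hj hj' => by
      obtain ⟨hjT, i, h1, h2, h3⟩ := mem_T1.mp hj
      refine ⟨i, ?_, ?_⟩
      · rw [mem_del, hE0, Finset.mem_sdiff]
        exact ⟨⟨h1, fun h => h2 (mem_bl.mp h).2.1⟩, fun h => h2 (Finset.mem_sdiff.mp h).1,
          fun h => (Finset.mem_sdiff.mp h).2 hj⟩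
      · have e2 : del ∅ (B \ T'') (del (S \ A) (T \ B) E0) = del (S \ A) (T \ T'') E0 := by
          rw [del_del]
          congr 1
          · simp
          · ext x
            simp only [Finset.mem_union, Finset.mem_sdiff]
            constructor
            · rintro (⟨h4, h5⟩ | ⟨h4, h5⟩)
              · exact ⟨hBT h4, h5⟩
              · exact ⟨h4, fun h6 => h5 (hT'' h6)⟩
            · rintro ⟨h4, h5⟩
              by_cases h6 : x ∈ B
              · exact Or.inl ⟨h6, h5⟩
              · exact Or.inr ⟨h4, h6⟩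
        rw [e2]
        exact g2 A hAS T'' (hT''.trans hBT) j hjT hj' i h1 h2 h3)
    rw [e1] at l2
    have e2 : del A ∅ (del (S \ A) T E) = del S T E := by
      rw [del_del]
      congr 1
      · rw [Finset.union_comm, Finset.sdiff_union_of_subset hAS]
      · simp
    have l3 := gain_rows A (del (S \ A) T E) (fun S'' hS'' i hi hi' => by
      obtain ⟨hiS, j, h1, h2, h3⟩ := mem_S1.mp hi
      refine ⟨j, ?_, ?_⟩
      · rw [mem_del]
        exact ⟨h1, fun h => (Finset.mem_sdiff.mp h).2 hi, h2⟩
      · have e3 : del (A \ S'') ∅ (del (S \ A) T E) = del (S \ S'') T E := by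
          rw [del_del]
          congr 1
          · ext x
            simp only [Finset.mem_union, Finset.mem_sdiff]
            constructor
            · rintro (⟨h4, h5⟩ | ⟨h4, h5⟩)
              · exact ⟨hAS h4, h5⟩
              · exact ⟨h4, fun h6 => h5 (hS'' h6)⟩
            · rintro ⟨h4, h5⟩
              by_cases h6 : x ∈ A
              · exact Or.inl ⟨h6, h5⟩
              · exact Or.inr ⟨h4, h6⟩
          · simp
        rw [e3]
        exact g1 S'' (hS''.trans hAS) i hiS hi' j h1 h2 h3)
    rw [e2] at l3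
    omega

theorem LV_le (S : Finset I) (T : Finset J) (E : Finset (I × J)) :
    nu (del S T E) ≤ LV S T E ∧ LV S T E ≤ nu (del S T E) + (S.card + T.card) := by
  unfold LV
  have h1 := nu_bl_le (S \ S1 S T E) (T \ T1 S T E) E
  have h2 : S1 S T E ⊆ S := fun i hi => (mem_S1.mp hi).1
  have h3 : T1 S T E ⊆ T := fun j hj => (mem_T1.mp hj).1
  have h4 := Finset.card_sdiff_add_card_eq_card h2
  have h5 := Finset.card_le_card h3
  constructor <;> omega

/-- crude bound outside the good event -/
theorem crude (S : Finset I) (T : Finset J) (E : Finset (I × J)) :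
    |(nu E : ℝ) - (LV S T E : ℝ)| ≤ (S.card : ℝ) + T.card := by
  have h1 := LV_le S T E
  have h2 := nu_le_del S T E
  have h3 := nu_mono (del_sub S T E)
  have a1 : (nu (del S T E) : ℝ) ≤ LV S T E := by exact_mod_cast h1.1
  have a2 : (LV S T E : ℝ) ≤ nu (del S T E) + ((S.card : ℝ) + T.card) := by exact_mod_cast h1.2
  have a3 : (nu E : ℝ) ≤ nu (del S T E) + ((S.card : ℝ) + T.card) := by exact_mod_cast h2
  have a4 : (nu (del S T E) : ℝ) ≤ nu E := by exact_mod_cast h3
  rw [abs_le]
  constructor <;> linarith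

end Pool.JN
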