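import Pool.Agent.JN.Lf1

/-! Local formula, file 2: the expected number of bad events; the value formula (3.1). -/

namespace Pool.JN

open Finset Pool.KS

set_option linter.unusedSectionVars false

variable {I J : Type*} [Fintype I] [Fintype J] [DecidableEq I] [DecidableEq J]

theorem mono_Lm {i k : I} (h : i ≠ k) {E : Finset (I × J)} (hi : i ∈ Lm (dR k E)) :
    i ∈ Lm E := by
  rw [← Rm_tr, tr_dR] at hi
  rw [← Rm_tr]
  exact mono_Rm h hi

theorem mono_Lm_del {i : I} (A' : Finset I) (B : Finset J) (E : Finset (I × J)) (X : Finset I)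
    (hiX : i ∉ X) (hi : i ∈ Lm (del (A' ∪ X) B E)) : i ∈ Lm (del A' B E) := by
  induction X using Finset.induction_on with
  | empty => simpa using hi
  | insert a X ha ih =>
    rw [Finset.mem_insert, not_or] at hiX
    apply ih hiX.2
    have e : del (A' ∪ insert a X) B E = dR a (del (A' ∪ X) B E) := by
      rw [dR_del, Finset.union_insert]
    rw [e] at hi
    exact mono_Lm hiX.1 hi

theorem mij_sum_card (a : I) (G : Finset (I × J)) :
    ∑ j, mij a j G = (((Rm (dR a G)) \ Rm G).card : ℝ) := by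
  unfold mij
  rw [← Finset.sum_filter, Finset.sum_const, nsmul_eq_mul, mul_one]
  congr 2
  ext j
  simp [Finset.mem_sdiff]

variable {p : I × J → ℝ} {th : ℝ}

/-- rows added one at a time kill few columns -/
theorem kill_rows (hp : Sub p th) (hth : th < 1) (A' : Finset I) (B : Finset J) (X : Finset I) :
    Ex p (fun E => (((Rm (del (A' ∪ X) B E)) \ Rm (del A' B E)).card : ℝ)) ≤
      X.card * Dm th 1 := by
  induction X using Finset.induction_on with
  | empty =>
    simp only [Finset.union_empty, Finset.sdiff_self, Finset.card_empty, Nat.cast_zero, Ex_const,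
      zero_mul]
    exact le_rfl
  | insert a X ha ih =>
    have h1 : ∀ E : Finset (I × J),
        (((Rm (del (A' ∪ insert a X) B E)) \ Rm (del A' B E)).card : ℝ) ≤
        (∑ j, mij a j (del (A' ∪ X) B E)) +
          (((Rm (del (A' ∪ X) B E)) \ Rm (del A' B E)).card : ℝ) := by
      intro E
      rw [mij_sum_card]
      have e : del (A' ∪ insert a X) B E = dR a (del (A' ∪ X) B E) := by
        rw [dR_del, Finset.union_insert]
      rw [e]
      have h2 : Rm (dR a (del (A' ∪ X) B E)) \ Rm (del A' B E) ⊆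
          (Rm (dR a (del (A' ∪ X) B E)) \ Rm (del (A' ∪ X) B E)) ∪
            (Rm (del (A' ∪ X) B E) \ Rm (del A' B E)) := by
        intro j hj
        rw [Finset.mem_sdiff] at hj
        rw [Finset.mem_union, Finset.mem_sdiff, Finset.mem_sdiff]
        by_cases h3 : j ∈ Rm (del (A' ∪ X) B E)
        · exact Or.inr ⟨h3, hj.2⟩
        · exact Or.inl ⟨hj.1, h3⟩
      exact_mod_cast (Finset.card_le_card h2).trans (Finset.card_union_le _ _)
    refine (Ex_mono hp.h0 (hp.le_one hth) h1).trans ?_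
    rw [Ex_add, Finset.card_insert_of_notMem ha]
    have h2 : Ex p (fun E => ∑ j, mij a j (del (A' ∪ X) B E)) ≤ Dm th 1 := by
      rw [Ex_del p (A' ∪ X) B (fun E => ∑ j, mij a j E)]
      have h3 := mij_moment (hp.zero (fun e : I × J => e.1 ∈ A' ∪ X ∨ e.2 ∈ B)) hth
        (m := 1) one_ne_zero a
      simpa only [pow_one] using h3
    push_cast
    linarith

theorem kill_cols (hp : Sub p th) (hth : th < 1) (A : Finset I) (B' : Finset J) (X : Finset J) :
    Ex p (fun E => (((Lm (del A (B' ∪ X) E)) \ Lm (del A B' E)).card : ℝ)) ≤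
      X.card * Dm th 1 := by
  have h1 := kill_rows hp.pt hth B' A X
  rw [← Ex_tr] at h1
  simp only [← tr_del, Rm_tr] at h1
  exact h1

/-- rows added one at a time revive few rows -/
theorem revive_rows (hp : Sub p th) (hth : th < 1) (A' : Finset I) (B : Finset J)
    (X : Finset I) :
    Ex p (fun E => ((((Lm (del A' B E)) \ Lm (del (A' ∪ X) B E)) \ (A' ∪ X)).card : ℝ)) ≤
      X.card * Dm th 1 := by
  induction X using Finset.induction_on with
  | empty =>
    simp only [Finset.union_empty, Finset.sdiff_self, Finset.empty_sdiff, Finset.card_empty,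
      Nat.cast_zero, Ex_const, zero_mul]
    exact le_rfl
  | insert a X ha ih =>
    have h1 : ∀ E : Finset (I × J),
        ((((Lm (del A' B E)) \ Lm (del (A' ∪ insert a X) B E)) \ (A' ∪ insert a X)).card : ℝ) ≤
        (if a ∈ Lm (del (A' ∪ X) B E) then
          ((cls (tr (del (A' ∪ X) B E)) a).card : ℝ) ^ 1 else 0) +
          ((((Lm (del A' B E)) \ Lm (del (A' ∪ X) B E)) \ (A' ∪ X)).card : ℝ) := by
      intro E
      set G := del (A' ∪ X) B E with hG
      have e : del (A' ∪ insert a X) B E = dR a G := by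
        rw [hG, dR_del, Finset.union_insert]
      rw [e]
      set Y : Finset I := if a ∈ Lm G then cls (tr G) a else ∅ with hY
      have h2 : (Lm (del A' B E) \ Lm (dR a G)) \ (A' ∪ insert a X) ⊆
          Y ∪ ((Lm (del A' B E) \ Lm G) \ (A' ∪ X)) := by
        intro i hi
        simp only [Finset.mem_sdiff, Finset.mem_union, Finset.mem_insert, not_or] at hi
        obtain ⟨⟨i1, i2⟩, i3, i4, i5⟩ := hi
        rw [Finset.mem_union]
        by_cases h3 : i ∈ Lm G
        · left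
          by_cases h4 : a ∈ Lm G
          · rw [hY, if_pos h4, mem_cls]
            rw [← Rm_tr] at h3
            refine ⟨h3, Or.inr ?_⟩
            rw [← tr_dR, Rm_tr]
            exact i2
          · exfalso
            have h5 : a ∉ Rm (tr G) := by rw [Rm_tr]; exact h4
            have h6 := Rm_eq_out h5
            rw [← Rm_tr, h6] at h3
            unfold Rx at h3
            rw [Finset.mem_erase, ← tr_dR, Rm_tr] at h3
            exact i2 h3.2
        · right
          simp only [Finset.mem_sdiff, Finset.mem_union, not_or]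
          exact ⟨⟨i1, h3⟩, i3, i5⟩
      have h3 := (Finset.card_le_card h2).trans (Finset.card_union_le _ _)
      have h4 : (Y.card : ℝ) = if a ∈ Lm G then ((cls (tr G) a).card : ℝ) ^ 1 else 0 := by
        rw [hY]
        split_ifs
        · rw [pow_one]
        · simp
      rw [← h4]
      exact_mod_cast h3
    refine (Ex_mono hp.h0 (hp.le_one hth) h1).trans ?_
    rw [Ex_add, Finset.card_insert_of_notMem ha]
    have h2 : Ex p (fun E => if a ∈ Lm (del (A' ∪ X) B E) then
        ((cls (tr (del (A' ∪ X) B E)) a).card : ℝ) ^ 1 else 0) ≤ Dm th 1 := by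
      rw [Ex_del p (A' ∪ X) B (fun E => if a ∈ Lm E then ((cls (tr E) a).card : ℝ) ^ 1 else 0)]
      exact clsR_moment (hp.zero (fun e : I × J => e.1 ∈ A' ∪ X ∨ e.2 ∈ B)) hth 1 a
    push_cast
    linarith

/-- a row hits a random set of columns which does not depend on the row -/
theorem hitR_le (hp : Sub p th) (hth : th < 1) {w : ℝ} (i : I)
    (Q : Finset (I × J) → Finset J) (hQ : ∀ E, Q (dR i E) = Q E)
    (hb : ∀ E, ∀ j ∈ Q E, p (i, j) ≤ w) :
    Ex p (fun E => 1 - av i E (Q E)) ≤ w * Ex p (fun E => ((Q E).card : ℝ)) := by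
  have h1 := Ex_av p i (fun _ => 1) Q (fun _ => rfl) hQ
  simp only [one_mul] at h1
  rw [Ex_sub, Ex_const, h1, ← Ex_const p (1 : ℝ), ← Ex_sub, ← Ex_mul_left]
  refine Ex_mono hp.h0 (hp.le_one hth) (fun E => ?_)
  have h2 := weierstrass (f := fun j => p (i, j)) (fun j => hp.h0 _) (fun j => hp.le_one hth _)
    (Q E)
  have h3 : ∑ j ∈ Q E, p (i, j) ≤ w * ((Q E).card : ℝ) := by
    refine (Finset.sum_le_sum (fun j hj => hb E j hj)).trans (le_of_eq ?_)
    rw [Finset.sum_const, nsmul_eq_mul, mul_comm]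
  unfold U
  linarith

theorem hitC_le (hp : Sub p th) (hth : th < 1) {w : ℝ} (j : J)
    (Q : Finset (I × J) → Finset I) (hQ : ∀ E, Q (dC j E) = Q E)
    (hb : ∀ E, ∀ i ∈ Q E, p (i, j) ≤ w) :
    Ex p (fun E => 1 - avc j E (Q E)) ≤ w * Ex p (fun E => ((Q E).card : ℝ)) := by
  have h1 := hitR_le hp.pt hth (w := w) j (fun F => Q (tr F))
    (fun F => by rw [tr_dR', hQ]) (fun F i hi => hb (tr F) i hi)
  rw [← Ex_tr, ← Ex_tr] at h1
  simp only [tr_tr, ← avc_eq] at h1
  exact h1

/-- edges with both ends special removed -/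
def E0 (S : Finset I) (T : Finset J) (E : Finset (I × J)) : Finset (I × J) := E \ bl S T E

theorem mem_E0 {S : Finset I} {T : Finset J} {E : Finset (I × J)} {e : I × J} :
    e ∈ E0 S T E ↔ e ∈ E ∧ ¬ (e.1 ∈ S ∧ e.2 ∈ T) := by
  unfold E0
  rw [Finset.mem_sdiff, mem_bl]
  tauto

theorem del_E0 (S X : Finset I) (T : Finset J) (E : Finset (I × J)) :
    del X T (E0 S T E) = del X T E := by
  ext e
  rw [mem_del, mem_del, mem_E0]
  tauto

theorem Ex_E0 (p : I × J → ℝ) (S : Finset I) (T : Finset J) (G : Finset (I × J) → ℝ) :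
    Ex p (fun E => G (E0 S T E)) = Ex (fun e => if e.1 ∈ S ∧ e.2 ∈ T then 0 else p e) G := by
  have h1 : ∀ E : Finset (I × J), E0 S T E =
      E \ univ.filter (fun e : I × J => e.1 ∈ S ∧ e.2 ∈ T) := by
    intro E
    ext x
    simp only [mem_E0, Finset.mem_sdiff, Finset.mem_filter, Finset.mem_univ, true_and]
  have h2 : Ex p (fun E => G (E0 S T E)) =
      Ex p (fun E => G (E \ univ.filter (fun e : I × J => e.1 ∈ S ∧ e.2 ∈ T))) :=
    Ex_congr p (fun E => by rw [h1])
  rw [h2, Pool.KX.up_sdiff]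
  congr 1
  funext x
  simp

/-- bad sets -/
noncomputable def Q1 (S : Finset I) (T : Finset J) (S' : Finset I) (F : Finset (I × J)) :
    Finset J := (Rm (del S T F) \ Rm (del (S \ S') T F)) \ T

noncomputable def Q2 (S : Finset I) (T : Finset J) (S' : Finset I) (T' : Finset J)
    (F : Finset (I × J)) : Finset I :=
  (Lm (del S T F) \ Lm (del (S \ S') (T \ T') F)) \ S

noncomputable def Q3 (S : Finset I) (T : Finset J) (S' : Finset I) (F : Finset (I × J)) :
    Finset I := (Lm (del (S \ S') T F) \ Lm (del S T F)) \ S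

/-- number of bad events -/
noncomputable def BAD (S : Finset I) (T : Finset J) (F : Finset (I × J)) : ℝ :=
  (∑ S' ∈ S.powerset, ∑ i ∈ S \ S', (1 - av i F (Q1 S T S' F))) +
  (∑ S' ∈ S.powerset, ∑ T' ∈ T.powerset, ∑ j ∈ T \ T', (1 - avc j F (Q2 S T S' T' F))) +
  (∑ S' ∈ S.powerset, ∑ j ∈ T, (1 - avc j F (Q3 S T S' F)))

theorem av_01 (i : I) (E : Finset (I × J)) (Q : Finset J) :
    1 - av i E Q = 0 ∨ 1 ≤ 1 - av i E Q := by
  rcases av_cases i E Q with h | h <;> rw [h] <;> norm_num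

theorem avc_01 (j : J) (E : Finset (I × J)) (Q : Finset I) :
    1 - avc j E Q = 0 ∨ 1 ≤ 1 - avc j E Q := by
  rw [avc_eq]
  exact av_01 j (tr E) Q

theorem av_nn (i : I) (E : Finset (I × J)) (Q : Finset J) : 0 ≤ 1 - av i E Q := by
  rcases av_01 i E Q with h | h <;> linarith

theorem avc_nn (j : J) (E : Finset (I × J)) (Q : Finset I) : 0 ≤ 1 - avc j E Q := by
  rcases avc_01 j E Q with h | h <;> linarith

theorem BAD_nonneg (S : Finset I) (T : Finset J) (F : Finset (I × J)) : 0 ≤ BAD S T F := by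
  unfold BAD
  refine add_nonneg (add_nonneg ?_ ?_) ?_
  · exact Finset.sum_nonneg (fun _ _ => Finset.sum_nonneg (fun _ _ => av_nn _ _ _))
  · exact Finset.sum_nonneg (fun _ _ => Finset.sum_nonneg (fun _ _ =>
      Finset.sum_nonneg (fun _ _ => avc_nn _ _ _)))
  · exact Finset.sum_nonneg (fun _ _ => Finset.sum_nonneg (fun _ _ => avc_nn _ _ _))

theorem BAD_lt {S : Finset I} {T : Finset J} {F : Finset (I × J)} (h : BAD S T F < 1) :
    (∀ S' ⊆ S, ∀ i ∈ S, i ∉ S' → ∀ j ∈ Q1 S T S' F, (i, j) ∉ F) ∧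
    (∀ S' ⊆ S, ∀ T' ⊆ T, ∀ j ∈ T, j ∉ T' → ∀ i ∈ Q2 S T S' T' F, (i, j) ∉ F) ∧
    (∀ S' ⊆ S, ∀ j ∈ T, ∀ i ∈ Q3 S T S' F, (i, j) ∉ F) := by
  have n1 : 0 ≤ ∑ S' ∈ S.powerset, ∑ i ∈ S \ S', (1 - av i F (Q1 S T S' F)) :=
    Finset.sum_nonneg (fun _ _ => Finset.sum_nonneg (fun _ _ => av_nn _ _ _))
  have n2 : 0 ≤ ∑ S' ∈ S.powerset, ∑ T' ∈ T.powerset, ∑ j ∈ T \ T',
      (1 - avc j F (Q2 S T S' T' F)) :=
    Finset.sum_nonneg (fun _ _ => Finset.sum_nonneg (fun _ _ =>
      Finset.sum_nonneg (fun _ _ => avc_nn _ _ _)))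
  have n3 : 0 ≤ ∑ S' ∈ S.powerset, ∑ j ∈ T, (1 - avc j F (Q3 S T S' F)) :=
    Finset.sum_nonneg (fun _ _ => Finset.sum_nonneg (fun _ _ => avc_nn _ _ _))
  unfold BAD at h
  refine ⟨?_, ?_, ?_⟩
  · intro S' hS' i hi hi' j hj hij
    have h1 := Finset.single_le_sum (f := fun S' => ∑ i ∈ S \ S', (1 - av i F (Q1 S T S' F)))
      (fun _ _ => Finset.sum_nonneg (fun _ _ => av_nn _ _ _)) (Finset.mem_powerset.mpr hS')
    have h2 := Finset.single_le_sum (f := fun i => 1 - av i F (Q1 S T S' F))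
      (fun _ _ => av_nn _ _ _) (Finset.mem_sdiff.mpr ⟨hi, hi'⟩)
    have h3 := av_zero hj hij
    rw [h3] at h2
    linarith
  · intro S' hS' T' hT' j hj hj' i hi hij
    have h1 := Finset.single_le_sum (f := fun S' => ∑ T' ∈ T.powerset, ∑ j ∈ T \ T',
      (1 - avc j F (Q2 S T S' T' F)))
      (fun _ _ => Finset.sum_nonneg (fun _ _ => Finset.sum_nonneg (fun _ _ => avc_nn _ _ _)))
      (Finset.mem_powerset.mpr hS')
    have h1' := Finset.single_le_sum (f := fun T' => ∑ j ∈ T \ T',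
      (1 - avc j F (Q2 S T S' T' F)))
      (fun _ _ => Finset.sum_nonneg (fun _ _ => avc_nn _ _ _))
      (Finset.mem_powerset.mpr hT')
    have h2 := Finset.single_le_sum (f := fun j => 1 - avc j F (Q2 S T S' T' F))
      (fun _ _ => avc_nn _ _ _) (Finset.mem_sdiff.mpr ⟨hj, hj'⟩)
    have h3 : avc j F (Q2 S T S' T' F) = 0 := by
      rw [avc_eq]
      exact av_zero hi (mem_tr.mpr hij)
    rw [h3] at h2
    linarith
  · intro S' hS' j hj i hi hij
    have h1 := Finset.single_le_sum (f := fun S' => ∑ j ∈ T, (1 - avc j F (Q3 S T S' F)))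
      (fun _ _ => Finset.sum_nonneg (fun _ _ => avc_nn _ _ _)) (Finset.mem_powerset.mpr hS')
    have h2 := Finset.single_le_sum (f := fun j => 1 - avc j F (Q3 S T S' F))
      (fun _ _ => avc_nn _ _ _) hj
    have h3 : avc j F (Q3 S T S' F) = 0 := by
      rw [avc_eq]
      exact av_zero hi (mem_tr.mpr hij)
    rw [h3] at h2
    linarith

/-- structure edges replaced by the fixed set `Sg` -/
def sg (S : Finset I) (T : Finset J) (Sg E : Finset (I × J)) : Finset (I × J) := E0 S T E ∪ Sg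

theorem sg_E0 {S : Finset I} {T : Finset J} {Sg : Finset (I × J)}
    (hSg : ∀ e ∈ Sg, e.1 ∈ S ∧ e.2 ∈ T) (E : Finset (I × J)) :
    sg S T Sg E \ bl S T (sg S T Sg E) = E0 S T E := by
  ext e
  unfold sg
  rw [Finset.mem_sdiff, mem_bl, Finset.mem_union, mem_E0]
  constructor
  · rintro ⟨h1 | h1, h2⟩
    · exact h1
    · exact absurd ⟨Or.inr h1, hSg e h1⟩ h2
  · intro h1
    exact ⟨Or.inl h1, fun h2 => h1.2 h2.2⟩

theorem sg_del {S : Finset I} {T : Finset J} {Sg : Finset (I × J)}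
    (hSg : ∀ e ∈ Sg, e.1 ∈ S ∧ e.2 ∈ T) (X : Finset I) (E : Finset (I × J)) :
    del X T (sg S T Sg E) = del X T (E0 S T E) := by
  ext e
  unfold sg
  rw [mem_del, mem_del, Finset.mem_union]
  constructor
  · rintro ⟨h1 | h1, h2⟩
    · exact ⟨h1, h2⟩
    · exact absurd (hSg e h1).2 h2.2
  · rintro ⟨h1, h2⟩
    exact ⟨Or.inl h1, h2⟩

theorem sg_row {S : Finset I} {T : Finset J} {Sg : Finset (I × J)}
    (hSg : ∀ e ∈ Sg, e.1 ∈ S ∧ e.2 ∈ T) {E : Finset (I × J)} {i : I} {j : J}
    (h : i ∉ S ∨ j ∉ T) (he : (i, j) ∈ sg S T Sg E) : (i, j) ∈ E0 S T E := by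
  unfold sg at he
  rcases Finset.mem_union.mp he with h1 | h1
  · exact h1
  · exfalso
    have h2 := hSg _ h1
    rcases h with h | h
    · exact h h2.1
    · exact h h2.2

/-- value formula up to bad events -/
theorem local_bad (S : Finset I) (T : Finset J) (Sg : Finset (I × J))
    (hSg : ∀ e ∈ Sg, e.1 ∈ S ∧ e.2 ∈ T) (E : Finset (I × J)) :
    |(nu (sg S T Sg E) : ℝ) - (LV S T (sg S T Sg E) : ℝ)| ≤
      ((S.card : ℝ) + T.card) * BAD S T (E0 S T E) := by
  by_cases h : BAD S T (E0 S T E) < 1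
  · obtain ⟨b1, b2, b3⟩ := BAD_lt h
    set F := E0 S T E with hF
    have h1 : nu (sg S T Sg E) = LV S T (sg S T Sg E) := by
      apply local_det
      · intro S' hS' i hi hi' j hij hjT hj
        rw [sg_del hSg] at hj ⊢
        have h2 := sg_row hSg (Or.inr hjT) hij
        by_contra h3
        refine b1 S' hS' i hi hi' j ?_ h2
        unfold Q1
        rw [Finset.mem_sdiff, Finset.mem_sdiff]
        exact ⟨⟨hj, h3⟩, hjT⟩
      · intro S' hS' T' hT' j hj hj' i hij hiS hi
        rw [sg_del hSg] at hi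
        rw [sg_E0 hSg]
        have h2 := sg_row hSg (Or.inl hiS) hij
        by_contra h3
        refine b2 S' hS' T' hT' j hj hj' i ?_ h2
        unfold Q2
        rw [Finset.mem_sdiff, Finset.mem_sdiff]
        exact ⟨⟨hi, h3⟩, hiS⟩
      · intro S' hS' j hj i hij hiS hi
        rw [sg_del hSg] at hi ⊢
        have h2 := sg_row hSg (Or.inl hiS) hij
        by_contra h3
        refine b3 S' hS' j hj i ?_ h2
        unfold Q3
        rw [Finset.mem_sdiff, Finset.mem_sdiff]
        exact ⟨⟨hi, h3⟩, hiS⟩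
    rw [h1, sub_self, abs_zero]
    exact mul_nonneg (by positivity) (BAD_nonneg _ _ _)
  · push Not at h
    refine (crude S T _).trans ?_
    have h1 : (0 : ℝ) ≤ (S.card : ℝ) + T.card := by positivity
    nlinarith

/-- the constant of the value formula -/
noncomputable def CLN (k : ℕ) (th : ℝ) : ℝ := 6 * 4 ^ k * (k : ℝ) ^ 3 * Dm th 1

theorem Ex_BAD (hp : Sub p th) (hth : th < 1) (S : Finset I) (T : Finset J) (k : ℕ)
    (hS : S.card ≤ k) (hT : T.card ≤ k) {w : ℝ} (hw : 0 ≤ w)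
    (h1 : ∀ i ∈ S, ∀ j, j ∉ T → p (i, j) ≤ w) (h2 : ∀ i, i ∉ S → ∀ j ∈ T, p (i, j) ≤ w) :
    Ex p (BAD S T) ≤ 3 * 4 ^ k * (k : ℝ) ^ 2 * Dm th 1 * w := by
  have hD := Dm_nonneg th 1
  have h0' := hp.h0
  have h1' := hp.le_one hth
  have hk : (0 : ℝ) ≤ k := Nat.cast_nonneg k
  have cS : ∀ S' ⊆ S, ((S'.card : ℕ) : ℝ) ≤ k := fun S' h => by
    exact_mod_cast (Finset.card_le_card h).trans hS
  have cT : ∀ T' ⊆ T, ((T'.card : ℕ) : ℝ) ≤ k := fun T' h => by
    exact_mod_cast (Finset.card_le_card h).trans hT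
  have t1 : ∀ S' ∈ S.powerset, ∀ i ∈ S \ S', Ex p (fun F => 1 - av i F (Q1 S T S' F)) ≤
      w * (k * Dm th 1) := by
    intro S' hS' i hi
    rw [Finset.mem_powerset] at hS'
    rw [Finset.mem_sdiff] at hi
    have hQ : ∀ E : Finset (I × J), Q1 S T S' (dR i E) = Q1 S T S' E := by
      intro E
      have e1 : ∀ X : Finset I, i ∈ X → del X T (dR i E) = del X T E := by
        intro X hX
        ext e
        simp only [mem_del, mem_dR]
        constructor
        · rintro ⟨⟨a1, _⟩, a2⟩; exact ⟨a1, a2⟩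
        · rintro ⟨a1, a2, a3⟩
          refine ⟨⟨a1, fun h => a2 ?_⟩, a2, a3⟩
          rw [h]; exact hX
      unfold Q1
      rw [e1 S hi.1, e1 (S \ S') (Finset.mem_sdiff.mpr hi)]
    refine (hitR_le (w := w) hp hth i (Q1 S T S') hQ (fun E j hj => ?_)).trans ?_
    · unfold Q1 at hj
      exact h1 i hi.1 j (Finset.mem_sdiff.mp hj).2
    · refine mul_le_mul_of_nonneg_left ?_ hw
      have h3 := kill_rows hp hth (S \ S') T S'
      have e2 : S \ S' ∪ S' = S := Finset.sdiff_union_of_subset hS'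
      rw [e2] at h3
      have h4 : Ex p (fun E => ((Q1 S T S' E).card : ℝ)) ≤
          Ex p (fun E => (((Rm (del S T E)) \ Rm (del (S \ S') T E)).card : ℝ)) :=
        Ex_mono h0' h1' (fun E => by
          exact_mod_cast Finset.card_le_card Finset.sdiff_subset)
      exact h4.trans (h3.trans (mul_le_mul_of_nonneg_right (cS S' hS') hD))
  have t2 : ∀ S' ∈ S.powerset, ∀ T' ∈ T.powerset, ∀ j ∈ T \ T',
      Ex p (fun F => 1 - avc j F (Q2 S T S' T' F)) ≤ w * (k * Dm th 1) := by
    intro S' hS' T' hT' j hj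
    rw [Finset.mem_powerset] at hS' hT'
    rw [Finset.mem_sdiff] at hj
    have hQ : ∀ E : Finset (I × J), Q2 S T S' T' (dC j E) = Q2 S T S' T' E := by
      intro E
      have e1 : ∀ (X : Finset I) (Y : Finset J), j ∈ Y → del X Y (dC j E) = del X Y E := by
        intro X Y hY
        ext e
        simp only [mem_del, mem_dC]
        constructor
        · rintro ⟨⟨a1, _⟩, a2⟩; exact ⟨a1, a2⟩
        · rintro ⟨a1, a2, a3⟩
          refine ⟨⟨a1, fun h => a3 ?_⟩, a2, a3⟩
          rw [h]; exact hY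
      unfold Q2
      rw [e1 S T hj.1, e1 (S \ S') (T \ T') (Finset.mem_sdiff.mpr hj)]
    refine (hitC_le (w := w) hp hth j (Q2 S T S' T') hQ (fun E i hi => ?_)).trans ?_
    · unfold Q2 at hi
      exact h2 i (Finset.mem_sdiff.mp hi).2 j hj.1
    · refine mul_le_mul_of_nonneg_left ?_ hw
      have h3 := kill_cols hp hth (S \ S') (T \ T') T'
      have e2 : T \ T' ∪ T' = T := Finset.sdiff_union_of_subset hT'
      rw [e2] at h3
      have h4 : Ex p (fun E => ((Q2 S T S' T' E).card : ℝ)) ≤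
          Ex p (fun E => (((Lm (del (S \ S') T E)) \ Lm (del (S \ S') (T \ T') E)).card : ℝ)) :=
        Ex_mono h0' h1' (fun E => by
          have h5 : Q2 S T S' T' E ⊆
              Lm (del (S \ S') T E) \ Lm (del (S \ S') (T \ T') E) := by
            intro i hi
            unfold Q2 at hi
            rw [Finset.mem_sdiff, Finset.mem_sdiff] at hi
            rw [Finset.mem_sdiff]
            refine ⟨?_, hi.1.2⟩
            refine mono_Lm_del (S \ S') T E S' (fun h => hi.2 (hS' h)) ?_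
            rw [Finset.sdiff_union_of_subset hS']
            exact hi.1.1
          exact_mod_cast Finset.card_le_card h5)
      exact h4.trans (h3.trans (mul_le_mul_of_nonneg_right (cT T' hT') hD))
  have t3 : ∀ S' ∈ S.powerset, ∀ j ∈ T, Ex p (fun F => 1 - avc j F (Q3 S T S' F)) ≤
      w * (k * Dm th 1) := by
    intro S' hS' j hj
    rw [Finset.mem_powerset] at hS'
    have hQ : ∀ E : Finset (I × J), Q3 S T S' (dC j E) = Q3 S T S' E := by
      intro E
      have e1 : ∀ (X : Finset I) (Y : Finset J), j ∈ Y → del X Y (dC j E) = del X Y E := by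
        intro X Y hY
        ext e
        simp only [mem_del, mem_dC]
        constructor
        · rintro ⟨⟨a1, _⟩, a2⟩; exact ⟨a1, a2⟩
        · rintro ⟨a1, a2, a3⟩
          refine ⟨⟨a1, fun h => a3 ?_⟩, a2, a3⟩
          rw [h]; exact hY
      unfold Q3
      rw [e1 S T hj, e1 (S \ S') T hj]
    refine (hitC_le (w := w) hp hth j (Q3 S T S') hQ (fun E i hi => ?_)).trans ?_
    · unfold Q3 at hi
      exact h2 i (Finset.mem_sdiff.mp hi).2 j hj
    · refine mul_le_mul_of_nonneg_left ?_ hw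
      have h3 := revive_rows hp hth (S \ S') T S'
      have e2 : S \ S' ∪ S' = S := Finset.sdiff_union_of_subset hS'
      rw [e2] at h3
      exact h3.trans (mul_le_mul_of_nonneg_right (cS S' hS') hD)
  -- the sums
  have hwD : 0 ≤ w * (k * Dm th 1) := by positivity
  have p1 : ((S.powerset.card : ℕ) : ℝ) ≤ 2 ^ k := by
    rw [Finset.card_powerset]
    push_cast
    exact pow_le_pow_right₀ (by norm_num) hS
  have p2 : ((T.powerset.card : ℕ) : ℝ) ≤ 2 ^ k := by
    rw [Finset.card_powerset]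
    push_cast
    exact pow_le_pow_right₀ (by norm_num) hT
  have p0 : (1 : ℝ) ≤ 2 ^ k := one_le_pow₀ (by norm_num)
  have p4 : (4 : ℝ) ^ k = 2 ^ k * 2 ^ k := by
    rw [← mul_pow]; norm_num
  have s1 : ∑ S' ∈ S.powerset, ∑ i ∈ S \ S', Ex p (fun F => 1 - av i F (Q1 S T S' F)) ≤
      4 ^ k * (k * (w * (k * Dm th 1))) := by
    have h3 : ∀ S' ∈ S.powerset, ∑ i ∈ S \ S', Ex p (fun F => 1 - av i F (Q1 S T S' F)) ≤
        k * (w * (k * Dm th 1)) := by
      intro S' hS'
      refine (Finset.sum_le_sum (fun i hi => t1 S' hS' i hi)).trans ?_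
      rw [Finset.sum_const, nsmul_eq_mul]
      exact mul_le_mul_of_nonneg_right (cS _ Finset.sdiff_subset) hwD
    refine (Finset.sum_le_sum h3).trans ?_
    rw [Finset.sum_const, nsmul_eq_mul, p4]
    have h4 : 0 ≤ (k : ℝ) * (w * (k * Dm th 1)) := by positivity
    refine mul_le_mul_of_nonneg_right ?_ h4
    nlinarith
  have s2 : ∑ S' ∈ S.powerset, ∑ T' ∈ T.powerset, ∑ j ∈ T \ T',
      Ex p (fun F => 1 - avc j F (Q2 S T S' T' F)) ≤ 4 ^ k * (k * (w * (k * Dm th 1))) := by
    have h3 : ∀ S' ∈ S.powerset, ∀ T' ∈ T.powerset, ∑ j ∈ T \ T',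
        Ex p (fun F => 1 - avc j F (Q2 S T S' T' F)) ≤ k * (w * (k * Dm th 1)) := by
      intro S' hS' T' hT'
      refine (Finset.sum_le_sum (fun j hj => t2 S' hS' T' hT' j hj)).trans ?_
      rw [Finset.sum_const, nsmul_eq_mul]
      exact mul_le_mul_of_nonneg_right (cT _ Finset.sdiff_subset) hwD
    have h4 : 0 ≤ (k : ℝ) * (w * (k * Dm th 1)) := by positivity
    have h5 : ∀ S' ∈ S.powerset, ∑ T' ∈ T.powerset, ∑ j ∈ T \ T',
        Ex p (fun F => 1 - avc j F (Q2 S T S' T' F)) ≤ 2 ^ k * (k * (w * (k * Dm th 1))) := by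
      intro S' hS'
      refine (Finset.sum_le_sum (h3 S' hS')).trans ?_
      rw [Finset.sum_const, nsmul_eq_mul]
      exact mul_le_mul_of_nonneg_right p2 h4
    refine (Finset.sum_le_sum h5).trans ?_
    rw [Finset.sum_const, nsmul_eq_mul, p4, mul_assoc]
    exact mul_le_mul_of_nonneg_right p1 (by positivity)
  have s3 : ∑ S' ∈ S.powerset, ∑ j ∈ T, Ex p (fun F => 1 - avc j F (Q3 S T S' F)) ≤
      4 ^ k * (k * (w * (k * Dm th 1))) := by
    have h3 : ∀ S' ∈ S.powerset, ∑ j ∈ T, Ex p (fun F => 1 - avc j F (Q3 S T S' F)) ≤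
        k * (w * (k * Dm th 1)) := by
      intro S' hS'
      refine (Finset.sum_le_sum (fun j hj => t3 S' hS' j hj)).trans ?_
      rw [Finset.sum_const, nsmul_eq_mul]
      exact mul_le_mul_of_nonneg_right (cT _ (Finset.Subset.refl _)) hwD
    refine (Finset.sum_le_sum h3).trans ?_
    rw [Finset.sum_const, nsmul_eq_mul, p4]
    have h4 : 0 ≤ (k : ℝ) * (w * (k * Dm th 1)) := by positivity
    refine mul_le_mul_of_nonneg_right ?_ h4
    nlinarith
  have hsum : Ex p (BAD S T) =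
      (∑ S' ∈ S.powerset, ∑ i ∈ S \ S', Ex p (fun F => 1 - av i F (Q1 S T S' F))) +
      (∑ S' ∈ S.powerset, ∑ T' ∈ T.powerset, ∑ j ∈ T \ T',
        Ex p (fun F => 1 - avc j F (Q2 S T S' T' F))) +
      (∑ S' ∈ S.powerset, ∑ j ∈ T, Ex p (fun F => 1 - avc j F (Q3 S T S' F))) := by
    unfold BAD
    rw [Ex_add, Ex_add, Ex_sum, Ex_sum, Ex_sum]
    congr 1
    · congr 1
      · exact Finset.sum_congr rfl (fun S' _ => Ex_sum p _ _)
      · refine Finset.sum_congr rfl (fun S' _ => ?_)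
        rw [Ex_sum]
        exact Finset.sum_congr rfl (fun T' _ => Ex_sum p _ _)
    · exact Finset.sum_congr rfl (fun S' _ => Ex_sum p _ _)
  rw [hsum]
  have e : 3 * 4 ^ k * (k : ℝ) ^ 2 * Dm th 1 * w =
      4 ^ k * (k * (w * (k * Dm th 1))) + 4 ^ k * (k * (w * (k * Dm th 1))) +
        4 ^ k * (k * (w * (k * Dm th 1))) := by ring
  rw [e]
  exact add_le_add (add_le_add s1 s2) s3

/-- **(3.1) The value formula.** -/
theorem LN (hp : Sub p th) (hth : th < 1) (S : Finset I) (T : Finset J) (k : ℕ)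
    (hS : S.card ≤ k) (hT : T.card ≤ k) {w : ℝ} (hw : 0 ≤ w)
    (h1 : ∀ i ∈ S, ∀ j, j ∉ T → p (i, j) ≤ w) (h2 : ∀ i, i ∉ S → ∀ j ∈ T, p (i, j) ≤ w)
    (Sg : Finset (I × J)) (hSg : ∀ e ∈ Sg, e.1 ∈ S ∧ e.2 ∈ T) :
    |Ex p (fun E => (nu (sg S T Sg E) : ℝ)) - Ex p (fun E => (LV S T (sg S T Sg E) : ℝ))| ≤
      CLN k th * w := by
  have h0' := hp.h0
  have h1' := hp.le_one hth
  rw [← Ex_sub]
  have h3 : |Ex p (fun E => (nu (sg S T Sg E) : ℝ) - (LV S T (sg S T Sg E) : ℝ))| ≤
      Ex p (fun E => ((S.card : ℝ) + T.card) * BAD S T (E0 S T E)) := by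
    rw [abs_le]
    constructor
    · have h4 := Ex_mono h0' h1' (f := fun E => -(((S.card : ℝ) + T.card) *
        BAD S T (E0 S T E))) (g := fun E => (nu (sg S T Sg E) : ℝ) -
          (LV S T (sg S T Sg E) : ℝ))
        (fun E => (abs_le.mp (local_bad S T Sg hSg E)).1)
      have h5 : Ex p (fun E => -(((S.card : ℝ) + T.card) * BAD S T (E0 S T E))) =
          -Ex p (fun E => ((S.card : ℝ) + T.card) * BAD S T (E0 S T E)) := by
        have h6 := Ex_mul_left p (-1) (fun E => ((S.card : ℝ) + T.card) * BAD S T (E0 S T E))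
        simp only [neg_mul, one_mul] at h6
        exact h6
      rw [h5] at h4
      exact h4
    · exact Ex_mono h0' h1' (fun E => (abs_le.mp (local_bad S T Sg hSg E)).2)
  refine h3.trans ?_
  rw [Ex_mul_left, Ex_E0 p S T (BAD S T)]
  set q : I × J → ℝ := fun e => if e.1 ∈ S ∧ e.2 ∈ T then 0 else p e with hq
  have hqS : Sub q th := hp.zero _
  have hqle : ∀ e, q e ≤ p e := fun e => by
    rw [hq]
    dsimp only
    split_ifs
    · exact hp.h0 e
    · exact le_rfl
  have h4 := Ex_BAD hqS hth S T k hS hT hw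
    (fun i hi j hj => (hqle _).trans (h1 i hi j hj))
    (fun i hi j hj => (hqle _).trans (h2 i hi j hj))
  have h5 : (S.card : ℝ) + T.card ≤ 2 * k := by
    have a1 : (S.card : ℝ) ≤ k := by exact_mod_cast hS
    have a2 : (T.card : ℝ) ≤ k := by exact_mod_cast hT
    linarith
  have h6 : 0 ≤ Ex q (BAD S T) := Ex_nonneg hqS.h0 (hqS.le_one hth) (BAD_nonneg S T)
  have h7 : ((S.card : ℝ) + T.card) * Ex q (BAD S T) ≤
      (2 * k) * (3 * 4 ^ k * (k : ℝ) ^ 2 * Dm th 1 * w) :=
    mul_le_mul h5 h4 h6 (by positivity)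
  refine h7.trans (le_of_eq ?_)
  unfold CLN
  ring

end Pool.JN
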