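import Pool.Agent.JN.Lf2

/-! Local formula, file 3: the law of the alive special rows and columns given the bulk. -/

namespace Pool.JN

open Finset Pool.KS

set_option linter.unusedSectionVars false

section wt

variable {κ : Type*} [DecidableEq κ]

/-- weight of the subset `X` of `A` -/
noncomputable def wt (A X : Finset κ) (u : κ → ℝ) : ℝ :=
  ∏ i ∈ A, (if i ∈ X then u i else 1 - u i)

theorem wt_insert {A : Finset κ} {a : κ} (ha : a ∉ A) (X : Finset κ) (u : κ → ℝ) :
    wt (insert a A) X u = (if a ∈ X then u a else 1 - u a) * wt A X u := by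
  unfold wt
  rw [Finset.prod_insert ha]

theorem wt_nonneg {A X : Finset κ} {u : κ → ℝ} (h0 : ∀ i ∈ A, 0 ≤ u i) (h1 : ∀ i ∈ A, u i ≤ 1) :
    0 ≤ wt A X u := by
  unfold wt
  refine Finset.prod_nonneg (fun i hi => ?_)
  split_ifs
  · exact h0 i hi
  · linarith [h1 i hi]

theorem wt_le_one {A X : Finset κ} {u : κ → ℝ} (h0 : ∀ i ∈ A, 0 ≤ u i) (h1 : ∀ i ∈ A, u i ≤ 1) :
    wt A X u ≤ 1 := by
  unfold wt
  refine Finset.prod_le_one (fun i hi => ?_) (fun i hi => ?_)
  · split_ifs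
    · exact h0 i hi
    · linarith [h1 i hi]
  · split_ifs
    · exact h1 i hi
    · linarith [h0 i hi]

theorem wt_lip (A X : Finset κ) {u v : κ → ℝ} (h0 : ∀ i ∈ A, 0 ≤ u i) (h1 : ∀ i ∈ A, u i ≤ 1)
    (g0 : ∀ i ∈ A, 0 ≤ v i) (g1 : ∀ i ∈ A, v i ≤ 1) :
    |wt A X u - wt A X v| ≤ ∑ i ∈ A, |u i - v i| := by
  induction A using Finset.induction_on with
  | empty => simp [wt]
  | insert a A ha ih =>
    have ih' := ih (fun i hi => h0 i (Finset.mem_insert_of_mem hi))
      (fun i hi => h1 i (Finset.mem_insert_of_mem hi))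
      (fun i hi => g0 i (Finset.mem_insert_of_mem hi))
      (fun i hi => g1 i (Finset.mem_insert_of_mem hi))
    rw [wt_insert ha, wt_insert ha, Finset.sum_insert ha]
    set x := (if a ∈ X then u a else 1 - u a) with hx
    set y := (if a ∈ X then v a else 1 - v a) with hy
    have ha' := Finset.mem_insert_self a A
    have hxy : |x - y| = |u a - v a| := by
      rw [hx, hy]
      split_ifs
      · rfl
      · rw [← abs_neg]; congr 1; ring
    have hy0 : 0 ≤ y := by
      rw [hy]; split_ifs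
      · exact g0 a ha'
      · linarith [g1 a ha']
    have hy1 : y ≤ 1 := by
      rw [hy]; split_ifs
      · exact g1 a ha'
      · linarith [g0 a ha']
    have hu0 := wt_nonneg (X := X) (fun i hi => h0 i (Finset.mem_insert_of_mem hi))
      (fun i hi => h1 i (Finset.mem_insert_of_mem hi))
    have hu1 := wt_le_one (X := X) (fun i hi => h0 i (Finset.mem_insert_of_mem hi))
      (fun i hi => h1 i (Finset.mem_insert_of_mem hi))
    have e : x * wt A X u - y * wt A X v = (x - y) * wt A X u + y * (wt A X u - wt A X v) := by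
      ring
    rw [e]
    refine (abs_add_le _ _).trans ?_
    rw [abs_mul, abs_mul, abs_of_nonneg hu0, abs_of_nonneg hy0, hxy]
    have h3 := abs_nonneg (u a - v a)
    have h4 := abs_nonneg (wt A X u - wt A X v)
    nlinarith

theorem wt_ind {A X : Finset κ} (hX : X ⊆ A) {a : κ → ℝ} (h : ∀ i ∈ A, a i = 0 ∨ a i = 1) :
    wt A X a = if A.filter (fun i => a i = 1) = X then 1 else 0 := by
  unfold wt
  split_ifs with hh
  · refine Finset.prod_eq_one (fun i hi => ?_)
    rw [← hh]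
    by_cases h1 : a i = 1
    · rw [if_pos (Finset.mem_filter.mpr ⟨hi, h1⟩), h1]
    · have h5 : i ∉ A.filter (fun i => a i = 1) := fun h2 => h1 (Finset.mem_filter.mp h2).2
      rw [if_neg h5]
      rcases h i hi with h2 | h2
      · rw [h2]; ring
      · exact absurd h2 h1
  · have h1 : ∃ i ∈ A, ¬ (i ∈ X ↔ a i = 1) := by
      by_contra h2
      push Not at h2
      apply hh
      ext i
      rw [Finset.mem_filter]
      constructor
      · rintro ⟨h3, h4⟩; exact (h2 i h3).mpr h4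
      · intro h3; exact ⟨hX h3, (h2 i (hX h3)).mp h3⟩
    obtain ⟨i, hi, hi2⟩ := h1
    refine Finset.prod_eq_zero hi ?_
    by_cases h3 : i ∈ X
    · rw [if_pos h3]
      rcases h i hi with h4 | h4
      · exact h4
      · exact absurd ⟨fun _ => h4, fun _ => h3⟩ hi2
    · rw [if_neg h3]
      rcases h i hi with h4 | h4
      · exfalso
        apply hi2
        constructor
        · intro h5; exact absurd h5 h3
        · intro h5; rw [h4] at h5; norm_num at h5
      · rw [h4]; ring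

end wt

variable {I J : Type*} [Fintype I] [Fintype J] [DecidableEq I] [DecidableEq J]

/-- missable columns of the bulk -/
noncomputable def Rb (S : Finset I) (T : Finset J) (E : Finset (I × J)) : Finset J :=
  Rm (del S T E) \ T

/-- missable rows of the bulk -/
noncomputable def Lb (S : Finset I) (T : Finset J) (E : Finset (I × J)) : Finset I :=
  Lm (del S T E) \ S

/-- average of `Ψ` over independent coins -/
noncomputable def Coin (S : Finset I) (T : Finset J) (u : I → ℝ) (v : J → ℝ)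
    (Ψ : Finset I → Finset J → ℝ) : ℝ :=
  ∑ X ∈ S.powerset, ∑ Y ∈ T.powerset, wt S X u * wt T Y v * Ψ X Y

theorem coin_lip (S : Finset I) (T : Finset J) {u u' : I → ℝ} {v v' : J → ℝ}
    (h0 : ∀ i ∈ S, 0 ≤ u i) (h1 : ∀ i ∈ S, u i ≤ 1)
    (g0 : ∀ i ∈ S, 0 ≤ u' i) (g1 : ∀ i ∈ S, u' i ≤ 1)
    (k0 : ∀ j ∈ T, 0 ≤ v j) (k1 : ∀ j ∈ T, v j ≤ 1)
    (l0 : ∀ j ∈ T, 0 ≤ v' j) (l1 : ∀ j ∈ T, v' j ≤ 1)
    (Ψ : Finset I → Finset J → ℝ) {B : ℝ} (hB : ∀ X Y, |Ψ X Y| ≤ B) :
    |Coin S T u v Ψ - Coin S T u' v' Ψ| ≤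
      (2 ^ S.card * 2 ^ T.card * B) * ((∑ i ∈ S, |u i - u' i|) + ∑ j ∈ T, |v j - v' j|) := by
  unfold Coin
  rw [← Finset.sum_sub_distrib]
  set dd := (∑ i ∈ S, |u i - u' i|) + ∑ j ∈ T, |v j - v' j| with hdd
  have hdd0 : 0 ≤ dd := add_nonneg (Finset.sum_nonneg (fun _ _ => abs_nonneg _))
    (Finset.sum_nonneg (fun _ _ => abs_nonneg _))
  have hB0 : 0 ≤ B := (abs_nonneg _).trans (hB ∅ ∅)
  have key : ∀ X ∈ S.powerset, ∀ Y ∈ T.powerset,
      |wt S X u * wt T Y v * Ψ X Y - wt S X u' * wt T Y v' * Ψ X Y| ≤ B * dd := by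
    intro X _ Y _
    have a1 := wt_lip S X h0 h1 g0 g1
    have a2 := wt_lip T Y k0 k1 l0 l1
    have b0 := wt_nonneg (X := Y) k0 k1
    have b1 := wt_le_one (X := Y) k0 k1
    have c0 := wt_nonneg (X := X) g0 g1
    have c1 := wt_le_one (X := X) g0 g1
    have e : wt S X u * wt T Y v * Ψ X Y - wt S X u' * wt T Y v' * Ψ X Y =
        Ψ X Y * ((wt S X u - wt S X u') * wt T Y v + wt S X u' * (wt T Y v - wt T Y v')) := by
      ring
    rw [e, abs_mul]
    have h2 : |(wt S X u - wt S X u') * wt T Y v + wt S X u' * (wt T Y v - wt T Y v')| ≤ dd := by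
      refine (abs_add_le _ _).trans ?_
      rw [abs_mul, abs_mul, abs_of_nonneg b0, abs_of_nonneg c0]
      have h3 := abs_nonneg (wt S X u - wt S X u')
      have h4 := abs_nonneg (wt T Y v - wt T Y v')
      nlinarith
    exact mul_le_mul (hB X Y) h2 (abs_nonneg _) hB0
  have h2 : ∀ X ∈ S.powerset, |(∑ Y ∈ T.powerset, wt S X u * wt T Y v * Ψ X Y) -
      ∑ Y ∈ T.powerset, wt S X u' * wt T Y v' * Ψ X Y| ≤ 2 ^ T.card * (B * dd) := by
    intro X hX
    rw [← Finset.sum_sub_distrib]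
    refine (Finset.abs_sum_le_sum_abs _ _).trans ((Finset.sum_le_sum (key X hX)).trans
      (le_of_eq ?_))
    rw [Finset.sum_const, nsmul_eq_mul, Finset.card_powerset]
    push_cast
    ring
  refine (Finset.abs_sum_le_sum_abs _ _).trans ((Finset.sum_le_sum h2).trans (le_of_eq ?_))
  rw [Finset.sum_const, nsmul_eq_mul, Finset.card_powerset]
  push_cast
  ring

/-- product of row factors, given everything else -/
theorem Ex_prod_rows (p : I × J → ℝ) (Q : Finset (I × J) → Finset J) (X A : Finset I) :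
    ∀ G : Finset (I × J) → ℝ, (∀ i ∈ A, ∀ E, Q (dR i E) = Q E) →
    (∀ i ∈ A, ∀ E, G (dR i E) = G E) →
    Ex p (fun E => G E * wt A X (fun i => av i E (Q E))) =
      Ex p (fun E => G E * wt A X (fun i => U p i (Q E))) := by
  induction A using Finset.induction_on with
  | empty => intro G _ _; simp [wt]
  | insert a A ha ih =>
    intro G hQ hG
    have hQa := hQ a (Finset.mem_insert_self _ _)
    have hGa := hG a (Finset.mem_insert_self _ _)
    have hQA : ∀ i ∈ A, ∀ E, Q (dR i E) = Q E := fun i hi => hQ i (Finset.mem_insert_of_mem hi)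
    have hGA : ∀ i ∈ A, ∀ E, G (dR i E) = G E := fun i hi => hG i (Finset.mem_insert_of_mem hi)
    simp only [wt_insert ha]
    have h1 : Ex p (fun E => G E * ((if a ∈ X then av a E (Q E) else 1 - av a E (Q E)) *
        wt A X (fun i => av i E (Q E)))) =
        Ex p (fun E => (G E * (if a ∈ X then U p a (Q E) else 1 - U p a (Q E))) *
          wt A X (fun i => av i E (Q E))) := by
      set G' : Finset (I × J) → ℝ := fun E => G E * wt A X (fun i => av i E (Q E)) with hG'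
      have hinv : ∀ E, G' (dR a E) = G' E := by
        intro E
        simp only [hG']
        rw [hGa, hQa]
        congr 1
        unfold wt
        refine Finset.prod_congr rfl (fun i hi => ?_)
        have hne : i ≠ a := fun h => ha (h ▸ hi)
        simp only [av_dR hne]
      have h2 := Ex_av p a G' Q hinv hQa
      by_cases hX : a ∈ X
      · simp only [if_pos hX]
        have e1 : ∀ E : Finset (I × J), G E * (av a E (Q E) * wt A X (fun i => av i E (Q E))) =
            G' E * av a E (Q E) := fun E => by simp only [hG']; ring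
        have e2 : ∀ E : Finset (I × J), (G E * U p a (Q E)) * wt A X (fun i => av i E (Q E)) =
            G' E * U p a (Q E) := fun E => by simp only [hG']; ring
        rw [Ex_congr p e1, Ex_congr p e2, h2]
      · simp only [if_neg hX]
        have e1 : ∀ E : Finset (I × J), G E * ((1 - av a E (Q E)) *
            wt A X (fun i => av i E (Q E))) = G' E - G' E * av a E (Q E) :=
          fun E => by simp only [hG']; ring
        have e2 : ∀ E : Finset (I × J), (G E * (1 - U p a (Q E))) *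
            wt A X (fun i => av i E (Q E)) = G' E - G' E * U p a (Q E) :=
          fun E => by simp only [hG']; ring
        rw [Ex_congr p e1, Ex_congr p e2, Ex_sub, Ex_sub, h2]
    rw [h1, ih (fun E => G E * (if a ∈ X then U p a (Q E) else 1 - U p a (Q E))) hQA
      (fun i hi E => by rw [hGA i hi, hQA i hi])]
    refine Ex_congr p (fun E => ?_)
    ring

theorem Ex_prod_cols (p : I × J → ℝ) (Q : Finset (I × J) → Finset I) (Y B : Finset J)
    (G : Finset (I × J) → ℝ) (hQ : ∀ j ∈ B, ∀ E, Q (dC j E) = Q E)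
    (hG : ∀ j ∈ B, ∀ E, G (dC j E) = G E) :
    Ex p (fun E => G E * wt B Y (fun j => avc j E (Q E))) =
      Ex p (fun E => G E * wt B Y (fun j => U (pt p) j (Q E))) := by
  have h1 := Ex_prod_rows (pt p) (fun F => Q (tr F)) Y B (fun F => G (tr F))
    (fun j hj F => by rw [tr_dR', hQ j hj]) (fun j hj F => by rw [tr_dR', hG j hj])
  rw [← Ex_tr, ← Ex_tr] at h1
  simp only [tr_tr, ← avc_eq] at h1
  exact h1

theorem del_dR {i : I} {S : Finset I} (hi : i ∈ S) (T : Finset J) (E : Finset (I × J)) :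
    del S T (dR i E) = del S T E := by
  ext e
  simp only [mem_del, mem_dR]
  constructor
  · rintro ⟨⟨a1, _⟩, a2⟩; exact ⟨a1, a2⟩
  · rintro ⟨a1, a2, a3⟩
    refine ⟨⟨a1, fun h => a2 ?_⟩, a2, a3⟩
    rw [h]; exact hi

theorem del_dC {j : J} (S : Finset I) {T : Finset J} (hj : j ∈ T) (E : Finset (I × J)) :
    del S T (dC j E) = del S T E := by
  ext e
  simp only [mem_del, mem_dC]
  constructor
  · rintro ⟨⟨a1, _⟩, a2⟩; exact ⟨a1, a2⟩
  · rintro ⟨a1, a2, a3⟩
    refine ⟨⟨a1, fun h => a3 ?_⟩, a2, a3⟩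
    rw [h]; exact hj

theorem avc_dR {i : I} {j : J} {Q : Finset I} (hi : i ∉ Q) (E : Finset (I × J)) :
    avc j (dR i E) Q = avc j E Q := by
  unfold avc
  congr 1
  apply propext
  constructor
  · intro h r hr hh
    refine h r hr ?_
    rw [mem_dR]
    refine ⟨hh, fun h2 => hi ?_⟩
    rw [← h2]
    exact hr
  · intro h r hr hh
    exact h r hr (dR_sub i E hh)

theorem S1_compl (S : Finset I) (T : Finset J) (E : Finset (I × J)) :
    S \ S1 S T E = S.filter (fun i => av i E (Rb S T E) = 1) := by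
  ext i
  rw [Finset.mem_sdiff, Finset.mem_filter, mem_S1]
  constructor
  · rintro ⟨h1, h2⟩
    refine ⟨h1, av_one (fun j hj hij => h2 ⟨h1, j, hij, ?_, ?_⟩)⟩
    · exact (Finset.mem_sdiff.mp hj).2
    · exact (Finset.mem_sdiff.mp hj).1
  · rintro ⟨h1, h2⟩
    refine ⟨h1, ?_⟩
    rintro ⟨_, j, h3, h4, h5⟩
    have h6 := av_zero (S := Rb S T E) (Finset.mem_sdiff.mpr ⟨h5, h4⟩) h3
    rw [h6] at h2
    norm_num at h2

theorem T1_compl (S : Finset I) (T : Finset J) (E : Finset (I × J)) :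
    T \ T1 S T E = T.filter (fun j => avc j E (Lb S T E) = 1) := by
  ext j
  rw [Finset.mem_sdiff, Finset.mem_filter, mem_T1, avc_eq]
  constructor
  · rintro ⟨h1, h2⟩
    refine ⟨h1, av_one (fun i hi hij => h2 ⟨h1, i, mem_tr.mp hij, ?_, ?_⟩)⟩
    · exact (Finset.mem_sdiff.mp hi).2
    · exact (Finset.mem_sdiff.mp hi).1
  · rintro ⟨h1, h2⟩
    refine ⟨h1, ?_⟩
    rintro ⟨_, i, h3, h4, h5⟩
    have h6 := av_zero (S := Lb S T E) (E := tr E) (Finset.mem_sdiff.mpr ⟨h5, h4⟩)
      (mem_tr.mpr h3)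
    rw [h6] at h2
    norm_num at h2

/-- **(3.2) the law of the alive special rows and columns given the bulk.** -/
theorem alive_law (p : I × J → ℝ) (S : Finset I) (T : Finset J)
    (Ψ : Finset I → Finset J → ℝ) :
    Ex p (fun E => Ψ (S \ S1 S T E) (T \ T1 S T E)) =
      Ex p (fun E => Coin S T (fun i => U p i (Rb S T E)) (fun j => U (pt p) j (Lb S T E)) Ψ) := by
  have h1 : ∀ E : Finset (I × J), Ψ (S \ S1 S T E) (T \ T1 S T E) =
      ∑ X ∈ S.powerset, ∑ Y ∈ T.powerset, wt S X (fun i => av i E (Rb S T E)) *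
        wt T Y (fun j => avc j E (Lb S T E)) * Ψ X Y := by
    intro E
    rw [S1_compl, T1_compl]
    have ha : ∀ i ∈ S, av i E (Rb S T E) = 0 ∨ av i E (Rb S T E) = 1 :=
      fun i _ => av_cases i E _
    have hb : ∀ j ∈ T, avc j E (Lb S T E) = 0 ∨ avc j E (Lb S T E) = 1 :=
      fun j _ => by rw [avc_eq]; exact av_cases j (tr E) _
    rw [Finset.sum_eq_single (S.filter (fun i => av i E (Rb S T E) = 1))]
    · rw [Finset.sum_eq_single (T.filter (fun j => avc j E (Lb S T E) = 1))]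
      · rw [wt_ind (Finset.filter_subset _ _) ha, wt_ind (Finset.filter_subset _ _) hb,
          if_pos rfl, if_pos rfl]
        ring
      · intro Y hY hne
        rw [wt_ind (Finset.mem_powerset.mp hY) hb, if_neg (fun h => hne h.symm)]
        ring
      · intro h
        exact absurd (Finset.mem_powerset.mpr (Finset.filter_subset _ _)) h
    · intro X hX hne
      refine Finset.sum_eq_zero (fun Y _ => ?_)
      rw [wt_ind (Finset.mem_powerset.mp hX) ha, if_neg (fun h => hne h.symm)]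
      ring
    · intro h
      exact absurd (Finset.mem_powerset.mpr (Finset.filter_subset _ _)) h
  have hRb : ∀ i ∈ S, ∀ E : Finset (I × J), Rb S T (dR i E) = Rb S T E := fun i hi E => by
    unfold Rb; rw [del_dR hi]
  have hRb' : ∀ j ∈ T, ∀ E : Finset (I × J), Rb S T (dC j E) = Rb S T E := fun j hj E => by
    unfold Rb; rw [del_dC S hj]
  have hLb : ∀ i ∈ S, ∀ E : Finset (I × J), Lb S T (dR i E) = Lb S T E := fun i hi E => by
    unfold Lb; rw [del_dR hi]
  have hLb' : ∀ j ∈ T, ∀ E : Finset (I × J), Lb S T (dC j E) = Lb S T E := fun j hj E => by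
    unfold Lb; rw [del_dC S hj]
  rw [Ex_congr p h1]
  unfold Coin
  rw [Ex_sum, Ex_sum]
  refine Finset.sum_congr rfl (fun X _ => ?_)
  rw [Ex_sum, Ex_sum]
  refine Finset.sum_congr rfl (fun Y _ => ?_)
  have h2 := Ex_prod_rows p (Rb S T) X S
    (fun E => wt T Y (fun j => avc j E (Lb S T E)) * Ψ X Y) hRb (fun i hi E => by
      show wt T Y (fun j => avc j (dR i E) (Lb S T (dR i E))) * Ψ X Y =
        wt T Y (fun j => avc j E (Lb S T E)) * Ψ X Y
      congr 1
      unfold wt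
      refine Finset.prod_congr rfl (fun j _ => ?_)
      have h3 : i ∉ Lb S T E := fun h => (Finset.mem_sdiff.mp h).2 hi
      simp only [hLb i hi, avc_dR h3])
  have h3 := Ex_prod_cols p (Lb S T) Y T
    (fun E => wt S X (fun i => U p i (Rb S T E)) * Ψ X Y) hLb' (fun j hj E => by
      rw [hRb' j hj])
  have e1 : ∀ E : Finset (I × J), wt S X (fun i => av i E (Rb S T E)) *
      wt T Y (fun j => avc j E (Lb S T E)) * Ψ X Y =
      wt T Y (fun j => avc j E (Lb S T E)) * Ψ X Y * wt S X (fun i => av i E (Rb S T E)) :=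
    fun E => by ring
  have e2 : ∀ E : Finset (I × J), wt T Y (fun j => avc j E (Lb S T E)) * Ψ X Y *
      wt S X (fun i => U p i (Rb S T E)) =
      wt S X (fun i => U p i (Rb S T E)) * Ψ X Y * wt T Y (fun j => avc j E (Lb S T E)) :=
    fun E => by ring
  have e3 : ∀ E : Finset (I × J), wt S X (fun i => U p i (Rb S T E)) * Ψ X Y *
      wt T Y (fun j => U (pt p) j (Lb S T E)) =
      wt S X (fun i => U p i (Rb S T E)) * wt T Y (fun j => U (pt p) j (Lb S T E)) * Ψ X Y :=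
    fun E => by ring
  rw [Ex_congr p e1, h2, Ex_congr p e2, h3, Ex_congr p e3]

theorem sum_av (S : Finset I) (T : Finset J) (E : Finset (I × J)) :
    (((S1 S T E).card : ℕ) : ℝ) = ∑ i ∈ S, (1 - av i E (Rb S T E)) := by
  have h2 : S1 S T E ⊆ S := fun i hi => (mem_S1.mp hi).1
  have h4 := Finset.card_sdiff_add_card_eq_card h2
  have h5 : ((S \ S1 S T E).card : ℝ) = ∑ i ∈ S, av i E (Rb S T E) := by
    rw [S1_compl, Finset.card_filter]
    push_cast
    refine Finset.sum_congr rfl (fun i _ => ?_)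
    rcases av_cases i E (Rb S T E) with h | h <;> rw [h] <;> norm_num
  rw [Finset.sum_sub_distrib, ← h5, Finset.sum_const, nsmul_eq_mul, mul_one]
  have h6 : ((S \ S1 S T E).card : ℝ) + ((S1 S T E).card : ℝ) = (S.card : ℝ) := by
    exact_mod_cast h4
  linarith

theorem sum_avc (S : Finset I) (T : Finset J) (E : Finset (I × J)) :
    (((T1 S T E).card : ℕ) : ℝ) = ∑ j ∈ T, (1 - avc j E (Lb S T E)) := by
  have h2 : T1 S T E ⊆ T := fun i hi => (mem_T1.mp hi).1
  have h4 := Finset.card_sdiff_add_card_eq_card h2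
  have h5 : ((T \ T1 S T E).card : ℝ) = ∑ j ∈ T, avc j E (Lb S T E) := by
    rw [T1_compl, Finset.card_filter]
    push_cast
    refine Finset.sum_congr rfl (fun j _ => ?_)
    rw [avc_eq]
    rcases av_cases j (tr E) (Lb S T E) with h | h <;> rw [h] <;> norm_num
  rw [Finset.sum_sub_distrib, ← h5, Finset.sum_const, nsmul_eq_mul, mul_one]
  have h6 : ((T \ T1 S T E).card : ℝ) + ((T1 S T E).card : ℝ) = (T.card : ℝ) := by
    exact_mod_cast h4
  linarith

theorem Ex_abs_le {p : I × J → ℝ} (h0 : ∀ e, 0 ≤ p e) (h1 : ∀ e, p e ≤ 1)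
    (f : Finset (I × J) → ℝ) : |Ex p f| ≤ Ex p (fun E => |f E|) := by
  rw [abs_le]
  constructor
  · have h2 := Ex_mono h0 h1 (f := fun E => -|f E|) (g := f) (fun E => neg_abs_le (f E))
    have h3 := Ex_mul_left p (-1) (fun E => |f E|)
    simp only [neg_mul, one_mul] at h3
    rw [h3] at h2
    exact h2
  · exact Ex_mono h0 h1 (fun E => le_abs_self (f E))

theorem Ex_avQ (p : I × J → ℝ) (i : I) (Q : Finset (I × J) → Finset J)
    (hQ : ∀ E, Q (dR i E) = Q E) :
    Ex p (fun E => av i E (Q E)) = Ex p (fun E => U p i (Q E)) := by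
  have h1 := Ex_av p i (fun _ => 1) Q (fun _ => rfl) hQ
  simpa only [one_mul] using h1

theorem Ex_avcQ (p : I × J → ℝ) (j : J) (Q : Finset (I × J) → Finset I)
    (hQ : ∀ E, Q (dC j E) = Q E) :
    Ex p (fun E => avc j E (Q E)) = Ex p (fun E => U (pt p) j (Q E)) := by
  have h1 := Ex_avQ (pt p) j (fun F => Q (tr F)) (fun F => by rw [tr_dR', hQ])
  rw [← Ex_tr, ← Ex_tr] at h1
  simp only [tr_tr, ← avc_eq] at h1
  exact h1

theorem S1_sg {S : Finset I} {T : Finset J} {Sg : Finset (I × J)}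
    (hSg : ∀ e ∈ Sg, e.1 ∈ S ∧ e.2 ∈ T) (E : Finset (I × J)) :
    S1 S T (sg S T Sg E) = S1 S T E := by
  ext i
  rw [mem_S1, mem_S1, sg_del hSg, del_E0]
  constructor
  · rintro ⟨h1, j, h2, h3, h4⟩
    exact ⟨h1, j, (mem_E0.mp (sg_row hSg (Or.inr h3) h2)).1, h3, h4⟩
  · rintro ⟨h1, j, h2, h3, h4⟩
    refine ⟨h1, j, ?_, h3, h4⟩
    unfold sg
    exact Finset.mem_union_left _ (mem_E0.mpr ⟨h2, fun h => h3 h.2⟩)

theorem T1_sg {S : Finset I} {T : Finset J} {Sg : Finset (I × J)}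
    (hSg : ∀ e ∈ Sg, e.1 ∈ S ∧ e.2 ∈ T) (E : Finset (I × J)) :
    T1 S T (sg S T Sg E) = T1 S T E := by
  ext j
  rw [mem_T1, mem_T1, sg_del hSg, del_E0]
  constructor
  · rintro ⟨h1, i, h2, h3, h4⟩
    exact ⟨h1, i, (mem_E0.mp (sg_row hSg (Or.inl h3) h2)).1, h3, h4⟩
  · rintro ⟨h1, i, h2, h3, h4⟩
    refine ⟨h1, i, ?_, h3, h4⟩
    unfold sg
    exact Finset.mem_union_left _ (mem_E0.mpr ⟨h2, fun h => h3 h.1⟩)

theorem bl_sg {S : Finset I} {T : Finset J} {Sg : Finset (I × J)} {X : Finset I} {Y : Finset J}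
    (hX : X ⊆ S) (hY : Y ⊆ T) (E : Finset (I × J)) :
    bl X Y (sg S T Sg E) = bl X Y Sg := by
  ext e
  unfold sg
  rw [mem_bl, mem_bl, Finset.mem_union, mem_E0]
  constructor
  · rintro ⟨h1 | h1, h2⟩
    · exact absurd ⟨hX h2.1, hY h2.2⟩ h1.2
    · exact ⟨h1, h2⟩
  · rintro ⟨h1, h2⟩
    exact ⟨Or.inr h1, h2⟩

theorem LV_sg {S : Finset I} {T : Finset J} {Sg : Finset (I × J)}
    (hSg : ∀ e ∈ Sg, e.1 ∈ S ∧ e.2 ∈ T) (E : Finset (I × J)) :
    (LV S T (sg S T Sg E) : ℝ) = (nu (del S T E) : ℝ) + (∑ i ∈ S, (1 - av i E (Rb S T E))) +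
      (∑ j ∈ T, (1 - avc j E (Lb S T E))) +
      (fun X Y => (nu (bl X Y Sg) : ℝ)) (S \ S1 S T E) (T \ T1 S T E) := by
  unfold LV
  rw [sg_del hSg, del_E0, S1_sg hSg, T1_sg hSg, bl_sg Finset.sdiff_subset Finset.sdiff_subset,
    ← sum_av, ← sum_avc]
  push_cast
  rfl

/-- **(3.1)-(3.3): the value formula with constants.** -/
theorem LC {p : I × J → ℝ} {th : ℝ} (hp : Sub p th) (hth : th < 1) (S : Finset I) (T : Finset J)
    (k : ℕ) (hS : S.card ≤ k) (hT : T.card ≤ k) {w : ℝ} (hw : 0 ≤ w)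
    (h1 : ∀ i ∈ S, ∀ j, j ∉ T → p (i, j) ≤ w) (h2 : ∀ i, i ∉ S → ∀ j ∈ T, p (i, j) ≤ w)
    (Sg : Finset (I × J)) (hSg : ∀ e ∈ Sg, e.1 ∈ S ∧ e.2 ∈ T) {ub : I → ℝ} {vb : J → ℝ}
    (ub0 : ∀ i ∈ S, 0 ≤ ub i) (ub1 : ∀ i ∈ S, ub i ≤ 1)
    (vb0 : ∀ j ∈ T, 0 ≤ vb j) (vb1 : ∀ j ∈ T, vb j ≤ 1) {de : ℝ}
    (hu : ∀ i ∈ S, Ex p (fun E => |U p i (Rb S T E) - ub i|) ≤ de)
    (hv : ∀ j ∈ T, Ex p (fun E => |U (pt p) j (Lb S T E) - vb j|) ≤ de) (hde : 0 ≤ de) :
    |Ex p (fun E => (nu (sg S T Sg E) : ℝ)) - (Ex p (fun E => (nu (del S T E) : ℝ)) +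
      (∑ i ∈ S, (1 - ub i)) + (∑ j ∈ T, (1 - vb j)) +
      Coin S T ub vb (fun X Y => (nu (bl X Y Sg) : ℝ)))| ≤
      CLN k th * w + (2 * k + 4 ^ k * k * (2 * k)) * de := by
  have h0' := hp.h0
  have h1' := hp.le_one hth
  have hk : (0 : ℝ) ≤ k := Nat.cast_nonneg k
  have cS : (S.card : ℝ) ≤ k := by exact_mod_cast hS
  have cT : (T.card : ℝ) ≤ k := by exact_mod_cast hT
  have m1 := LN hp hth S T k hS hT hw h1 h2 Sg hSg
  set Ψ : Finset I → Finset J → ℝ := fun X Y => (nu (bl X Y Sg) : ℝ) with hΨ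
  have hB : ∀ X Y, |Ψ X Y| ≤ k := by
    intro X Y
    have h3 : nu (bl X Y Sg) ≤ nu (bl S T Sg) := nu_mono (fun e he => by
      rw [mem_bl] at he ⊢
      exact ⟨he.1, hSg e he.1⟩)
    have h4 := nu_bl_le S T Sg
    rw [hΨ]
    simp only
    rw [abs_of_nonneg (Nat.cast_nonneg _)]
    exact_mod_cast h3.trans (h4.trans hS)
  have hRb : ∀ i ∈ S, ∀ E : Finset (I × J), Rb S T (dR i E) = Rb S T E := fun i hi E => by
    unfold Rb; rw [del_dR hi]
  have hLb' : ∀ j ∈ T, ∀ E : Finset (I × J), Lb S T (dC j E) = Lb S T E := fun j hj E => by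
    unfold Lb; rw [del_dC S hj]
  have hval : Ex p (fun E => (LV S T (sg S T Sg E) : ℝ)) =
      Ex p (fun E => (nu (del S T E) : ℝ)) +
      (∑ i ∈ S, (1 - Ex p (fun E => U p i (Rb S T E)))) +
      (∑ j ∈ T, (1 - Ex p (fun E => U (pt p) j (Lb S T E)))) +
      Ex p (fun E => Coin S T (fun i => U p i (Rb S T E)) (fun j => U (pt p) j (Lb S T E)) Ψ) := by
    rw [Ex_congr p (fun E => LV_sg hSg E), Ex_add, Ex_add, Ex_add, Ex_sum, Ex_sum]
    have hA := alive_law p S T Ψ
    refine congrArg₂ (· + ·) ?_ hA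
    refine congrArg₂ (· + ·) ?_ ?_
    · refine congrArg₂ (· + ·) rfl ?_
      refine Finset.sum_congr rfl (fun i hi => ?_)
      rw [Ex_sub, Ex_const, Ex_avQ p i (Rb S T) (hRb i hi)]
    · refine Finset.sum_congr rfl (fun j hj => ?_)
      rw [Ex_sub, Ex_const, Ex_avcQ p j (Lb S T) (hLb' j hj)]
  have hU01 : ∀ (q : I × J → ℝ) (_ : ∀ e, 0 ≤ q e) (_ : ∀ e, q e ≤ 1) (i : I) (Q : Finset J),
      0 ≤ U q i Q ∧ U q i Q ≤ 1 := by
    intro q q0 q1 i Q
    unfold U
    exact ⟨Finset.prod_nonneg (fun j _ => by linarith [q1 (i, j)]),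
      Finset.prod_le_one (fun j _ => by linarith [q1 (i, j)]) (fun j _ => by linarith [q0 (i, j)])⟩
  have hV01 : ∀ (j : J) (Q : Finset I), 0 ≤ U (pt p) j Q ∧ U (pt p) j Q ≤ 1 := by
    intro j Q
    unfold U pt
    exact ⟨Finset.prod_nonneg (fun i _ => by linarith [h1' (j, i).swap]),
      Finset.prod_le_one (fun i _ => by linarith [h1' (j, i).swap])
        (fun i _ => by linarith [h0' (j, i).swap])⟩
  -- the three differences
  have d1 : |(∑ i ∈ S, (1 - Ex p (fun E => U p i (Rb S T E)))) - ∑ i ∈ S, (1 - ub i)| ≤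
      k * de := by
    rw [← Finset.sum_sub_distrib]
    refine (Finset.abs_sum_le_sum_abs _ _).trans ?_
    have h3 : ∀ i ∈ S, |1 - Ex p (fun E => U p i (Rb S T E)) - (1 - ub i)| ≤ de := by
      intro i hi
      have e : 1 - Ex p (fun E => U p i (Rb S T E)) - (1 - ub i) =
          -(Ex p (fun E => U p i (Rb S T E) - ub i)) := by
        rw [Ex_sub, Ex_const]; ring
      rw [e, abs_neg]
      exact (Ex_abs_le h0' h1' _).trans (hu i hi)
    refine (Finset.sum_le_sum h3).trans ?_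
    rw [Finset.sum_const, nsmul_eq_mul]
    exact mul_le_mul_of_nonneg_right cS hde
  have d2 : |(∑ j ∈ T, (1 - Ex p (fun E => U (pt p) j (Lb S T E)))) - ∑ j ∈ T, (1 - vb j)| ≤
      k * de := by
    rw [← Finset.sum_sub_distrib]
    refine (Finset.abs_sum_le_sum_abs _ _).trans ?_
    have h3 : ∀ j ∈ T, |1 - Ex p (fun E => U (pt p) j (Lb S T E)) - (1 - vb j)| ≤ de := by
      intro j hj
      have e : 1 - Ex p (fun E => U (pt p) j (Lb S T E)) - (1 - vb j) =
          -(Ex p (fun E => U (pt p) j (Lb S T E) - vb j)) := by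
        rw [Ex_sub, Ex_const]; ring
      rw [e, abs_neg]
      exact (Ex_abs_le h0' h1' _).trans (hv j hj)
    refine (Finset.sum_le_sum h3).trans ?_
    rw [Finset.sum_const, nsmul_eq_mul]
    exact mul_le_mul_of_nonneg_right cT hde
  have d3 : |Ex p (fun E => Coin S T (fun i => U p i (Rb S T E))
      (fun j => U (pt p) j (Lb S T E)) Ψ) - Coin S T ub vb Ψ| ≤ 4 ^ k * k * (2 * k) * de := by
    have e : Ex p (fun E => Coin S T (fun i => U p i (Rb S T E))
        (fun j => U (pt p) j (Lb S T E)) Ψ) - Coin S T ub vb Ψ =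
        Ex p (fun E => Coin S T (fun i => U p i (Rb S T E))
          (fun j => U (pt p) j (Lb S T E)) Ψ - Coin S T ub vb Ψ) := by
      rw [Ex_sub, Ex_const]
    rw [e]
    refine (Ex_abs_le h0' h1' _).trans ?_
    have h3 : ∀ E : Finset (I × J), |Coin S T (fun i => U p i (Rb S T E))
        (fun j => U (pt p) j (Lb S T E)) Ψ - Coin S T ub vb Ψ| ≤
        (2 ^ S.card * 2 ^ T.card * k) * ((∑ i ∈ S, |U p i (Rb S T E) - ub i|) +
          ∑ j ∈ T, |U (pt p) j (Lb S T E) - vb j|) := by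
      intro E
      exact coin_lip S T (fun i _ => (hU01 p h0' h1' i _).1) (fun i _ => (hU01 p h0' h1' i _).2)
        ub0 ub1 (fun j _ => (hV01 j _).1) (fun j _ => (hV01 j _).2) vb0 vb1 Ψ hB
    refine (Ex_mono h0' h1' h3).trans ?_
    rw [Ex_mul_left, Ex_add, Ex_sum, Ex_sum]
    have h4 : (∑ i ∈ S, Ex p (fun E => |U p i (Rb S T E) - ub i|)) ≤ k * de := by
      refine (Finset.sum_le_sum hu).trans ?_
      rw [Finset.sum_const, nsmul_eq_mul]
      exact mul_le_mul_of_nonneg_right cS hde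
    have h5 : (∑ j ∈ T, Ex p (fun E => |U (pt p) j (Lb S T E) - vb j|)) ≤ k * de := by
      refine (Finset.sum_le_sum hv).trans ?_
      rw [Finset.sum_const, nsmul_eq_mul]
      exact mul_le_mul_of_nonneg_right cT hde
    have p1 : (2 : ℝ) ^ S.card ≤ 2 ^ k := pow_le_pow_right₀ (by norm_num) hS
    have p2 : (2 : ℝ) ^ T.card ≤ 2 ^ k := pow_le_pow_right₀ (by norm_num) hT
    have p4 : (4 : ℝ) ^ k = 2 ^ k * 2 ^ k := by
      rw [← mul_pow]; norm_num
    have p5 : (2 : ℝ) ^ S.card * 2 ^ T.card * k ≤ 4 ^ k * k := by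
      rw [p4]
      exact mul_le_mul_of_nonneg_right (mul_le_mul p1 p2 (by positivity) (by positivity)) hk
    have h6 : 0 ≤ (∑ i ∈ S, Ex p (fun E => |U p i (Rb S T E) - ub i|)) +
        ∑ j ∈ T, Ex p (fun E => |U (pt p) j (Lb S T E) - vb j|) :=
      add_nonneg (Finset.sum_nonneg (fun i _ => Ex_nonneg h0' h1' (fun E => abs_nonneg _)))
        (Finset.sum_nonneg (fun i _ => Ex_nonneg h0' h1' (fun E => abs_nonneg _)))
    calc _ ≤ (4 ^ k * (k : ℝ)) * (k * de + k * de) :=
          mul_le_mul p5 (add_le_add h4 h5) h6 (by positivity)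
      _ = _ := by ring
  rw [hval] at m1
  rw [abs_le] at m1 d1 d2 d3 ⊢
  constructor <;> linarith [m1.1, m1.2, d1.1, d1.2, d2.1, d2.2, d3.1, d3.2]

end Pool.JN
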