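import Pool.Agent.JN.Mp

/-! Module Mn (difficulty 3). All means are close to l.

x_i = Ex Xi_i, y_j = Ex Yj_j. By mean_pre for p and for pt p (Ex_Yj: Ex p (Yj j) = Ex (pt p) (Xi j); Ex p (Xi i) = Ex (pt p) (Yj i)):
   |x_i - exp(-sum_j p_ij y_j)| <= 3 BB nr_i (i ∈ S),  |y_j - exp(-sum_i p_ij x_i)| <= 3 BB nc_j (j ∈ T), nr_i <= M, nc_j <= M (entries <= M, sums <= 1).
 LOWER BOUND: y_j = Ex U(pt p) >= prod_i (1-p_ij) >= exp(-sum (p+p^2)) >= exp(-1-M) (all j), same for x_i. So for i ∈ S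
   sum_j p_ij y_j >= (1-2M) exp(-1-M) >= 7/20 (M <= 10^-10), and for numbers a, b >= 7/20: |exp(-a) - exp(-b)| <= exp(-7/20)|a-b| <= (705/1000)|a-b|.
 With z_i = sum_j p_ij y_j - l = sum_{j∈T} p_ij (y_j - l) - l (1 - sum_j p_ij) (zT): |x_i - l| <= .705 |z_i| + 3 BB nr_i.
 SUP: δ = max over i ∈ S, j ∈ T of |x_i - l|, |y_j - l|: |z_i| <= δ + 2 l M, so δ <= .705 (δ + 1.14 M) + 3 BB M, δ <= 20 BB M.
 L2: a = (sum_S (x_i-l)^2)^{1/2}, b = (sum_T (y_j-l)^2)^{1/2}; (sum_S z_i^2)^{1/2} <= b + l (sum_S (1-sum_j p_ij)^2)^{1/2} <= b + 2 l sqrt M (schur for pt p, dS),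
   (sum_S nr_i^2)^{1/2} <= (M K)^{1/2} (sq). So a <= .705 b + .705*1.14 sqrt M + 3 BB sqrt(MK), same for b; hence max(a,b) <= (0.804 sqrt M + 3 BB sqrt(MK))/.295
   <= 2.8 sqrt M + 10.2 BB sqrt(MK) <= 13 BB (sqrt M + sqrt (MK)) and a^2 <= 2*169 BB^2 (M + MK) <= 1000 BB^2 M (K+1).
-/

namespace Pool.JN

open Finset Pool.KS

set_option linter.unusedSectionVars false

variable {I J : Type*} [Fintype I] [Fintype J] [DecidableEq I] [DecidableEq J]

theorem mn_exp {a b : ℝ} (ha : 7 / 20 ≤ a) (hb : 7 / 20 ≤ b) :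
    |Real.exp (-a) - Real.exp (-b)| ≤ 705 / 1000 * |a - b| := by
  have h0 : Real.exp (-(7 / 20 : ℝ)) ≤ 705 / 1000 := by
    rw [Real.exp_neg]
    have h1 := Real.sum_le_exp_of_nonneg (by norm_num : (0:ℝ) ≤ 7 / 20) 5
    have h2 : (1000 / 705 : ℝ) ≤ Real.exp (7 / 20) := by
      refine le_trans ?_ h1
      norm_num [Finset.sum_range_succ, Nat.factorial]
    have h3 := inv_anti₀ (by norm_num : (0:ℝ) < 1000 / 705) h2
    refine h3.trans (le_of_eq ?_)
    norm_num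
  have key : ∀ x y : ℝ, 7 / 20 ≤ x → x ≤ y →
      0 ≤ Real.exp (-x) - Real.exp (-y) ∧ Real.exp (-x) - Real.exp (-y) ≤ 705 / 1000 * (y - x) := by
    intro x y hx hxy
    have h1 : Real.exp (-y) = Real.exp (-x) * Real.exp (-(y - x)) := by
      rw [← Real.exp_add]
      congr 1
      ring
    have h2 : 1 - (y - x) ≤ Real.exp (-(y - x)) := by
      have := Real.add_one_le_exp (-(y - x))
      linarith
    have h3 : Real.exp (-(y - x)) ≤ 1 := Real.exp_le_one_iff.mpr (by linarith)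
    have h4 : Real.exp (-x) ≤ 705 / 1000 :=
      (Real.exp_le_exp.mpr (by linarith)).trans h0
    have h5 := (Real.exp_pos (-x)).le
    constructor
    · rw [h1]
      nlinarith
    · rw [h1]
      have h6 : Real.exp (-x) - Real.exp (-x) * Real.exp (-(y - x)) =
          Real.exp (-x) * (1 - Real.exp (-(y - x))) := by ring
      rw [h6]
      exact mul_le_mul h4 (by linarith) (by linarith) (by norm_num)
  rcases le_total a b with hab | hab
  · obtain ⟨h1, h2⟩ := key a b ha hab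
    rw [abs_of_nonneg h1, abs_sub_comm, abs_of_nonneg (by linarith)]
    exact h2
  · obtain ⟨h1, h2⟩ := key b a hb hab
    rw [abs_sub_comm, abs_of_nonneg h1, abs_of_nonneg (by linarith : 0 ≤ a - b)]
    exact h2

theorem mn_nr {p : I × J → ℝ} {S : Finset I} {T : Finset J} {M K : ℝ} (he : Env p S T M K)
    (i : I) : 0 ≤ nr p i ∧ nr p i ≤ M := by
  unfold nr
  refine ⟨Finset.sum_nonneg (fun j _ => sq_nonneg _), ?_⟩
  calc ∑ j, p (i, j) ^ 2 ≤ ∑ j, M * p (i, j) := by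
        refine Finset.sum_le_sum (fun j _ => ?_)
        have h1 := he.h0 (i, j)
        have h2 := he.h1 (i, j)
        nlinarith
    _ = M * ∑ j, p (i, j) := by rw [Finset.mul_sum]
    _ ≤ M * 1 := mul_le_mul_of_nonneg_left (he.hr i) he.M0
    _ = M := mul_one M

theorem mn_lo {p : I × J → ℝ} {S : Finset I} {T : Finset J} {M K : ℝ} (he : Env p S T M K)
    (hM : M ≤ 1 / 10 ^ 10) (i : I) : 367 / 1000 ≤ Ex p (Xi i) := by
  have hsub := he.sub (by linarith [hM, (by norm_num : (1:ℝ) / 10 ^ 10 ≤ 1 / 2)])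
  have h1 : ∀ e, p e ≤ 1 := fun e => (hsub.h1 e).trans (by norm_num)
  rw [Ex_Xi]
  have h2 : Ex p (fun _ => (367 / 1000 : ℝ)) ≤ Ex p (fun E => U p i (Rm (dR i E))) := by
    refine Ex_mono hsub.h0 h1 (fun E => ?_)
    have h3 := (U_exp hsub i (Rm (dR i E))).2
    have h4 := (mn_nr he i).2
    have h5 : ∑ j ∈ Rm (dR i E), p (i, j) ≤ 1 :=
      (Finset.sum_le_univ_sum_of_nonneg (fun j => he.h0 (i, j))).trans (he.hr i)
    have h6 : Real.exp (-1) ≤ Real.exp (-(∑ j ∈ Rm (dR i E), p (i, j))) :=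
      Real.exp_le_exp.mpr (by linarith)
    have h7 : (3678 / 10000 : ℝ) ≤ Real.exp (-1) := by
      rw [Real.exp_neg]
      have h8 := Real.exp_one_lt_d9
      have h9 := inv_anti₀ (Real.exp_pos 1) h8.le
      refine le_trans ?_ h9
      norm_num
    have h10 : M ≤ 1 / 10000 := hM.trans (by norm_num)
    linarith
  rw [Ex_const] at h2
  exact h2

theorem mn_row {p : I × J → ℝ} {S : Finset I} {T : Finset J} {M K l : ℝ}
    (hl : Real.exp (-l) = l) (he : Env p S T M K) (hs : Small M K) {i : I} (hi : i ∈ S) :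
    |Ex p (Xi i) - l| ≤ 705 / 1000 *
      |∑ j, p (i, j) * (Ex p (Yj j) - l) - l * (1 - ∑ j, p (i, j))| + 3 * BB * nr p i := by
  have hM := hs.M_le he.M0 he.K0
  have hM2 : M ≤ 1 / 10000 := hM.trans (by norm_num)
  have hsub := he.sub (by linarith)
  have h1 := mean_pre hsub i
  have hlo := lam_lo hl
  have hy : ∀ j, 367 / 1000 ≤ Ex p (Yj j) := by
    intro j
    have := mn_lo he.tr hM j
    rwa [← Ex_Yj] at this
  have ha : 7 / 20 ≤ ∑ j, p (i, j) * Ex p (Yj j) := by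
    have h2 : ∑ j, p (i, j) * (367 / 1000) ≤ ∑ j, p (i, j) * Ex p (Yj j) :=
      Finset.sum_le_sum (fun j _ => mul_le_mul_of_nonneg_left (hy j) (he.h0 _))
    rw [← Finset.sum_mul] at h2
    have h3 := he.rS i hi
    nlinarith
  have h4 := mn_exp ha (by linarith : 7 / 20 ≤ l)
  rw [hl] at h4
  have h5 : ∑ j, p (i, j) * Ex p (Yj j) - l =
      ∑ j, p (i, j) * (Ex p (Yj j) - l) - l * (1 - ∑ j, p (i, j)) := by
    simp only [mul_sub, Finset.sum_sub_distrib]
    rw [← Finset.sum_mul]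
    ring
  rw [h5] at h4
  have h6 := abs_sub_le (Ex p (Xi i)) (Real.exp (-(∑ j, p (i, j) * Ex p (Yj j)))) l
  linarith

/-- the deviations of the means, rows and columns together -/
theorem mn_sup_aux {p : I × J → ℝ} {S : Finset I} {T : Finset J} {M K l D : ℝ}
    (hl : Real.exp (-l) = l) (he : Env p S T M K) (hs : Small M K) (hD : 0 ≤ D)
    (hT : ∀ j ∈ T, |Ex p (Yj j) - l| ≤ D) {i : I} (hi : i ∈ S) :
    |Ex p (Xi i) - l| ≤ 705 / 1000 * (D + 2 * l * M) + 3 * BB * M := by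
  have h1 := mn_row hl he hs hi
  have hlo := lam_lo hl
  have hB := BB_one
  have h2 : |∑ j, p (i, j) * (Ex p (Yj j) - l) - l * (1 - ∑ j, p (i, j))| ≤ D + 2 * l * M := by
    have h3 : |∑ j, p (i, j) * (Ex p (Yj j) - l)| ≤ D := by
      refine (Finset.abs_sum_le_sum_abs _ _).trans ?_
      calc ∑ j, |p (i, j) * (Ex p (Yj j) - l)| ≤ ∑ j, p (i, j) * D := by
            refine Finset.sum_le_sum (fun j _ => ?_)
            rw [abs_mul, abs_of_nonneg (he.h0 _)]
            by_cases hj : j ∈ T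
            · exact mul_le_mul_of_nonneg_left (hT j hj) (he.h0 _)
            · rw [he.zT j hj i, zero_mul, zero_mul]
        _ = (∑ j, p (i, j)) * D := by rw [Finset.sum_mul]
        _ ≤ 1 * D := mul_le_mul_of_nonneg_right (he.hr i) hD
        _ = D := one_mul D
    have h4 : |l * (1 - ∑ j, p (i, j))| ≤ 2 * l * M := by
      rw [abs_mul, abs_of_nonneg (by linarith : 0 ≤ l), abs_of_nonneg (by linarith [he.hr i])]
      have := he.rS i hi
      nlinarith
    have h5 := abs_sub (∑ j, p (i, j) * (Ex p (Yj j) - l)) (l * (1 - ∑ j, p (i, j)))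
    linarith
  have h6 := (mn_nr he i).2
  have h7 : 3 * BB * nr p i ≤ 3 * BB * M := mul_le_mul_of_nonneg_left h6 (by positivity)
  linarith

theorem mn_l2_aux {p : I × J → ℝ} {S : Finset I} {T : Finset J} {M K l : ℝ}
    (hl : Real.exp (-l) = l) (he : Env p S T M K) (hs : Small M K) :
    ∑ i ∈ S, (Ex p (Xi i) - l) ^ 2 ≤
      3 / 4 * ∑ j ∈ T, (Ex p (Yj j) - l) ^ 2 + (4 * M + 54 * BB ^ 2 * (M * K)) := by
  have hlo := lam_lo hl
  have hhi := lam_hi hl
  have hB := BB_one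
  obtain ⟨e, he2⟩ : ∃ e : J → ℝ, ∀ j, e j = if j ∈ T then Ex p (Yj j) - l else 0 :=
    ⟨_, fun _ => rfl⟩
  have hsum : ∀ i, ∑ j, p (i, j) * (Ex p (Yj j) - l) = ∑ j, p (i, j) * e j := by
    intro i
    refine Finset.sum_congr rfl (fun j _ => ?_)
    rw [he2]
    split_ifs with hj
    · rfl
    · rw [he.zT j hj i, zero_mul, zero_mul]
  have hterm : ∀ i ∈ S, (Ex p (Xi i) - l) ^ 2 ≤ 3 / 4 * (∑ j, p (i, j) * e j) ^ 2 +
      ((1 - ∑ j, p (i, j)) ^ 2 + 54 * BB ^ 2 * nr p i ^ 2) := by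
    intro i hi
    have h1 := mn_row hl he hs hi
    rw [hsum] at h1
    have hn := (mn_nr he i).1
    have hd : 0 ≤ 1 - ∑ j, p (i, j) := by linarith [he.hr i]
    have h2 := abs_sub (∑ j, p (i, j) * e j) (l * (1 - ∑ j, p (i, j)))
    rw [abs_mul l, abs_of_nonneg (by linarith : 0 ≤ l), abs_of_nonneg hd] at h2
    obtain ⟨u, hu⟩ : ∃ u : ℝ, u = |∑ j, p (i, j) * e j| := ⟨_, rfl⟩
    obtain ⟨v, hv⟩ : ∃ v : ℝ, v = 1 - ∑ j, p (i, j) := ⟨_, rfl⟩
    obtain ⟨w, hw⟩ : ∃ w : ℝ, w = BB * nr p i := ⟨_, rfl⟩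
    have hu0 : 0 ≤ u := by rw [hu]; exact abs_nonneg _
    have hw0 : 0 ≤ w := by rw [hw]; positivity
    have hv0 : 0 ≤ v := by rw [hv]; exact hd
    have h3 : |Ex p (Xi i) - l| ≤ 705 / 1000 * u + (4 / 10 * v + 3 * w) := by
      rw [← hu, ← hv] at h2
      rw [← hv] at h1
      have h31 : l * v ≤ 5672 / 10000 * v := mul_le_mul_of_nonneg_right (by linarith) hv0
      have h32 : 3 * BB * nr p i = 3 * w := by rw [hw]; ring
      rw [h32] at h1
      linarith
    have h4 : (Ex p (Xi i) - l) ^ 2 ≤ (705 / 1000 * u + (4 / 10 * v + 3 * w)) ^ 2 := by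
      rw [← sq_abs]
      exact pow_le_pow_left₀ (abs_nonneg _) h3 2
    have h5 : (∑ j, p (i, j) * e j) ^ 2 = u ^ 2 := by rw [hu, sq_abs]
    have h6 : 54 * BB ^ 2 * nr p i ^ 2 = 54 * w ^ 2 := by rw [hw]; ring
    rw [h5, ← hv, h6]
    refine h4.trans ?_
    nlinarith [sq_nonneg (705 / 1000 * u - 2 * (4 / 10 * v + 3 * w)),
      sq_nonneg (4 / 10 * v - 3 * w), sq_nonneg u, sq_nonneg v, sq_nonneg w]
  have hS : ∑ i ∈ S, (∑ j, p (i, j) * e j) ^ 2 ≤ ∑ j ∈ T, (Ex p (Yj j) - l) ^ 2 := by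
    have h1 := schur (pt p) (fun x => he.h0 _) (fun j => he.hc j) (fun i => he.hr i) e
    have h2 : ∑ j, e j ^ 2 = ∑ j ∈ T, (Ex p (Yj j) - l) ^ 2 := by
      have h3 : ∀ j, e j ^ 2 = if j ∈ T then (Ex p (Yj j) - l) ^ 2 else 0 := by
        intro j
        rw [he2]
        split_ifs
        · rfl
        · norm_num
      rw [Finset.sum_congr rfl (fun j _ => h3 j), ← Finset.sum_filter]
      exact Finset.sum_congr (by ext j; simp) (fun _ _ => rfl)
    rw [h2] at h1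
    refine le_trans ?_ h1
    exact Finset.sum_le_univ_sum_of_nonneg (fun i => sq_nonneg _)
  have hN : ∑ i ∈ S, nr p i ^ 2 ≤ M * K := by
    calc ∑ i ∈ S, nr p i ^ 2 ≤ ∑ i ∈ S, M * nr p i := by
          refine Finset.sum_le_sum (fun i _ => ?_)
          obtain ⟨h1, h2⟩ := mn_nr he i
          nlinarith
      _ = M * ∑ i ∈ S, nr p i := by rw [Finset.mul_sum]
      _ ≤ M * K := by
          refine mul_le_mul_of_nonneg_left ?_ he.M0
          exact (Finset.sum_le_univ_sum_of_nonneg (fun i => (mn_nr he i).1)).trans he.sq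
  have hdS := he.dS
  calc ∑ i ∈ S, (Ex p (Xi i) - l) ^ 2
      ≤ ∑ i ∈ S, (3 / 4 * (∑ j, p (i, j) * e j) ^ 2 +
        ((1 - ∑ j, p (i, j)) ^ 2 + 54 * BB ^ 2 * nr p i ^ 2)) := Finset.sum_le_sum hterm
    _ = 3 / 4 * ∑ i ∈ S, (∑ j, p (i, j) * e j) ^ 2 +
        (∑ i ∈ S, (1 - ∑ j, p (i, j)) ^ 2 + 54 * BB ^ 2 * ∑ i ∈ S, nr p i ^ 2) := by
        rw [Finset.sum_add_distrib, Finset.sum_add_distrib, Finset.mul_sum, Finset.mul_sum]
    _ ≤ 3 / 4 * ∑ j ∈ T, (Ex p (Yj j) - l) ^ 2 + (4 * M + 54 * BB ^ 2 * (M * K)) := by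
        have h1 : 54 * BB ^ 2 * ∑ i ∈ S, nr p i ^ 2 ≤ 54 * BB ^ 2 * (M * K) :=
          mul_le_mul_of_nonneg_left hN (by positivity)
        linarith

theorem mean_sup {p : I × J → ℝ} {S : Finset I} {T : Finset J} {M K l : ℝ}
    (hl : Real.exp (-l) = l) (he : Env p S T M K) (hs : Small M K) :
    (∀ i ∈ S, |Ex p (Xi i) - l| ≤ 20 * BB * M) ∧ ∀ j ∈ T, |Ex p (Yj j) - l| ≤ 20 * BB * M := by
  classical
  obtain ⟨u, hu⟩ : ∃ u : I ⊕ J → ℝ, (∀ i, u (Sum.inl i) = if i ∈ S then |Ex p (Xi i) - l| else 0) ∧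
      ∀ j, u (Sum.inr j) = if j ∈ T then |Ex p (Yj j) - l| else 0 :=
    ⟨Sum.elim _ _, fun _ => rfl, fun _ => rfl⟩
  have hlo := lam_lo hl
  have hhi := lam_hi hl
  have hB := BB_one
  have hM0 := he.M0
  have key : ∀ x : I ⊕ J, u x ≤ 20 * BB * M := by
    intro x
    have : Nonempty (I ⊕ J) := ⟨x⟩
    obtain ⟨m, hm⟩ := Finite.exists_max u
    have hD : 0 ≤ u m := by
      refine le_trans ?_ (hm x)
      rcases x with i | j
      · rw [hu.1]
        split_ifs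
        · exact abs_nonneg _
        · exact le_rfl
      · rw [hu.2]
        split_ifs
        · exact abs_nonneg _
        · exact le_rfl
    have hT : ∀ j ∈ T, |Ex p (Yj j) - l| ≤ u m := by
      intro j hj
      have := hm (Sum.inr j)
      rwa [hu.2, if_pos hj] at this
    have hS : ∀ i ∈ S, |Ex (pt p) (Yj i) - l| ≤ u m := by
      intro i hi
      have := hm (Sum.inl i)
      rw [hu.1, if_pos hi] at this
      rw [Ex_Yj]
      exact this
    have hmain : u m ≤ 705 / 1000 * (u m + 2 * l * M) + 3 * BB * M := by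
      rcases m with i | j
      · by_cases hi : i ∈ S
        · have := mn_sup_aux hl he hs hD hT hi
          rw [hu.1, if_pos hi] at this ⊢
          exact this
        · have h1 : u (Sum.inl i) = 0 := by rw [hu.1, if_neg hi]
          rw [h1]
          have : 0 ≤ l * M := by nlinarith
          have : 0 ≤ BB * M := by nlinarith
          nlinarith
      · by_cases hj : j ∈ T
        · have := mn_sup_aux hl he.tr hs hD hS hj
          rw [← Ex_Yj] at this
          rw [hu.2, if_pos hj] at this ⊢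
          exact this
        · have h1 : u (Sum.inr j) = 0 := by rw [hu.2, if_neg hj]
          rw [h1]
          have : 0 ≤ l * M := by nlinarith
          have : 0 ≤ BB * M := by nlinarith
          nlinarith
    have h2 : l * M ≤ 5672 / 10000 * M := mul_le_mul_of_nonneg_right (by linarith) hM0
    have h3 : M ≤ BB * M := by nlinarith
    have h4 := hm x
    nlinarith
  constructor
  · intro i hi
    have := key (Sum.inl i)
    rwa [hu.1, if_pos hi] at this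
  · intro j hj
    have := key (Sum.inr j)
    rwa [hu.2, if_pos hj] at this

theorem mean_l2 {p : I × J → ℝ} {S : Finset I} {T : Finset J} {M K l : ℝ}
    (hl : Real.exp (-l) = l) (he : Env p S T M K) (hs : Small M K) :
    ∑ i ∈ S, (Ex p (Xi i) - l) ^ 2 ≤ 1000 * BB ^ 2 * M * (K + 1) ∧
      ∑ j ∈ T, (Ex p (Yj j) - l) ^ 2 ≤ 1000 * BB ^ 2 * M * (K + 1) := by
  have h1 := mn_l2_aux hl he hs
  have h2 := mn_l2_aux hl he.tr hs
  have e1 : ∀ j : J, Ex (pt p) (Xi j) = Ex p (Yj j) := fun j => (Ex_Yj p j).symm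
  have e2 : ∀ i : I, Ex (pt p) (Yj i) = Ex p (Xi i) := fun i => Ex_Yj (pt p) i
  simp only [e1, e2] at h2
  have hB := BB_one
  have hM0 := he.M0
  have hK0 := he.K0
  have hA : 0 ≤ ∑ i ∈ S, (Ex p (Xi i) - l) ^ 2 := Finset.sum_nonneg (fun _ _ => sq_nonneg _)
  have hC : 0 ≤ ∑ j ∈ T, (Ex p (Yj j) - l) ^ 2 := Finset.sum_nonneg (fun _ _ => sq_nonneg _)
  have hB2 : 1 ≤ BB ^ 2 := one_le_pow₀ hB
  have h3 : M ≤ BB ^ 2 * M := by nlinarith
  have h4 : 0 ≤ BB ^ 2 * (M * K) := by positivity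
  have h5 : 1000 * BB ^ 2 * M * (K + 1) = 1000 * (BB ^ 2 * (M * K)) + 1000 * (BB ^ 2 * M) := by ring
  rw [h5]
  constructor <;> nlinarith

end Pool.JN
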