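import Pool.Agent.JN.L2
import Pool.Agent.JN.Kl

/-! Module Mp (difficulty 3). The mean of a row in terms of the means of the columns.

PROOF. Z(E) = sum_{j ∈ Rm (dR i E)} p_ij = LR (p_i) (dR i E), s = Ex Z. Ex Xi_i = Ex U p i (Rm (dR i E)) (Ex_Xi).
 (a) for 0 <= x <= 1/2: exp(-x - x^2) <= 1 - x <= exp(-x); so exp(-Z) exp(-nr) <= U <= exp(-Z), 0 <= exp(-Z) - U <= nr.
 (b) |Ex exp(-Z) - exp(-s)| <= (1/2) Ex (Z - s)^2 <= (BB/2) nr (exp(-z) = exp(-s) - (z-s) exp(-s) + remainder in [0, (z-s)^2/2] for z, s >= 0;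
     var_LR_zr with d = p_i).
 (c) s = sum_j p_ij Ex Yj_j + Ex kl (sum_dR), 0 <= Ex kl <= BB nr, and exp(-.) is 1-Lipschitz on [0,∞).
 Sum: nr + (BB/2) nr + BB nr <= 3 BB nr.
-/

namespace Pool.JN

open Finset Pool.KS

set_option linter.unusedSectionVars false

variable {I J : Type*} [Fintype I] [Fintype J] [DecidableEq I] [DecidableEq J]

theorem mp_one_sub {x : ℝ} (h0 : 0 ≤ x) (h1 : x ≤ 1 / 2) :
    Real.exp (-x) * Real.exp (-(x ^ 2)) ≤ 1 - x := by
  rw [← Real.exp_add]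
  have h2 : -x + -(x ^ 2) = -(x + x ^ 2) := by ring
  rw [h2, Real.exp_neg]
  have hy : 0 ≤ x + x ^ 2 := by positivity
  have h3 := Real.quadratic_le_exp_of_nonneg hy
  have h4 : 0 < Real.exp (x + x ^ 2) := Real.exp_pos _
  rw [inv_le_iff_one_le_mul₀ h4]
  have h5 : (1 - x) * (1 + (x + x ^ 2) + (x + x ^ 2) ^ 2 / 2) ≤ (1 - x) * Real.exp (x + x ^ 2) :=
    mul_le_mul_of_nonneg_left h3 (by linarith)
  refine le_trans ?_ h5
  have h6 : 0 ≤ 1 - x - x ^ 2 - x ^ 3 := by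
    have : x ^ 2 ≤ (1 / 2) ^ 2 := pow_le_pow_left₀ h0 h1 2
    have : x ^ 3 ≤ (1 / 2) ^ 3 := pow_le_pow_left₀ h0 h1 3
    linarith
  nlinarith [mul_nonneg (sq_nonneg x) h6]

theorem mp_rem {z s : ℝ} (hz : 0 ≤ z) (hs : 0 ≤ s) :
    |Real.exp (-z) - (Real.exp (-s) - (z - s) * Real.exp (-s))| ≤ (z - s) ^ 2 := by
  have hes : Real.exp (-s) ≤ 1 := Real.exp_le_one_iff.mpr (by linarith)
  have hez : Real.exp (-z) ≤ 1 := Real.exp_le_one_iff.mpr (by linarith)
  have hps := Real.exp_pos (-s)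
  have hpz := Real.exp_pos (-z)
  rcases le_total s z with h | h
  · obtain ⟨u, hu⟩ : ∃ u, u = z - s := ⟨_, rfl⟩
    have hu0 : 0 ≤ u := by linarith
    have h1 : Real.exp (-z) = Real.exp (-s) * Real.exp (-u) := by
      rw [← Real.exp_add]; congr 1; linarith
    rw [← hu, h1]
    have h2 : 1 - u ≤ Real.exp (-u) := by
      have := Real.add_one_le_exp (-u); linarith
    have h3 : Real.exp (-u) ≤ 1 - u + u ^ 2 := by
      rw [Real.exp_neg]
      have h4 := Real.add_one_le_exp u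
      have h5 : 0 < Real.exp u := Real.exp_pos u
      rw [inv_le_iff_one_le_mul₀ h5]
      have h6 : 0 ≤ 1 - u + u ^ 2 := by nlinarith [sq_nonneg (u - 1)]
      nlinarith [mul_le_mul_of_nonneg_left h4 h6, pow_nonneg hu0 3]
    rw [abs_le]
    constructor
    · nlinarith [mul_nonneg hps.le (sub_nonneg.mpr h2), sq_nonneg u]
    · have h7 : Real.exp (-s) * (Real.exp (-u) - (1 - u)) ≤ 1 * u ^ 2 :=
        mul_le_mul hes (by linarith) (by linarith) zero_le_one
      nlinarith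
  · obtain ⟨v, hv⟩ : ∃ v, v = s - z := ⟨_, rfl⟩
    have hv0 : 0 ≤ v := by linarith
    have h1 : Real.exp (-s) = Real.exp (-z) * Real.exp (-v) := by
      rw [← Real.exp_add]; congr 1; linarith
    have h2 : z - s = -v := by linarith
    rw [h2, h1]
    have h3 : 1 - v ≤ Real.exp (-v) := by
      have := Real.add_one_le_exp (-v); linarith
    have h4 : Real.exp (-v) * (1 + v) ≤ 1 := by
      have h5 := Real.add_one_le_exp v
      calc Real.exp (-v) * (1 + v) ≤ Real.exp (-v) * Real.exp v :=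
            mul_le_mul_of_nonneg_left (by linarith) (Real.exp_pos _).le
        _ = 1 := by rw [← Real.exp_add]; simp
    have h6 : (1 - v) * (1 + v) ≤ Real.exp (-v) * (1 + v) :=
      mul_le_mul_of_nonneg_right h3 (by linarith)
    rw [abs_le]
    constructor
    · nlinarith [mul_nonneg hpz.le (sub_nonneg.mpr h4), sq_nonneg v]
    · have h7 : Real.exp (-z) * (1 - Real.exp (-v) * (1 + v)) ≤ 1 * v ^ 2 :=
        mul_le_mul hez (by nlinarith) (by linarith) zero_le_one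
      nlinarith

theorem U_exp {p : I × J → ℝ} (hp : Sub p (1 / 2)) (i : I) (S : Finset J) :
    U p i S ≤ Real.exp (-(∑ j ∈ S, p (i, j))) ∧
      Real.exp (-(∑ j ∈ S, p (i, j))) - nr p i ≤ U p i S := by
  constructor
  · unfold U
    rw [← Finset.sum_neg_distrib, Real.exp_sum]
    refine Finset.prod_le_prod (fun j _ => ?_) (fun j _ => ?_)
    · have := hp.h1 (i, j); linarith
    · have := Real.add_one_le_exp (-(p (i, j))); linarith
  · have h1 : Real.exp (-(∑ j ∈ S, p (i, j))) * Real.exp (-(∑ j ∈ S, p (i, j) ^ 2)) ≤ U p i S := by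
      unfold U
      rw [← Finset.sum_neg_distrib, ← Finset.sum_neg_distrib, Real.exp_sum, Real.exp_sum,
        ← Finset.prod_mul_distrib]
      refine Finset.prod_le_prod (fun j _ => by positivity) (fun j _ => ?_)
      exact mp_one_sub (hp.h0 _) (hp.h1 _)
    have h2 : ∑ j ∈ S, p (i, j) ^ 2 ≤ nr p i :=
      Finset.sum_le_sum_of_subset_of_nonneg (Finset.subset_univ _) (fun j _ _ => sq_nonneg _)
    have h3 : 1 - ∑ j ∈ S, p (i, j) ^ 2 ≤ Real.exp (-(∑ j ∈ S, p (i, j) ^ 2)) := by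
      have := Real.add_one_le_exp (-(∑ j ∈ S, p (i, j) ^ 2)); linarith
    have h4 : Real.exp (-(∑ j ∈ S, p (i, j))) ≤ 1 := by
      refine Real.exp_le_one_iff.mpr ?_
      have : 0 ≤ ∑ j ∈ S, p (i, j) := Finset.sum_nonneg (fun j _ => hp.h0 _)
      linarith
    have h5 : 0 < Real.exp (-(∑ j ∈ S, p (i, j))) := Real.exp_pos _
    have h6 : 0 ≤ ∑ j ∈ S, p (i, j) ^ 2 := Finset.sum_nonneg (fun j _ => sq_nonneg _)
    have h7 := mul_le_mul_of_nonneg_left h3 h5.le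
    nlinarith [mul_nonneg (sub_nonneg.mpr h4) h6]

theorem mean_pre {p : I × J → ℝ} (hp : Sub p (1 / 2)) (i : I) :
    |Ex p (Xi i) - Real.exp (-(∑ j, p (i, j) * Ex p (Yj j)))| ≤ 3 * BB * nr p i := by
  have hle1 : ∀ e, p e ≤ 1 := fun e => hp.le_one (by norm_num) e
  have hB := BB_one
  have hnr : 0 ≤ nr p i := Finset.sum_nonneg (fun _ _ => sq_nonneg _)
  obtain ⟨Z, hZ⟩ : ∃ Z : Finset (I × J) → ℝ, Z = fun E => ∑ j ∈ Rm (dR i E), p (i, j) := ⟨_, rfl⟩
  obtain ⟨s, hs⟩ : ∃ s, s = Ex p Z := ⟨_, rfl⟩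
  have hZ0 : ∀ E, 0 ≤ Z E := fun E => by rw [hZ]; exact Finset.sum_nonneg (fun j _ => hp.h0 _)
  have hs0 : 0 ≤ s := by rw [hs]; exact Ex_nonneg hp.h0 hle1 hZ0
  -- (a)
  have ha1 : Ex p (Xi i) ≤ Ex p (fun E => Real.exp (-(Z E))) := by
    rw [Ex_Xi]
    refine Ex_mono hp.h0 hle1 (fun E => ?_)
    rw [hZ]
    exact (U_exp hp i _).1
  have ha2 : Ex p (fun E => Real.exp (-(Z E))) - nr p i ≤ Ex p (Xi i) := by
    rw [Ex_Xi]
    have h1 : Ex p (fun E => Real.exp (-(Z E)) - nr p i) ≤ Ex p (fun E => U p i (Rm (dR i E))) := by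
      refine Ex_mono hp.h0 hle1 (fun E => ?_)
      rw [hZ]
      exact (U_exp hp i _).2
    have h2 := Ex_sub p (fun E => Real.exp (-(Z E))) (fun _ => nr p i)
    rw [Ex_const] at h2
    rw [h2] at h1
    exact h1
  -- (b)
  have hvar : Ex p (fun E => (Z E - s) ^ 2) ≤ BB * nr p i := by
    have h1 := var_LR_zr hp (fun j => p (i, j)) i
    rw [hs, hZ]
    exact h1
  have hlin : Ex p (fun E => Real.exp (-s) - (Z E - s) * Real.exp (-s)) = Real.exp (-s) := by
    have h1 : Ex p (fun E => Real.exp (-s) - (Z E - s) * Real.exp (-s)) =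
        Ex p (fun E => (1 + s) * Real.exp (-s) - Real.exp (-s) * Z E) :=
      Ex_congr p (fun E => by ring)
    rw [h1, Ex_sub p (fun _ => (1 + s) * Real.exp (-s)) (fun E => Real.exp (-s) * Z E), Ex_const,
      Ex_mul_left, ← hs]
    ring
  have hb1 : Ex p (fun E => Real.exp (-(Z E))) - Real.exp (-s) ≤ BB * nr p i := by
    refine le_trans ?_ hvar
    conv_lhs => rw [← hlin]
    rw [← Ex_sub]
    exact Ex_mono hp.h0 hle1 (fun E => (abs_le.mp (mp_rem (hZ0 E) hs0)).2)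
  have hb2 : Real.exp (-s) - Ex p (fun E => Real.exp (-(Z E))) ≤ BB * nr p i := by
    refine le_trans ?_ hvar
    conv_lhs => rw [← hlin]
    rw [← Ex_sub]
    refine Ex_mono hp.h0 hle1 (fun E => ?_)
    have := (abs_le.mp (mp_rem (hZ0 E) hs0)).1
    linarith
  -- (c)
  have hc : s = (∑ j, p (i, j) * Ex p (Yj j)) + Ex p (kl p i) := by
    rw [hs, hZ]
    have h1 : Ex p (fun E => ∑ j ∈ Rm (dR i E), p (i, j)) =
        Ex p (fun E => (∑ j, p (i, j) * Yj j E) + kl p i E) := Ex_congr p (fun E => sum_dR p i E)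
    rw [h1, Ex_add p (fun E => ∑ j, p (i, j) * Yj j E) (kl p i)]
    congr 1
    rw [Ex_sum p Finset.univ (fun j E => p (i, j) * Yj j E)]
    exact Finset.sum_congr rfl (fun j _ => Ex_mul_left p _ _)
  have hk0 : 0 ≤ Ex p (kl p i) := Ex_nonneg hp.h0 hle1 (fun E => kl_nonneg hp.h0 i E)
  have hk1 := kl_bound hp i
  have hY0 : 0 ≤ ∑ j, p (i, j) * Ex p (Yj j) := by
    refine Finset.sum_nonneg (fun j _ => mul_nonneg (hp.h0 _) ?_)
    refine Ex_nonneg hp.h0 hle1 (fun E => ?_)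
    unfold Yj
    split_ifs <;> norm_num
  obtain ⟨t, ht⟩ : ∃ t, t = ∑ j, p (i, j) * Ex p (Yj j) := ⟨_, rfl⟩
  obtain ⟨κ, hκ⟩ : ∃ κ, κ = Ex p (kl p i) := ⟨_, rfl⟩
  rw [← ht] at hc hY0 ⊢
  rw [← hκ] at hc hk0 hk1
  have hc1 : Real.exp (-s) ≤ Real.exp (-t) := Real.exp_le_exp.mpr (by linarith)
  have hc2 : Real.exp (-t) - Real.exp (-s) ≤ κ := by
    have h1 : Real.exp (-s) = Real.exp (-t) * Real.exp (-κ) := by
      rw [← Real.exp_add]; congr 1; linarith
    have h2 : 1 - κ ≤ Real.exp (-κ) := by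
      have := Real.add_one_le_exp (-κ); linarith
    have h3 : Real.exp (-t) ≤ 1 := Real.exp_le_one_iff.mpr (by linarith)
    have h4 := Real.exp_pos (-t)
    rw [h1]
    nlinarith [mul_le_mul_of_nonneg_left h2 h4.le, mul_nonneg (sub_nonneg.mpr h3) hk0]
  have hfin : nr p i + BB * nr p i + BB * nr p i ≤ 3 * BB * nr p i := by
    nlinarith [mul_nonneg (sub_nonneg.mpr hB) hnr]
  rw [abs_le]
  constructor <;> linarith

end Pool.JN
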