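import Pool.Agent.JN.D0

/-! Module Ps (difficulty 3). Parallel rows: the matrix of parallel pairs is positive semidefinite.

par i k E = 1 iff i, k are missable rows which cannot be missed simultaneously (or i = k missable).
PROOFS. Sp_eq_par (k ≠ i): Xi_pair1, Xi_pair2, Xi_mul (KS/Comb): Xi_i = av_i + Sp, Xi_k = av_k + Sp, Xi_i Xi_k = av_i av_k + Sp
   (av at Rm (dR k (dR i E))); k ∈ Lm (dR i E) iff Xi k (dR i E) = av_k(Rm (dR k (dR i E))) = 1 (Xi_eq, av_dR). All are 0/1:
   if i, k ∈ Lm E and k ∉ Lm (dR i E): av_k = 0, so Sp = Xi_k = 1. Conversely, Sp = 1 (from Xi_i = av_i + Sp <= 1, Sp ∈ {0,1})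
   gives Xi_i = Xi_k = 1, av_k = 0. (Sp ∈ {0,1}: Sp = Xi_i - av_i ∈ {-1,0,1} and Sp = Xi_i Xi_k - av_i av_k with av_i <= Xi_i? if av_i = 1
   then Sp <= 0 and Xi_i = 1 + Sp; use Xi_mul in the cases; note every term of Sp is a product of two numbers >= 0 since
   av(R \ c) >= av(R) (av_mono), so Sp >= 0.)
 Ex_Sp_mul: Sp i k E = sum_c (av_k(R\c) - av_k(R))(av_i(R\c) - av_i(R)), expectations given H = H2 i k E factor (as in Ex_XiXi).
 par_psd: on the row side classes are cls (tr E) (Rm (tr E) = Lm E, dC i (tr E) = tr (dR i E)): par i k E = 1 iff i ∈ Lm E, k ∈ cls (tr E) i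
   (an equivalence relation on Lm E: cls_symm, cls_eq). So the double sum is sum over class labels c of
   (sum_{i ∈ cl (tr E) c} e_i)^2 >= 0 (use sum_classes for tr E with w = e and G = fun S => sum_{k ∈ S} e_k).
 sum_par: the number of k with par i k E = 1 is |cls (tr E) i|.
-/

namespace Pool.JN

open Finset Pool.KS

set_option linter.unusedSectionVars false

variable {I J : Type*} [Fintype I] [Fintype J] [DecidableEq I] [DecidableEq J]

/-- `i, k` are missable rows that cannot be missed together (or `i = k` is missable) -/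
noncomputable def par (i k : I) (E : Finset (I × J)) : ℝ :=
  if i ∈ Lm E ∧ k ∈ Lm E ∧ (k = i ∨ k ∉ Lm (dR i E)) then 1 else 0

theorem Sp_eq_par {i k : I} (h : k ≠ i) (E : Finset (I × J)) : Sp i k E = par i k E := by
  obtain ⟨R, hR⟩ : ∃ R, R = Rm (dR k (dR i E)) := ⟨_, rfl⟩
  have h1 := Xi_pair1 h E
  have h2 := Xi_pair2 h E
  have h3 : Xi k (dR i E) = av k E (Rm (dR k (dR i E))) := by
    rw [Xi_eq, av_dR h]
  rw [← hR] at h1 h2 h3
  have hX : ∀ (x : I) (F : Finset (I × J)), Xi x F = if x ∈ Lm F then 1 else 0 := fun _ _ => rfl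
  rcases av_cases k E R with hb | hb
  · rcases av_cases i E R with ha | ha
    · rw [ha, zero_add] at h1
      rw [hb, zero_add] at h2
      have hk : k ∉ Lm (dR i E) := by
        intro hk
        rw [hX, if_pos hk, hb] at h3
        norm_num at h3
      unfold par
      by_cases hi : i ∈ Lm E
      · have h4 : Sp i k E = 1 := by rw [← h1, hX, if_pos hi]
        have h5 : k ∈ Lm E := by
          by_contra hk'
          rw [hX, if_neg hk', h4] at h2
          norm_num at h2
        rw [if_pos ⟨hi, h5, Or.inr hk⟩, h4]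
      · have h4 : Sp i k E = 0 := by rw [← h1, hX, if_neg hi]
        rw [if_neg (fun hh => hi hh.1), h4]
    · have hS : Sp i k E = 0 := by
        unfold Sp
        refine Finset.sum_eq_zero (fun c _ => ?_)
        rw [← hR, av_mono (S := R) Finset.sdiff_subset ha, ha]; ring
      rw [hb, hS, zero_add] at h2
      have hk : k ∉ Lm E := by
        intro hk
        rw [hX, if_pos hk] at h2
        norm_num at h2
      unfold par
      rw [if_neg (fun hh => hk hh.2.1), hS]
  · have hS : Sp i k E = 0 := by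
      unfold Sp
      refine Finset.sum_eq_zero (fun c _ => ?_)
      rw [← hR, av_mono (S := R) Finset.sdiff_subset hb, hb]; ring
    have hk : k ∈ Lm (dR i E) := by
      by_contra hk
      rw [hX, if_neg hk, hb] at h3
      norm_num at h3
    unfold par
    rw [if_neg, hS]
    rintro ⟨_, _, h5 | h5⟩
    · exact h h5
    · exact h5 hk

theorem ps_av_av (p : I × J → ℝ) {i k : I} (h : k ≠ i) (G : Finset (I × J) → ℝ)
    (S S' : Finset (I × J) → Finset J)
    (iG : ∀ E, G (dR i E) = G E) (kG : ∀ E, G (dR k E) = G E)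
    (iS : ∀ E, S (dR i E) = S E) (iS' : ∀ E, S' (dR i E) = S' E)
    (kS : ∀ E, S (dR k E) = S E) (kS' : ∀ E, S' (dR k E) = S' E) :
    Ex p (fun E => G E * (av k E (S' E) * av i E (S E))) =
      Ex p (fun E => G E * (U p k (S' E) * U p i (S E))) := by
  have h1 : ∀ E, G E * (av k E (S' E) * av i E (S E)) =
      (G E * av k E (S' E)) * av i E (S E) := fun E => by ring
  rw [Ex_congr p h1]
  rw [Ex_av p i (fun E => G E * av k E (S' E)) S (fun E => by
    show G (dR i E) * av k (dR i E) (S' (dR i E)) = G E * av k E (S' E)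
    rw [iG, iS', av_dR h]) iS]
  have h2 : ∀ E, G E * av k E (S' E) * U p i (S E) =
      (G E * U p i (S E)) * av k E (S' E) := fun E => by ring
  rw [Ex_congr p h2]
  rw [Ex_av p k (fun E => G E * U p i (S E)) S' (fun E => by
    show G (dR k E) * U p i (S (dR k E)) = G E * U p i (S E)
    rw [kG, kS]) kS']
  exact Ex_congr p (fun E => by ring)

theorem Ex_Sp_mul (p : I × J → ℝ) {i k : I} (h : k ≠ i) (g : Finset (I × J) → ℝ) :
    Ex p (fun E => Sp i k E * g (H2 i k E)) = Ex p (fun E => rr p i k E * g (H2 i k E)) := by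
  have ei : ∀ E : Finset (I × J), dR k (dR i (dR i E)) = dR k (dR i E) := fun E => by
    rw [dR_dR]
  have ek : ∀ E : Finset (I × J), dR k (dR i (dR k E)) = dR k (dR i E) := fun E => by
    rw [dR_comm i k E, dR_dR]
  have h1 : ∀ E, Sp i k E * g (H2 i k E) = ∑ c : Finset J,
      (((g (dR k (dR i E)) * (av k E (Rm (dR k (dR i E)) \ cl (dR k (dR i E)) c) *
          av i E (Rm (dR k (dR i E)) \ cl (dR k (dR i E)) c)) -
        g (dR k (dR i E)) * (av k E (Rm (dR k (dR i E)) \ cl (dR k (dR i E)) c) *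
          av i E (Rm (dR k (dR i E))))) -
        g (dR k (dR i E)) * (av k E (Rm (dR k (dR i E))) *
          av i E (Rm (dR k (dR i E)) \ cl (dR k (dR i E)) c))) +
        g (dR k (dR i E)) * (av k E (Rm (dR k (dR i E))) * av i E (Rm (dR k (dR i E))))) := by
    intro E
    unfold Sp H2
    rw [Finset.sum_mul]
    refine Finset.sum_congr rfl (fun c _ => by ring)
  have h2 : ∀ E, rr p i k E * g (H2 i k E) = ∑ c : Finset J,
      (((g (dR k (dR i E)) * (U p k (Rm (dR k (dR i E)) \ cl (dR k (dR i E)) c) *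
          U p i (Rm (dR k (dR i E)) \ cl (dR k (dR i E)) c)) -
        g (dR k (dR i E)) * (U p k (Rm (dR k (dR i E)) \ cl (dR k (dR i E)) c) *
          U p i (Rm (dR k (dR i E))))) -
        g (dR k (dR i E)) * (U p k (Rm (dR k (dR i E))) *
          U p i (Rm (dR k (dR i E)) \ cl (dR k (dR i E)) c))) +
        g (dR k (dR i E)) * (U p k (Rm (dR k (dR i E))) * U p i (Rm (dR k (dR i E))))) := by
    intro E
    unfold rr H2 pcl
    rw [Finset.sum_mul]
    refine Finset.sum_congr rfl (fun c _ => by ring)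
  have key : ∀ (S S' : Finset (I × J) → Finset J)
      (hS : ∀ E E', dR k (dR i E) = dR k (dR i E') → S E = S E')
      (hS' : ∀ E E', dR k (dR i E) = dR k (dR i E') → S' E = S' E'),
      Ex p (fun E => g (dR k (dR i E)) * (av k E (S' E) * av i E (S E))) =
      Ex p (fun E => g (dR k (dR i E)) * (U p k (S' E) * U p i (S E))) := fun S S' hS hS' =>
    ps_av_av p h (fun E => g (dR k (dR i E))) S S' (fun E => by simp only [ei])
      (fun E => by simp only [ek]) (fun E => hS _ _ (ei E)) (fun E => hS' _ _ (ei E))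
      (fun E => hS _ _ (ek E)) (fun E => hS' _ _ (ek E))
  rw [Ex_congr p h1, Ex_congr p h2, Ex_sum, Ex_sum]
  refine Finset.sum_congr rfl (fun c _ => ?_)
  rw [Ex_add, Ex_sub, Ex_sub, Ex_add, Ex_sub, Ex_sub]
  have k1 := key (fun E => Rm (dR k (dR i E)) \ cl (dR k (dR i E)) c)
    (fun E => Rm (dR k (dR i E)) \ cl (dR k (dR i E)) c)
    (fun E E' hh => by simp only [hh]) (fun E E' hh => by simp only [hh])
  have k2 := key (fun E => Rm (dR k (dR i E)))
    (fun E => Rm (dR k (dR i E)) \ cl (dR k (dR i E)) c)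
    (fun E E' hh => by simp only [hh]) (fun E E' hh => by simp only [hh])
  have k3 := key (fun E => Rm (dR k (dR i E)) \ cl (dR k (dR i E)) c)
    (fun E => Rm (dR k (dR i E)))
    (fun E E' hh => by simp only [hh]) (fun E E' hh => by simp only [hh])
  have k4 := key (fun E => Rm (dR k (dR i E))) (fun E => Rm (dR k (dR i E)))
    (fun E E' hh => by simp only [hh]) (fun E E' hh => by simp only [hh])
  rw [k1, k2, k3, k4]

theorem ps_par_eq (i k : I) (E : Finset (I × J)) :
    par i k E = if i ∈ Rm (tr E) then (if k ∈ cls (tr E) i then 1 else 0) else 0 := by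
  have hiff : k ∈ cls (tr E) i ↔ (k ∈ Lm E ∧ (k = i ∨ k ∉ Lm (dR i E))) := by
    rw [mem_cls, Rm_tr, ← tr_dR, Rm_tr]
  rw [Rm_tr]
  unfold par
  by_cases hi : i ∈ Lm E
  · rw [if_pos hi]
    by_cases hk : k ∈ cls (tr E) i
    · rw [if_pos hk, if_pos ⟨hi, hiff.1 hk⟩]
    · rw [if_neg hk, if_neg (fun hh => hk (hiff.2 hh.2))]
  · rw [if_neg (fun hh => hi hh.1), if_neg hi]

theorem par_psd (e : I → ℝ) (E : Finset (I × J)) :
    0 ≤ ∑ i, ∑ k, e i * e k * par i k E := by
  have h1 : ∑ i, ∑ k, e i * e k * par i k E =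
      ∑ i ∈ Rm (tr E), e i * ∑ k ∈ cls (tr E) i, e k := by
    have h2 : ∀ i, ∑ k, e i * e k * par i k E =
        if i ∈ Rm (tr E) then e i * ∑ k ∈ cls (tr E) i, e k else 0 := by
      intro i
      simp only [ps_par_eq]
      by_cases hi : i ∈ Rm (tr E)
      · simp only [if_pos hi, mul_ite, mul_one, mul_zero]
        rw [← Finset.sum_filter, Finset.mul_sum]
        exact Finset.sum_congr (by ext j; simp) (fun _ _ => rfl)
      · simp only [if_neg hi, mul_zero, Finset.sum_const_zero]
    rw [Finset.sum_congr rfl (fun i _ => h2 i), ← Finset.sum_filter]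
    exact Finset.sum_congr (by ext j; simp) (fun _ _ => rfl)
  rw [h1, ← sum_classes (tr E) e (fun S => ∑ k ∈ S, e k)]
  exact Finset.sum_nonneg (fun c _ => mul_self_nonneg _)

theorem sum_par (i : I) (E : Finset (I × J)) :
    ∑ k, par i k E = if i ∈ Lm E then ((cls (tr E) i).card : ℝ) else 0 := by
  simp only [ps_par_eq]
  rw [Rm_tr]
  by_cases hi : i ∈ Lm E
  · simp only [if_pos hi]
    rw [Finset.sum_ite_mem, Finset.univ_inter, Finset.sum_const, nsmul_eq_mul, mul_one]
  · simp only [if_neg hi, Finset.sum_const_zero]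

/-- moments of the row classes -/
theorem row_cls_BB {p : I × J → ℝ} (hp : Sub p (1 / 2)) (m : ℕ) (hm1 : 1 ≤ m) (hm4 : m ≤ 4)
    (i : I) :
    Ex p (fun E => if i ∈ Lm E then ((cls (tr E) i).card : ℝ) ^ m else 0) ≤ BB := by
  refine (clsR_moment hp (by norm_num) m i).trans ?_
  have h1 := Dm_nonneg (1 / 2) 1
  have h2 := Dm_nonneg (1 / 2) 2
  have h3 := Dm_nonneg (1 / 2) 3
  have h4 := Dm_nonneg (1 / 2) 4
  unfold BB
  interval_cases m <;> linarith

end Pool.JN
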