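import Pool.Agent.JN.Em
import Pool.Agent.JN.Kl
import Pool.Agent.JN.Cv
import Pool.Agent.JN.Ps
import Pool.Agent.JN.Dl

/-! Module Ra (difficulty 3). Sums over k of quantities of the pair (i,k).

PROOFS. (1) sum_rr_cl. Let for a graph H': f_k(H') := sum_c (sum_{cl H' c} p_kj)(sum_{cl H' c} p_ij) |cl H' c|^r
     = sum_{j ∈ Rm H'} p_kj * (|cls H' j|^r sum_{l ∈ cls H' j} p_il)   (sum_classes with w = p_k, G(S) = |S|^r sum_{S} p_i), >= 0.
   Ex p (f_k (H2 i k E)) = Ex (zr p i) (fun E => f_k (dR k E)) <= 8 Ex (zr p i) f_k (Ex_zr, Ex_dR_le, Sub.zr). Sum over k: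
   sum_k p_kj <= 1, so <= 8 Ex (zr p i) sum_{j∈R} |cls j|^r sum_{l ∈ cls j} p_il = 8 Ex sum_{l∈R} p_il |cls l|^(r+1) (sum_cls_comm)
   <= 8 sum_l p_il BB <= 8 BB (cls_BB, r+1 <= 3).
 (2) sum_rr: Ex rr = Ex Sp = Ex par (Ex_Sp_mul with g = 1, Sp_eq_par), sum_par, row_cls_BB with m = 1.
 (3) sum_rr_sq: rr = sum_c κ^k_c κ^i_c, κ^i_c >= 0, sum_c κ^i_c <= 1 (sum_c pcl p i H c <= sum_c sum_{cl c} p_ij <= sum_j p_ij <= 1), so by
   Cauchy-Schwarz rr^2 <= sum_c κ^i_c (κ^k_c)^2 <= sum_c (sum_{cl c} p_ij)(sum_{cl c} p_kj) * (M |cl c|); (1) with r = 1: sum_k Ex rr^2 <= 8 BB M.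
-/

namespace Pool.JN

open Finset Pool.KS

set_option linter.unusedSectionVars false

variable {I J : Type*} [Fintype I] [Fintype J] [DecidableEq I] [DecidableEq J]

/-- the functional of one graph -/
noncomputable def raF (p : I × J → ℝ) (i : I) (r : ℕ) (k : I) (H : Finset (I × J)) : ℝ :=
  ∑ c : Finset J, (∑ j ∈ cl H c, p (k, j)) * (∑ j ∈ cl H c, p (i, j)) * ((cl H c).card : ℝ) ^ r

theorem raF_nonneg {p : I × J → ℝ} (h0 : ∀ e, 0 ≤ p e) (i : I) (r : ℕ) (k : I)
    (H : Finset (I × J)) : 0 ≤ raF p i r k H := by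
  unfold raF
  refine Finset.sum_nonneg (fun c _ => ?_)
  have h1 : 0 ≤ ∑ j ∈ cl H c, p (k, j) := Finset.sum_nonneg (fun j _ => h0 _)
  have h2 : 0 ≤ ∑ j ∈ cl H c, p (i, j) := Finset.sum_nonneg (fun j _ => h0 _)
  positivity

theorem raF_eq (p : I × J → ℝ) (i : I) (r : ℕ) (k : I) (H : Finset (I × J)) :
    raF p i r k H =
      ∑ j ∈ Rm H, p (k, j) * (((cls H j).card : ℝ) ^ r * ∑ l ∈ cls H j, p (i, l)) := by
  have h := sum_classes H (fun j => p (k, j))
    (fun S => (S.card : ℝ) ^ r * ∑ l ∈ S, p (i, l))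
  rw [← h]
  unfold raF
  exact Finset.sum_congr rfl (fun c _ => by ring)

theorem raF_sum {p : I × J → ℝ} (hp : Sub p (1 / 2)) (i : I) (r : ℕ) (H : Finset (I × J)) :
    ∑ k ∈ univ.erase i, raF p i r k H ≤
      ∑ l ∈ Rm H, p (i, l) * ((cls H l).card : ℝ) ^ (r + 1) := by
  calc ∑ k ∈ univ.erase i, raF p i r k H ≤ ∑ k, raF p i r k H := by
        refine Finset.sum_le_sum_of_subset_of_nonneg (Finset.erase_subset _ _) ?_
        intro k _ _
        exact raF_nonneg hp.h0 i r k H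
    _ = ∑ j ∈ Rm H, (∑ k, p (k, j)) * (((cls H j).card : ℝ) ^ r * ∑ l ∈ cls H j, p (i, l)) := by
        rw [Finset.sum_congr rfl (fun k _ => raF_eq p i r k H), Finset.sum_comm]
        exact Finset.sum_congr rfl (fun j _ => by rw [Finset.sum_mul])
    _ ≤ ∑ j ∈ Rm H, 1 * (((cls H j).card : ℝ) ^ r * ∑ l ∈ cls H j, p (i, l)) := by
        refine Finset.sum_le_sum (fun j _ => ?_)
        refine mul_le_mul_of_nonneg_right (hp.hc j) ?_
        have h2 : 0 ≤ ∑ l ∈ cls H j, p (i, l) := Finset.sum_nonneg (fun j _ => hp.h0 _)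
        positivity
    _ = ∑ l ∈ Rm H, p (i, l) * ((cls H l).card : ℝ) ^ (r + 1) := by
        rw [sum_cls_comm (fun _ => 1) (fun l => p (i, l)) H r]
        refine Finset.sum_congr rfl (fun l _ => ?_)
        rw [Finset.sum_const, nsmul_eq_mul, mul_one, pow_succ]

theorem sum_rr_cl {p : I × J → ℝ} (hp : Sub p (1 / 2)) (i : I) (r : ℕ) (hr : r ≤ 2) :
    ∑ k ∈ univ.erase i, Ex p (fun E => ∑ c : Finset J,
      (∑ j ∈ cl (H2 i k E) c, p (k, j)) * (∑ j ∈ cl (H2 i k E) c, p (i, j)) *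
        ((cl (H2 i k E) c).card : ℝ) ^ r) ≤ 8 * BB := by
  have hz : Sub (zr p i) (1 / 2) := Sub.zr hp i
  have hz1 : ∀ e, zr p i e ≤ 1 := fun e => (hz.h1 e).trans (by norm_num)
  calc ∑ k ∈ univ.erase i, Ex p (fun E => ∑ c : Finset J,
      (∑ j ∈ cl (H2 i k E) c, p (k, j)) * (∑ j ∈ cl (H2 i k E) c, p (i, j)) *
        ((cl (H2 i k E) c).card : ℝ) ^ r)
      ≤ ∑ k ∈ univ.erase i, 8 * Ex (zr p i) (raF p i r k) := by
        refine Finset.sum_le_sum (fun k _ => ?_)
        have h1 := Ex_zr p i (fun E => raF p i r k (dR k E))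
        have h2 := Ex_dR_le hz k (raF p i r k) (fun E => raF_nonneg hp.h0 i r k E)
        exact (le_of_eq h1).trans h2
    _ = 8 * Ex (zr p i) (fun H => ∑ k ∈ univ.erase i, raF p i r k H) := by
        rw [← Finset.mul_sum, Ex_sum]
    _ ≤ 8 * Ex (zr p i) (fun H => ∑ l, p (i, l) *
          (if l ∈ Rm H then ((cls H l).card : ℝ) ^ (r + 1) else 0)) := by
        refine mul_le_mul_of_nonneg_left (Ex_mono hz.h0 hz1 (fun H => ?_)) (by norm_num)
        refine (raF_sum hp i r H).trans (le_of_eq ?_)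
        simp only [mul_ite, mul_zero]
        rw [← Finset.sum_filter]
        exact Finset.sum_congr (by ext j; simp) (fun _ _ => rfl)
    _ = 8 * ∑ l, p (i, l) * Ex (zr p i) (fun H =>
          if l ∈ Rm H then ((cls H l).card : ℝ) ^ (r + 1) else 0) := by
        rw [Ex_sum]
        congr 1
        exact Finset.sum_congr rfl (fun l _ => Ex_mul_left _ _ _)
    _ ≤ 8 * ∑ l, p (i, l) * BB := by
        refine mul_le_mul_of_nonneg_left (Finset.sum_le_sum (fun l _ => ?_)) (by norm_num)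
        exact mul_le_mul_of_nonneg_left (cls_BB hz (r + 1) (by omega) (by omega) l) (hp.h0 _)
    _ ≤ 8 * BB := by
        rw [← Finset.sum_mul]
        have h1 := hp.hr i
        have h2 := BB_one
        nlinarith

theorem sum_rr {p : I × J → ℝ} (hp : Sub p (1 / 2)) (i : I) :
    ∑ k ∈ univ.erase i, Ex p (rr p i k) ≤ BB := by
  have h1 : ∀ e, p e ≤ 1 := fun e => (hp.h1 e).trans (by norm_num)
  have hpar : ∀ (k : I) (E : Finset (I × J)), 0 ≤ par i k E := by
    intro k E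
    unfold par
    split_ifs
    · exact zero_le_one
    · exact le_rfl
  calc ∑ k ∈ univ.erase i, Ex p (rr p i k) = ∑ k ∈ univ.erase i, Ex p (par i k) := by
        refine Finset.sum_congr rfl (fun k hk => ?_)
        have hki : k ≠ i := (Finset.mem_erase.mp hk).1
        have h2 := Ex_Sp_mul p hki (fun _ => 1)
        simp only [mul_one] at h2
        rw [← Ex_congr p (fun E => Sp_eq_par hki E)]
        exact h2.symm
    _ ≤ ∑ k, Ex p (par i k) := by
        refine Finset.sum_le_sum_of_subset_of_nonneg (Finset.erase_subset _ _) ?_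
        intro k _ _
        exact Ex_nonneg hp.h0 h1 (hpar k)
    _ = Ex p (fun E => if i ∈ Lm E then ((cls (tr E) i).card : ℝ) ^ 1 else 0) := by
        rw [← Ex_sum]
        refine Ex_congr p (fun E => ?_)
        rw [sum_par, pow_one]
    _ ≤ BB := row_cls_BB hp 1 le_rfl (by norm_num) i

theorem ra_sum_cl (H : Finset (I × J)) (w : J → ℝ) :
    ∑ c : Finset J, ∑ j ∈ cl H c, w j = ∑ j ∈ Rm H, w j := by
  have h := sum_classes H w (fun _ => 1)
  simp only [mul_one] at h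
  exact h

theorem ra_rr_sq {p : I × J → ℝ} (hp : Sub p (1 / 2)) {M : ℝ} (hM : ∀ e, p e ≤ M) (i k : I)
    (E : Finset (I × J)) : rr p i k E ^ 2 ≤ M * raF p i 1 k (H2 i k E) := by
  have h1 : ∀ e, p e ≤ 1 := fun e => (hp.h1 e).trans (by norm_num)
  set H := H2 i k E with hH
  have hi := fun c => pcl_bounds hp.h0 h1 i H c
  have hk := fun c => pcl_bounds hp.h0 h1 k H c
  have hsum : ∑ c : Finset J, pcl p i H c ≤ 1 := by
    calc ∑ c : Finset J, pcl p i H c ≤ ∑ c : Finset J, ∑ j ∈ cl H c, p (i, j) :=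
          Finset.sum_le_sum (fun c _ => (hi c).2)
      _ = ∑ j ∈ Rm H, p (i, j) := ra_sum_cl H (fun j => p (i, j))
      _ ≤ ∑ j, p (i, j) :=
          Finset.sum_le_sum_of_subset_of_nonneg (Finset.subset_univ _) (fun j _ _ => hp.h0 _)
      _ ≤ 1 := hp.hr i
  have hcs := Finset.sum_mul_sq_le_sq_mul_sq (univ : Finset (Finset J))
    (fun c => Real.sqrt (pcl p i H c)) (fun c => Real.sqrt (pcl p i H c) * pcl p k H c)
  have e1 : ∑ c : Finset J, Real.sqrt (pcl p i H c) * (Real.sqrt (pcl p i H c) * pcl p k H c) =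
      rr p i k E := by
    unfold rr
    refine Finset.sum_congr rfl (fun c _ => ?_)
    rw [← mul_assoc, Real.mul_self_sqrt (hi c).1, mul_comm]
  have e2 : ∑ c : Finset J, Real.sqrt (pcl p i H c) ^ 2 = ∑ c : Finset J, pcl p i H c :=
    Finset.sum_congr rfl (fun c _ => Real.sq_sqrt (hi c).1)
  have e3 : ∑ c : Finset J, (Real.sqrt (pcl p i H c) * pcl p k H c) ^ 2 =
      ∑ c : Finset J, pcl p i H c * pcl p k H c ^ 2 := by
    refine Finset.sum_congr rfl (fun c _ => ?_)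
    rw [mul_pow, Real.sq_sqrt (hi c).1]
  rw [e1, e2, e3] at hcs
  have hnn : 0 ≤ ∑ c : Finset J, pcl p i H c * pcl p k H c ^ 2 :=
    Finset.sum_nonneg (fun c _ => mul_nonneg (hi c).1 (sq_nonneg _))
  calc rr p i k E ^ 2 ≤ (∑ c : Finset J, pcl p i H c) *
        ∑ c : Finset J, pcl p i H c * pcl p k H c ^ 2 := hcs
    _ ≤ 1 * ∑ c : Finset J, pcl p i H c * pcl p k H c ^ 2 :=
        mul_le_mul_of_nonneg_right hsum hnn
    _ = ∑ c : Finset J, pcl p i H c * pcl p k H c ^ 2 := one_mul _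
    _ ≤ ∑ c : Finset J, M * ((∑ j ∈ cl H c, p (k, j)) * (∑ j ∈ cl H c, p (i, j)) *
          ((cl H c).card : ℝ) ^ 1) := by
        refine Finset.sum_le_sum (fun c _ => ?_)
        have a1 := (hi c).1
        have a2 := (hi c).2
        have b1 := (hk c).1
        have b2 := (hk c).2
        have c1 : ∑ j ∈ cl H c, p (k, j) ≤ M * ((cl H c).card : ℝ) := by
          refine (Finset.sum_le_card_nsmul _ _ M (fun j _ => hM _)).trans (le_of_eq ?_)
          rw [nsmul_eq_mul, mul_comm]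
        have d1 : 0 ≤ ∑ j ∈ cl H c, p (k, j) := b1.trans b2
        have d2 : 0 ≤ ∑ j ∈ cl H c, p (i, j) := a1.trans a2
        have f1 : pcl p k H c ^ 2 ≤
            (∑ j ∈ cl H c, p (k, j)) * (M * ((cl H c).card : ℝ)) := by
          rw [sq]
          exact mul_le_mul b2 (b2.trans c1) b1 d1
        calc pcl p i H c * pcl p k H c ^ 2 ≤ (∑ j ∈ cl H c, p (i, j)) *
              ((∑ j ∈ cl H c, p (k, j)) * (M * ((cl H c).card : ℝ))) :=
              mul_le_mul a2 f1 (sq_nonneg _) d2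
          _ = _ := by ring
    _ = M * raF p i 1 k H := by
        unfold raF
        rw [Finset.mul_sum]

theorem sum_rr_sq {p : I × J → ℝ} (hp : Sub p (1 / 2)) {M : ℝ} (hM0 : 0 ≤ M)
    (hM : ∀ e, p e ≤ M) (i : I) :
    ∑ k ∈ univ.erase i, Ex p (fun E => rr p i k E ^ 2) ≤ 8 * BB * M := by
  have h1 : ∀ e, p e ≤ 1 := fun e => (hp.h1 e).trans (by norm_num)
  calc ∑ k ∈ univ.erase i, Ex p (fun E => rr p i k E ^ 2)
      ≤ ∑ k ∈ univ.erase i, M * Ex p (fun E => raF p i 1 k (H2 i k E)) := by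
        refine Finset.sum_le_sum (fun k _ => ?_)
        rw [← Ex_mul_left]
        exact Ex_mono hp.h0 h1 (fun E => ra_rr_sq hp hM i k E)
    _ = M * ∑ k ∈ univ.erase i, Ex p (fun E => raF p i 1 k (H2 i k E)) := by
        rw [Finset.mul_sum]
    _ ≤ M * (8 * BB) := mul_le_mul_of_nonneg_left (sum_rr_cl hp i 1 (by norm_num)) hM0
    _ = 8 * BB * M := by ring

end Pool.JN
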