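import Pool.Agent.JN.Ra

/-! Module Rb (difficulty 3). The weighted sum of squares of U_i - l over parallel pairs.

PROOF. For k ≠ i: Ex [rr (U2 - l)^2] = Ex [Sp i k E (U2 - l)^2], U2 = U p i (Rm (H2 i k E)) (Ex_Sp_mul).
 (U2 - l)^2 <= 2 (Ut_i - l)^2 + 2 (Ut_i - U2)^2.
 (a) sum_{k≠i} Sp i k E (Ut_i - l)^2 <= (Ut_i - l)^2 * [i ∈ Lm E] |cls (tr E) i| (Sp_eq_par, sum_par, par >= 0), expectation
     <= sqrt(Ex (1[i∈Lm]|cls|)^2) sqrt(Ex (Ut_i-l)^4) <= sqrt BB * sqrt (100000 BB^4 M^2) (Ex_cs_sqrt, row_cls_BB m = 2) <= 317 BB^3 M (BB>=1).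
 (b) Ut_i - U2 = sum_c (av_k(R\\c) - av_k(R)) κ^i_c (Phi_Rm with Φ = U p i for row k over H = H2 i k E, R = Rm H), and
     Sp i k E = sum_c (av_k(R\\c) - av_k(R))(av_i(R\\c) - av_i(R)); the numbers a_c = av_k(R\\c) - av_k(R) are 0/1 and at most one of them is 1
     (if row k hits R exactly within the class c; av_k(R \\ c) = 1 and av_k(R) = 0; two different labels c ≠ c' with nonempty cl would be
     impossible since cl c ∩ cl c' = ∅). Hence Sp * (Ut_i - U2)^2 = sum_c a_c b_c (κ^i_c)^2, b_c = av_i(R\\c) - av_i(R), and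
     Ex = Ex sum_c κ^k_c κ^i_c (κ^i_c)^2 <= Ex sum_c (sum_{cl c} p_kj)(sum_{cl c} p_ij)(M |cl c|)^2; sum over k: <= 8 BB M^2 (sum_rr_cl, r = 2).
     (Alternative for (b) without the 0/1 discussion: Phi_Rm holds for Φ depending on E: take Φ(S) = (U p i S - U p i R)^2.)
 Total <= 2 * 317 BB^3 M + 2 * 8 BB M^2 <= 700 BB^3 M (M <= 1).
-/

namespace Pool.JN

open Finset Pool.KS

set_option linter.unusedSectionVars false

variable {I J : Type*} [Fintype I] [Fintype J] [DecidableEq I] [DecidableEq J]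

theorem Rb_fac (p : I × J → ℝ) {i k : I} (h : k ≠ i) (G : Finset (I × J) → ℝ)
    (S S' : Finset (I × J) → Finset J) :
    Ex p (fun E => G (H2 i k E) * av i E (S (H2 i k E)) * av k E (S' (H2 i k E))) =
      Ex p (fun E => G (H2 i k E) * U p i (S (H2 i k E)) * U p k (S' (H2 i k E))) := by
  have e1 : ∀ E : Finset (I × J), H2 i k (dR k E) = H2 i k E := fun E => by
    unfold H2
    rw [dR_comm i k E, dR_dR]
  have e2 : ∀ E : Finset (I × J), H2 i k (dR i E) = H2 i k E := fun E => by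
    unfold H2
    rw [dR_dR]
  have s1 := Ex_av p i (fun E => G (H2 i k E) * av k E (S' (H2 i k E)))
    (fun E => S (H2 i k E)) (fun E => by simp only [e2, av_dR h]) (fun E => by simp only [e2])
  have s2 := Ex_av p k (fun E => G (H2 i k E) * U p i (S (H2 i k E)))
    (fun E => S' (H2 i k E)) (fun E => by simp only [e1]) (fun E => by simp only [e1])
  calc Ex p (fun E => G (H2 i k E) * av i E (S (H2 i k E)) * av k E (S' (H2 i k E)))
      = Ex p (fun E => G (H2 i k E) * av k E (S' (H2 i k E)) * av i E (S (H2 i k E))) :=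
        Ex_congr p (fun E => by ring)
    _ = Ex p (fun E => G (H2 i k E) * av k E (S' (H2 i k E)) * U p i (S (H2 i k E))) := s1
    _ = Ex p (fun E => G (H2 i k E) * U p i (S (H2 i k E)) * av k E (S' (H2 i k E))) :=
        Ex_congr p (fun E => by ring)
    _ = _ := s2

theorem Rb_prod (p : I × J → ℝ) {i k : I} (h : k ≠ i) (c : Finset J)
    (G : Finset (I × J) → ℝ) :
    Ex p (fun E => (av k E (Rm (H2 i k E) \ cl (H2 i k E) c) - av k E (Rm (H2 i k E))) *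
      ((av i E (Rm (H2 i k E) \ cl (H2 i k E) c) - av i E (Rm (H2 i k E))) *
        G (H2 i k E))) =
    Ex p (fun E => pcl p k (H2 i k E) c * (pcl p i (H2 i k E) c * G (H2 i k E))) := by
  have k1 := Rb_fac p h G (fun H => Rm H \ cl H c) (fun H => Rm H \ cl H c)
  have k2 := Rb_fac p h G (fun H => Rm H) (fun H => Rm H \ cl H c)
  have k3 := Rb_fac p h G (fun H => Rm H \ cl H c) (fun H => Rm H)
  have k4 := Rb_fac p h G (fun H => Rm H) (fun H => Rm H)
  have e1 : Ex p (fun E => (av k E (Rm (H2 i k E) \ cl (H2 i k E) c) -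
      av k E (Rm (H2 i k E))) * ((av i E (Rm (H2 i k E) \ cl (H2 i k E) c) -
        av i E (Rm (H2 i k E))) * G (H2 i k E))) =
      Ex p (fun E => (G (H2 i k E) * av i E (Rm (H2 i k E) \ cl (H2 i k E) c) *
            av k E (Rm (H2 i k E) \ cl (H2 i k E) c) -
          G (H2 i k E) * av i E (Rm (H2 i k E)) *
            av k E (Rm (H2 i k E) \ cl (H2 i k E) c)) -
        (G (H2 i k E) * av i E (Rm (H2 i k E) \ cl (H2 i k E) c) *
            av k E (Rm (H2 i k E)) -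
          G (H2 i k E) * av i E (Rm (H2 i k E)) * av k E (Rm (H2 i k E)))) :=
    Ex_congr p (fun E => by ring)
  have e2 : Ex p (fun E => pcl p k (H2 i k E) c * (pcl p i (H2 i k E) c * G (H2 i k E))) =
      Ex p (fun E => (G (H2 i k E) * U p i (Rm (H2 i k E) \ cl (H2 i k E) c) *
            U p k (Rm (H2 i k E) \ cl (H2 i k E) c) -
          G (H2 i k E) * U p i (Rm (H2 i k E)) *
            U p k (Rm (H2 i k E) \ cl (H2 i k E) c)) -
        (G (H2 i k E) * U p i (Rm (H2 i k E) \ cl (H2 i k E) c) *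
            U p k (Rm (H2 i k E)) -
          G (H2 i k E) * U p i (Rm (H2 i k E)) * U p k (Rm (H2 i k E)))) :=
    Ex_congr p (fun E => by unfold pcl; ring)
  rw [e1, e2, Ex_sub, Ex_sub, Ex_sub, Ex_sub, Ex_sub, Ex_sub]
  rw [k1, k2, k3, k4]

theorem Rb_point (p : I × J → ℝ) {i k : I} (h : k ≠ i) (E : Finset (I × J)) :
    Sp i k E * (Ut p i E - U p i (Rm (H2 i k E))) ^ 2 = ∑ c : Finset J,
      (av k E (Rm (H2 i k E) \ cl (H2 i k E) c) - av k E (Rm (H2 i k E))) *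
      ((av i E (Rm (H2 i k E) \ cl (H2 i k E) c) - av i E (Rm (H2 i k E))) *
        pcl p i (H2 i k E) c ^ 2) := by
  have h1 := Phi_Rm (fun S => (av i E S - av i E (Rm (H2 i k E))) *
    (U p i S - U p i (Rm (H2 i k E))) ^ 2) k (dR i E)
  have h2 : Sp i k E = av i E (Rm (dR i E)) - av i E (Rm (H2 i k E)) := by
    have h3 := Xi_pair1 h E
    rw [Xi_eq] at h3
    unfold H2
    linarith
  have h4 : Sp i k E * (Ut p i E - U p i (Rm (H2 i k E))) ^ 2 =
      (av i E (Rm (dR i E)) - av i E (Rm (H2 i k E))) *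
        (U p i (Rm (dR i E)) - U p i (Rm (H2 i k E))) ^ 2 := by
    rw [h2]
    rfl
  rw [h4]
  have h5 : (av i E (Rm (dR i E)) - av i E (Rm (H2 i k E))) *
        (U p i (Rm (dR i E)) - U p i (Rm (H2 i k E))) ^ 2 =
      (av i E (Rm (H2 i k E)) - av i E (Rm (H2 i k E))) *
        (U p i (Rm (H2 i k E)) - U p i (Rm (H2 i k E))) ^ 2 + ∑ c : Finset J,
      (av k (dR i E) (Rm (H2 i k E) \ cl (H2 i k E) c) -
        av k (dR i E) (Rm (H2 i k E))) *
      ((av i E (Rm (H2 i k E) \ cl (H2 i k E) c) - av i E (Rm (H2 i k E))) *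
        (U p i (Rm (H2 i k E) \ cl (H2 i k E) c) - U p i (Rm (H2 i k E))) ^ 2 -
        (av i E (Rm (H2 i k E)) - av i E (Rm (H2 i k E))) *
        (U p i (Rm (H2 i k E)) - U p i (Rm (H2 i k E))) ^ 2) := h1
  rw [h5, sub_self, zero_mul, zero_add]
  refine Finset.sum_congr rfl (fun c _ => ?_)
  rw [av_dR h, av_dR h, sub_zero]
  rfl

theorem Rb_b {p : I × J → ℝ} (hp : Sub p (1 / 2)) {M : ℝ} (hM : ∀ e, p e ≤ M)
    {i k : I} (h : k ≠ i) :
    Ex p (fun E => Sp i k E * (Ut p i E - U p i (Rm (H2 i k E))) ^ 2) ≤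
      M ^ 2 * Ex p (fun E => ∑ c : Finset J,
        (∑ j ∈ cl (H2 i k E) c, p (k, j)) * (∑ j ∈ cl (H2 i k E) c, p (i, j)) *
          ((cl (H2 i k E) c).card : ℝ) ^ 2) := by
  have h1 : ∀ e, p e ≤ 1 := hp.le_one (by norm_num)
  rw [Ex_congr p (fun E => Rb_point p h E), Ex_sum]
  have e1 : ∀ c : Finset J, Ex p (fun E =>
      (av k E (Rm (H2 i k E) \ cl (H2 i k E) c) - av k E (Rm (H2 i k E))) *
      ((av i E (Rm (H2 i k E) \ cl (H2 i k E) c) - av i E (Rm (H2 i k E))) *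
        pcl p i (H2 i k E) c ^ 2)) =
      Ex p (fun E => pcl p k (H2 i k E) c * (pcl p i (H2 i k E) c *
        pcl p i (H2 i k E) c ^ 2)) := fun c => Rb_prod p h c (fun H => pcl p i H c ^ 2)
  rw [Finset.sum_congr rfl (fun c _ => e1 c), ← Ex_sum, ← Ex_mul_left]
  refine Ex_mono hp.h0 h1 (fun E => ?_)
  rw [Finset.mul_sum]
  refine Finset.sum_le_sum (fun c _ => ?_)
  obtain ⟨a0, a1⟩ := pcl_bounds hp.h0 h1 k (H2 i k E) c
  obtain ⟨b0, b1⟩ := pcl_bounds hp.h0 h1 i (H2 i k E) c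
  have b2 : pcl p i (H2 i k E) c ≤ M * ((cl (H2 i k E) c).card : ℝ) := by
    refine b1.trans ?_
    refine (Finset.sum_le_sum (fun j _ => hM (i, j))).trans (le_of_eq ?_)
    rw [Finset.sum_const, nsmul_eq_mul, mul_comm]
  have b3 : pcl p i (H2 i k E) c ^ 2 ≤ (M * ((cl (H2 i k E) c).card : ℝ)) ^ 2 :=
    pow_le_pow_left₀ b0 b2 2
  have b4 : 0 ≤ ∑ j ∈ cl (H2 i k E) c, p (i, j) := b0.trans b1
  have b5 : 0 ≤ ∑ j ∈ cl (H2 i k E) c, p (k, j) := a0.trans a1
  calc pcl p k (H2 i k E) c * (pcl p i (H2 i k E) c * pcl p i (H2 i k E) c ^ 2)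
      ≤ (∑ j ∈ cl (H2 i k E) c, p (k, j)) * ((∑ j ∈ cl (H2 i k E) c, p (i, j)) *
        (M * ((cl (H2 i k E) c).card : ℝ)) ^ 2) :=
        mul_le_mul a1 (mul_le_mul b1 b3 (sq_nonneg _) b4) (mul_nonneg b0 (sq_nonneg _)) b5
    _ = _ := by ring

theorem Rb_a {p : I × J → ℝ} (hp : Sub p (1 / 2)) {M : ℝ}
    (hM0 : 0 ≤ M) (l : ℝ) (i : I)
    (h4 : Ex p (fun E => (Ut p i E - l) ^ 4) ≤ 100000 * BB ^ 4 * M ^ 2) :
    ∑ k ∈ univ.erase i, Ex p (fun E => Sp i k E * (Ut p i E - l) ^ 2) ≤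
      317 * BB ^ 3 * M := by
  have h1 : ∀ e, p e ≤ 1 := hp.le_one (by norm_num)
  have hB := BB_one
  rw [← Ex_sum]
  have s1 : ∀ E : Finset (I × J), ∑ k ∈ univ.erase i, Sp i k E * (Ut p i E - l) ^ 2 ≤
      (if i ∈ Lm E then ((cls (tr E) i).card : ℝ) else 0) * (Ut p i E - l) ^ 2 := by
    intro E
    rw [← sum_par, Finset.sum_mul]
    have e1 : ∀ k ∈ univ.erase i, Sp i k E * (Ut p i E - l) ^ 2 =
        par i k E * (Ut p i E - l) ^ 2 := by
      intro k hk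
      rw [Sp_eq_par (Finset.ne_of_mem_erase hk)]
    rw [Finset.sum_congr rfl e1]
    refine Finset.sum_le_sum_of_subset_of_nonneg (Finset.erase_subset _ _) ?_
    intro k _ _
    refine mul_nonneg ?_ (sq_nonneg _)
    unfold par
    split_ifs <;> norm_num
  refine (Ex_mono hp.h0 h1 s1).trans ?_
  refine (Ex_cs_sqrt hp.h0 h1 _ _).trans ?_
  have s2 : Ex p (fun E => (if i ∈ Lm E then ((cls (tr E) i).card : ℝ) else 0) ^ 2) ≤ BB := by
    have e2 : Ex p (fun E => (if i ∈ Lm E then ((cls (tr E) i).card : ℝ) else 0) ^ 2) =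
        Ex p (fun E => if i ∈ Lm E then ((cls (tr E) i).card : ℝ) ^ 2 else 0) :=
      Ex_congr p (fun E => by split_ifs <;> norm_num)
    rw [e2]
    exact row_cls_BB hp 2 (by norm_num) (by norm_num) i
  have s3 : Ex p (fun E => ((Ut p i E - l) ^ 2) ^ 2) ≤ 100000 * BB ^ 4 * M ^ 2 := by
    refine le_trans (le_of_eq ?_) h4
    exact Ex_congr p (fun E => by ring)
  have hBB0 : 0 ≤ BB := by linarith
  calc _ ≤ Real.sqrt BB * Real.sqrt (100000 * BB ^ 4 * M ^ 2) :=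
        mul_le_mul (Real.sqrt_le_sqrt s2) (Real.sqrt_le_sqrt s3) (Real.sqrt_nonneg _)
          (Real.sqrt_nonneg _)
    _ = Real.sqrt (BB * (100000 * BB ^ 4 * M ^ 2)) := (Real.sqrt_mul hBB0 _).symm
    _ ≤ Real.sqrt ((317 * BB ^ 3 * M) ^ 2) := by
        refine Real.sqrt_le_sqrt ?_
        have e3 : BB ^ 5 * M ^ 2 ≤ BB ^ 6 * M ^ 2 := by
          refine mul_le_mul_of_nonneg_right ?_ (sq_nonneg _)
          exact pow_le_pow_right₀ hB (by norm_num)
        have e4 : 0 ≤ BB ^ 6 * M ^ 2 := by positivity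
        nlinarith
    _ = _ := Real.sqrt_sq (by positivity)

theorem sum_rr_U {p : I × J → ℝ} (hp : Sub p (1 / 2)) {M : ℝ} (hM : ∀ e, p e ≤ M)
    (hM0 : 0 ≤ M) (hM1 : M ≤ 1) (l : ℝ) (i : I)
    (h4 : Ex p (fun E => (Ut p i E - l) ^ 4) ≤ 100000 * BB ^ 4 * M ^ 2) :
    ∑ k ∈ univ.erase i, Ex p (fun E => rr p i k E * (U p i (Rm (H2 i k E)) - l) ^ 2) ≤
      700 * BB ^ 3 * M := by
  have h1 : ∀ e, p e ≤ 1 := hp.le_one (by norm_num)
  have hB := BB_one
  have hBB0 : 0 ≤ BB := by linarith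
  have key : ∀ k ∈ univ.erase i,
      Ex p (fun E => rr p i k E * (U p i (Rm (H2 i k E)) - l) ^ 2) ≤
      2 * Ex p (fun E => Sp i k E * (Ut p i E - l) ^ 2) +
      2 * (M ^ 2 * Ex p (fun E => ∑ c : Finset J,
        (∑ j ∈ cl (H2 i k E) c, p (k, j)) * (∑ j ∈ cl (H2 i k E) c, p (i, j)) *
          ((cl (H2 i k E) c).card : ℝ) ^ 2)) := by
    intro k hk
    have hki : k ≠ i := Finset.ne_of_mem_erase hk
    have e1 := Ex_Sp_mul p hki (fun H => (U p i (Rm H) - l) ^ 2)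
    have e2 : Ex p (fun E => rr p i k E * (U p i (Rm (H2 i k E)) - l) ^ 2) =
        Ex p (fun E => Sp i k E * (U p i (Rm (H2 i k E)) - l) ^ 2) := e1.symm
    rw [e2]
    have e3 : Ex p (fun E => Sp i k E * (U p i (Rm (H2 i k E)) - l) ^ 2) ≤
        Ex p (fun E => 2 * (Sp i k E * (Ut p i E - l) ^ 2) +
          2 * (Sp i k E * (Ut p i E - U p i (Rm (H2 i k E))) ^ 2)) := by
      refine Ex_mono hp.h0 h1 (fun E => ?_)
      have hS : 0 ≤ Sp i k E := by
        rw [Sp_eq_par hki]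
        unfold par
        split_ifs <;> norm_num
      have h5 : (U p i (Rm (H2 i k E)) - l) ^ 2 ≤ 2 * (Ut p i E - l) ^ 2 +
          2 * (Ut p i E - U p i (Rm (H2 i k E))) ^ 2 := by
        nlinarith [sq_nonneg ((Ut p i E - l) + (Ut p i E - U p i (Rm (H2 i k E))))]
      calc Sp i k E * (U p i (Rm (H2 i k E)) - l) ^ 2
          ≤ Sp i k E * (2 * (Ut p i E - l) ^ 2 +
            2 * (Ut p i E - U p i (Rm (H2 i k E))) ^ 2) := mul_le_mul_of_nonneg_left h5 hS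
        _ = _ := by ring
    rw [Ex_add, Ex_mul_left, Ex_mul_left] at e3
    refine e3.trans ?_
    have e4 := Rb_b hp hM hki
    linarith
  refine (Finset.sum_le_sum key).trans ?_
  rw [Finset.sum_add_distrib, ← Finset.mul_sum, ← Finset.mul_sum, ← Finset.mul_sum]
  have a1 := Rb_a hp hM0 l i h4
  have a2 := sum_rr_cl hp i 2 (le_refl 2)
  have a3 : M ^ 2 * ∑ k ∈ univ.erase i, Ex p (fun E => ∑ c : Finset J,
      (∑ j ∈ cl (H2 i k E) c, p (k, j)) * (∑ j ∈ cl (H2 i k E) c, p (i, j)) *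
        ((cl (H2 i k E) c).card : ℝ) ^ 2) ≤ M ^ 2 * (8 * BB) :=
    mul_le_mul_of_nonneg_left a2 (sq_nonneg _)
  have a4 : M ^ 2 * (8 * BB) ≤ 8 * BB ^ 3 * M := by
    have h5 : M ^ 2 ≤ M := by nlinarith
    have h6 : BB ≤ BB ^ 3 := le_self_pow₀ hB (by norm_num)
    calc M ^ 2 * (8 * BB) ≤ M * (8 * BB ^ 3) :=
          mul_le_mul h5 (by linarith) (by linarith) hM0
      _ = _ := by ring
  have a5 : 0 ≤ BB ^ 3 * M := by positivity
  linarith

end Pool.JN
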