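import Pool.Agent.JN.D0

/-! Module Tc (difficulty 3). The class term of the averaging formula.

PROOF. One class C = cl H c ⊆ R = Rm H: ka a H c = Ua a (R \ C) (1 - A), A = prod_C (1-a_j); similarly B for b, G for m = (a+b)/2.
 Ua a (R\C) Ua b (R\C) <= (Ua m (R\C))^2 <= 1 ((1-a)(1-b) <= (1-m)^2). (1-A)(1-B) <= (1 - sqrt(AB))^2 (A + B >= 2 sqrt(AB)).
 sqrt(AB) = prod_C sqrt((1-m)^2 - D^2) = G prod_C sqrt(1-δ_j^2) >= G (1 - sum_C δ_j^2) >= G - sum_C δ_j^2, δ_j = D_j/(1-m_j), D = (a-b)/2.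
 So with σ = sum_C δ_j^2 (<= 1): ka a ka b <= (Ua m (R\C))^2 (1 - G + σ)^2 <= ka m ^2 + 2 (1-G) σ + σ^2, 1 - G <= sum_C m_j <= M |C|,
 σ <= |C| (.51 M)^2 <= .01 M |C|, σ <= 1.03 sum_C D_j^2. Hence ka m^2 - ka a ka b >= - 3 M |C| sum_C D_j^2.
 Sum over c with sum_classes (w = D^2, G(S) = |S|).
-/

namespace Pool.JN

open Finset Pool.KS

set_option linter.unusedSectionVars false

variable {I J : Type*} [Fintype I] [Fintype J] [DecidableEq I] [DecidableEq J]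

theorem tc_prod (S : Finset J) (f : J → ℝ) (h0 : ∀ j, 0 ≤ f j) (h1 : ∀ j, f j ≤ 1) :
    1 - ∑ j ∈ S, f j ≤ ∏ j ∈ S, (1 - f j) ∧ 0 ≤ ∏ j ∈ S, (1 - f j) ∧ ∏ j ∈ S, (1 - f j) ≤ 1 := by
  induction S using Finset.induction_on with
  | empty => simp
  | insert x S hx ih =>
    rw [Finset.prod_insert hx, Finset.sum_insert hx]
    obtain ⟨a, b, c⟩ := ih
    have := h0 x
    have := h1 x
    have h3 : 0 ≤ ∑ j ∈ S, f j := Finset.sum_nonneg fun j _ => h0 j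
    refine ⟨by nlinarith, mul_nonneg (by linarith) b, ?_⟩
    nlinarith

theorem tc_scalar {A B G s : ℝ} (hA0 : 0 ≤ A) (hA1 : A ≤ 1) (hB0 : 0 ≤ B) (hB1 : B ≤ 1) (hG0 : 0 ≤ G)
    (hG1 : G ≤ 1) (hs0 : 0 ≤ s) (hAB : G ^ 2 * (1 - s) ≤ A * B) :
    (1 - A) * (1 - B) ≤ (1 - G + s) ^ 2 := by
  rcases le_or_gt (G - s) 0 with ht | ht
  · have h1 : (1 - A) * (1 - B) ≤ 1 := by nlinarith
    nlinarith
  · have hs1 : s ≤ 1 := by linarith
    set r := Real.sqrt (A * B) with hr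
    have hr0 : 0 ≤ r := Real.sqrt_nonneg _
    have hr2 : r ^ 2 = A * B := Real.sq_sqrt (mul_nonneg hA0 hB0)
    have hrt : G - s ≤ r := by
      apply Real.le_sqrt_of_sq_le
      have h2 : (G - s) ≤ G * (1 - s) := by nlinarith
      have h3 : (G - s) ^ 2 ≤ (G * (1 - s)) ^ 2 := pow_le_pow_left₀ ht.le h2 2
      have h4 : (G * (1 - s)) ^ 2 ≤ G ^ 2 * (1 - s) := by
        have : (1 - s) ^ 2 ≤ 1 - s := by nlinarith
        have h5 : 0 ≤ G ^ 2 := sq_nonneg G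
        nlinarith
      linarith
    have hr1 : r ≤ 1 := Real.sqrt_le_one.2 (by nlinarith)
    have h6 : 2 * r ≤ A + B := by
      have : (2 * r) ^ 2 ≤ (A + B) ^ 2 := by nlinarith [sq_nonneg (A - B)]
      exact (sq_le_sq₀ (by positivity) (by linarith)).1 this
    have h7 : (1 - A) * (1 - B) ≤ (1 - r) ^ 2 := by nlinarith
    have h8 : (1 - r) ^ 2 ≤ (1 - G + s) ^ 2 := by
      apply pow_le_pow_left₀ (by linarith)
      linarith
    linarith

theorem tc_one (a b : J → ℝ) {M : ℝ} (hM0 : 0 ≤ M) (hM : M ≤ 1 / 100)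
    (ha0 : ∀ j, 0 ≤ a j) (hb0 : ∀ j, 0 ≤ b j) (haM : ∀ j, a j ≤ M) (hbM : ∀ j, b j ≤ M)
    (R C : Finset J) (hC : C ⊆ R) :
    -(3 * M * ((∑ j ∈ C, ((a j - b j) / 2) ^ 2) * (C.card : ℝ))) ≤
      (Ua (fun j => (a j + b j) / 2) (R \ C) - Ua (fun j => (a j + b j) / 2) R) ^ 2 -
        (Ua a (R \ C) - Ua a R) * (Ua b (R \ C) - Ua b R) := by
  have hsp : ∀ f : J → ℝ, Ua f (R \ C) - Ua f R = Ua f (R \ C) * (1 - ∏ j ∈ C, (1 - f j)) := by
    intro f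
    unfold Ua
    rw [← Finset.prod_sdiff hC]
    ring
  rw [hsp, hsp, hsp]
  set m : J → ℝ := fun j => (a j + b j) / 2 with hm
  have hm0 : ∀ j, 0 ≤ m j := fun j => by
    have := ha0 j
    have := hb0 j
    simp only [hm]
    linarith
  have hmM : ∀ j, m j ≤ M := fun j => by
    have := haM j
    have := hbM j
    simp only [hm]
    linarith
  have ha1 : ∀ j, a j ≤ 1 := fun j => by linarith [haM j]
  have hb1 : ∀ j, b j ≤ 1 := fun j => by linarith [hbM j]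
  have hm1 : ∀ j, m j ≤ 1 := fun j => by linarith [hmM j]
  obtain ⟨a1, a2, a3⟩ := tc_prod C a ha0 ha1
  obtain ⟨b1, b2, b3⟩ := tc_prod C b hb0 hb1
  obtain ⟨g1, g2, g3⟩ := tc_prod C m hm0 hm1
  obtain ⟨-, xa2, xa3⟩ := tc_prod (R \ C) a ha0 ha1
  obtain ⟨-, xb2, xb3⟩ := tc_prod (R \ C) b hb0 hb1
  obtain ⟨-, xm2, xm3⟩ := tc_prod (R \ C) m hm0 hm1
  change 0 ≤ Ua a (R \ C) at xa2
  change Ua a (R \ C) ≤ 1 at xa3
  change 0 ≤ Ua b (R \ C) at xb2
  change Ua b (R \ C) ≤ 1 at xb3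
  change 0 ≤ Ua m (R \ C) at xm2
  change Ua m (R \ C) ≤ 1 at xm3
  set A := ∏ j ∈ C, (1 - a j) with hA
  set B := ∏ j ∈ C, (1 - b j) with hB
  set G := ∏ j ∈ C, (1 - m j) with hG
  set de : J → ℝ := fun j => (((a j - b j) / 2) / (1 - m j)) ^ 2 with hde
  have hde0 : ∀ j, 0 ≤ de j := fun j => sq_nonneg _
  have hD : ∀ j, ((a j - b j) / 2) ^ 2 ≤ (M / 2) ^ 2 := fun j => by
    have h1 : |(a j - b j) / 2| ≤ M / 2 := by
      rw [abs_le]
      constructor <;> linarith [ha0 j, hb0 j, haM j, hbM j]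
    have h2 := pow_le_pow_left₀ (abs_nonneg _) h1 2
    rwa [sq_abs] at h2
  have hde1 : ∀ j, de j ≤ 103 / 100 * ((a j - b j) / 2) ^ 2 := fun j => by
    have h1 : 0 < 1 - m j := by linarith [hmM j]
    have h2 : (99 / 100 : ℝ) ^ 2 ≤ (1 - m j) ^ 2 := pow_le_pow_left₀ (by norm_num) (by linarith [hmM j]) 2
    simp only [hde]
    rw [div_pow, div_le_iff₀ (by positivity)]
    have h3 := sq_nonneg ((a j - b j) / 2)
    nlinarith
  have hdeM : ∀ j, de j ≤ 1 / 100 * M := fun j => by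
    have h1 := hde1 j
    have h2 := hD j
    nlinarith
  have hde2 : ∀ j, de j ≤ 1 := fun j => by
    have := hdeM j
    linarith
  obtain ⟨s1, s2, s3⟩ := tc_prod C de hde0 hde2
  set s := ∑ j ∈ C, de j with hs
  have hs0 : 0 ≤ s := Finset.sum_nonneg fun j _ => hde0 j
  have hABe : A * B = G ^ 2 * ∏ j ∈ C, (1 - de j) := by
    rw [hA, hB, hG, ← Finset.prod_mul_distrib, ← Finset.prod_pow, ← Finset.prod_mul_distrib]
    refine Finset.prod_congr rfl fun j _ => ?_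
    have h1 : (1 - m j) ≠ 0 := by
      have := hmM j
      intro h
      linarith
    simp only [hde]
    rw [div_pow]
    have h2 : (1 - m j) ^ 2 * (1 - ((a j - b j) / 2) ^ 2 / (1 - m j) ^ 2) =
        (1 - m j) ^ 2 - ((a j - b j) / 2) ^ 2 := by
      field_simp
    rw [h2]
    simp only [hm]
    ring
  have hAB : G ^ 2 * (1 - s) ≤ A * B := by
    rw [hABe]
    exact mul_le_mul_of_nonneg_left s1 (sq_nonneg G)
  have hkey := tc_scalar a2 a3 b2 b3 g2 g3 hs0 hAB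
  have hXY : Ua a (R \ C) * Ua b (R \ C) ≤ Ua m (R \ C) ^ 2 := by
    unfold Ua
    rw [← Finset.prod_mul_distrib, ← Finset.prod_pow]
    refine Finset.prod_le_prod (fun j _ => mul_nonneg (by linarith [ha1 j]) (by linarith [hb1 j])) fun j _ => ?_
    simp only [hm]
    nlinarith [sq_nonneg (a j - b j)]
  have hcard : ∑ j ∈ C, m j ≤ M * C.card := by
    calc ∑ j ∈ C, m j ≤ ∑ _j ∈ C, M := Finset.sum_le_sum fun j _ => hmM j
      _ = M * C.card := by rw [Finset.sum_const, nsmul_eq_mul, mul_comm]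
  have hscard : s ≤ 1 / 100 * M * C.card := by
    calc s ≤ ∑ _j ∈ C, (1 / 100 * M) := Finset.sum_le_sum fun j _ => hdeM j
      _ = 1 / 100 * M * C.card := by rw [Finset.sum_const, nsmul_eq_mul, mul_comm]
  set W := ∑ j ∈ C, ((a j - b j) / 2) ^ 2 with hW
  have hW0 : 0 ≤ W := Finset.sum_nonneg fun j _ => sq_nonneg _
  have hsW : s ≤ 103 / 100 * W := by
    rw [hs, hW, Finset.mul_sum]
    exact Finset.sum_le_sum fun j _ => hde1 j
  have hc0 : (0 : ℝ) ≤ C.card := Nat.cast_nonneg _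
  have h1G : 1 - G ≤ M * C.card := by linarith
  have h0G : 0 ≤ 1 - G := by linarith
  have hM2 : (0 : ℝ) ≤ M * C.card := by positivity
  have e1 : 2 * (1 - G) * s + s ^ 2 ≤ 3 * M * (W * C.card) := by
    have q1 : (1 - G) * s ≤ (M * C.card) * s := mul_le_mul_of_nonneg_right h1G hs0
    have q2 : s * s ≤ (1 / 100 * M * C.card) * s := mul_le_mul_of_nonneg_right hscard hs0
    have q3 : (M * C.card) * s ≤ (M * C.card) * (103 / 100 * W) := mul_le_mul_of_nonneg_left hsW hM2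
    have q4 : 0 ≤ (M * C.card) * W := mul_nonneg hM2 hW0
    nlinarith
  have e2 : Ua a (R \ C) * (1 - A) * (Ua b (R \ C) * (1 - B)) ≤ Ua m (R \ C) ^ 2 * (1 - G + s) ^ 2 := by
    calc _ = (Ua a (R \ C) * Ua b (R \ C)) * ((1 - A) * (1 - B)) := by ring
      _ ≤ Ua m (R \ C) ^ 2 * (1 - G + s) ^ 2 :=
        mul_le_mul hXY hkey (mul_nonneg (by linarith) (by linarith)) (sq_nonneg _)
  have e3 : Ua m (R \ C) ^ 2 ≤ 1 := pow_le_one₀ xm2 xm3
  have e4 : Ua m (R \ C) ^ 2 * (2 * (1 - G) * s + s ^ 2) ≤ 1 * (2 * (1 - G) * s + s ^ 2) := by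
    apply mul_le_mul_of_nonneg_right e3
    positivity
  nlinarith

theorem class_term (a b : J → ℝ) {M : ℝ} (hM0 : 0 ≤ M) (hM : M ≤ 1 / 100)
    (ha0 : ∀ j, 0 ≤ a j) (hb0 : ∀ j, 0 ≤ b j) (haM : ∀ j, a j ≤ M) (hbM : ∀ j, b j ≤ M)
    (H : Finset (I × J)) :
    -(3 * M * ∑ j ∈ Rm H, ((a j - b j) / 2) ^ 2 * ((cls H j).card : ℝ)) ≤
      ∑ c : Finset J, (ka (fun j => (a j + b j) / 2) H c ^ 2 - ka a H c * ka b H c) := by
  have h1 := sum_classes H (fun j => ((a j - b j) / 2) ^ 2) (fun S => (S.card : ℝ))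
  rw [← h1, Finset.mul_sum, ← Finset.sum_neg_distrib]
  refine Finset.sum_le_sum fun c _ => ?_
  have hsub : cl H c ⊆ Rm H := fun j hj => (mem_cl.mp hj).1
  exact tc_one a b hM0 hM ha0 hb0 haM hbM (Rm H) (cl H c) hsub

end Pool.JN
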