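import Pool.Agent.JN.D0

/-! Module Ti (difficulty 2). Exact change of F when two rows are averaged.

PROOF. F_two: nu E = nu (dR i E) + 1 - Xi i E and nu (dR i E) = nu (dR k (dR i E)) + 1 - Xi k (dR i E) (Xi = 1 iff nu does not drop;
 nu_Xi in KX/Upper.lean may be used). Ex Xi_i = Ex (U p i (Rm H2) + rr) (Ex_Xi2, rr), Ex (Xi k (dR i E)) = Ex U p k (Rm (H2 i k E)) (Xi_eq, av_dR, Ex_av).
 F_diff: apply F_two to p and to q = av2 p i k (q has equal rows i, k = m). Both p and q agree outside the rows i, k, so for every G: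
   Ex p (fun E => G (H2 i k E)) = Ex q (fun E => G (H2 i k E)) (Ex_zr twice: both equal Ex (zr (zr p i) k) G, and zr (zr p i) k = zr (zr q i) k).
   U q i S = Ua m S, pcl q i H c = ka m H c, etc.
-/

namespace Pool.JN

open Finset Pool.KS

set_option linter.unusedSectionVars false

variable {I J : Type*} [Fintype I] [Fintype J] [DecidableEq I] [DecidableEq J]

theorem F_two (p : I × J → ℝ) {i k : I} (h : k ≠ i) :
    Ex p (fun E => (nu E : ℝ)) = Ex p (fun E => (nu (H2 i k E) : ℝ) + 2 -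
      (U p i (Rm (H2 i k E)) + U p k (Rm (H2 i k E)) + rr p i k E)) := by
  have h1 : ∀ E : Finset (I × J), (nu E : ℝ) =
      ((nu (H2 i k E) : ℝ) + 2 - Xi k (dR i E)) - Xi i E := by
    intro E
    rw [KX.nu_Xi i E, KX.nu_Xi k (dR i E)]
    unfold H2
    ring
  have h2 : Ex p (fun E => Xi k (dR i E)) = Ex p (fun E => U p k (Rm (H2 i k E))) := by
    have e1 : ∀ E : Finset (I × J), Xi k (dR i E) = 1 * av k E (Rm (H2 i k E)) := by
      intro E
      rw [Xi_eq, av_dR h, one_mul]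
      rfl
    rw [Ex_congr p e1, Ex_av p k (fun _ => 1) (fun E => Rm (H2 i k E)) (fun _ => rfl)
      (fun E => by unfold H2; rw [dR_comm i k E, dR_dR])]
    exact Ex_congr p (fun E => one_mul _)
  have h3 : Ex p (Xi i) = Ex p (fun E => U p i (Rm (H2 i k E)) + rr p i k E) :=
    Ex_Xi2 p h
  rw [Ex_congr p h1, Ex_sub, h3]
  have h4 : Ex p (fun E => (nu (H2 i k E) : ℝ) + 2 - Xi k (dR i E)) =
      Ex p (fun E => (nu (H2 i k E) : ℝ) + 2 - U p k (Rm (H2 i k E))) := by
    rw [Ex_sub, h2, ← Ex_sub]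
  rw [h4, ← Ex_sub]
  refine Ex_congr p (fun E => by ring)

theorem F_diff (p : I × J → ℝ) {i k : I} (h : k ≠ i) :
    Ex p (fun E => (nu E : ℝ)) - Ex (av2 p i k) (fun E => (nu E : ℝ)) =
      Ex (zr (zr p i) k) (fun E =>
        (2 * Ua (fun j => (p (i, j) + p (k, j)) / 2) (Rm E) - Ua (fun j => p (i, j)) (Rm E) -
          Ua (fun j => p (k, j)) (Rm E)) +
        ∑ c : Finset J, (ka (fun j => (p (i, j) + p (k, j)) / 2) E c ^ 2 -
          ka (fun j => p (i, j)) E c * ka (fun j => p (k, j)) E c)) := by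
  have hz : ∀ (q : I × J → ℝ) (G : Finset (I × J) → ℝ),
      Ex q (fun E => G (H2 i k E)) = Ex (zr (zr q i) k) G := by
    intro q G
    have e1 : Ex q (fun E => G (H2 i k E)) = Ex (zr q i) (fun E => G (dR k E)) :=
      Ex_zr q i (fun E => G (dR k E))
    rw [e1, Ex_zr (zr q i) k G]
  have hq : zr (zr (av2 p i k) i) k = zr (zr p i) k := by
    funext e
    unfold zr av2
    by_cases h1 : e.1 = k
    · rw [if_pos h1, if_pos h1]
    · rw [if_neg h1, if_neg h1]
      by_cases h2 : e.1 = i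
      · rw [if_pos h2, if_pos h2]
      · rw [if_neg h2, if_neg h2, if_neg (not_or.mpr ⟨h2, h1⟩)]
  have f1 := F_two p h
  have f2 := F_two (av2 p i k) h
  have g1 := hz p (fun H => (nu H : ℝ) + 2 -
      (Ua (fun j => p (i, j)) (Rm H) + Ua (fun j => p (k, j)) (Rm H) +
        ∑ c : Finset J, ka (fun j => p (k, j)) H c * ka (fun j => p (i, j)) H c))
  have g2 := hz (av2 p i k) (fun H => (nu H : ℝ) + 2 -
      (Ua (fun j => (p (i, j) + p (k, j)) / 2) (Rm H) +
        Ua (fun j => (p (i, j) + p (k, j)) / 2) (Rm H) +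
        ∑ c : Finset J, ka (fun j => (p (i, j) + p (k, j)) / 2) H c *
          ka (fun j => (p (i, j) + p (k, j)) / 2) H c))
  have r1 : (fun j => av2 p i k (i, j)) = fun j => (p (i, j) + p (k, j)) / 2 := by
    funext j; unfold av2; rw [if_pos (Or.inl rfl)]
  have r2 : (fun j => av2 p i k (k, j)) = fun j => (p (i, j) + p (k, j)) / 2 := by
    funext j; unfold av2; rw [if_pos (Or.inr rfl)]
  have u1 : ∀ S, U (av2 p i k) i S = Ua (fun j => (p (i, j) + p (k, j)) / 2) S := by
    intro S; rw [← r1]; rfl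
  have u2 : ∀ S, U (av2 p i k) k S = Ua (fun j => (p (i, j) + p (k, j)) / 2) S := by
    intro S; rw [← r2]; rfl
  have f1' : Ex p (fun E => (nu E : ℝ)) = Ex (zr (zr p i) k) (fun H => (nu H : ℝ) + 2 -
      (Ua (fun j => p (i, j)) (Rm H) + Ua (fun j => p (k, j)) (Rm H) +
        ∑ c : Finset J, ka (fun j => p (k, j)) H c * ka (fun j => p (i, j)) H c)) := by
    rw [f1, ← g1]
    rfl
  have f2' : Ex (av2 p i k) (fun E => (nu E : ℝ)) =
      Ex (zr (zr p i) k) (fun H => (nu H : ℝ) + 2 -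
      (Ua (fun j => (p (i, j) + p (k, j)) / 2) (Rm H) +
        Ua (fun j => (p (i, j) + p (k, j)) / 2) (Rm H) +
        ∑ c : Finset J, ka (fun j => (p (i, j) + p (k, j)) / 2) H c *
          ka (fun j => (p (i, j) + p (k, j)) / 2) H c)) := by
    rw [f2, ← hq, ← g2]
    refine Ex_congr _ (fun E => ?_)
    rw [rr_eq, u1, u2, r1, r2]
  rw [f1', f2', ← Ex_sub]
  refine Ex_congr _ (fun E => ?_)
  rw [Finset.sum_sub_distrib]
  have s1 : ∑ c : Finset J, ka (fun j => (p (i, j) + p (k, j)) / 2) E c ^ 2 =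
      ∑ c : Finset J, ka (fun j => (p (i, j) + p (k, j)) / 2) E c *
        ka (fun j => (p (i, j) + p (k, j)) / 2) E c :=
    Finset.sum_congr rfl (fun c _ => by ring)
  have s2 : ∑ c : Finset J, ka (fun j => p (i, j)) E c * ka (fun j => p (k, j)) E c =
      ∑ c : Finset J, ka (fun j => p (k, j)) E c * ka (fun j => p (i, j)) E c :=
    Finset.sum_congr rfl (fun c _ => by ring)
  rw [s1, s2]
  ring

end Pool.JN
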