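import Pool.Agent.JN.Mn
import Pool.Agent.JN.L2

/-! Module Tl (difficulty 3). Estimates in an environment with all columns active (T = univ).

m a probability vector with entries <= M; q the environment matrix. t(E) = LR m E - l.
 (1) E t = sum_j m_j (y_j - l), |E t| <= 20 BB M (mean_sup, T = univ). Var <= BB nsq m <= BB M (var_LR). So Ex t^2 <= BB M + 400 BB^2 M^2 <= 2 BB M.
   |Ua m (Rm E) - l| <= |t| + nsq m <= |t| + M (as in Tm (5): exp(-LR m) - nsq m <= Ua m (Rm E) <= exp(-LR m)), Ex (Ua m - l)^2 <= 2*2BB M + 2M^2 <= 5 BB M.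
 (2) Um_low: Ex Ua m * sum_{R} w_j = sum_j w_j Ex (Ua m * Yj_j) and Ex Ua m Yj_j >= l Ex Yj_j - Ex |Ua m - l| >= l (l - 20 BB M) - sqrt(5 BB M)
    >= l^2 - 10 BB sqrt M (M <= sqrt M/10^5).
 (3) s(E) = LR δ E for a vector δ with nsq δ <= (11/10) N and |sum_j δ_j| <= 2 sqrt(M) sqrt N:
    s = sum δ_j (Yj_j - l) + l sum δ_j. Ex s^2 <= ((N' /2)^{1/2} + l * 2 sqrt M sqrt N)^2 with N' = nsq δ <= (1 + 3M) N if this sharper bound is assumed
    (hypothesis hN); the hypothesis hv is the variance lemma v_lemma_col. So Ex s^2 <= (1/2 + 4 sqrt M) N.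
    Ex s^4 <= 8 Ex (s - Ex s)^4 + 8 (Ex s)^4 <= 800 BB^2 N'^2 + 8 (Ex s)^4, |Ex s| <= (Ex s^2)^{1/2} <= sqrt N, so Ex s^4 <= 1000 BB^2 N^2.
    Ex Ua m (s^2 + s^4/10) <= l Ex s^2 + Ex |Ua m - l| s^2 + Ex s^4/10 <= l (1/2 + 4 sqrt M) N + sqrt(5 BB M) sqrt(1000 BB^2) N + 100 BB^2 N^2;
    N <= M (hypothesis hNM): <= (l/2 + 300 BB^2 sqrt M) N.
-/

namespace Pool.JN

open Finset Pool.KS

set_option linter.unusedSectionVars false

variable {I J : Type*} [Fintype I] [Fintype J] [DecidableEq I] [DecidableEq J]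

theorem Tl_r {M K : ℝ} (h : Small M K) (hM : 0 ≤ M) (hK : 0 ≤ K) :
    100000 * (BB ^ 3 * Real.sqrt M) ≤ 1 := by
  unfold Small at h
  have hB := BB_one
  have hB3 : 0 ≤ BB ^ 3 := by positivity
  have h4 : M ≤ M * (K + 1) := by nlinarith
  have h5 : Real.sqrt M ≤ Real.sqrt (M * (K + 1)) := Real.sqrt_le_sqrt h4
  have h6 : BB ^ 3 * Real.sqrt M ≤ BB ^ 3 * Real.sqrt (M * (K + 1)) :=
    mul_le_mul_of_nonneg_left h5 hB3
  linarith

theorem Tl_r1 {M K : ℝ} (h : Small M K) (hM : 0 ≤ M) (hK : 0 ≤ K) :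
    100000 * (BB * Real.sqrt M) ≤ 1 := by
  have h1 := Tl_r h hM hK
  have hB := BB_one
  have h2 : BB ≤ BB ^ 3 := by nlinarith [sq_nonneg BB, mul_self_nonneg (BB - 1)]
  have h3 := mul_le_mul_of_nonneg_right h2 (Real.sqrt_nonneg M)
  linarith

theorem Tl_r0 {M K : ℝ} (h : Small M K) (hM : 0 ≤ M) (hK : 0 ≤ K) :
    100000 * Real.sqrt M ≤ 1 := by
  have h1 := Tl_r1 h hM hK
  have hB := BB_one
  have h3 := mul_le_mul_of_nonneg_right hB (Real.sqrt_nonneg M)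
  linarith

theorem Tl_l {l : ℝ} (hl : Real.exp (-l) = l) : 0 < l ∧ l < 1 := by
  have h1 : 0 < l := by
    rw [← hl]
    exact Real.exp_pos _
  refine ⟨h1, ?_⟩
  have h2 : Real.exp (-l) < Real.exp 0 := Real.exp_lt_exp.mpr (by linarith)
  rw [Real.exp_zero] at h2
  linarith

omit [DecidableEq J] in
theorem Tl_nsq {m : J → ℝ} {M : ℝ} (m0 : ∀ j, 0 ≤ m j) (mM : ∀ j, m j ≤ M)
    (msum : ∑ j, m j = 1) : nsq m ≤ M := by
  unfold nsq
  calc ∑ j, m j ^ 2 ≤ ∑ j, M * m j := Finset.sum_le_sum (fun j _ => by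
        rw [sq]
        exact mul_le_mul_of_nonneg_right (mM j) (m0 j))
    _ = M := by rw [← Finset.mul_sum, msum, mul_one]

omit [Fintype J] [DecidableEq J] in
theorem Tl_Ua01 {m : J → ℝ} (m0 : ∀ j, 0 ≤ m j) (m1 : ∀ j, m j ≤ 1) (S : Finset J) :
    0 ≤ Ua m S ∧ Ua m S ≤ 1 := by
  unfold Ua
  exact ⟨Finset.prod_nonneg (fun j _ => by linarith [m1 j]),
    Finset.prod_le_one (fun j _ => by linarith [m1 j]) (fun j _ => by linarith [m0 j])⟩

/-- `exp(-x)` is 1-Lipschitz on the nonnegative reals -/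
theorem Tl_lip {a b : ℝ} (ha : 0 ≤ a) (hb : 0 ≤ b) :
    |Real.exp (-a) - Real.exp (-b)| ≤ |a - b| := by
  have key : ∀ x y : ℝ, 0 ≤ x → x ≤ y → Real.exp (-x) - Real.exp (-y) ≤ y - x ∧
      0 ≤ Real.exp (-x) - Real.exp (-y) := by
    intro x y hx hxy
    have h1 : Real.exp (-y) = Real.exp (-x) * Real.exp (-(y - x)) := by
      rw [← Real.exp_add]
      congr 1
      ring
    have h2 : 1 - (y - x) ≤ Real.exp (-(y - x)) := by
      have := Real.add_one_le_exp (-(y - x))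
      linarith
    have h3 : Real.exp (-x) ≤ 1 := Real.exp_le_one_iff.mpr (by linarith)
    have h4 : 0 < Real.exp (-x) := Real.exp_pos _
    have h5 : Real.exp (-y) ≤ Real.exp (-x) := Real.exp_le_exp.mpr (by linarith)
    refine ⟨?_, by linarith⟩
    rw [h1]
    nlinarith
  rcases le_total a b with h | h
  · obtain ⟨h1, h2⟩ := key a b ha h
    rw [abs_of_nonneg h2, abs_sub_comm, abs_of_nonneg (by linarith)]
    exact h1
  · obtain ⟨h1, h2⟩ := key b a hb h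
    rw [abs_sub_comm, abs_of_nonneg h2, abs_of_nonneg (by linarith)]
    exact h1

/-- the deviation of `Ua` is at most the deviation of the mass plus `M` -/
theorem Tl_Ua_dev {m : J → ℝ} {M l : ℝ} (hl : Real.exp (-l) = l) (hM : M ≤ 1 / 2)
    (m0 : ∀ j, 0 ≤ m j) (mM : ∀ j, m j ≤ M) (msum : ∑ j, m j = 1) (E : Finset (I × J)) :
    |Ua m (Rm E) - l| ≤ |LR m E - l| + M := by
  have hsub : Sub (fun e : Unit × J => m e.2) (1 / 2) := by
    refine ⟨fun e => m0 _, fun e => (mM _).trans hM, fun i => le_of_eq msum, fun j => ?_⟩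
    simp only [Finset.univ_unique, Finset.sum_singleton]
    exact ((mM j).trans hM).trans (by norm_num)
  obtain ⟨h1, h2⟩ := U_exp hsub () (Rm E)
  have e1 : U (fun e : Unit × J => m e.2) () (Rm E) = Ua m (Rm E) := rfl
  have e2 : nr (fun e : Unit × J => m e.2) () = nsq m := rfl
  have e3 : ∑ j ∈ Rm E, (fun e : Unit × J => m e.2) ((), j) = LR m E := rfl
  rw [e1, e3] at h1
  rw [e1, e2, e3] at h2
  have h3 := Tl_nsq m0 mM msum
  have h4 : 0 ≤ LR m E := Finset.sum_nonneg (fun j _ => m0 j)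
  have h5 := Tl_lip h4 (Tl_l hl).1.le
  rw [hl] at h5
  have h6 : |Ua m (Rm E) - Real.exp (-LR m E)| ≤ M := by
    rw [abs_le]
    constructor
    · linarith
    · have hM0 : 0 ≤ M := le_trans (Finset.sum_nonneg (fun j _ => sq_nonneg (m j))) h3
      linarith
  calc |Ua m (Rm E) - l| = |(Ua m (Rm E) - Real.exp (-LR m E)) + (Real.exp (-LR m E) - l)| := by
        congr 1
        ring
    _ ≤ |Ua m (Rm E) - Real.exp (-LR m E)| + |Real.exp (-LR m E) - l| := abs_add_le _ _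
    _ ≤ |LR m E - l| + M := by linarith

theorem Tl_mean {q : I × J → ℝ} {S : Finset I} {M K l : ℝ} (hl : Real.exp (-l) = l)
    (he : Env q S univ M K) (hs : Small M K) (m : J → ℝ) (m0 : ∀ j, 0 ≤ m j)
    (msum : ∑ j, m j = 1) : |Ex q (LR m) - l| ≤ 20 * BB * M := by
  have h1 := (mean_sup hl he hs).2
  have h2 : Ex q (LR m) = ∑ j, m j * Ex q (Yj j) := by
    have e1 : Ex q (LR m) = Ex q (fun E => ∑ j, m j * Yj j E) :=
      Ex_congr q (fun E => LR_eq m E)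
    rw [e1, Ex_sum]
    exact Finset.sum_congr rfl (fun j _ => Ex_mul_left q (m j) (Yj j))
  have h3 : Ex q (LR m) - l = ∑ j, m j * (Ex q (Yj j) - l) := by
    simp only [mul_sub]
    rw [Finset.sum_sub_distrib, ← Finset.sum_mul, msum, one_mul, h2]
  rw [h3]
  calc |∑ j, m j * (Ex q (Yj j) - l)| ≤ ∑ j, |m j * (Ex q (Yj j) - l)| :=
        Finset.abs_sum_le_sum_abs _ _
    _ ≤ ∑ j, m j * (20 * BB * M) := by
        refine Finset.sum_le_sum (fun j _ => ?_)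
        rw [abs_mul, abs_of_nonneg (m0 j)]
        exact mul_le_mul_of_nonneg_left (h1 j (Finset.mem_univ j)) (m0 j)
    _ = 20 * BB * M := by rw [← Finset.sum_mul, msum, one_mul]

theorem Tl_t2 {q : I × J → ℝ} {S : Finset I} {M K l : ℝ} (hl : Real.exp (-l) = l)
    (he : Env q S univ M K) (hs : Small M K) (m : J → ℝ) (m0 : ∀ j, 0 ≤ m j)
    (mM : ∀ j, m j ≤ M) (msum : ∑ j, m j = 1) :
    Ex q (fun E => (LR m E - l) ^ 2) ≤ BB * M + (20 * BB * M) ^ 2 := by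
  have hM2 : M ≤ 1 / 2 := (hs.M_le he.M0 he.K0).trans (by norm_num)
  have h1 := var_LR (he.sub hM2) m
  have h2 := Tl_nsq m0 mM msum
  have h3 := Tl_mean hl he hs m m0 msum
  have hB := BB_one
  have e1 : Ex q (fun E => (LR m E - l) ^ 2) =
      Ex q (fun E => (LR m E - Ex q (LR m)) ^ 2) + (Ex q (LR m) - l) ^ 2 := by
    set c := Ex q (LR m) with hc
    have e2 : ∀ E : Finset (I × J), (LR m E - l) ^ 2 =
        ((LR m E - c) ^ 2 + 2 * (c - l) * LR m E) - (2 * (c - l) * c - (c - l) ^ 2) :=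
      fun E => by ring
    rw [Ex_congr q e2, Ex_sub, Ex_add, Ex_mul_left, Ex_const, ← hc]
    ring
  rw [e1]
  have h4 : (Ex q (LR m) - l) ^ 2 ≤ (20 * BB * M) ^ 2 := by
    rw [← sq_abs]
    exact pow_le_pow_left₀ (abs_nonneg _) h3 2
  have h5 : BB * nsq m ≤ BB * M := mul_le_mul_of_nonneg_left h2 (by linarith)
  linarith

/-- the mean absolute deviation -/
theorem Tl_abs {q : I × J → ℝ} (h0 : ∀ e, 0 ≤ q e) (h1 : ∀ e, q e ≤ 1)
    (f g : Finset (I × J) → ℝ) {A B : ℝ} (hA : Ex q (fun E => f E ^ 2) ≤ A)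
    (hB : Ex q (fun E => g E ^ 2) ≤ B) :
    Ex q (fun E => |f E| * g E) ≤ Real.sqrt A * Real.sqrt B := by
  have h2 := Ex_cs_sqrt h0 h1 (fun E => |f E|) g
  have h3 : Ex q (fun E => |f E| ^ 2) = Ex q (fun E => f E ^ 2) :=
    Ex_congr q (fun E => sq_abs _)
  rw [h3] at h2
  exact h2.trans (mul_le_mul (Real.sqrt_le_sqrt hA) (Real.sqrt_le_sqrt hB)
    (Real.sqrt_nonneg _) (Real.sqrt_nonneg _))

theorem Tl_scal {M r : ℝ} (hr : 0 ≤ r) (hM : M = r ^ 2) (h : 100000 * (BB * r) ≤ 1) :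
    2 * (BB * M + (20 * BB * M) ^ 2) + 2 * M ^ 2 ≤ 5 * BB * M := by
  have hB := BB_one
  have hr1 : r ≤ BB * r := by nlinarith
  have h1 : (20 * BB * M) ^ 2 ≤ BB * M * (1 / 2) := by
    have e : (20 * BB * M) ^ 2 = BB * M * (400 * (BB * r) * r) := by rw [hM]; ring
    rw [e]
    refine mul_le_mul_of_nonneg_left ?_ (by rw [hM]; positivity)
    nlinarith [mul_nonneg (by positivity : (0 : ℝ) ≤ BB * r) hr]
  have h2 : M ^ 2 ≤ BB * M * (1 / 2) := by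
    have e : M ^ 2 = M * (r * r) := by rw [hM]; ring
    have e2 : BB * M * (1 / 2) = M * (BB * (1 / 2)) := by ring
    rw [e, e2]
    refine mul_le_mul_of_nonneg_left ?_ (by rw [hM]; positivity)
    nlinarith
  have h3 : 0 ≤ BB * M := by rw [hM]; positivity
  linarith

theorem Tl_sq5 {M r : ℝ} (hr : 0 ≤ r) (hM : M = r ^ 2) :
    Real.sqrt (5 * BB * M) ≤ (9 / 4) * BB * r := by
  have hB := BB_one
  have h1 : 0 ≤ (9 / 4) * BB * r := by positivity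
  rw [Real.sqrt_le_left h1]
  rw [hM]
  have h2 : BB * r ^ 2 ≤ BB ^ 2 * r ^ 2 := mul_le_mul_of_nonneg_right (by nlinarith) (sq_nonneg r)
  have h3 : 0 ≤ BB * r ^ 2 := by positivity
  nlinarith

theorem Tl_pow4 {q : I × J → ℝ} (h0 : ∀ e, 0 ≤ q e) (h1 : ∀ e, q e ≤ 1)
    (f : Finset (I × J) → ℝ) (c : ℝ) :
    Ex q (fun E => f E ^ 4) ≤ 8 * Ex q (fun E => (f E - c) ^ 4) + 8 * c ^ 4 := by
  have h2 : ∀ E, f E ^ 4 ≤ 8 * (f E - c) ^ 4 + 8 * c ^ 4 := by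
    intro E
    have e1 : f E ^ 4 = ((f E - c) + c) ^ 4 := by ring
    rw [e1]
    generalize f E - c = x
    have a1 : (x + c) ^ 2 ≤ 2 * x ^ 2 + 2 * c ^ 2 := by nlinarith [sq_nonneg (x - c)]
    have a2 : (x + c) ^ 4 ≤ (2 * x ^ 2 + 2 * c ^ 2) ^ 2 := by
      have : (x + c) ^ 4 = ((x + c) ^ 2) ^ 2 := by ring
      rw [this]
      exact pow_le_pow_left₀ (sq_nonneg _) a1 2
    nlinarith [sq_nonneg (x ^ 2 - c ^ 2)]
  calc Ex q (fun E => f E ^ 4) ≤ Ex q (fun E => 8 * (f E - c) ^ 4 + 8 * c ^ 4) :=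
        Ex_mono h0 h1 h2
    _ = _ := by rw [Ex_add, Ex_mul_left, Ex_const]

theorem Tl_sq_mean {q : I × J → ℝ} (h0 : ∀ e, 0 ≤ q e) (h1 : ∀ e, q e ≤ 1)
    (f : Finset (I × J) → ℝ) : Ex q f ^ 2 ≤ Ex q (fun E => f E ^ 2) := by
  have h2 := Ex_var q f
  have h3 : 0 ≤ Ex q (fun E => (f E - Ex q f) ^ 2) := Ex_nonneg h0 h1 (fun E => sq_nonneg _)
  linarith

/-- the second moment of `s` -/
theorem Tl_s2 {q : I × J → ℝ} {M l r : ℝ} (hl : Real.exp (-l) = l) (h0 : ∀ e, 0 ≤ q e)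
    (h1 : ∀ e, q e ≤ 1) (hr : 0 ≤ r) (hM : M = r ^ 2) (hr1 : 100000 * r ≤ 1) (dl : J → ℝ)
    {N : ℝ} (N0 : 0 ≤ N) (hN : nsq dl ≤ (1 + 3 * M) * N)
    (hsum : |∑ j, dl j| ≤ 2 * r * Real.sqrt N)
    (hv : Ex q (fun E => (∑ j, dl j * (Yj j E - l)) ^ 2) ≤ 1 / 2 * nsq dl) :
    Ex q (fun E => LR dl E ^ 2) ≤ (1 / 2 + 4 * r) * N := by
  obtain ⟨l0, l1⟩ := Tl_l hl
  have e1 : ∀ E : Finset (I × J), LR dl E ^ 2 = ((∑ j, dl j * (Yj j E - l)) + l * ∑ j, dl j) ^ 2 := by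
    intro E
    rw [LR_eq]
    congr 1
    simp only [mul_sub]
    rw [Finset.sum_sub_distrib, ← Finset.sum_mul]
    ring
  have h2 : Real.sqrt (Ex q (fun E => LR dl E ^ 2)) ≤
      Real.sqrt (1 / 2 * ((1 + 3 * M) * N)) + 2 * r * Real.sqrt N := by
    rw [Ex_congr q e1]
    refine (Ex_mink h0 h1 (fun E => ∑ j, dl j * (Yj j E - l)) (fun _ => l * ∑ j, dl j)).trans ?_
    refine add_le_add ?_ ?_
    · exact Real.sqrt_le_sqrt (hv.trans (by linarith))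
    · simp only [Ex_const]
      rw [Real.sqrt_sq_eq_abs, abs_mul, abs_of_nonneg l0.le]
      have h3 : 0 ≤ |∑ j, dl j| := abs_nonneg _
      nlinarith
  have h3 : 0 ≤ Ex q (fun E => LR dl E ^ 2) := Ex_nonneg h0 h1 (fun E => sq_nonneg _)
  have h4 : Ex q (fun E => LR dl E ^ 2) ≤
      (Real.sqrt (1 / 2 * ((1 + 3 * M) * N)) + 2 * r * Real.sqrt N) ^ 2 := by
    calc _ = Real.sqrt (Ex q (fun E => LR dl E ^ 2)) ^ 2 := (Real.sq_sqrt h3).symm
      _ ≤ _ := pow_le_pow_left₀ (Real.sqrt_nonneg _) h2 2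
  refine h4.trans ?_
  have h5 : Real.sqrt (1 / 2 * ((1 + 3 * M) * N)) ≤ (3 / 4) * Real.sqrt N := by
    have h6 : (0 : ℝ) ≤ (3 / 4) * Real.sqrt N := by positivity
    rw [Real.sqrt_le_left h6, mul_pow, Real.sq_sqrt N0, hM]
    have h7 : r ^ 2 ≤ 1 / 100 := by nlinarith
    have h8 := mul_le_mul_of_nonneg_right h7 N0
    linarith
  have h6 : Real.sqrt (1 / 2 * ((1 + 3 * M) * N)) ^ 2 = 1 / 2 * ((1 + 3 * M) * N) := by
    refine Real.sq_sqrt ?_
    rw [hM]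
    positivity
  have h7 : Real.sqrt N ^ 2 = N := Real.sq_sqrt N0
  have h8 : 0 ≤ Real.sqrt N := Real.sqrt_nonneg N
  have h9 : Real.sqrt (1 / 2 * ((1 + 3 * M) * N)) * Real.sqrt N ≤ (3 / 4) * N := by
    calc _ ≤ (3 / 4) * Real.sqrt N * Real.sqrt N := mul_le_mul_of_nonneg_right h5 h8
      _ = (3 / 4) * Real.sqrt N ^ 2 := by ring
      _ = _ := by rw [h7]
  calc (Real.sqrt (1 / 2 * ((1 + 3 * M) * N)) + 2 * r * Real.sqrt N) ^ 2 =
        Real.sqrt (1 / 2 * ((1 + 3 * M) * N)) ^ 2 +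
        4 * r * (Real.sqrt (1 / 2 * ((1 + 3 * M) * N)) * Real.sqrt N) +
        4 * r ^ 2 * Real.sqrt N ^ 2 := by ring
    _ ≤ 1 / 2 * ((1 + 3 * M) * N) + 4 * r * ((3 / 4) * N) + 4 * r ^ 2 * N := by
        rw [h6, h7]
        have := mul_le_mul_of_nonneg_left h9 (by positivity : (0 : ℝ) ≤ 4 * r)
        linarith
    _ ≤ (1 / 2 + 4 * r) * N := by
        rw [hM]
        have h10 : r ^ 2 * N ≤ (1 / 100000) * r * N := by
          have : r ^ 2 ≤ (1 / 100000) * r := by nlinarith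
          exact mul_le_mul_of_nonneg_right this N0
        have h11 : 0 ≤ r * N := mul_nonneg hr N0
        nlinarith

theorem Um_dev {q : I × J → ℝ} {S : Finset I} {M K l : ℝ} (hl : Real.exp (-l) = l)
    (he : Env q S univ M K) (hs : Small M K) (m : J → ℝ) (m0 : ∀ j, 0 ≤ m j)
    (mM : ∀ j, m j ≤ M) (msum : ∑ j, m j = 1) :
    Ex q (fun E => (Ua m (Rm E) - l) ^ 2) ≤ 5 * BB * M := by
  have hM2 : M ≤ 1 / 2 := (hs.M_le he.M0 he.K0).trans (by norm_num)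
  have h1 : ∀ e, q e ≤ 1 := fun e => ((he.h1 e).trans hM2).trans (by norm_num)
  have h2 : ∀ E : Finset (I × J), (Ua m (Rm E) - l) ^ 2 ≤ 2 * (LR m E - l) ^ 2 + 2 * M ^ 2 := by
    intro E
    have h3 := Tl_Ua_dev hl hM2 m0 mM msum E
    have h4 : (Ua m (Rm E) - l) ^ 2 ≤ (|LR m E - l| + M) ^ 2 := by
      rw [← sq_abs]
      exact pow_le_pow_left₀ (abs_nonneg _) h3 2
    have h5 : |LR m E - l| ^ 2 = (LR m E - l) ^ 2 := sq_abs _
    nlinarith [sq_nonneg (|LR m E - l| - M)]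
  have h3 := Tl_t2 hl he hs m m0 mM msum
  have h4 := Tl_scal (M := M) (Real.sqrt_nonneg M) (Real.sq_sqrt he.M0).symm
    (Tl_r1 hs he.M0 he.K0)
  calc Ex q (fun E => (Ua m (Rm E) - l) ^ 2) ≤
        Ex q (fun E => 2 * (LR m E - l) ^ 2 + 2 * M ^ 2) := Ex_mono he.h0 h1 h2
    _ = 2 * Ex q (fun E => (LR m E - l) ^ 2) + 2 * M ^ 2 := by
        rw [Ex_add, Ex_mul_left, Ex_const]
    _ ≤ 5 * BB * M := by linarith

theorem Um_low {q : I × J → ℝ} {S : Finset I} {M K l : ℝ} (hl : Real.exp (-l) = l)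
    (he : Env q S univ M K) (hs : Small M K) (m : J → ℝ) (m0 : ∀ j, 0 ≤ m j)
    (mM : ∀ j, m j ≤ M) (msum : ∑ j, m j = 1) (w : J → ℝ) (w0 : ∀ j, 0 ≤ w j) :
    (l ^ 2 - 10 * BB * Real.sqrt M) * ∑ j, w j ≤
      Ex q (fun E => Ua m (Rm E) * ∑ j ∈ Rm E, w j) := by
  have hM2 : M ≤ 1 / 2 := (hs.M_le he.M0 he.K0).trans (by norm_num)
  have h1 : ∀ e, q e ≤ 1 := fun e => ((he.h1 e).trans hM2).trans (by norm_num)
  obtain ⟨l0, l1⟩ := Tl_l hl
  have hB := BB_one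
  have hr := Real.sqrt_nonneg M
  have hM := Real.sq_sqrt he.M0
  have hr1 := Tl_r1 hs he.M0 he.K0
  have hdev := Um_dev hl he hs m m0 mM msum
  have habs : Ex q (fun E => |Ua m (Rm E) - l|) ≤ (9 / 4) * BB * Real.sqrt M := by
    have h2 := Tl_abs he.h0 h1 (fun E => Ua m (Rm E) - l) (fun _ => 1) hdev
      (B := 1) (by rw [Ex_const]; norm_num)
    simp only [mul_one, Real.sqrt_one] at h2
    exact h2.trans (Tl_sq5 hr hM.symm)
  have e1 : ∀ E : Finset (I × J), Ua m (Rm E) * ∑ j ∈ Rm E, w j =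
      ∑ j, w j * (Ua m (Rm E) * Yj j E) := by
    intro E
    have h3 := LR_eq w E
    unfold LR at h3
    rw [h3, Finset.mul_sum]
    exact Finset.sum_congr rfl (fun j _ => by ring)
  rw [Ex_congr q e1, Ex_sum, Finset.mul_sum]
  refine Finset.sum_le_sum (fun j _ => ?_)
  rw [Ex_mul_left, mul_comm (l ^ 2 - 10 * BB * Real.sqrt M)]
  refine mul_le_mul_of_nonneg_left ?_ (w0 j)
  have h2 : ∀ E : Finset (I × J), l * Yj j E - |Ua m (Rm E) - l| ≤ Ua m (Rm E) * Yj j E := by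
    intro E
    have h3 := neg_abs_le (Ua m (Rm E) - l)
    have h4 := abs_nonneg (Ua m (Rm E) - l)
    unfold Yj
    split_ifs
    · linarith
    · linarith
  have h3 := Ex_mono he.h0 h1 h2
  rw [Ex_sub, Ex_mul_left] at h3
  have h4 := (abs_le.mp ((mean_sup hl he hs).2 j (Finset.mem_univ j))).1
  have h5 : 20 * BB * M ≤ BB * Real.sqrt M := by
    have e2 : 20 * BB * M = (BB * Real.sqrt M) * (20 * Real.sqrt M) := by
      calc 20 * BB * M = 20 * BB * (Real.sqrt M ^ 2) := by rw [hM]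
        _ = _ := by ring
    rw [e2]
    have h6 := Tl_r0 hs he.M0 he.K0
    have h7 : 0 ≤ BB * Real.sqrt M := by positivity
    nlinarith
  have h6 : 0 ≤ BB * Real.sqrt M := by positivity
  have h7 : l * (l - 20 * BB * M) ≤ l * Ex q (Yj j) :=
    mul_le_mul_of_nonneg_left (by linarith) l0.le
  have h8 : 0 ≤ 20 * BB * M := by have := he.M0; positivity
  have h9 : l * (20 * BB * M) ≤ 20 * BB * M := by nlinarith
  nlinarith

theorem s_up {q : I × J → ℝ} {S : Finset I} {M K l : ℝ} (hl : Real.exp (-l) = l)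
    (he : Env q S univ M K) (hs : Small M K) (m : J → ℝ) (m0 : ∀ j, 0 ≤ m j)
    (mM : ∀ j, m j ≤ M) (msum : ∑ j, m j = 1) (dl : J → ℝ) {N : ℝ} (N0 : 0 ≤ N)
    (hNM : N ≤ M) (hN : nsq dl ≤ (1 + 3 * M) * N)
    (hsum : |∑ j, dl j| ≤ 2 * Real.sqrt M * Real.sqrt N)
    (hv : Ex q (fun E => (∑ j, dl j * (Yj j E - l)) ^ 2) ≤ 1 / 2 * nsq dl) :
    Ex q (fun E => Ua m (Rm E) * (LR dl E ^ 2 + LR dl E ^ 4 / 10)) ≤
      (l / 2 + 300 * BB ^ 2 * Real.sqrt M) * N := by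
  have hM2 : M ≤ 1 / 2 := (hs.M_le he.M0 he.K0).trans (by norm_num)
  have h1 : ∀ e, q e ≤ 1 := fun e => ((he.h1 e).trans hM2).trans (by norm_num)
  have m1 : ∀ j, m j ≤ 1 := fun j => ((mM j).trans hM2).trans (by norm_num)
  obtain ⟨l0, l1⟩ := Tl_l hl
  have hB := BB_one
  have hr := Real.sqrt_nonneg M
  have hM := Real.sq_sqrt he.M0
  have hr1 := Tl_r1 hs he.M0 he.K0
  have hr0 := Tl_r0 hs he.M0 he.K0
  have hdev := Um_dev hl he hs m m0 mM msum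
  set r := Real.sqrt M with hrdef
  have hs2 := Tl_s2 (q := q) hl he.h0 h1 hr hM.symm hr0 dl N0 hN hsum hv
  have hs2' : Ex q (fun E => LR dl E ^ 2) ≤ N := by
    refine hs2.trans ?_
    nlinarith
  have hM10 : M ≤ (1 / 100000) * r := by
    rw [← hM]
    nlinarith
  have hs4 : Ex q (fun E => LR dl E ^ 4) ≤ 1000 * BB ^ 2 * N ^ 2 := by
    have a1 := Tl_pow4 he.h0 h1 (LR dl) (Ex q (LR dl))
    have a2 := fourth_LR (he.sub hM2) dl
    have a3 := Tl_sq_mean he.h0 h1 (LR dl)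
    have a4 : Ex q (LR dl) ^ 4 ≤ N ^ 2 := by
      have e : Ex q (LR dl) ^ 4 = (Ex q (LR dl) ^ 2) ^ 2 := by ring
      rw [e]
      exact pow_le_pow_left₀ (sq_nonneg _) (a3.trans hs2') 2
    have a5 : nsq dl ^ 2 ≤ (11 / 10) * N ^ 2 := by
      have b1 : nsq dl ≤ (1 + 1 / 100) * N := by
        refine hN.trans ?_
        refine mul_le_mul_of_nonneg_right ?_ N0
        nlinarith
      calc nsq dl ^ 2 ≤ ((1 + 1 / 100) * N) ^ 2 := pow_le_pow_left₀ (nsq_nonneg dl) b1 2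
        _ = (1 + 1 / 100) ^ 2 * N ^ 2 := by ring
        _ ≤ (11 / 10) * N ^ 2 := mul_le_mul_of_nonneg_right (by norm_num) (sq_nonneg N)
    have a6 : 100 * BB ^ 2 * nsq dl ^ 2 ≤ 100 * BB ^ 2 * ((11 / 10) * N ^ 2) :=
      mul_le_mul_of_nonneg_left a5 (by positivity)
    have a7 : N ^ 2 ≤ BB ^ 2 * N ^ 2 := by
      have : 1 ≤ BB ^ 2 := one_le_pow₀ hB
      nlinarith [sq_nonneg N]
    nlinarith
  -- the cross term
  have hcross : Ex q (fun E => |Ua m (Rm E) - l| * LR dl E ^ 2) ≤ 80 * BB ^ 2 * r * N := by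
    have a1 := Tl_abs he.h0 h1 (fun E => Ua m (Rm E) - l) (fun E => LR dl E ^ 2) hdev
      (B := 1000 * BB ^ 2 * N ^ 2) (by
        refine le_trans (le_of_eq ?_) hs4
        exact Ex_congr q (fun E => by ring))
    have a2 := Tl_sq5 (M := M) hr hM.symm
    have a3 : Real.sqrt (1000 * BB ^ 2 * N ^ 2) ≤ 32 * BB * N := by
      have b1 : 0 ≤ 32 * BB * N := by positivity
      rw [Real.sqrt_le_left b1]
      have b2 : 0 ≤ BB ^ 2 * N ^ 2 := by positivity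
      nlinarith
    refine a1.trans ?_
    calc Real.sqrt (5 * BB * M) * Real.sqrt (1000 * BB ^ 2 * N ^ 2) ≤
          ((9 / 4) * BB * r) * (32 * BB * N) :=
          mul_le_mul a2 a3 (Real.sqrt_nonneg _) (by positivity)
      _ = 72 * (BB ^ 2 * r * N) := by ring
      _ ≤ 80 * BB ^ 2 * r * N := by
          have : 0 ≤ BB ^ 2 * r * N := by positivity
          nlinarith
  have hpt : ∀ E : Finset (I × J), Ua m (Rm E) * (LR dl E ^ 2 + LR dl E ^ 4 / 10) ≤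
      (l * LR dl E ^ 2 + |Ua m (Rm E) - l| * LR dl E ^ 2) + (1 / 10) * LR dl E ^ 4 := by
    intro E
    obtain ⟨u0, u1⟩ := Tl_Ua01 m0 m1 (Rm E)
    have a1 := le_abs_self (Ua m (Rm E) - l)
    have a2 : 0 ≤ LR dl E ^ 2 := sq_nonneg _
    have a3 : 0 ≤ LR dl E ^ 4 := by positivity
    have a4 : (Ua m (Rm E) - l) * LR dl E ^ 2 ≤ |Ua m (Rm E) - l| * LR dl E ^ 2 :=
      mul_le_mul_of_nonneg_right a1 a2
    have a5 : Ua m (Rm E) * (LR dl E ^ 4 / 10) ≤ (1 / 10) * LR dl E ^ 4 := by nlinarith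
    calc Ua m (Rm E) * (LR dl E ^ 2 + LR dl E ^ 4 / 10) =
          l * LR dl E ^ 2 + (Ua m (Rm E) - l) * LR dl E ^ 2 +
          Ua m (Rm E) * (LR dl E ^ 4 / 10) := by ring
      _ ≤ _ := by linarith
  have hfin := Ex_mono he.h0 h1 hpt
  rw [Ex_add, Ex_add, Ex_mul_left, Ex_mul_left] at hfin
  refine hfin.trans ?_
  have f1 : l * Ex q (fun E => LR dl E ^ 2) ≤ (l / 2 + 4 * r) * N := by
    calc l * Ex q (fun E => LR dl E ^ 2) ≤ l * ((1 / 2 + 4 * r) * N) :=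
          mul_le_mul_of_nonneg_left hs2 l0.le
      _ = (l / 2) * N + l * (4 * r * N) := by ring
      _ ≤ (l / 2) * N + 1 * (4 * r * N) := by
          have : 0 ≤ 4 * r * N := by positivity
          nlinarith
      _ = _ := by ring
  have f2 : (1 / 10) * Ex q (fun E => LR dl E ^ 4) ≤ BB ^ 2 * r * N := by
    have b1 : (1 / 10) * (1000 * BB ^ 2 * N ^ 2) ≤ BB ^ 2 * r * N := by
      have b2 : N ≤ (1 / 100000) * r := hNM.trans hM10
      have b3 : (1 / 10) * (1000 * BB ^ 2 * N ^ 2) = BB ^ 2 * N * (100 * N) := by ring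
      have b4 : BB ^ 2 * r * N = BB ^ 2 * N * r := by ring
      rw [b3, b4]
      refine mul_le_mul_of_nonneg_left ?_ (by positivity)
      linarith
    linarith
  have f3 : r ≤ BB ^ 2 * r := by
    have : 1 ≤ BB ^ 2 := one_le_pow₀ hB
    nlinarith
  have f4 : r * N ≤ BB ^ 2 * r * N := mul_le_mul_of_nonneg_right f3 N0
  have f5 : 0 ≤ BB ^ 2 * r * N := by positivity
  nlinarith

end Pool.JN
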