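import Pool.Agent.JN.D0

/-! Module Ts (difficulty 3). Pure scalar inequality.

PROOF. m = (a+b)/2, D = (a-b)/2, δ_j = D_j/(1-m_j), |D_j| <= M/2, so |δ_j| <= .51 M (M <= 1/100). 1 - a_j = (1-m_j)(1-δ_j), 1 - b_j = (1-m_j)(1+δ_j):
   Ua a R = Ua m R * prod (1-δ_j), Ua b R = Ua m R * prod (1+δ_j).
 s = sum_R δ_j, q = sum_R δ_j^2. log(1+x) <= x - x^2/2 + |x|^3/3 for |x| < 1, and |δ|^3/3 <= .17 M δ^2 <= (M/2) δ^2:
   prod (1 ± δ_j) <= exp(± s - (1-M) q/2). Sum <= 2 exp(-(1-M)q/2) cosh s.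
 |s| <= sum |δ_j| <= (1/(1-M)) (1/2)(sum a + sum b) <= 1.02. For |s| <= 1.1: cosh s <= 1 + s^2/2 + s^4/20.
 q <= .51 M * sum|δ| <= .53 M, exp(-y) <= 1 - y + y^2/2 (y >= 0), y = (1-M) q/2: exp(-y) <= 1 - (1-2M) q/2.
 2 - 2 (1 - (1-2M) q/2)(1 + s^2/2 + s^4/20) = (1-2M) q - s^2 - s^4/10 + (1-2M) q (s^2/2 + s^4/20) >= (1-2M) q - s^2 - s^4/10; q >= sum_R D_j^2. Ua m R >= 0.
-/

namespace Pool.JN

open Finset Pool.KS

set_option linter.unusedSectionVars false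

variable {I J : Type*} [Fintype I] [Fintype J] [DecidableEq I] [DecidableEq J]

theorem Ts_exp3 {y : ℝ} (hy : |y| ≤ 1) :
    1 + y + y ^ 2 / 2 - 2 / 9 * |y| ^ 3 ≤ Real.exp y := by
  have h := Real.exp_bound hy (n := 3) (by norm_num)
  rw [abs_le] at h
  have h1 := h.1
  norm_num [Finset.sum_range_succ, Nat.factorial] at h1
  linarith

theorem Ts_exp4 {y : ℝ} (hy : |y| ≤ 1) :
    Real.exp y ≤ 1 + y + y ^ 2 / 2 + y ^ 3 / 6 + 5 / 96 * y ^ 4 := by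
  have h := Real.exp_bound hy (n := 4) (by norm_num)
  rw [abs_le] at h
  have h1 := h.2
  have h2 : |y| ^ 4 = y ^ 4 := by
    rw [← abs_pow]
    exact abs_of_nonneg (by positivity)
  rw [h2] at h1
  norm_num [Finset.sum_range_succ, Nat.factorial] at h1
  linarith

theorem Ts_cosh {s : ℝ} (hs : |s| ≤ 11 / 10) :
    Real.exp s + Real.exp (-s) ≤ 2 * (1 + s ^ 2 / 2 + s ^ 4 / 20) := by
  have ht : |s / 2| ≤ 1 := by
    rw [abs_div, abs_of_pos (by norm_num : (0 : ℝ) < 2)]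
    linarith
  have ht' : |(-(s / 2))| ≤ 1 := by
    rw [abs_neg]
    exact ht
  have hA := Ts_exp4 ht
  have hB := Ts_exp4 ht'
  have hA0 := Real.exp_pos (s / 2)
  have hB0 := Real.exp_pos (-(s / 2))
  have hAB : Real.exp (s / 2) * Real.exp (-(s / 2)) = 1 := by
    rw [← Real.exp_add, add_neg_cancel, Real.exp_zero]
  have e1 : Real.exp s = Real.exp (s / 2) ^ 2 := by
    rw [pow_two, ← Real.exp_add]
    congr 1
    ring
  have e2 : Real.exp (-s) = Real.exp (-(s / 2)) ^ 2 := by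
    rw [pow_two, ← Real.exp_add]
    congr 1
    ring
  have hz : s ^ 2 ≤ 121 / 100 := by
    have h1 := abs_le.mp hs
    nlinarith [h1.1, h1.2]
  have hz0 : 0 ≤ s ^ 2 := sq_nonneg s
  obtain ⟨z, hzd⟩ : ∃ z : ℝ, z = s ^ 2 := ⟨_, rfl⟩
  have hsum : Real.exp (s / 2) + Real.exp (-(s / 2)) ≤ 2 * (1 + z / 8 + 5 / 1536 * z ^ 2) := by
    rw [hzd]
    nlinarith
  have hsq : (Real.exp (s / 2) + Real.exp (-(s / 2))) ^ 2 ≤
      (2 * (1 + z / 8 + 5 / 1536 * z ^ 2)) ^ 2 :=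
    pow_le_pow_left₀ (by linarith) hsum 2
  have hfin : (2 * (1 + z / 8 + 5 / 1536 * z ^ 2)) ^ 2 - 2 ≤
      2 * (1 + z / 2 + z ^ 2 / 20) := by
    have hz1 : z ≤ 121 / 100 := by rw [hzd]; exact hz
    have hz2 : 0 ≤ z := by rw [hzd]; exact hz0
    have h3 : z ^ 2 ≤ 2 := by nlinarith
    have h1 : 0 ≤ z ^ 2 * (11 / 1920 - 5 / 3072 * z - 50 / 1536 ^ 2 * z ^ 2) := by
      refine mul_nonneg (sq_nonneg _) ?_
      nlinarith
    nlinarith
  rw [e1, e2]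
  have e3 : s ^ 4 = z ^ 2 := by rw [hzd]; ring
  rw [e3, ← hzd]
  nlinarith

theorem Ts_one_add {x M : ℝ} (hM0 : 0 ≤ M) (hM : M ≤ 1 / 100) (hx : |x| ≤ 51 / 100 * M) :
    1 + x ≤ Real.exp (x - (1 - M) / 2 * x ^ 2) := by
  obtain ⟨u, hu⟩ : ∃ u : ℝ, u = |x| := ⟨_, rfl⟩
  have hu0 : 0 ≤ u := by rw [hu]; exact abs_nonneg x
  have hu1 : u ≤ 51 / 100 * M := by rw [hu]; exact hx
  have hu2 : u ≤ 51 / 10000 := by linarith
  have hx2 : x ^ 2 = u ^ 2 := by rw [hu, sq_abs]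
  have hxu : x ≤ u := by rw [hu]; exact le_abs_self x
  have hxu' : -u ≤ x := by rw [hu]; exact neg_abs_le x
  obtain ⟨y, hy⟩ : ∃ y : ℝ, y = x - (1 - M) / 2 * x ^ 2 := ⟨_, rfl⟩
  have hyabs : |y| ≤ 1003 / 1000 * u := by
    rw [abs_le, hy, hx2]
    have h1 : (1 - M) / 2 * u ^ 2 ≤ 3 / 1000 * u := by nlinarith
    have h2 : 0 ≤ (1 - M) / 2 * u ^ 2 := by
      refine mul_nonneg (by linarith) (sq_nonneg _)
    constructor <;> linarith
  have hy1 : |y| ≤ 1 := by linarith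
  have h3 := Ts_exp3 hy1
  rw [← hy]
  refine le_trans ?_ h3
  have h4 : |y| ^ 3 ≤ 101 / 100 * u ^ 3 := by
    have h5 : |y| ^ 3 ≤ (1003 / 1000 * u) ^ 3 := pow_le_pow_left₀ (abs_nonneg _) hyabs 3
    have h6 : 0 ≤ u ^ 3 := by positivity
    nlinarith
  have h7 : x ^ 2 - u ^ 3 ≤ y ^ 2 := by
    rw [hy]
    have h8 : (x - (1 - M) / 2 * x ^ 2) ^ 2 = x ^ 2 - (1 - M) * (x * x ^ 2) +
        ((1 - M) / 2 * x ^ 2) ^ 2 := by ring
    rw [h8]
    have h9 : (1 - M) * (x * x ^ 2) ≤ u ^ 3 := by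
      rw [hx2]
      have h10 : x * u ^ 2 ≤ u ^ 3 := by
        have := mul_le_mul_of_nonneg_right hxu (sq_nonneg u)
        nlinarith
      have h11 : 0 ≤ u ^ 3 := by positivity
      have h12 : (1 - M) * (x * u ^ 2) ≤ (1 - M) * u ^ 3 :=
        mul_le_mul_of_nonneg_left h10 (by linarith)
      nlinarith
    have h13 : 0 ≤ ((1 - M) / 2 * x ^ 2) ^ 2 := sq_nonneg _
    linarith
  have h14 : 0 ≤ u ^ 2 * (M / 2 - 3 / 4 * u) := by
    refine mul_nonneg (sq_nonneg _) ?_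
    linarith
  have h15 : 0 ≤ u ^ 3 := by positivity
  have h16 : y = x - u ^ 2 / 2 + M / 2 * u ^ 2 := by rw [hy, hx2]; ring
  rw [hx2] at h7
  have h17 : u ^ 2 * (M / 2 - 3 / 4 * u) = M / 2 * u ^ 2 - 3 / 4 * u ^ 3 := by ring
  rw [h17] at h14
  linarith

theorem Ts_prod (d : J → ℝ) {M : ℝ} (hM0 : 0 ≤ M) (hM : M ≤ 1 / 100) (R : Finset J)
    (hd : ∀ j ∈ R, |d j| ≤ 51 / 100 * M) :
    ∏ j ∈ R, (1 + d j) ≤ Real.exp (∑ j ∈ R, d j - (1 - M) / 2 * ∑ j ∈ R, d j ^ 2) := by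
  rw [Finset.mul_sum, ← Finset.sum_sub_distrib, Real.exp_sum]
  refine Finset.prod_le_prod (fun j hj => ?_) (fun j hj => Ts_one_add hM0 hM (hd j hj))
  have h1 := (abs_le.mp (hd j hj)).1
  linarith

theorem two_U (a b : J → ℝ) {M : ℝ} (hM0 : 0 ≤ M) (hM : M ≤ 1 / 100) (ha0 : ∀ j, 0 ≤ a j)
    (hb0 : ∀ j, 0 ≤ b j) (haM : ∀ j, a j ≤ M) (hbM : ∀ j, b j ≤ M) (ha : ∑ j, a j ≤ 1)
    (hb : ∑ j, b j ≤ 1) (R : Finset J) :
    Ua (fun j => (a j + b j) / 2) R *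
        ((1 - 2 * M) * ∑ j ∈ R, ((a j - b j) / 2) ^ 2 -
          (∑ j ∈ R, ((a j - b j) / 2) / (1 - (a j + b j) / 2)) ^ 2 -
          (∑ j ∈ R, ((a j - b j) / 2) / (1 - (a j + b j) / 2)) ^ 4 / 10) ≤
      2 * Ua (fun j => (a j + b j) / 2) R - Ua a R - Ua b R := by
  obtain ⟨m, hm⟩ : ∃ m : J → ℝ, m = fun j => (a j + b j) / 2 := ⟨_, rfl⟩
  obtain ⟨d, hd⟩ : ∃ d : J → ℝ, d = fun j => ((a j - b j) / 2) / (1 - (a j + b j) / 2) :=
    ⟨_, rfl⟩
  have hmj : ∀ j, (a j + b j) / 2 = m j := fun j => by rw [hm]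
  have hdj : ∀ j, ((a j - b j) / 2) / (1 - (a j + b j) / 2) = d j := fun j => by rw [hd]
  have hm0 : ∀ j, 0 ≤ m j := fun j => by rw [← hmj]; linarith [ha0 j, hb0 j]
  have hm1 : ∀ j, m j ≤ M := fun j => by rw [← hmj]; linarith [haM j, hbM j]
  have hpos : ∀ j, 0 < 1 - m j := fun j => by linarith [hm1 j]
  have hdm : ∀ j, d j * (1 - m j) = (a j - b j) / 2 := by
    intro j
    rw [← hdj, ← hmj]
    refine div_mul_cancel₀ _ ?_
    rw [hmj]
    exact (hpos j).ne'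
  have hDabs : ∀ j, |(a j - b j) / 2| ≤ M / 2 := by
    intro j
    rw [abs_le]
    constructor <;> linarith [ha0 j, hb0 j, haM j, hbM j]
  have hDm : ∀ j, |(a j - b j) / 2| ≤ m j := by
    intro j
    rw [abs_le, ← hmj]
    constructor <;> linarith [ha0 j, hb0 j]
  have habs : ∀ j, |d j| * (1 - m j) = |(a j - b j) / 2| := by
    intro j
    rw [← hdm j, abs_mul, abs_of_pos (hpos j)]
  have hd1 : ∀ j, |d j| ≤ 51 / 100 * M := by
    intro j
    have h1 := habs j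
    have h2 := hDabs j
    have h3 := abs_nonneg (d j)
    have h4 : |d j| * (99 / 100) ≤ |d j| * (1 - m j) :=
      mul_le_mul_of_nonneg_left (by linarith [hm1 j]) h3
    linarith
  have hd2 : ∀ j, |d j| ≤ 102 / 100 * m j := by
    intro j
    have h1 := habs j
    have h2 := hDm j
    have h3 := abs_nonneg (d j)
    have h4 : |d j| * (99 / 100) ≤ |d j| * (1 - m j) :=
      mul_le_mul_of_nonneg_left (by linarith [hm1 j]) h3
    have h5 := hm0 j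
    linarith
  have hsumm : ∑ j ∈ R, m j ≤ 1 := by
    have h1 : ∑ j ∈ R, m j ≤ ∑ j, m j :=
      Finset.sum_le_sum_of_subset_of_nonneg (Finset.subset_univ _) (fun j _ _ => hm0 j)
    have h2 : ∑ j, m j = (∑ j, a j + ∑ j, b j) / 2 := by
      rw [hm, ← Finset.sum_add_distrib, Finset.sum_div]
    linarith
  have hsabs : ∑ j ∈ R, |d j| ≤ 102 / 100 := by
    refine (Finset.sum_le_sum (fun j _ => hd2 j)).trans ?_
    rw [← Finset.mul_sum]
    linarith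
  obtain ⟨s, hs⟩ : ∃ s : ℝ, s = ∑ j ∈ R, d j := ⟨_, rfl⟩
  obtain ⟨q, hq⟩ : ∃ q : ℝ, q = ∑ j ∈ R, d j ^ 2 := ⟨_, rfl⟩
  have hs1 : |s| ≤ 11 / 10 := by
    rw [hs]
    refine (Finset.abs_sum_le_sum_abs _ _).trans ?_
    linarith
  have hq0 : 0 ≤ q := by rw [hq]; exact Finset.sum_nonneg (fun j _ => sq_nonneg _)
  have hq1 : q ≤ 53 / 100 * M := by
    rw [hq]
    have h1 : ∀ j ∈ R, d j ^ 2 ≤ 51 / 100 * M * |d j| := by
      intro j _
      rw [← sq_abs, pow_two]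
      exact mul_le_mul_of_nonneg_right (hd1 j) (abs_nonneg _)
    refine (Finset.sum_le_sum h1).trans ?_
    rw [← Finset.mul_sum]
    have h2 : 51 / 100 * M * ∑ j ∈ R, |d j| ≤ 51 / 100 * M * (102 / 100) :=
      mul_le_mul_of_nonneg_left hsabs (by linarith)
    linarith
  have hqD : ∑ j ∈ R, ((a j - b j) / 2) ^ 2 ≤ q := by
    rw [hq]
    refine Finset.sum_le_sum (fun j _ => ?_)
    rw [← hdm j, mul_pow]
    have h1 : (1 - m j) ^ 2 ≤ 1 := by nlinarith [hm0 j, hpos j]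
    have h2 : 0 ≤ d j ^ 2 := sq_nonneg _
    nlinarith
  have hU0 : 0 ≤ Ua m R := by
    unfold Ua
    exact Finset.prod_nonneg (fun j _ => (hpos j).le)
  have hUa : Ua a R = Ua m R * ∏ j ∈ R, (1 + -d j) := by
    unfold Ua
    rw [← Finset.prod_mul_distrib]
    refine Finset.prod_congr rfl (fun j _ => ?_)
    have h1 : (1 - m j) * (1 + -d j) = 1 - m j - d j * (1 - m j) := by ring
    rw [h1, hdm, ← hmj]
    ring
  have hUb : Ua b R = Ua m R * ∏ j ∈ R, (1 + d j) := by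
    unfold Ua
    rw [← Finset.prod_mul_distrib]
    refine Finset.prod_congr rfl (fun j _ => ?_)
    have h1 : (1 - m j) * (1 + d j) = 1 - m j + d j * (1 - m j) := by ring
    rw [h1, hdm, ← hmj]
    ring
  have hP1 := Ts_prod d hM0 hM R (fun j _ => hd1 j)
  have hP2 := Ts_prod (fun j => -d j) hM0 hM R (fun j _ => by rw [abs_neg]; exact hd1 j)
  simp only [neg_sq, Finset.sum_neg_distrib] at hP2
  rw [← hs, ← hq] at hP1 hP2
  obtain ⟨y, hy⟩ : ∃ y : ℝ, y = (1 - M) / 2 * q := ⟨_, rfl⟩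
  obtain ⟨w, hw⟩ : ∃ w : ℝ, w = (1 - 2 * M) * q / 2 := ⟨_, rfl⟩
  rw [← hy] at hP1 hP2
  have hy0 : 0 ≤ y := by rw [hy]; exact mul_nonneg (by linarith) hq0
  have hw0 : 0 ≤ w := by
    rw [hw]
    exact div_nonneg (mul_nonneg (by linarith) hq0) (by norm_num)
  have hexpy : Real.exp (-y) ≤ 1 - w := by
    have h1 := Real.add_one_le_exp y
    have hw1 : w ≤ q / 2 := by rw [hw]; nlinarith
    have hy1 : y ≤ q / 2 := by rw [hy]; nlinarith
    have hq2 : q ≤ 1 / 100 := by linarith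
    have h2 : 1 ≤ (1 - w) * (1 + y) := by
      have h3 : w * y ≤ (q / 2) * (q / 2) := mul_le_mul hw1 hy1 hy0 (by linarith)
      have h4 : q * q ≤ 53 / 100 * M * q := mul_le_mul_of_nonneg_right hq1 hq0
      have h5 : y - w = M * q / 2 := by rw [hy, hw]; ring
      have h6 : 0 ≤ M * q := mul_nonneg hM0 hq0
      nlinarith
    have h3 : 0 < 1 - w := by linarith
    have h4 : 1 ≤ (1 - w) * Real.exp y :=
      h2.trans (mul_le_mul_of_nonneg_left (by linarith) h3.le)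
    rw [Real.exp_neg]
    rw [inv_le_comm₀ (Real.exp_pos y) h3]
    rw [inv_le_iff_one_le_mul₀ h3, mul_comm]
    exact h4
  have hcosh := Ts_cosh hs1
  have hPP : ∏ j ∈ R, (1 + d j) + ∏ j ∈ R, (1 + -d j) ≤
      (1 - w) * (2 * (1 + s ^ 2 / 2 + s ^ 4 / 20)) := by
    have h1 : Real.exp (s - y) = Real.exp (-y) * Real.exp s := by
      rw [← Real.exp_add]
      congr 1
      ring
    have h2 : Real.exp (-s - y) = Real.exp (-y) * Real.exp (-s) := by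
      rw [← Real.exp_add]
      congr 1
      ring
    rw [h1] at hP1
    rw [h2] at hP2
    have h3 : 0 ≤ Real.exp s + Real.exp (-s) := by positivity
    calc ∏ j ∈ R, (1 + d j) + ∏ j ∈ R, (1 + -d j)
        ≤ Real.exp (-y) * (Real.exp s + Real.exp (-s)) := by linarith
      _ ≤ (1 - w) * (2 * (1 + s ^ 2 / 2 + s ^ 4 / 20)) :=
          mul_le_mul hexpy hcosh h3 ((Real.exp_pos _).le.trans hexpy)
  have hfin : (1 - 2 * M) * ∑ j ∈ R, ((a j - b j) / 2) ^ 2 - s ^ 2 - s ^ 4 / 10 ≤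
      2 - (∏ j ∈ R, (1 + d j) + ∏ j ∈ R, (1 + -d j)) := by
    have h1 : (1 - 2 * M) * ∑ j ∈ R, ((a j - b j) / 2) ^ 2 ≤ (1 - 2 * M) * q :=
      mul_le_mul_of_nonneg_left hqD (by linarith)
    have h2 : (1 - 2 * M) * q = 2 * w := by rw [hw]; ring
    have h3 : 0 ≤ w * (s ^ 2 + s ^ 4 / 10) := mul_nonneg hw0 (by positivity)
    nlinarith
  have hres := mul_le_mul_of_nonneg_left hfin hU0
  have hsd : ∑ j ∈ R, ((a j - b j) / 2) / (1 - (a j + b j) / 2) = s := by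
    rw [hs]
    exact Finset.sum_congr rfl (fun j _ => hdj j)
  rw [hsd, ← hm, hUa, hUb]
  linarith

end Pool.JN
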