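import Pool.Agent.JN.Ra
import Pool.Agent.JN.Rb

/-! Module V2 (difficulty 2). Step 2 of the variance lemma: the correction terms.

PROOF. Only i ∈ S, k ∈ S matter (e = 0 outside S). Put a_ik = Ex rr_ik, b_ik = Ex rr_ik (U_i - l)^2, c_ik = Ex rr_ik^2.
 Ex rr |U_i - l| <= sqrt a_ik sqrt b_ik (Ex_cs_sqrt with f = sqrt rr, g = sqrt rr |U_i - l|).
 sum_{i≠k} |e_i||e_k| sqrt a sqrt b <= (sum_{i≠k} e_k^2 a_ik)^{1/2} (sum_{i≠k} e_i^2 b_ik)^{1/2} <= (BB nsq e)^{1/2} (700 BB^3 M nsq e)^{1/2}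
   (sum_rr for the index k: sum_{i≠k} a_ik = sum_{i ≠ k} Ex rr_ki <= BB by rr_symm; sum_rr_U) = sqrt 700 BB^2 sqrt M nsq e <= 27 BB^2 sqrt M nsq e.
 sum_{i≠k} |e_i||e_k| c_ik <= sum_{i≠k} (e_i^2+e_k^2)/2 c_ik <= 8 BB M nsq e (symmetry, sum_rr_sq), and M <= sqrt M / 10^5, so <= BB^2 sqrt M nsq e.
 Total <= (54 + 1) BB^2 sqrt M nsq e <= 70 BB^2 sqrt M nsq e.
-/

namespace Pool.JN

open Finset Pool.KS

set_option linter.unusedSectionVars false

variable {I J : Type*} [Fintype I] [Fintype J] [DecidableEq I] [DecidableEq J]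

theorem v2_swap (g : I → I → ℝ) :
    ∑ i, ∑ k ∈ univ.erase i, g i k = ∑ k, ∑ i ∈ univ.erase k, g i k := by
  refine Finset.sum_comm' (fun i k => ?_)
  simp only [Finset.mem_univ, Finset.mem_erase, and_true, true_and]
  exact ne_comm

theorem v2_cs (f g : I → I → ℝ) :
    (∑ i, ∑ k ∈ univ.erase i, f i k * g i k) ^ 2 ≤
      (∑ i, ∑ k ∈ univ.erase i, f i k ^ 2) * (∑ i, ∑ k ∈ univ.erase i, g i k ^ 2) := by
  rw [Finset.sum_sigma', Finset.sum_sigma', Finset.sum_sigma']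
  exact Finset.sum_mul_sq_le_sq_mul_sq _ _ _

theorem v2_rr_le {p : I × J → ℝ} (hp : Sub p (1 / 2)) (l : ℝ) (i k : I) :
    Ex p (fun E => rr p i k E * |U p i (Rm (H2 i k E)) - l|) ≤
      Real.sqrt (Ex p (rr p i k)) *
        Real.sqrt (Ex p (fun E => rr p i k E * (U p i (Rm (H2 i k E)) - l) ^ 2)) := by
  have hle := hp.le_one (by norm_num)
  have hn := fun E => rr_nonneg hp.h0 hle i k E
  have h := Ex_cs_sqrt hp.h0 hle (fun E => Real.sqrt (rr p i k E))
    (fun E => Real.sqrt (rr p i k E) * |U p i (Rm (H2 i k E)) - l|)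
  have e1 : Ex p (fun E => Real.sqrt (rr p i k E) *
      (Real.sqrt (rr p i k E) * |U p i (Rm (H2 i k E)) - l|)) =
      Ex p (fun E => rr p i k E * |U p i (Rm (H2 i k E)) - l|) :=
    Ex_congr p (fun E => by rw [← mul_assoc, Real.mul_self_sqrt (hn E)])
  have e2 : Ex p (fun E => Real.sqrt (rr p i k E) ^ 2) = Ex p (rr p i k) :=
    Ex_congr p (fun E => Real.sq_sqrt (hn E))
  have e3 : Ex p (fun E => (Real.sqrt (rr p i k E) * |U p i (Rm (H2 i k E)) - l|) ^ 2) =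
      Ex p (fun E => rr p i k E * (U p i (Rm (H2 i k E)) - l) ^ 2) :=
    Ex_congr p (fun E => by rw [mul_pow, Real.sq_sqrt (hn E), sq_abs])
  rw [e1, e2, e3] at h
  exact h

theorem v_step2 {p : I × J → ℝ} {S : Finset I} {T : Finset J} {M K : ℝ} (he : Env p S T M K)
    (hs : Small M K) (l : ℝ)
    (h4 : ∀ i ∈ S, Ex p (fun E => (Ut p i E - l) ^ 4) ≤ 100000 * BB ^ 4 * M ^ 2) (e : I → ℝ)
    (hS : ∀ i, i ∉ S → e i = 0) :
    ∑ i, ∑ k ∈ univ.erase i, |e i| * |e k| *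
        (2 * Ex p (fun E => rr p i k E * |U p i (Rm (H2 i k E)) - l|) +
          Ex p (fun E => rr p i k E ^ 2)) ≤
      70 * BB ^ 2 * Real.sqrt M * nsq e := by
  have hM0 := he.M0
  have hM10 := hs.M_le he.M0 he.K0
  have hM1 : M ≤ 1 := hM10.trans (by norm_num)
  have hp : Sub p (1 / 2) := he.sub (hM10.trans (by norm_num))
  have hle := hp.le_one (by norm_num)
  have hB := BB_one
  have hB0 : 0 ≤ BB := by linarith
  have hn0 : 0 ≤ nsq e := Finset.sum_nonneg (fun i _ => sq_nonneg _)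
  have hsM : 0 ≤ Real.sqrt M := Real.sqrt_nonneg _
  have hsM2 : Real.sqrt M ^ 2 = M := Real.sq_sqrt hM0
  have hsM5 : Real.sqrt M ≤ 1 / 10 ^ 5 := by
    rw [Real.sqrt_le_left (by norm_num)]
    exact hM10.trans (by norm_num)
  have hA0 : ∀ i k, 0 ≤ Ex p (rr p i k) := fun i k =>
    Ex_nonneg hp.h0 hle (fun E => rr_nonneg hp.h0 hle i k E)
  have hBn : ∀ i k, 0 ≤ Ex p (fun E => rr p i k E * (U p i (Rm (H2 i k E)) - l) ^ 2) :=
    fun i k => Ex_nonneg hp.h0 hle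
      (fun E => mul_nonneg (rr_nonneg hp.h0 hle i k E) (sq_nonneg _))
  have hC0 : ∀ i k, 0 ≤ Ex p (fun E => rr p i k E ^ 2) := fun i k =>
    Ex_nonneg hp.h0 hle (fun E => sq_nonneg _)
  have hCs : ∀ i k, Ex p (fun E => rr p i k E ^ 2) = Ex p (fun E => rr p k i E ^ 2) :=
    fun i k => Ex_congr p (fun E => by rw [rr_symm])
  have hAs : ∀ i k, Ex p (rr p i k) = Ex p (rr p k i) :=
    fun i k => Ex_congr p (fun E => (rr_symm p i k E).symm)
  -- the first part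
  set X : ℝ := ∑ i, ∑ k ∈ univ.erase i, (|e k| * Real.sqrt (Ex p (rr p i k))) *
    (|e i| * Real.sqrt (Ex p (fun E => rr p i k E * (U p i (Rm (H2 i k E)) - l) ^ 2))) with hX
  have hX0 : 0 ≤ X := Finset.sum_nonneg (fun i _ => Finset.sum_nonneg (fun k _ => by positivity))
  have hXA : ∑ i, ∑ k ∈ univ.erase i, (|e k| * Real.sqrt (Ex p (rr p i k))) ^ 2 ≤
      BB * nsq e := by
    rw [v2_swap]
    unfold nsq
    rw [Finset.mul_sum]
    refine Finset.sum_le_sum (fun k _ => ?_)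
    have h1 : ∑ i ∈ univ.erase k, (|e k| * Real.sqrt (Ex p (rr p i k))) ^ 2 =
        e k ^ 2 * ∑ i ∈ univ.erase k, Ex p (rr p k i) := by
      rw [Finset.mul_sum]
      refine Finset.sum_congr rfl (fun i _ => ?_)
      rw [mul_pow, sq_abs, Real.sq_sqrt (hA0 i k), hAs i k]
    rw [h1, mul_comm]
    exact mul_le_mul_of_nonneg_right (sum_rr hp k) (sq_nonneg _)
  have hXB : ∑ i, ∑ k ∈ univ.erase i, (|e i| * Real.sqrt (Ex p (fun E => rr p i k E *
      (U p i (Rm (H2 i k E)) - l) ^ 2))) ^ 2 ≤ 700 * BB ^ 3 * M * nsq e := by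
    unfold nsq
    rw [Finset.mul_sum]
    refine Finset.sum_le_sum (fun i _ => ?_)
    have h1 : ∑ k ∈ univ.erase i, (|e i| * Real.sqrt (Ex p (fun E => rr p i k E *
        (U p i (Rm (H2 i k E)) - l) ^ 2))) ^ 2 =
        e i ^ 2 * ∑ k ∈ univ.erase i, Ex p (fun E => rr p i k E *
          (U p i (Rm (H2 i k E)) - l) ^ 2) := by
      rw [Finset.mul_sum]
      refine Finset.sum_congr rfl (fun k _ => ?_)
      rw [mul_pow, sq_abs, Real.sq_sqrt (hBn i k)]
    rw [h1]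
    by_cases hi : i ∈ S
    · rw [mul_comm]
      exact mul_le_mul_of_nonneg_right (sum_rr_U hp he.h1 hM0 hM1 l i (h4 i hi)) (sq_nonneg _)
    · rw [hS i hi]
      simp
  have hX2 : X ^ 2 ≤ (BB * nsq e) * (700 * BB ^ 3 * M * nsq e) := by
    refine (v2_cs _ _).trans ?_
    refine mul_le_mul hXA hXB ?_ (by positivity)
    exact Finset.sum_nonneg (fun i _ => Finset.sum_nonneg (fun k _ => sq_nonneg _))
  have hXle : X ≤ 27 * BB ^ 2 * Real.sqrt M * nsq e := by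
    rw [← pow_le_pow_iff_left₀ hX0 (by positivity) (two_ne_zero)]
    refine hX2.trans ?_
    have e1 : (27 * BB ^ 2 * Real.sqrt M * nsq e) ^ 2 = 729 * (BB ^ 4 * M * nsq e ^ 2) := by
      rw [mul_pow, mul_pow, mul_pow, hsM2]; ring
    have e2 : (BB * nsq e) * (700 * BB ^ 3 * M * nsq e) = 700 * (BB ^ 4 * M * nsq e ^ 2) := by
      ring
    rw [e1, e2]
    have h0 : 0 ≤ BB ^ 4 * M * nsq e ^ 2 := by positivity
    linarith
  -- the second part
  set Z : ℝ := ∑ i, ∑ k ∈ univ.erase i, |e i| * |e k| * Ex p (fun E => rr p i k E ^ 2) with hZ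
  have hZ1 : ∑ i, ∑ k ∈ univ.erase i, e i ^ 2 * Ex p (fun E => rr p i k E ^ 2) ≤
      8 * BB * M * nsq e := by
    unfold nsq
    rw [Finset.mul_sum]
    refine Finset.sum_le_sum (fun i _ => ?_)
    rw [← Finset.mul_sum, mul_comm]
    exact mul_le_mul_of_nonneg_right (sum_rr_sq hp hM0 he.h1 i) (sq_nonneg _)
  have hZ2 : ∑ i, ∑ k ∈ univ.erase i, e k ^ 2 * Ex p (fun E => rr p i k E ^ 2) ≤
      8 * BB * M * nsq e := by
    rw [v2_swap]
    refine le_of_eq_of_le ?_ hZ1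
    exact Finset.sum_congr rfl (fun k _ => Finset.sum_congr rfl (fun i _ => by rw [hCs i k]))
  have hZle : Z ≤ 8 * BB * M * nsq e := by
    have h1 : 2 * Z ≤ ∑ i, ∑ k ∈ univ.erase i, e i ^ 2 * Ex p (fun E => rr p i k E ^ 2) +
        ∑ i, ∑ k ∈ univ.erase i, e k ^ 2 * Ex p (fun E => rr p i k E ^ 2) := by
      rw [hZ, Finset.mul_sum, ← Finset.sum_add_distrib]
      refine Finset.sum_le_sum (fun i _ => ?_)
      rw [Finset.mul_sum, ← Finset.sum_add_distrib]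
      refine Finset.sum_le_sum (fun k _ => ?_)
      have h2 : 2 * (|e i| * |e k|) ≤ e i ^ 2 + e k ^ 2 := by
        have := sq_nonneg (|e i| - |e k|)
        rw [← sq_abs (e i), ← sq_abs (e k)]
        nlinarith
      have h3 := mul_le_mul_of_nonneg_right h2 (hC0 i k)
      linarith
    linarith
  have hZle2 : Z ≤ BB ^ 2 * Real.sqrt M * nsq e := by
    refine hZle.trans (mul_le_mul_of_nonneg_right ?_ hn0)
    have h1 : M ≤ Real.sqrt M * (1 / 10 ^ 5) := by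
      calc M = Real.sqrt M * Real.sqrt M := by rw [← sq, hsM2]
        _ ≤ _ := mul_le_mul_of_nonneg_left hsM5 hsM
    have h2 : BB ≤ BB ^ 2 := by nlinarith
    calc 8 * BB * M ≤ 8 * BB * (Real.sqrt M * (1 / 10 ^ 5)) :=
          mul_le_mul_of_nonneg_left h1 (by positivity)
      _ = (8 / 10 ^ 5) * (BB * Real.sqrt M) := by ring
      _ ≤ 1 * (BB * Real.sqrt M) :=
          mul_le_mul_of_nonneg_right (by norm_num) (by positivity)
      _ = BB * Real.sqrt M := one_mul _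
      _ ≤ BB ^ 2 * Real.sqrt M := mul_le_mul_of_nonneg_right h2 hsM
  -- total
  have hT : ∑ i, ∑ k ∈ univ.erase i, |e i| * |e k| *
        (2 * Ex p (fun E => rr p i k E * |U p i (Rm (H2 i k E)) - l|) +
          Ex p (fun E => rr p i k E ^ 2)) ≤ 2 * X + Z := by
    rw [hX, hZ, Finset.mul_sum, ← Finset.sum_add_distrib]
    refine Finset.sum_le_sum (fun i _ => ?_)
    rw [Finset.mul_sum, ← Finset.sum_add_distrib]
    refine Finset.sum_le_sum (fun k _ => ?_)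
    have h1 := mul_le_mul_of_nonneg_left (v2_rr_le hp l i k)
      (mul_nonneg (abs_nonneg (e i)) (abs_nonneg (e k)))
    nlinarith
  have hfin : 0 ≤ BB ^ 2 * Real.sqrt M * nsq e := by positivity
  refine hT.trans ?_
  have : 2 * X + Z ≤ 55 * (BB ^ 2 * Real.sqrt M * nsq e) := by nlinarith
  nlinarith

end Pool.JN
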