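import Pool.Agent.JN.Tm

/-! Module V3 (difficulty 3). Step 3 of the variance lemma: linearization.

PROOF. Ut_i - l = - l tt_i + w_i, |w_i| <= tt_i^2 + nr_i (Ut_lin), and (sum_dR) tt_i = sum_j p_ij (Yj_j - l) - l ρ_i + kl_i, ρ_i = 1 - sum_j p_ij.
 Hence sum_i e_i (Ut_i - l) = - l sum_j (sum_i p_ij e_i)(Yj_j - l) + l^2 sum e_i ρ_i - l sum e_i kl_i + sum e_i w_i. (p_ij = 0 unless i ∈ S, j ∈ T;
 e = 0 outside S.) Minkowski (Ex_mink) three times:
   l^2 |sum e_i ρ_i| <= l^2 sqrt(nsq e) sqrt(4M)   (dS, Cauchy-Schwarz over S)  <= .65 sqrt M sqrt(nsq e),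
   sqrt Ex (sum e_i kl_i)^2 <= sqrt(nsq e) sqrt(sum_S Ex kl_i^2) <= sqrt(nsq e) sqrt(M BB K) (kl_sq, sq),
   sqrt Ex (sum e_i w_i)^2 <= sqrt(nsq e) sqrt(sum_S Ex w_i^2), sum_S Ex w_i^2 <= 2 sum Ex tt^4 + 2 sum nr^2 <= 2*10000 BB^4 M(K+1) + 2 M K
     <= 20002 BB^4 M (K+1) (tt_four_sum), square root <= 142 BB^2 sqrt(M(K+1)).
 Sum of the errors <= (.65 + .57 + 142) BB^2 sqrt(M(K+1)) sqrt(nsq e) <= 200 BB^2 sqrt(M(K+1)) sqrt(nsq e).
-/

namespace Pool.JN

open Finset Pool.KS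

set_option linter.unusedSectionVars false

variable {I J : Type*} [Fintype I] [Fintype J] [DecidableEq I] [DecidableEq J]

theorem V3_cs {p : I × J → ℝ} (h0 : ∀ e, 0 ≤ p e) (h1 : ∀ e, p e ≤ 1) (e : I → ℝ)
    {S : Finset I} (hS : ∀ i, i ∉ S → e i = 0) (g : I → Finset (I × J) → ℝ) {B : ℝ}
    (hg : ∑ i ∈ S, Ex p (fun E => g i E ^ 2) ≤ B) :
    Real.sqrt (Ex p (fun E => (∑ i, e i * g i E) ^ 2)) ≤ Real.sqrt B * Real.sqrt (nsq e) := by
  have hn : 0 ≤ nsq e := Finset.sum_nonneg (fun _ _ => sq_nonneg _)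
  have hB : 0 ≤ B := (Finset.sum_nonneg (fun i _ => Ex_nonneg h0 h1 (fun E => sq_nonneg _))).trans hg
  have h2 : Ex p (fun E => (∑ i, e i * g i E) ^ 2) ≤ B * nsq e := by
    calc Ex p (fun E => (∑ i, e i * g i E) ^ 2)
        ≤ Ex p (fun E => nsq e * ∑ i ∈ S, g i E ^ 2) := by
          refine Ex_mono h0 h1 (fun E => ?_)
          have e1 : ∑ i, e i * g i E = ∑ i ∈ S, e i * g i E := by
            symm
            apply Finset.sum_subset (Finset.subset_univ S)
            intro i _ hi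
            rw [hS i hi, zero_mul]
          have e2 : ∑ i ∈ S, e i ^ 2 ≤ nsq e :=
            Finset.sum_le_univ_sum_of_nonneg (fun _ => sq_nonneg _)
          rw [e1]
          refine (Finset.sum_mul_sq_le_sq_mul_sq S e (fun i => g i E)).trans ?_
          exact mul_le_mul_of_nonneg_right e2 (Finset.sum_nonneg (fun _ _ => sq_nonneg _))
      _ = nsq e * ∑ i ∈ S, Ex p (fun E => g i E ^ 2) := by
          rw [Ex_mul_left, Ex_sum]
      _ ≤ B * nsq e := by
          rw [mul_comm]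
          exact mul_le_mul_of_nonneg_right hg hn
  calc Real.sqrt (Ex p (fun E => (∑ i, e i * g i E) ^ 2)) ≤ Real.sqrt (B * nsq e) :=
        Real.sqrt_le_sqrt h2
    _ = Real.sqrt B * Real.sqrt (nsq e) := Real.sqrt_mul hB _

theorem V3_scale {p : I × J → ℝ} (c : ℝ) (f : Finset (I × J) → ℝ) :
    Real.sqrt (Ex p (fun E => (c * f E) ^ 2)) = |c| * Real.sqrt (Ex p (fun E => f E ^ 2)) := by
  have h : Ex p (fun E => (c * f E) ^ 2) = c ^ 2 * Ex p (fun E => f E ^ 2) := by
    rw [← Ex_mul_left]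
    exact Ex_congr p (fun E => by ring)
  rw [h, Real.sqrt_mul (sq_nonneg c), Real.sqrt_sq_eq_abs]

theorem V3_l {l : ℝ} (hl : Real.exp (-l) = l) : 0 < l ∧ l ≤ 1 := by
  have h0 : 0 < l := by rw [← hl]; exact Real.exp_pos _
  refine ⟨h0, ?_⟩
  rw [← hl]
  exact Real.exp_le_one_iff.mpr (by linarith)

theorem V3_nr_le {p : I × J → ℝ} {S : Finset I} {T : Finset J} {M K : ℝ}
    (he : Env p S T M K) (i : I) : nr p i ≤ M := by
  unfold nr
  calc ∑ j, p (i, j) ^ 2 ≤ ∑ j, M * p (i, j) := by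
        refine Finset.sum_le_sum (fun j _ => ?_)
        rw [sq]
        exact mul_le_mul_of_nonneg_right (he.h1 _) (he.h0 _)
    _ = M * ∑ j, p (i, j) := by rw [Finset.mul_sum]
    _ ≤ M * 1 := mul_le_mul_of_nonneg_left (he.hr i) he.M0
    _ = M := mul_one M

theorem V3_nr_nonneg (p : I × J → ℝ) (i : I) : 0 ≤ nr p i :=
  Finset.sum_nonneg (fun _ _ => sq_nonneg _)

theorem V3_nr_sum {p : I × J → ℝ} {S : Finset I} {T : Finset J} {M K : ℝ}
    (he : Env p S T M K) : ∑ i ∈ S, nr p i ≤ K :=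
  (Finset.sum_le_univ_sum_of_nonneg (fun i => V3_nr_nonneg p i)).trans he.sq

theorem V3_id (p : I × J → ℝ) (l : ℝ) (e : I → ℝ) (E : Finset (I × J)) :
    ∑ i, e i * (Ut p i E - l) =
      (-l) * (∑ j, (∑ i, p (i, j) * e i) * (Yj j E - l)) +
        (l ^ 2 * (∑ i, e i * (1 - ∑ j, p (i, j))) +
          ((-l) * (∑ i, e i * kl p i E) +
            ∑ i, e i * (Ut p i E - l + l * tt p l i E))) := by
  have h1 : ∑ j, (∑ i, p (i, j) * e i) * (Yj j E - l) =
      ∑ i, e i * ∑ j, p (i, j) * (Yj j E - l) := by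
    simp only [Finset.sum_mul, Finset.mul_sum]
    rw [Finset.sum_comm]
    refine Finset.sum_congr rfl (fun i _ => Finset.sum_congr rfl (fun j _ => ?_))
    ring
  rw [h1]
  simp only [Finset.mul_sum (s := (Finset.univ : Finset I))]
  rw [← Finset.sum_add_distrib, ← Finset.sum_add_distrib, ← Finset.sum_add_distrib]
  refine Finset.sum_congr rfl (fun i _ => ?_)
  have h2 : tt p l i E = ∑ j, p (i, j) * Yj j E + kl p i E - l := by
    unfold tt
    rw [sum_dR]
  have h3 : ∑ j, p (i, j) * (Yj j E - l) =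
      ∑ j, p (i, j) * Yj j E - l * ∑ j, p (i, j) := by
    rw [Finset.mul_sum, ← Finset.sum_sub_distrib]
    refine Finset.sum_congr rfl (fun j _ => ?_)
    ring
  rw [h3, h2]
  ring

theorem v_step3 {p : I × J → ℝ} {S : Finset I} {T : Finset J} {M K l : ℝ}
    (hl : Real.exp (-l) = l) (he : Env p S T M K) (hs : Small M K) (e : I → ℝ)
    (hS : ∀ i, i ∉ S → e i = 0) :
    Real.sqrt (Ex p (fun E => (∑ i, e i * (Ut p i E - l)) ^ 2)) ≤
      l * Real.sqrt (Ex p (fun E => (∑ j, (∑ i, p (i, j) * e i) * (Yj j E - l)) ^ 2)) +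
      200 * BB ^ 2 * Real.sqrt (M * (K + 1)) * Real.sqrt (nsq e) := by
  classical
  have hM0 := he.M0
  have hK0 := he.K0
  have hM10 := hs.M_le hM0 hK0
  have hM12 : M ≤ 1 / 2 := hM10.trans (by norm_num)
  have hsub : Sub p (1 / 2) := he.sub hM12
  have h0 := he.h0
  have h1 : ∀ e, p e ≤ 1 := fun e => (he.h1 e).trans (hM12.trans (by norm_num))
  obtain ⟨hl0, hl1⟩ := V3_l hl
  have hB := BB_one
  have hB2 : 1 ≤ BB ^ 2 := one_le_pow₀ hB
  set R : ℝ := Real.sqrt (M * (K + 1)) with hR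
  have hMK : 0 ≤ M * (K + 1) := by positivity
  have hR0 : 0 ≤ R := Real.sqrt_nonneg _
  have hRsq : R ^ 2 = M * (K + 1) := Real.sq_sqrt hMK
  have hN0 : 0 ≤ Real.sqrt (nsq e) := Real.sqrt_nonneg _
  set A : Finset (I × J) → ℝ := fun E => ∑ j, (∑ i, p (i, j) * e i) * (Yj j E - l) with hA
  set Cf : Finset (I × J) → ℝ := fun E => ∑ i, e i * (1 - ∑ j, p (i, j)) with hCf
  set Kf : Finset (I × J) → ℝ := fun E => ∑ i, e i * kl p i E with hKf
  set Wf : Finset (I × J) → ℝ := fun E => ∑ i, e i * (Ut p i E - l + l * tt p l i E) with hWf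
  have hid : Ex p (fun E => (∑ i, e i * (Ut p i E - l)) ^ 2) =
      Ex p (fun E => ((-l) * A E + (l ^ 2 * Cf E + ((-l) * Kf E + Wf E))) ^ 2) :=
    Ex_congr p (fun E => by rw [V3_id p l e E])
  -- the constant part
  have bC : Real.sqrt (Ex p (fun E => Cf E ^ 2)) ≤ 2 * R * Real.sqrt (nsq e) := by
    have h := V3_cs h0 h1 e hS (fun i _ => 1 - ∑ j, p (i, j)) (B := 4 * M) (by
      simp only [Ex_const]
      exact he.dS)
    refine h.trans (mul_le_mul_of_nonneg_right ?_ hN0)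
    rw [Real.sqrt_le_left (by positivity)]
    rw [mul_pow, hRsq]
    nlinarith
  -- the killed mass
  have bK : Real.sqrt (Ex p (fun E => Kf E ^ 2)) ≤ (BB ^ 2 * R) * Real.sqrt (nsq e) := by
    have h := V3_cs h0 h1 e hS (fun i => kl p i) (B := M * BB * K) (by
      calc ∑ i ∈ S, Ex p (fun E => kl p i E ^ 2) ≤ ∑ i ∈ S, M * BB * nr p i :=
            Finset.sum_le_sum (fun i _ => kl_sq hsub he.h1 i)
        _ = M * BB * ∑ i ∈ S, nr p i := by rw [Finset.mul_sum]
        _ ≤ M * BB * K := mul_le_mul_of_nonneg_left (V3_nr_sum he) (by positivity))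
    refine h.trans (mul_le_mul_of_nonneg_right ?_ hN0)
    rw [Real.sqrt_le_left (by positivity)]
    rw [mul_pow, hRsq]
    have h4 : BB ≤ (BB ^ 2) ^ 2 := by nlinarith [mul_le_mul hB2 hB (by norm_num) (by positivity)]
    calc M * BB * K = BB * (M * K) := by ring
      _ ≤ (BB ^ 2) ^ 2 * (M * (K + 1)) := by
          apply mul_le_mul h4 _ (by positivity) (by positivity)
          nlinarith
  -- the quadratic part
  have bW : Real.sqrt (Ex p (fun E => Wf E ^ 2)) ≤ (142 * BB ^ 2 * R) * Real.sqrt (nsq e) := by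
    have h := V3_cs h0 h1 e hS (fun i E => Ut p i E - l + l * tt p l i E)
      (B := 20002 * BB ^ 4 * M * (K + 1)) (by
      calc ∑ i ∈ S, Ex p (fun E => (Ut p i E - l + l * tt p l i E) ^ 2)
          ≤ ∑ i ∈ S, (2 * Ex p (fun E => tt p l i E ^ 4) + 2 * (M * nr p i)) := by
            refine Finset.sum_le_sum (fun i _ => ?_)
            calc Ex p (fun E => (Ut p i E - l + l * tt p l i E) ^ 2)
                ≤ Ex p (fun E => 2 * tt p l i E ^ 4 + 2 * (M * nr p i)) := by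
                  refine Ex_mono h0 h1 (fun E => ?_)
                  have hw := Ut_lin hsub hl i E
                  have hn := V3_nr_nonneg p i
                  have hn2 : nr p i ^ 2 ≤ M * nr p i := by
                    rw [sq]
                    exact mul_le_mul_of_nonneg_right (V3_nr_le he i) hn
                  have h5 : (Ut p i E - l + l * tt p l i E) ^ 2 ≤
                      (tt p l i E ^ 2 + nr p i) ^ 2 := by
                    rw [← sq_abs (Ut p i E - l + l * tt p l i E)]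
                    exact pow_le_pow_left₀ (abs_nonneg _) hw 2
                  nlinarith [sq_nonneg (tt p l i E ^ 2 - nr p i)]
              _ = 2 * Ex p (fun E => tt p l i E ^ 4) + 2 * (M * nr p i) := by
                  rw [Ex_add, Ex_mul_left, Ex_const]
        _ = 2 * ∑ i ∈ S, Ex p (fun E => tt p l i E ^ 4) + 2 * (M * ∑ i ∈ S, nr p i) := by
            rw [Finset.sum_add_distrib, ← Finset.mul_sum, ← Finset.mul_sum, ← Finset.mul_sum]
        _ ≤ 2 * (10000 * BB ^ 4 * M * (K + 1)) + 2 * (M * K) := by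
            have := tt_four_sum hl he hs
            have h6 := mul_le_mul_of_nonneg_left (V3_nr_sum he) hM0
            linarith
        _ ≤ 20002 * BB ^ 4 * M * (K + 1) := by
            have hB4 : 1 ≤ BB ^ 4 := one_le_pow₀ hB
            have h7 : M * K ≤ BB ^ 4 * (M * (K + 1)) := by
              calc M * K ≤ 1 * (M * (K + 1)) := by nlinarith
                _ ≤ BB ^ 4 * (M * (K + 1)) := mul_le_mul_of_nonneg_right hB4 hMK
            nlinarith)
    refine h.trans (mul_le_mul_of_nonneg_right ?_ hN0)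
    rw [Real.sqrt_le_left (by positivity)]
    rw [mul_pow, hRsq]
    have : 0 ≤ BB ^ 4 * (M * (K + 1)) := by positivity
    nlinarith
  rw [hid]
  have m1 := Ex_mink h0 h1 (fun E => (-l) * A E) (fun E => l ^ 2 * Cf E + ((-l) * Kf E + Wf E))
  have m2 := Ex_mink h0 h1 (fun E => l ^ 2 * Cf E) (fun E => (-l) * Kf E + Wf E)
  have m3 := Ex_mink h0 h1 (fun E => (-l) * Kf E) Wf
  simp only [V3_scale] at m1 m2 m3
  rw [abs_neg, abs_of_pos hl0] at m1 m3
  rw [abs_of_nonneg (sq_nonneg l)] at m2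
  have q1 : l ^ 2 * Real.sqrt (Ex p (fun E => Cf E ^ 2)) ≤ 1 * (2 * R * Real.sqrt (nsq e)) :=
    mul_le_mul (by nlinarith) bC (Real.sqrt_nonneg _) (by norm_num)
  have q2 : l * Real.sqrt (Ex p (fun E => Kf E ^ 2)) ≤ 1 * ((BB ^ 2 * R) * Real.sqrt (nsq e)) :=
    mul_le_mul hl1 bK (Real.sqrt_nonneg _) (by norm_num)
  have q3 : R * Real.sqrt (nsq e) ≤ BB ^ 2 * R * Real.sqrt (nsq e) := by
    have : 0 ≤ R * Real.sqrt (nsq e) := by positivity
    nlinarith
  have q4 : 0 ≤ BB ^ 2 * R * Real.sqrt (nsq e) := by positivity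
  linarith

end Pool.JN
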