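import Pool.Agent.JN.V1
import Pool.Agent.JN.V2
import Pool.Agent.JN.V3

/-! Module V4 (difficulty 3). The variance lemma with constant 1/2. -/

namespace Pool.JN

open Finset Pool.KS

set_option linter.unusedSectionVars false

variable {I J : Type*} [Fintype I] [Fintype J] [DecidableEq I] [DecidableEq J]

/-- the rows satisfy the variance bound with constant `v` -/
def VR (p : I × J → ℝ) (S : Finset I) (l v : ℝ) : Prop :=
  ∀ e : I → ℝ, (∀ i, i ∉ S → e i = 0) →
    Ex p (fun E => (∑ i, e i * (Xi i E - l)) ^ 2) ≤ v * nsq e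

/-- the columns satisfy the variance bound with constant `v` -/
def VC (p : I × J → ℝ) (T : Finset J) (l v : ℝ) : Prop :=
  ∀ d : J → ℝ, (∀ j, j ∉ T → d j = 0) →
    Ex p (fun E => (∑ j, d j * (Yj j E - l)) ^ 2) ≤ v * nsq d

theorem Xi_tr (j : J) (E : Finset (I × J)) : Xi j (tr E) = Yj j E := by
  unfold Xi Yj
  rw [Lm_tr]

theorem Yj_tr (i : I) (E : Finset (I × J)) : Yj i (tr E) = Xi i E := by
  unfold Xi Yj
  rw [Rm_tr]

theorem VC_tr {p : I × J → ℝ} {T : Finset J} {l v : ℝ} (h : VR (pt p) T l v) : VC p T l v := by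
  intro d hd
  have h1 := h d hd
  rw [← Ex_tr] at h1
  simp only [Xi_tr] at h1
  exact h1

theorem VC_pt {p : I × J → ℝ} {S : Finset I} {l v : ℝ} (h : VR p S l v) : VC (pt p) S l v := by
  intro e he
  have h1 := h e he
  rw [← Ex_tr]
  simp only [Yj_tr]
  exact h1

/-- the improved constant -/
noncomputable def phi (l M K v : ℝ) : ℝ :=
  l ^ 2 + (l * Real.sqrt v + 200 * BB ^ 2 * Real.sqrt (M * (K + 1))) ^ 2 +
    70 * BB ^ 2 * Real.sqrt M

theorem half_step {p : I × J → ℝ} {S : Finset I} {T : Finset J} {M K l v : ℝ}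
    (hl : Real.exp (-l) = l) (he : Env p S T M K) (hs : Small M K) (hv : 0 ≤ v)
    (hC : VC p T l v) : VR p S l (phi l M K v) := by
  intro e hS
  have hl0 : 0 < l := by rw [← hl]; exact Real.exp_pos _
  have hM := hs.M_le he.M0 he.K0
  have hM2 : M ≤ 1 := by linarith
  have h1 : ∀ x, p x ≤ 1 := fun x => (he.h1 x).trans hM2
  have hn0 : 0 ≤ nsq e := Finset.sum_nonneg (fun _ _ => sq_nonneg _)
  have s1 := v_step1 hl he.h0 h1 e
  have s2 := v_step2 he hs l (Ut_four hl he hs) e hS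
  have s3 := v_step3 hl he hs e hS
  set X := Ex p (fun E => (∑ i, e i * (Ut p i E - l)) ^ 2) with hX
  set ε := 200 * BB ^ 2 * Real.sqrt (M * (K + 1)) with hε
  have hε0 : 0 ≤ ε := by
    have := BB_one
    positivity
  have hX0 : 0 ≤ X := Ex_nonneg he.h0 h1 (fun E => sq_nonneg _)
  have h2 := hC (fun j => ∑ i, p (i, j) * e i) (fun j hj => Finset.sum_eq_zero (fun i _ => by
    rw [he.zT j hj i, zero_mul]))
  have h3 : nsq (fun j => ∑ i, p (i, j) * e i) ≤ nsq e := schur p he.h0 he.hr he.hc e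
  have h4 : Ex p (fun E => (∑ j, (∑ i, p (i, j) * e i) * (Yj j E - l)) ^ 2) ≤ v * nsq e :=
    h2.trans (mul_le_mul_of_nonneg_left h3 hv)
  have h5 : Real.sqrt X ≤ (l * Real.sqrt v + ε) * Real.sqrt (nsq e) := by
    have h6 := Real.sqrt_le_sqrt h4
    rw [Real.sqrt_mul hv] at h6
    have h7 := mul_le_mul_of_nonneg_left h6 hl0.le
    calc Real.sqrt X ≤ _ := s3
      _ ≤ l * (Real.sqrt v * Real.sqrt (nsq e)) + ε * Real.sqrt (nsq e) := by linarith
      _ = _ := by ring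
  have h6 : X ≤ (l * Real.sqrt v + ε) ^ 2 * nsq e := by
    have h7 := pow_le_pow_left₀ (Real.sqrt_nonneg _) h5 2
    rw [Real.sq_sqrt hX0, mul_pow, Real.sq_sqrt hn0] at h7
    exact h7
  unfold phi
  have h8 : (l ^ 2 + (l * Real.sqrt v + ε) ^ 2 + 70 * BB ^ 2 * Real.sqrt M) * nsq e =
      l ^ 2 * nsq e + (l * Real.sqrt v + ε) ^ 2 * nsq e + 70 * BB ^ 2 * Real.sqrt M * nsq e := by
    ring
  rw [← hε, h8]
  linarith

theorem full_step {p : I × J → ℝ} {S : Finset I} {T : Finset J} {M K l v : ℝ}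
    (hl : Real.exp (-l) = l) (he : Env p S T M K) (hs : Small M K) (hv : 0 ≤ v)
    (hR : VR p S l v) (hC : VC p T l v) :
    VR p S l (phi l M K v) ∧ VC p T l (phi l M K v) :=
  ⟨half_step hl he hs hv hC, VC_tr (half_step hl he.tr hs hv (VC_pt hR))⟩

theorem VR_start {p : I × J → ℝ} {l : ℝ} (hl0 : 0 ≤ l) (hl1 : l ≤ 1) (h0 : ∀ e, 0 ≤ p e)
    (h1 : ∀ e, p e ≤ 1) (S : Finset I) : VR p S l (Fintype.card I) := by
  intro e _
  have h2 : ∀ E : Finset (I × J), (∑ i, e i * (Xi i E - l)) ^ 2 ≤ (Fintype.card I : ℝ) * nsq e := by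
    intro E
    have h3 : (∑ i, e i * (Xi i E - l)) ^ 2 ≤
        (Fintype.card I : ℝ) * ∑ i, (e i * (Xi i E - l)) ^ 2 := by
      have := sq_sum_le_card_mul_sum_sq (s := (univ : Finset I)) (f := fun i => e i * (Xi i E - l))
      rwa [Finset.card_univ] at this
    refine h3.trans (mul_le_mul_of_nonneg_left ?_ (Nat.cast_nonneg _))
    refine Finset.sum_le_sum (fun i _ => ?_)
    rw [mul_pow]
    have h4 : (Xi i E - l) ^ 2 ≤ 1 := by
      unfold Xi
      split_ifs <;> nlinarith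
    have := sq_nonneg (e i)
    nlinarith
  refine (Ex_mono h0 h1 h2).trans ?_
  rw [Ex_const]

theorem phi_fix {l M K v : ℝ} (hl : Real.exp (-l) = l) (hs : Small M K) (hM0 : 0 ≤ M)
    (hK0 : 0 ≤ K) (hv : 0 ≤ v) (h : v ≤ phi l M K v) : v ≤ 1 / 2 := by
  by_contra hcon
  push Not at hcon
  have hB := BB_one
  have hlo := lam_lo hl
  have hhi := lam_hi hl
  set s := Real.sqrt v with hsd
  have hs0 : 0 ≤ s := Real.sqrt_nonneg _
  have hsv : s ^ 2 = v := Real.sq_sqrt hv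
  set r := Real.sqrt (M * (K + 1)) with hr
  have hr0 : 0 ≤ r := Real.sqrt_nonneg _
  have hMr : Real.sqrt M ≤ r := Real.sqrt_le_sqrt (by nlinarith)
  have hM0' : 0 ≤ Real.sqrt M := Real.sqrt_nonneg _
  have hB2 : BB ^ 2 ≤ BB ^ 3 := pow_le_pow_right₀ hB (by norm_num)
  have hB20 : 0 ≤ BB ^ 2 := by positivity
  have hsm : 100000 * (BB ^ 3 * r) ≤ 1 := by
    unfold Small at hs
    rw [← hr] at hs
    linarith
  have h1 : BB ^ 2 * r ≤ 1 / 100000 := by
    have := mul_le_mul_of_nonneg_right hB2 hr0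
    linarith
  have h2 : BB ^ 2 * Real.sqrt M ≤ 1 / 100000 :=
    (mul_le_mul_of_nonneg_left hMr hB20).trans h1
  have h10 : 0 ≤ BB ^ 2 * r := mul_nonneg hB20 hr0
  unfold phi at h
  rw [← hsd, ← hr] at h
  set x := 200 * BB ^ 2 * r with hx
  have hx0 : 0 ≤ x := by rw [hx]; positivity
  have hx1 : x ≤ 1 / 500 := by rw [hx]; linarith
  have h3 : s ^ 2 ≤ l ^ 2 + (l * s + x) ^ 2 + 70 / 100000 := by
    rw [hsv]
    linarith
  have hs1 : 707 / 1000 < s := by
    by_contra h4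
    push Not at h4
    nlinarith
  have hl2 : l ^ 2 ≤ 3217 / 10000 := by nlinarith
  have h5 : (l * s + x) ^ 2 ≤ 3217 / 10000 * s ^ 2 + 23 / 10000 * s + 1 / 250000 := by
    have e1 : (l * s + x) ^ 2 = l ^ 2 * s ^ 2 + 2 * (l * x) * s + x ^ 2 := by ring
    have e2 : l * x ≤ 115 / 100000 := by nlinarith
    have e3 : x ^ 2 ≤ 1 / 250000 := by nlinarith
    have e4 : l ^ 2 * s ^ 2 ≤ 3217 / 10000 * s ^ 2 := mul_le_mul_of_nonneg_right hl2 (sq_nonneg _)
    have e5 : l * x * s ≤ 115 / 100000 * s := mul_le_mul_of_nonneg_right e2 hs0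
    rw [e1]
    linarith
  nlinarith

theorem v_both {p : I × J → ℝ} {S : Finset I} {T : Finset J} {M K l : ℝ}
    (hl : Real.exp (-l) = l) (he : Env p S T M K) (hs : Small M K) :
    VR p S l (1 / 2) ∧ VC p T l (1 / 2) := by
  have hl0 : 0 < l := by rw [← hl]; exact Real.exp_pos _
  have hl1 : l ≤ 1 := by rw [← hl, Real.exp_le_one_iff]; linarith
  have hM := hs.M_le he.M0 he.K0
  have hM2 : M ≤ 1 := by linarith
  have h1 : ∀ x, p x ≤ 1 := fun x => (he.h1 x).trans hM2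
  have hB := BB_one
  set A : Set ℝ := {v | 0 ≤ v ∧ VR p S l v ∧ VC p T l v} with hA
  have hmono : ∀ v w : ℝ, v ≤ w → VR p S l v ∧ VC p T l v → VR p S l w ∧ VC p T l w := by
    intro v w hvw ⟨h2, h3⟩
    refine ⟨fun e hS => (h2 e hS).trans (mul_le_mul_of_nonneg_right hvw
      (Finset.sum_nonneg (fun _ _ => sq_nonneg _))), fun d hT => (h3 d hT).trans
      (mul_le_mul_of_nonneg_right hvw (Finset.sum_nonneg (fun _ _ => sq_nonneg _)))⟩
  have hne : ((Fintype.card I : ℝ) + Fintype.card J) ∈ A := by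
    have h2 : (0 : ℝ) ≤ Fintype.card I := Nat.cast_nonneg _
    have h3 : (0 : ℝ) ≤ Fintype.card J := Nat.cast_nonneg _
    refine ⟨by linarith, ?_, ?_⟩
    · have h4 := VR_start hl0.le hl1 he.h0 h1 S
      intro e hS
      refine (h4 e hS).trans (mul_le_mul_of_nonneg_right (by linarith)
        (Finset.sum_nonneg (fun _ _ => sq_nonneg _)))
    · have h4 := VC_tr (VR_start hl0.le hl1 (p := pt p) (fun _ => he.h0 _) (fun _ => h1 _) T)
      intro d hT
      refine (h4 d hT).trans (mul_le_mul_of_nonneg_right (by linarith)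
        (Finset.sum_nonneg (fun _ _ => sq_nonneg _)))
  have hbdd : BddBelow A := ⟨0, fun v hv => hv.1⟩
  set v0 := sInf A with hv0
  have hv00 : 0 ≤ v0 := le_csInf ⟨_, hne⟩ (fun v hv => hv.1)
  -- closedness
  have key : ∀ (x n : ℝ), 0 ≤ n → (∀ v ∈ A, x ≤ v * n) → x ≤ v0 * n := by
    intro x n hn hx
    rcases hn.eq_or_lt with h2 | h2
    · have h3 := hx _ hne
      rw [← h2, mul_zero] at h3 ⊢
      exact h3
    · rw [← div_le_iff₀ h2]
      refine le_csInf ⟨_, hne⟩ (fun v hv => ?_)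
      rw [div_le_iff₀ h2]
      exact hx v hv
  have hval : VR p S l v0 ∧ VC p T l v0 := by
    refine ⟨fun e hS => ?_, fun d hT => ?_⟩
    · exact key _ _ (Finset.sum_nonneg (fun _ _ => sq_nonneg _)) (fun v hv => hv.2.1 e hS)
    · exact key _ _ (Finset.sum_nonneg (fun _ _ => sq_nonneg _)) (fun v hv => hv.2.2 d hT)
  have hstep := full_step hl he hs hv00 hval.1 hval.2
  have hphi0 : 0 ≤ phi l M K v0 := by
    unfold phi
    positivity
  have hle : v0 ≤ phi l M K v0 := csInf_le hbdd ⟨hphi0, hstep⟩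
  exact hmono _ _ (phi_fix hl hs he.M0 he.K0 hv00 hle) hval

theorem v_lemma {p : I × J → ℝ} {S : Finset I} {T : Finset J} {M K l : ℝ}
    (hl : Real.exp (-l) = l) (he : Env p S T M K) (hs : Small M K) (e : I → ℝ)
    (hS : ∀ i, i ∉ S → e i = 0) :
    Ex p (fun E => (∑ i, e i * (Xi i E - l)) ^ 2) ≤ 1 / 2 * nsq e :=
  (v_both hl he hs).1 e hS

theorem v_lemma_col {p : I × J → ℝ} {S : Finset I} {T : Finset J} {M K l : ℝ}
    (hl : Real.exp (-l) = l) (he : Env p S T M K) (hs : Small M K) (d : J → ℝ)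
    (hT : ∀ j, j ∉ T → d j = 0) :
    Ex p (fun E => (∑ j, d j * (Yj j E - l)) ^ 2) ≤ 1 / 2 * nsq d :=
  (v_both hl he hs).2 d hT

end Pool.JN
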