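import Pool.Agent.JN.Ti
import Pool.Agent.JN.Ts
import Pool.Agent.JN.Tc
import Pool.Agent.JN.Tl
import Pool.Agent.JN.V4

/-! Module Tk (difficulty 3). Averaging two different rows strictly decreases F. -/

namespace Pool.JN

open Finset Pool.KS

set_option linter.unusedSectionVars false

variable {I J : Type*} [Fintype I] [Fintype J] [DecidableEq I] [DecidableEq J]

theorem zz_eq (p : I × J → ℝ) (i k : I) (i' : I) (j : J) :
    zr (zr p i) k (i', j) = if i' = i ∨ i' = k then 0 else p (i', j) := by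
  unfold zr
  by_cases h1 : i' = k
  · simp [h1]
  · by_cases h2 : i' = i
    · simp [h2]
    · simp [h1, h2]

theorem sq_sum_le {κ : Type*} [Fintype κ] {a : κ → ℝ} {M : ℝ} (h0 : ∀ j, 0 ≤ a j)
    (h1 : ∀ j, a j ≤ M) (hs : ∑ j, a j ≤ 1) (hM : 0 ≤ M) : ∑ j, a j ^ 2 ≤ M := by
  have h2 : ∑ j, a j ^ 2 ≤ ∑ j, M * a j := by
    refine Finset.sum_le_sum (fun j _ => ?_)
    rw [sq]
    exact mul_le_mul_of_nonneg_right (h1 j) (h0 j)
  rw [← Finset.mul_sum] at h2
  nlinarith

theorem env_two {p : I × J → ℝ} {M K : ℝ} (hM0 : 0 ≤ M) (hK0 : 0 ≤ K) (h0 : ∀ e, 0 ≤ p e)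
    (h1 : ∀ e, p e ≤ M) (hr : ∀ i, ∑ j, p (i, j) = 1) (hc : ∀ j, ∑ i, p (i, j) = 1)
    (hsq : ∑ i, ∑ j, p (i, j) ^ 2 ≤ K) {i k : I} (h : k ≠ i) :
    Env (zr (zr p i) k) ((univ.erase i).erase k) univ M K := by
  have hle : ∀ i' j, zr (zr p i) k (i', j) ≤ p (i', j) := by
    intro i' j
    rw [zz_eq]
    split_ifs
    · exact h0 _
    · exact le_rfl
  have hge : ∀ i' j, 0 ≤ zr (zr p i) k (i', j) := by
    intro i' j
    rw [zz_eq]
    split_ifs
    · exact le_rfl
    · exact h0 _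
  have hrow : ∀ i' ∈ (univ.erase i).erase k, ∀ j, zr (zr p i) k (i', j) = p (i', j) := by
    intro i' hi' j
    rw [Finset.mem_erase, Finset.mem_erase] at hi'
    rw [zz_eq, if_neg]
    rintro (h2 | h2)
    · exact hi'.2.1 h2
    · exact hi'.1 h2
  have hcol : ∀ j, ∑ i', zr (zr p i) k (i', j) = 1 - p (i, j) - p (k, j) := by
    intro j
    rw [← hc j]
    have e1 : ∀ i' : I, zr (zr p i) k (i', j) = p (i', j) - (if i' = i then p (i, j) else 0) -
        (if i' = k then p (k, j) else 0) := by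
      intro i'
      rw [zz_eq]
      by_cases h2 : i' = i
      · subst h2
        rw [if_pos (Or.inl rfl), if_pos rfl, if_neg h.symm]
        ring
      · by_cases h3 : i' = k
        · subst h3
          rw [if_pos (Or.inr rfl), if_neg h2, if_pos rfl]
          ring
        · rw [if_neg (by tauto), if_neg h2, if_neg h3]
          ring
    rw [Finset.sum_congr rfl (fun i' _ => e1 i'), Finset.sum_sub_distrib,
      Finset.sum_sub_distrib, Finset.sum_ite_eq', Finset.sum_ite_eq',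
      if_pos (Finset.mem_univ i), if_pos (Finset.mem_univ k)]
  refine ⟨hM0, hK0, fun e => hge e.1 e.2, fun e => (hle e.1 e.2).trans (h1 _), ?_, ?_, ?_, ?_,
    ?_, ?_, ?_, ?_, ?_⟩
  · intro i' hi' j
    rw [zz_eq, if_pos]
    rw [Finset.mem_erase, Finset.mem_erase] at hi'
    push Not at hi'
    by_cases h2 : i' = k
    · exact Or.inr h2
    · by_cases h3 : i' = i
      · exact Or.inl h3
      · exact absurd (Finset.mem_univ i') (hi' h2 h3)
  · intro j hj
    exact absurd (Finset.mem_univ j) hj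
  · intro i'
    exact (Finset.sum_le_sum (fun j _ => hle i' j)).trans (hr i').le
  · intro j
    exact (Finset.sum_le_sum (fun i' _ => hle i' j)).trans (hc j).le
  · intro i' hi'
    rw [Finset.sum_congr rfl (fun j _ => hrow i' hi' j), hr i']
    linarith
  · intro j _
    rw [hcol j]
    have := h1 (i, j)
    have := h1 (k, j)
    linarith
  · have e1 : ∑ i' ∈ (univ.erase i).erase k, (1 - ∑ j, zr (zr p i) k (i', j)) ^ 2 = 0 := by
      refine Finset.sum_eq_zero (fun i' hi' => ?_)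
      rw [Finset.sum_congr rfl (fun j _ => hrow i' hi' j), hr i']
      norm_num
    rw [e1]
    linarith
  · have e1 : ∑ j, (1 - ∑ i', zr (zr p i) k (i', j)) ^ 2 ≤
        ∑ j, (2 * p (i, j) ^ 2 + 2 * p (k, j) ^ 2) := by
      refine Finset.sum_le_sum (fun j _ => ?_)
      rw [hcol j]
      nlinarith [sq_nonneg (p (i, j) - p (k, j))]
    rw [Finset.sum_add_distrib, ← Finset.mul_sum, ← Finset.mul_sum] at e1
    have e2 := sq_sum_le (fun j => h0 (i, j)) (fun j => h1 (i, j)) (hr i).le hM0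
    have e3 := sq_sum_le (fun j => h0 (k, j)) (fun j => h1 (k, j)) (hr k).le hM0
    linarith
  · refine le_trans (Finset.sum_le_sum (fun i' _ => Finset.sum_le_sum (fun j _ => ?_))) hsq
    exact pow_le_pow_left₀ (hge i' j) (hle i' j) 2

theorem avg_lt {p : I × J → ℝ} {M K l : ℝ} (hl : Real.exp (-l) = l) (hM0 : 0 ≤ M)
    (hK0 : 0 ≤ K) (hs : Small M K) (h0 : ∀ e, 0 ≤ p e) (h1 : ∀ e, p e ≤ M)
    (hr : ∀ i, ∑ j, p (i, j) = 1) (hc : ∀ j, ∑ i, p (i, j) = 1)
    (hsq : ∑ i, ∑ j, p (i, j) ^ 2 ≤ K) {i k : I} (h : k ≠ i) (hne : ∃ j, p (i, j) ≠ p (k, j)) :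
    Ex (av2 p i k) (fun E => (nu E : ℝ)) < Ex p (fun E => (nu E : ℝ)) := by
  have hM := hs.M_le hM0 hK0
  have hB := BB_one
  have hlo := lam_lo hl
  have hhi := lam_hi hl
  have he := env_two hM0 hK0 h0 h1 hr hc hsq h
  set q := zr (zr p i) k with hq
  have hq1 : ∀ e, q e ≤ 1 := fun e => (he.h1 e).trans (by linarith)
  set a : J → ℝ := fun j => p (i, j) with ha
  set b : J → ℝ := fun j => p (k, j) with hb
  set m : J → ℝ := fun j => (p (i, j) + p (k, j)) / 2 with hm
  set D : J → ℝ := fun j => (p (i, j) - p (k, j)) / 2 with hD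
  set δ : J → ℝ := fun j => D j / (1 - m j) with hδ
  have hm0 : ∀ j, 0 ≤ m j := fun j => by
    have := h0 (i, j)
    have := h0 (k, j)
    simp only [hm]
    linarith
  have hmM : ∀ j, m j ≤ M := fun j => by
    have := h1 (i, j)
    have := h1 (k, j)
    simp only [hm]
    linarith
  have hmsum : ∑ j, m j = 1 := by
    simp only [hm]
    rw [← Finset.sum_div, Finset.sum_add_distrib, hr i, hr k]
    norm_num
  have hDsum : ∑ j, D j = 0 := by
    simp only [hD]
    rw [← Finset.sum_div, Finset.sum_sub_distrib, hr i, hr k]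
    norm_num
  set N := nsq D with hN
  have hN0 : 0 < N := by
    obtain ⟨j, hj⟩ := hne
    have h2 : 0 < D j ^ 2 := by
      have : D j ≠ 0 := by
        simp only [hD]
        intro h3
        apply hj
        linarith
      positivity
    exact h2.trans_le (Finset.single_le_sum (f := fun j => D j ^ 2) (fun j _ => sq_nonneg _)
      (Finset.mem_univ j))
  have hNM : N ≤ M := by
    have h2 : N ≤ ∑ j, (a j ^ 2 / 2 + b j ^ 2 / 2) := by
      rw [hN]
      refine Finset.sum_le_sum (fun j _ => ?_)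
      simp only [hD, ha, hb]
      nlinarith [sq_nonneg (p (i, j) + p (k, j))]
    rw [Finset.sum_add_distrib, ← Finset.sum_div, ← Finset.sum_div] at h2
    have e2 := sq_sum_le (fun j => h0 (i, j)) (fun j => h1 (i, j)) (hr i).le hM0
    have e3 := sq_sum_le (fun j => h0 (k, j)) (fun j => h1 (k, j)) (hr k).le hM0
    simp only [ha, hb] at h2
    linarith
  have hnδ : nsq δ ≤ (1 + 3 * M) * N := by
    rw [hN]
    unfold nsq
    rw [Finset.mul_sum]
    refine Finset.sum_le_sum (fun j _ => ?_)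
    simp only [hδ]
    have h2 : 0 < 1 - m j := by have := hmM j; linarith
    rw [div_pow, div_le_iff₀ (by positivity)]
    have h3 : 1 ≤ (1 + 3 * M) * (1 - m j) ^ 2 := by
      have h4 : (1 - M) ^ 2 ≤ (1 - m j) ^ 2 :=
        pow_le_pow_left₀ (by linarith) (by linarith [hmM j]) 2
      have h5 : 1 ≤ (1 + 3 * M) * (1 - M) ^ 2 := by
        have g1 : 0 ≤ M * (1 - 5 * M) := mul_nonneg hM0 (by linarith)
        have g2 : 0 ≤ M ^ 3 := by positivity
        have g3 : (1 + 3 * M) * (1 - M) ^ 2 = 1 + M * (1 - 5 * M) + 3 * M ^ 3 := by ring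
        rw [g3]
        linarith
      have h6 : (0 : ℝ) ≤ 1 + 3 * M := by linarith
      nlinarith
    have h7 := sq_nonneg (D j)
    nlinarith
  have hδsum : |∑ j, δ j| ≤ 2 * Real.sqrt M * Real.sqrt N := by
    have h2 : ∑ j, δ j = ∑ j, D j * (m j / (1 - m j)) := by
      have h3 : ∀ j, δ j = D j + D j * (m j / (1 - m j)) := by
        intro j
        have h4 : (1 - m j) ≠ 0 := by have := hmM j; intro h5; linarith
        simp only [hδ]
        field_simp
        ring
      rw [Finset.sum_congr rfl (fun j _ => h3 j), Finset.sum_add_distrib, hDsum, zero_add]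
    rw [h2]
    have h3 : (∑ j, D j * (m j / (1 - m j))) ^ 2 ≤ (2 * Real.sqrt M * Real.sqrt N) ^ 2 := by
      have h4 := Finset.sum_mul_sq_le_sq_mul_sq (univ : Finset J) D (fun j => m j / (1 - m j))
      refine h4.trans ?_
      have h5 : ∑ j, (m j / (1 - m j)) ^ 2 ≤ 4 * M := by
        have h6 : ∑ j, (m j / (1 - m j)) ^ 2 ≤ ∑ j, 4 * m j ^ 2 := by
          refine Finset.sum_le_sum (fun j _ => ?_)
          have h7 : 0 < 1 - m j := by have := hmM j; linarith
          rw [div_pow, div_le_iff₀ (by positivity)]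
          have h8 : 1 ≤ 4 * (1 - m j) ^ 2 := by
            have := hmM j
            nlinarith
          have h9 := sq_nonneg (m j)
          nlinarith
        rw [← Finset.mul_sum] at h6
        have h7 := sq_sum_le hm0 hmM hmsum.le hM0
        linarith
      have h6 : (2 * Real.sqrt M * Real.sqrt N) ^ 2 = 4 * M * N := by
        rw [mul_pow, mul_pow, Real.sq_sqrt hM0, Real.sq_sqrt hN0.le]
        ring
      rw [h6]
      have h7 : ∑ j, D j ^ 2 = N := rfl
      rw [h7]
      nlinarith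
    exact abs_le_of_sq_le_sq h3 (by positivity)
  have hv := v_lemma_col hl he hs δ (fun j hj => absurd (Finset.mem_univ j) hj)
  have t1 := s_up hl he hs m hm0 hmM hmsum δ hN0.le hNM hnδ hδsum hv
  have t2 := Um_low hl he hs m hm0 hmM hmsum (fun j => D j ^ 2) (fun j => sq_nonneg _)
  -- the pointwise bound
  have hM100 : M ≤ 1 / 100 := by linarith
  have hpt : ∀ E : Finset (I × J),
      (1 - 2 * M) * (Ua m (Rm E) * ∑ j ∈ Rm E, D j ^ 2) -
        Ua m (Rm E) * (LR δ E ^ 2 + LR δ E ^ 4 / 10) -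
        3 * M * ∑ j ∈ Rm E, D j ^ 2 * ((cls E j).card : ℝ) ≤
      (2 * Ua m (Rm E) - Ua a (Rm E) - Ua b (Rm E)) +
        ∑ c : Finset J, (ka m E c ^ 2 - ka a E c * ka b E c) := by
    intro E
    have u1 := two_U a b hM0 hM100 (fun j => h0 _) (fun j => h0 _) (fun j => h1 _)
      (fun j => h1 _) (hr i).le (hr k).le (Rm E)
    have u2 := class_term a b hM0 hM100 (fun j => h0 _) (fun j => h0 _) (fun j => h1 _)
      (fun j => h1 _) E
    have e1 : (fun j => (a j + b j) / 2) = m := rfl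
    have e2 : ∑ j ∈ Rm E, ((a j - b j) / 2) ^ 2 = ∑ j ∈ Rm E, D j ^ 2 := rfl
    have e3 : ∑ j ∈ Rm E, ((a j - b j) / 2) / (1 - (a j + b j) / 2) = LR δ E := rfl
    have e4 : ∑ j ∈ Rm E, ((a j - b j) / 2) ^ 2 * ((cls E j).card : ℝ) =
      ∑ j ∈ Rm E, D j ^ 2 * ((cls E j).card : ℝ) := rfl
    rw [e1, e2, e3] at u1
    rw [e1, e4] at u2
    linarith
  have hF := F_diff p h
  rw [← hq] at hF
  have e5 : (fun j => (p (i, j) + p (k, j)) / 2) = m := rfl
  have e6 : (fun j => p (i, j)) = a := rfl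
  have e7 : (fun j => p (k, j)) = b := rfl
  rw [e5, e6, e7] at hF
  have hmain := Ex_mono he.h0 hq1 hpt
  rw [← hF, Ex_sub, Ex_sub, Ex_mul_left, Ex_mul_left] at hmain
  -- the class term
  have t3 : Ex q (fun E => ∑ j ∈ Rm E, D j ^ 2 * ((cls E j).card : ℝ)) ≤ BB * N := by
    have h2 : ∀ E : Finset (I × J), ∑ j ∈ Rm E, D j ^ 2 * ((cls E j).card : ℝ) =
        ∑ j, D j ^ 2 * (if j ∈ Rm E then ((cls E j).card : ℝ) ^ 1 else 0) := by
      intro E
      simp only [mul_ite, mul_zero, pow_one]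
      rw [← Finset.sum_filter]
      exact Finset.sum_congr (by ext j; simp) (fun _ _ => rfl)
    rw [Ex_congr q h2, Ex_sum, hN]
    unfold nsq
    rw [Finset.mul_sum]
    refine Finset.sum_le_sum (fun j _ => ?_)
    rw [Ex_mul_left, mul_comm]
    exact mul_le_mul_of_nonneg_right (cls_BB (he.sub (by linarith)) 1 le_rfl (by norm_num) j)
      (sq_nonneg _)
  have e8 : ∑ j, D j ^ 2 = N := rfl
  rw [e8] at t2
  -- numbers
  set r := Real.sqrt (M * (K + 1)) with hr'
  have hr0 : 0 ≤ r := Real.sqrt_nonneg _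
  set sM := Real.sqrt M with hsM
  have hsM0 : 0 ≤ sM := Real.sqrt_nonneg _
  have hsMsq : sM ^ 2 = M := Real.sq_sqrt hM0
  have hMr : sM ≤ r := Real.sqrt_le_sqrt (by nlinarith)
  have hB3 : 1 ≤ BB ^ 3 := one_le_pow₀ hB
  have hsm : 100000 * (BB ^ 3 * r) ≤ 1 := by
    have h2 := hs
    unfold Small at h2
    rw [← hr'] at h2
    linarith
  have n1 : BB ^ 3 * sM ≤ 1 / 100000 := by
    have := mul_le_mul_of_nonneg_left hMr (by positivity : (0 : ℝ) ≤ BB ^ 3)
    linarith
  have n2 : BB ^ 2 * sM ≤ 1 / 100000 := by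
    have h2 : BB ^ 2 ≤ BB ^ 3 := pow_le_pow_right₀ hB (by norm_num)
    have := mul_le_mul_of_nonneg_right h2 hsM0
    linarith
  have n3 : BB * sM ≤ 1 / 100000 := by
    have h2 : BB ≤ BB ^ 3 := by
      have := pow_le_pow_right₀ hB (show 1 ≤ 3 by norm_num)
      rwa [pow_one] at this
    have := mul_le_mul_of_nonneg_right h2 hsM0
    linarith
  have n4 : sM ≤ 1 / 100000 := by nlinarith
  have n5 : BB * M ≤ 1 / 100000 := by
    rw [← hsMsq]
    have h2 : BB * sM ^ 2 = (BB * sM) * sM := by ring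
    rw [h2]
    have h3 : 0 ≤ BB * sM := by positivity
    nlinarith
  have hll : 38 / 1000 ≤ l ^ 2 - l / 2 := by nlinarith
  have hl1 : l ^ 2 ≤ 1 := by nlinarith
  have f1 : (1 - 2 * M) * ((l ^ 2 - 10 * BB * sM) * N) ≤
      (1 - 2 * M) * Ex q (fun E => Ua m (Rm E) * ∑ j ∈ Rm E, D j ^ 2) :=
    mul_le_mul_of_nonneg_left t2 (by linarith)
  have f2 : 3 * M * Ex q (fun E => ∑ j ∈ Rm E, D j ^ 2 * ((cls E j).card : ℝ)) ≤
      3 * M * (BB * N) := mul_le_mul_of_nonneg_left t3 (by linarith)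
  have f3 : 0 < ((1 - 2 * M) * (l ^ 2 - 10 * BB * sM) - (l / 2 + 300 * BB ^ 2 * sM) -
      3 * M * BB) * N := by
    refine mul_pos ?_ hN0
    have g1 : 0 ≤ M * (10 * BB * sM) := by positivity
    nlinarith
  nlinarith

end Pool.JN
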