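import Pool.Agent.JN.Mn
import Pool.Agent.JN.L2
import Pool.Agent.JN.Kl

/-! Module Tm (difficulty 3). Moments of t_i = tt p l i = p_i(Rm (dR i E)) - l.

PROOFS. By sum_dR: tt = sum_j p_ij (Yj_j - l) - l (1 - sum_j p_ij) + kl p i (for i ∈ S; p_ij = 0 for j ∉ T).
 (1) |Ex tt| <= sum_j p_ij |y_j - l| + 2 l M + BB nr_i <= 20 BB M + 2 M + BB M <= 30 BB M (mean_sup, rS, kl_bound, nr_i <= M).
 (2) sum_S (Ex tt_i)^2 <= 3 [sum_i (sum_j p_ij (y_j - l))^2 + l^2 sum_S (1 - sum_j p_ij)^2 + sum_S (BB nr_i)^2]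
     <= 3 [1000 BB^2 M(K+1) + 4 M + BB^2 M K] <= 5000 BB^2 M (K+1) (schur for pt p applied to (y_j - l) 1[j∈T]; dS; nr_i^2 <= M nr_i, sq).
 (3) Ex tt^4 <= 8 Ex (tt - Ex tt)^4 + 8 (Ex tt)^4 <= 800 BB^2 nr_i^2 + 8 (30 BB M)^4 (fourth_LR_zr with d = p_i; tt - Ex tt = LR (p_i)(dR i E) - Ex ...).
     M <= 10^-10 (Small.M_le), nr_i <= M: <= 10000 BB^4 M^2.
 (4) sum over S: 800 BB^2 sum nr_i^2 <= 800 BB^2 M K; 8 sum (Ex tt)^4 <= 8 (30 BB M)^2 * 5000 BB^2 M (K+1) <= BB^4 M (K+1).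
 (5) |Ut_i - l| <= |tt_i| + nr_i: U <= exp(-(l+t)), U >= exp(-(l+t)) - nr (U_exp), exp(-(l+t)) - l = l (exp(-t) - 1), t ∈ [-l, 1-l]:
     |l (exp(-t) - 1)| <= |t| (for t >= 0 it is <= l t; for t < 0: exp(-t) - 1 <= |t| exp |t| <= |t| exp l and l exp l = 1).
     (|t| + nr)^4 <= 8 t^4 + 8 nr^4.
 (6) w_i := Ut_i - l + l tt_i satisfies |w_i| <= tt_i^2 + nr_i (|exp(-t) - 1 + t| <= (t^2/2) exp |t| and l e/2 <= 1... use |t| <= 1, exp 1 <= 2.72, l <= .5672: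
     l * (1/2) * 2.72 = .772 <= 1).
-/

namespace Pool.JN

open Finset Pool.KS

set_option linter.unusedSectionVars false

variable {I J : Type*} [Fintype I] [Fintype J] [DecidableEq I] [DecidableEq J]

theorem tm_l {l : ℝ} (hl : Real.exp (-l) = l) : 0 < l ∧ l ≤ 1 := by
  have h0 : 0 < l := by
    rw [← hl]
    exact Real.exp_pos _
  refine ⟨h0, ?_⟩
  rw [← hl]
  exact Real.exp_le_one_iff.2 (by linarith)

theorem tm_nr_nonneg (p : I × J → ℝ) (i : I) : 0 ≤ nr p i :=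
  Finset.sum_nonneg (fun _ _ => sq_nonneg _)

theorem tm_nr_le {p : I × J → ℝ} {S : Finset I} {T : Finset J} {M K : ℝ} (he : Env p S T M K)
    (i : I) : nr p i ≤ M := by
  unfold nr
  calc ∑ j, p (i, j) ^ 2 ≤ ∑ j, M * p (i, j) := by
        refine Finset.sum_le_sum fun j _ => ?_
        rw [sq]
        exact mul_le_mul_of_nonneg_right (he.h1 _) (he.h0 _)
    _ = M * ∑ j, p (i, j) := by rw [Finset.mul_sum]
    _ ≤ M * 1 := mul_le_mul_of_nonneg_left (he.hr i) he.M0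
    _ = M := mul_one M

theorem tm_sub {p : I × J → ℝ} {S : Finset I} {T : Finset J} {M K : ℝ}
    (he : Env p S T M K) (hs : Small M K) : Sub p (1 / 2) := by
  refine he.sub ?_
  have := hs.M_le he.M0 he.K0
  linarith

theorem tm_Ex_kl {p : I × J → ℝ} (hp : Sub p (1 / 2)) (i : I) :
    0 ≤ Ex p (kl p i) ∧ Ex p (kl p i) ≤ BB * nr p i :=
  ⟨Ex_nonneg hp.h0 (fun e => (hp.h1 e).trans (by norm_num)) (fun E => kl_nonneg hp.h0 i E),
    kl_bound hp i⟩

theorem tm_Ex_tt (p : I × J → ℝ) (l : ℝ) (i : I) :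
    Ex p (tt p l i) = ∑ j, p (i, j) * (Ex p (Yj j) - l) - l * (1 - ∑ j, p (i, j)) +
      Ex p (kl p i) := by
  have h1 : ∀ E, tt p l i E = (∑ j, p (i, j) * Yj j E + kl p i E) - l := by
    intro E
    unfold tt
    rw [sum_dR]
  rw [Ex_congr p h1, Ex_sub, Ex_add, Ex_const, Ex_sum]
  have h2 : ∀ j ∈ (Finset.univ : Finset J), Ex p (fun E => p (i, j) * Yj j E) =
      p (i, j) * Ex p (Yj j) := fun j _ => Ex_mul_left p _ _
  rw [Finset.sum_congr rfl h2]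
  have h3 : ∑ j, p (i, j) * (Ex p (Yj j) - l) = ∑ j, p (i, j) * Ex p (Yj j) - l * ∑ j, p (i, j) := by
    rw [Finset.mul_sum, ← Finset.sum_sub_distrib]
    exact Finset.sum_congr rfl fun j _ => by ring
  rw [h3]
  ring

theorem tt_mean {p : I × J → ℝ} {S : Finset I} {T : Finset J} {M K l : ℝ}
    (hl : Real.exp (-l) = l) (he : Env p S T M K) (hs : Small M K) :
    ∀ i ∈ S, |Ex p (tt p l i)| ≤ 30 * BB * M := by
  intro i hi
  obtain ⟨hl0, hl1⟩ := tm_l hl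
  have hp := tm_sub he hs
  have hB := BB_one
  have hM := he.M0
  rw [tm_Ex_tt]
  have hk := tm_Ex_kl hp i
  have hnr := tm_nr_le he i
  have hk2 : Ex p (kl p i) ≤ BB * M := hk.2.trans (mul_le_mul_of_nonneg_left hnr (by linarith))
  have hA : |∑ j, p (i, j) * (Ex p (Yj j) - l)| ≤ 20 * BB * M := by
    calc |∑ j, p (i, j) * (Ex p (Yj j) - l)| ≤ ∑ j, |p (i, j) * (Ex p (Yj j) - l)| :=
          Finset.abs_sum_le_sum_abs _ _
      _ ≤ ∑ j, p (i, j) * (20 * BB * M) := by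
          refine Finset.sum_le_sum fun j _ => ?_
          by_cases hj : j ∈ T
          · rw [abs_mul, abs_of_nonneg (he.h0 _)]
            exact mul_le_mul_of_nonneg_left ((mean_sup hl he hs).2 j hj) (he.h0 _)
          · rw [he.zT j hj i]
            simp
      _ = (∑ j, p (i, j)) * (20 * BB * M) := by rw [Finset.sum_mul]
      _ ≤ 1 * (20 * BB * M) := mul_le_mul_of_nonneg_right (he.hr i) (by positivity)
      _ = 20 * BB * M := one_mul _
  have hs1 := he.hr i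
  have hs2 := he.rS i hi
  have hb1 : 0 ≤ l * (1 - ∑ j, p (i, j)) := mul_nonneg hl0.le (by linarith)
  have hb2 : l * (1 - ∑ j, p (i, j)) ≤ 2 * M := by
    calc l * (1 - ∑ j, p (i, j)) ≤ 1 * (1 - ∑ j, p (i, j)) :=
          mul_le_mul_of_nonneg_right hl1 (by linarith)
      _ ≤ 2 * M := by linarith
  have hBM : M ≤ BB * M := by nlinarith
  rw [abs_le] at hA ⊢
  constructor <;> nlinarith [hA.1, hA.2, hk.1]

theorem tm_nr_sq {p : I × J → ℝ} {S : Finset I} {T : Finset J} {M K : ℝ} (he : Env p S T M K) :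
    ∑ i ∈ S, nr p i ^ 2 ≤ M * K := by
  calc ∑ i ∈ S, nr p i ^ 2 ≤ ∑ i ∈ S, M * nr p i := by
        refine Finset.sum_le_sum fun i _ => ?_
        rw [sq]
        exact mul_le_mul_of_nonneg_right (tm_nr_le he i) (tm_nr_nonneg p i)
    _ = M * ∑ i ∈ S, nr p i := by rw [Finset.mul_sum]
    _ ≤ M * ∑ i, nr p i := by
        refine mul_le_mul_of_nonneg_left ?_ he.M0
        exact Finset.sum_le_sum_of_subset_of_nonneg (Finset.subset_univ _)
          (fun i _ _ => tm_nr_nonneg p i)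
    _ ≤ M * K := mul_le_mul_of_nonneg_left he.sq he.M0

theorem tt_mean2 {p : I × J → ℝ} {S : Finset I} {T : Finset J} {M K l : ℝ}
    (hl : Real.exp (-l) = l) (he : Env p S T M K) (hs : Small M K) :
    ∑ i ∈ S, Ex p (tt p l i) ^ 2 ≤ 5000 * BB ^ 2 * M * (K + 1) := by
  obtain ⟨hl0, hl1⟩ := tm_l hl
  have hp := tm_sub he hs
  have hB := BB_one
  have hM := he.M0
  have hK := he.K0
  have h1 : ∀ i ∈ S, Ex p (tt p l i) ^ 2 ≤ 3 * (∑ j, p (i, j) * (Ex p (Yj j) - l)) ^ 2 +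
      3 * (1 - ∑ j, p (i, j)) ^ 2 + 3 * (BB ^ 2 * nr p i ^ 2) := by
    intro i _
    rw [tm_Ex_tt]
    obtain ⟨A, hA⟩ : ∃ A, A = ∑ j, p (i, j) * (Ex p (Yj j) - l) := ⟨_, rfl⟩
    obtain ⟨D, hD⟩ : ∃ D, D = 1 - ∑ j, p (i, j) := ⟨_, rfl⟩
    rw [← hA, ← hD]
    have hk := tm_Ex_kl hp i
    obtain ⟨Q, hQ⟩ : ∃ Q, Q = Ex p (kl p i) := ⟨_, rfl⟩
    rw [← hQ] at hk ⊢
    have e1 : Q ^ 2 ≤ BB ^ 2 * nr p i ^ 2 := by
      rw [← mul_pow]
      exact pow_le_pow_left₀ hk.1 hk.2 2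
    have e2 : (l * D) ^ 2 ≤ D ^ 2 := by
      rw [mul_pow]
      have : l ^ 2 ≤ 1 := by nlinarith
      nlinarith [sq_nonneg D]
    nlinarith [sq_nonneg (A + l * D), sq_nonneg (A - Q), sq_nonneg (l * D + Q)]
  have hA : ∑ i ∈ S, (∑ j, p (i, j) * (Ex p (Yj j) - l)) ^ 2 ≤ 1000 * BB ^ 2 * M * (K + 1) := by
    classical
    obtain ⟨e, hee⟩ : ∃ e : J → ℝ, e = fun j => if j ∈ T then Ex p (Yj j) - l else 0 := ⟨_, rfl⟩
    have e1 : ∀ i, ∑ j, p (i, j) * (Ex p (Yj j) - l) = ∑ j, pt p (j, i) * e j := by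
      intro i
      refine Finset.sum_congr rfl fun j _ => ?_
      have : pt p (j, i) = p (i, j) := rfl
      rw [this, hee]
      by_cases hj : j ∈ T
      · simp [hj]
      · rw [he.zT j hj i]
        simp
    have e2 := schur (pt p) (fun e => he.h0 _) he.hc he.hr e
    have e3 : ∑ j, e j ^ 2 = ∑ j ∈ T, (Ex p (Yj j) - l) ^ 2 := by
      rw [hee]
      simp only [ite_pow, ne_eq, OfNat.ofNat_ne_zero, not_false_eq_true, zero_pow]
      rw [← Finset.sum_filter]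
      exact Finset.sum_congr (by ext j; simp) (fun _ _ => rfl)
    calc ∑ i ∈ S, (∑ j, p (i, j) * (Ex p (Yj j) - l)) ^ 2 ≤
          ∑ i, (∑ j, p (i, j) * (Ex p (Yj j) - l)) ^ 2 :=
          Finset.sum_le_sum_of_subset_of_nonneg (Finset.subset_univ _)
            (fun i _ _ => sq_nonneg _)
      _ = ∑ i, (∑ j, pt p (j, i) * e j) ^ 2 :=
          Finset.sum_congr rfl fun i _ => by rw [e1]
      _ ≤ ∑ j, e j ^ 2 := e2
      _ = ∑ j ∈ T, (Ex p (Yj j) - l) ^ 2 := e3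
      _ ≤ _ := (mean_l2 hl he hs).2
  have hsum := Finset.sum_le_sum h1
  rw [Finset.sum_add_distrib, Finset.sum_add_distrib, ← Finset.mul_sum, ← Finset.mul_sum,
    ← Finset.mul_sum, ← Finset.mul_sum] at hsum
  have hd := he.dS
  have hn := tm_nr_sq he
  have hB2 : 1 ≤ BB ^ 2 := one_le_pow₀ hB
  have hn2 : BB ^ 2 * ∑ i ∈ S, nr p i ^ 2 ≤ BB ^ 2 * (M * K) :=
    mul_le_mul_of_nonneg_left hn (by positivity)
  have q1 : 0 ≤ BB ^ 2 * M := by positivity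
  have q2 : 0 ≤ BB ^ 2 * M * K := by positivity
  have q3 : M ≤ BB ^ 2 * M := by nlinarith
  nlinarith

theorem tm_four {p : I × J → ℝ} (hp : Sub p (1 / 2)) (l : ℝ) (i : I) :
    Ex p (fun E => tt p l i E ^ 4) ≤ 800 * BB ^ 2 * nr p i ^ 2 + 8 * Ex p (tt p l i) ^ 4 := by
  obtain ⟨m, hm⟩ : ∃ m, m = Ex p (tt p l i) := ⟨_, rfl⟩
  rw [← hm]
  have hm' : Ex p (fun E => LR (fun j => p (i, j)) (dR i E)) = m + l := by
    have h1 : Ex p (tt p l i) = Ex p (fun E => LR (fun j => p (i, j)) (dR i E) - l) := rfl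
    rw [Ex_sub, Ex_const, ← hm] at h1
    linarith
  have hf := fourth_LR_zr hp (fun j => p (i, j)) i
  rw [hm'] at hf
  have hf2 : nsq (fun j => p (i, j)) = nr p i := rfl
  rw [hf2] at hf
  have h2 : ∀ E, tt p l i E ^ 4 ≤
      8 * (LR (fun j => p (i, j)) (dR i E) - (m + l)) ^ 4 + 8 * m ^ 4 := by
    intro E
    have h3 : tt p l i E = LR (fun j => p (i, j)) (dR i E) - l := rfl
    rw [h3]
    obtain ⟨x, hx⟩ : ∃ x, x = LR (fun j => p (i, j)) (dR i E) - (m + l) := ⟨_, rfl⟩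
    have h4 : LR (fun j => p (i, j)) (dR i E) - l = x + m := by rw [hx]; ring
    rw [← hx, h4]
    have e1 : (x + m) ^ 2 ≤ 2 * x ^ 2 + 2 * m ^ 2 := by nlinarith [sq_nonneg (x - m)]
    have e2 : ((x + m) ^ 2) ^ 2 ≤ (2 * x ^ 2 + 2 * m ^ 2) ^ 2 :=
      pow_le_pow_left₀ (sq_nonneg _) e1 2
    nlinarith [sq_nonneg (x ^ 2 - m ^ 2)]
  have h5 := Ex_mono hp.h0 (fun e => (hp.h1 e).trans (by norm_num)) h2
  rw [Ex_add, Ex_mul_left, Ex_const] at h5
  nlinarith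

theorem tm_four_sup {p : I × J → ℝ} {S : Finset I} {T : Finset J} {M K l : ℝ}
    (hl : Real.exp (-l) = l) (he : Env p S T M K) (hs : Small M K) :
    ∀ i ∈ S, Ex p (fun E => tt p l i E ^ 4) ≤ 1000 * BB ^ 4 * M ^ 2 := by
  intro i hi
  have hp := tm_sub he hs
  have hB := BB_one
  have hM := he.M0
  have hM10 := hs.M_le he.M0 he.K0
  have h1 := tm_four hp l i
  have h2 := tt_mean hl he hs i hi
  have h3 : Ex p (tt p l i) ^ 4 ≤ (30 * BB * M) ^ 4 := by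
    have h4 := pow_le_pow_left₀ (abs_nonneg _) h2 4
    have h5 : |Ex p (tt p l i)| ^ 4 = Ex p (tt p l i) ^ 4 := by
      rw [← abs_pow]
      exact abs_of_nonneg (by positivity)
    rw [h5] at h4
    exact h4
  have hn1 := tm_nr_le he i
  have hn0 := tm_nr_nonneg p i
  have hn2 : nr p i ^ 2 ≤ M ^ 2 := pow_le_pow_left₀ hn0 hn1 2
  have hBB : BB ^ 2 ≤ BB ^ 4 := pow_le_pow_right₀ hB (by norm_num)
  have hB4 : 0 ≤ BB ^ 4 := by positivity
  have e1 : BB ^ 2 * nr p i ^ 2 ≤ BB ^ 4 * M ^ 2 :=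
    mul_le_mul hBB hn2 (sq_nonneg _) hB4
  have e2 : (30 * BB * M) ^ 4 = 810000 * M ^ 2 * (BB ^ 4 * M ^ 2) := by ring
  have e3 : 0 ≤ BB ^ 4 * M ^ 2 := by positivity
  have e4 : M ^ 2 ≤ (1 / 10 ^ 10) ^ 2 := pow_le_pow_left₀ hM hM10 2
  have e5 : 810000 * M ^ 2 * (BB ^ 4 * M ^ 2) ≤ 1 * (BB ^ 4 * M ^ 2) := by
    refine mul_le_mul_of_nonneg_right ?_ e3
    norm_num at e4
    linarith
  nlinarith

theorem tt_four {p : I × J → ℝ} {S : Finset I} {T : Finset J} {M K l : ℝ}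
    (hl : Real.exp (-l) = l) (he : Env p S T M K) (hs : Small M K) :
    ∀ i ∈ S, Ex p (fun E => tt p l i E ^ 4) ≤ 10000 * BB ^ 4 * M ^ 2 := by
  intro i hi
  refine (tm_four_sup hl he hs i hi).trans ?_
  have hB := BB_one
  have e3 : 0 ≤ BB ^ 4 * M ^ 2 := by positivity
  nlinarith

theorem tt_four_sum {p : I × J → ℝ} {S : Finset I} {T : Finset J} {M K l : ℝ}
    (hl : Real.exp (-l) = l) (he : Env p S T M K) (hs : Small M K) :
    ∑ i ∈ S, Ex p (fun E => tt p l i E ^ 4) ≤ 10000 * BB ^ 4 * M * (K + 1) := by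
  have hp := tm_sub he hs
  have hB := BB_one
  have hM := he.M0
  have hK := he.K0
  have hM10 := hs.M_le he.M0 he.K0
  have h1 : ∀ i ∈ S, Ex p (fun E => tt p l i E ^ 4) ≤
      800 * BB ^ 2 * nr p i ^ 2 + 8 * (30 * BB * M) ^ 2 * Ex p (tt p l i) ^ 2 := by
    intro i hi
    have h1 := tm_four hp l i
    have h2 := tt_mean hl he hs i hi
    have h3 : Ex p (tt p l i) ^ 2 ≤ (30 * BB * M) ^ 2 := by
      have h4 := pow_le_pow_left₀ (abs_nonneg _) h2 2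
      rw [sq_abs] at h4
      exact h4
    have h4 : Ex p (tt p l i) ^ 4 ≤ (30 * BB * M) ^ 2 * Ex p (tt p l i) ^ 2 := by
      have h5 : Ex p (tt p l i) ^ 4 = Ex p (tt p l i) ^ 2 * Ex p (tt p l i) ^ 2 := by ring
      rw [h5]
      exact mul_le_mul_of_nonneg_right h3 (sq_nonneg _)
    linarith
  have hsum := Finset.sum_le_sum h1
  rw [Finset.sum_add_distrib, ← Finset.mul_sum, ← Finset.mul_sum] at hsum
  have hn := tm_nr_sq he
  have hm2 := tt_mean2 hl he hs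
  have hBB : BB ^ 2 ≤ BB ^ 4 := pow_le_pow_right₀ hB (by norm_num)
  have hMK : 0 ≤ M * K := mul_nonneg hM hK
  have e1 : BB ^ 2 * ∑ i ∈ S, nr p i ^ 2 ≤ BB ^ 4 * (M * K) :=
    mul_le_mul hBB hn (Finset.sum_nonneg fun _ _ => sq_nonneg _) (by positivity)
  have e2 : (30 * BB * M) ^ 2 * ∑ i ∈ S, Ex p (tt p l i) ^ 2 ≤
      (30 * BB * M) ^ 2 * (5000 * BB ^ 2 * M * (K + 1)) :=
    mul_le_mul_of_nonneg_left hm2 (by positivity)
  have e3 : (30 * BB * M) ^ 2 * (5000 * BB ^ 2 * M * (K + 1)) =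
      4500000 * M ^ 2 * (BB ^ 4 * M * (K + 1)) := by ring
  have e4 : M ^ 2 ≤ (1 / 10 ^ 10) ^ 2 := pow_le_pow_left₀ hM hM10 2
  have e6 : 0 ≤ BB ^ 4 * M * (K + 1) := by positivity
  have e5 : 4500000 * M ^ 2 * (BB ^ 4 * M * (K + 1)) ≤ 1 * (BB ^ 4 * M * (K + 1)) := by
    refine mul_le_mul_of_nonneg_right ?_ e6
    norm_num at e4
    linarith
  have e7 : BB ^ 4 * (M * K) ≤ BB ^ 4 * M * (K + 1) := by
    have : 0 ≤ BB ^ 4 * M := by positivity
    nlinarith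
  rw [e3] at e2
  nlinarith

theorem tm_range {p : I × J → ℝ} (hp : Sub p (1 / 2)) (l : ℝ) (i : I) (E : Finset (I × J)) :
    -l ≤ tt p l i E ∧ tt p l i E ≤ 1 - l := by
  unfold tt
  have h1 : 0 ≤ ∑ j ∈ Rm (dR i E), p (i, j) := Finset.sum_nonneg fun j _ => hp.h0 _
  have h2 : ∑ j ∈ Rm (dR i E), p (i, j) ≤ 1 :=
    (Finset.sum_le_sum_of_subset_of_nonneg (Finset.subset_univ _)
      (fun j _ _ => hp.h0 _)).trans (hp.hr i)
  constructor <;> linarith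

theorem tm_U {p : I × J → ℝ} (hp : Sub p (1 / 2)) {l : ℝ} (hl : Real.exp (-l) = l) (i : I)
    (E : Finset (I × J)) :
    Ut p i E ≤ l * Real.exp (-(tt p l i E)) ∧ l * Real.exp (-(tt p l i E)) - nr p i ≤ Ut p i E := by
  have h1 := U_exp hp i (Rm (dR i E))
  have h2 : Real.exp (-(∑ j ∈ Rm (dR i E), p (i, j))) = l * Real.exp (-(tt p l i E)) := by
    have h3 : -(∑ j ∈ Rm (dR i E), p (i, j)) = -l + -(tt p l i E) := by
      unfold tt
      ring
    rw [h3, Real.exp_add, hl]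
  rw [h2] at h1
  exact h1

theorem tm_abs {p : I × J → ℝ} (hp : Sub p (1 / 2)) {l : ℝ} (hl : Real.exp (-l) = l) (i : I)
    (E : Finset (I × J)) : |Ut p i E - l| ≤ |tt p l i E| + nr p i := by
  obtain ⟨hl0, hl1⟩ := tm_l hl
  have h1 := tm_U hp hl i E
  have hr := tm_range hp l i E
  have hn := tm_nr_nonneg p i
  obtain ⟨t, ht⟩ : ∃ t, t = tt p l i E := ⟨_, rfl⟩
  rw [← ht] at h1 hr ⊢
  have h2 : |l * Real.exp (-t) - l| ≤ |t| := by
    have h3 : l * Real.exp (-t) - l = l * (Real.exp (-t) - 1) := by ring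
    rw [h3]
    rcases le_total 0 t with h0 | h0
    · have e1 : Real.exp (-t) ≤ 1 := Real.exp_le_one_iff.2 (by linarith)
      have e2 := Real.add_one_le_exp (-t)
      rw [abs_of_nonneg h0, abs_le]
      constructor
      · nlinarith
      · nlinarith
    · have e1 : 1 ≤ Real.exp (-t) := Real.one_le_exp (by linarith)
      rw [abs_of_nonpos h0, abs_of_nonneg (mul_nonneg hl0.le (by linarith))]
      have e2 := Real.add_one_le_exp t
      have e3 : Real.exp (-t) * Real.exp t = 1 := by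
        rw [← Real.exp_add]
        simp
      have e4 : Real.exp (-t) - 1 ≤ -t * Real.exp (-t) := by
        have : Real.exp (-t) * (t + 1) ≤ Real.exp (-t) * Real.exp t :=
          mul_le_mul_of_nonneg_left e2 (by linarith)
        rw [e3] at this
        linarith
      have e5 : Real.exp (-t) ≤ Real.exp l := Real.exp_le_exp.2 (by linarith [hr.1])
      have e6 : l * Real.exp l = 1 := by
        nth_rewrite 1 [← hl]
        rw [← Real.exp_add]
        simp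
      calc l * (Real.exp (-t) - 1) ≤ l * (-t * Real.exp (-t)) :=
            mul_le_mul_of_nonneg_left e4 hl0.le
        _ = -t * (l * Real.exp (-t)) := by ring
        _ ≤ -t * (l * Real.exp l) :=
            mul_le_mul_of_nonneg_left (mul_le_mul_of_nonneg_left e5 hl0.le) (by linarith)
        _ = -t := by rw [e6, mul_one]
  rw [abs_le] at h2 ⊢
  constructor
  · linarith [h2.1, h1.2]
  · linarith [h2.2, h1.1]

theorem Ut_four {p : I × J → ℝ} {S : Finset I} {T : Finset J} {M K l : ℝ}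
    (hl : Real.exp (-l) = l) (he : Env p S T M K) (hs : Small M K) :
    ∀ i ∈ S, Ex p (fun E => (Ut p i E - l) ^ 4) ≤ 100000 * BB ^ 4 * M ^ 2 := by
  intro i hi
  have hp := tm_sub he hs
  have hB := BB_one
  have hM := he.M0
  have hM10 := hs.M_le he.M0 he.K0
  have hn1 := tm_nr_le he i
  have hn0 := tm_nr_nonneg p i
  have h1 := tm_four_sup hl he hs i hi
  have h2 : ∀ E, (Ut p i E - l) ^ 4 ≤ 8 * tt p l i E ^ 4 + 8 * M ^ 4 := by
    intro E
    have h3 := tm_abs hp hl i E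
    obtain ⟨x, hx⟩ : ∃ x, x = Ut p i E - l := ⟨_, rfl⟩
    obtain ⟨t, ht⟩ : ∃ t, t = tt p l i E := ⟨_, rfl⟩
    rw [← hx, ← ht] at h3
    rw [← hx, ← ht]
    have e0 : |x| ≤ |t| + M := by linarith
    have e1 : x ^ 2 ≤ 2 * t ^ 2 + 2 * M ^ 2 := by
      have := pow_le_pow_left₀ (abs_nonneg _) e0 2
      rw [sq_abs] at this
      have h4 : |t| ^ 2 = t ^ 2 := sq_abs t
      nlinarith [sq_nonneg (|t| - M)]
    have e2 : (x ^ 2) ^ 2 ≤ (2 * t ^ 2 + 2 * M ^ 2) ^ 2 :=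
      pow_le_pow_left₀ (sq_nonneg _) e1 2
    nlinarith [sq_nonneg (t ^ 2 - M ^ 2)]
  have h5 := Ex_mono hp.h0 (fun e => (hp.h1 e).trans (by norm_num)) h2
  rw [Ex_add, Ex_mul_left, Ex_const] at h5
  have e3 : 0 ≤ BB ^ 4 * M ^ 2 := by positivity
  have hB4 : 1 ≤ BB ^ 4 := one_le_pow₀ hB
  have e4 : M ^ 2 ≤ (1 / 10 ^ 10) ^ 2 := pow_le_pow_left₀ hM hM10 2
  have e5 : M ^ 4 ≤ BB ^ 4 * M ^ 2 := by
    have e6 : M ^ 4 = M ^ 2 * M ^ 2 := by ring
    rw [e6]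
    refine mul_le_mul_of_nonneg_right ?_ (sq_nonneg _)
    norm_num at e4
    linarith
  nlinarith

theorem Ut_lin {p : I × J → ℝ} (hp : Sub p (1 / 2)) {l : ℝ} (hl : Real.exp (-l) = l) (i : I)
    (E : Finset (I × J)) :
    |Ut p i E - l + l * tt p l i E| ≤ tt p l i E ^ 2 + nr p i := by
  obtain ⟨hl0, hl1⟩ := tm_l hl
  have h1 := tm_U hp hl i E
  have hr := tm_range hp l i E
  have hn := tm_nr_nonneg p i
  obtain ⟨t, ht⟩ : ∃ t, t = tt p l i E := ⟨_, rfl⟩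
  rw [← ht] at h1 hr ⊢
  have h2 : |Real.exp (-t) - 1 - -t| ≤ (-t) ^ 2 := by
    apply Real.abs_exp_sub_one_sub_id_le
    rw [abs_le]
    constructor
    · linarith [hr.2]
    · linarith [hr.1]
  have h3 : |l * Real.exp (-t) - l + l * t| ≤ t ^ 2 := by
    have h4 : l * Real.exp (-t) - l + l * t = l * (Real.exp (-t) - 1 - -t) := by ring
    rw [h4, abs_mul, abs_of_pos hl0]
    have h5 : (-t) ^ 2 = t ^ 2 := by ring
    rw [h5] at h2
    calc l * |Real.exp (-t) - 1 - -t| ≤ l * t ^ 2 := mul_le_mul_of_nonneg_left h2 hl0.le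
      _ ≤ 1 * t ^ 2 := mul_le_mul_of_nonneg_right hl1 (sq_nonneg _)
      _ = t ^ 2 := one_mul _
  rw [abs_le] at h3 ⊢
  constructor
  · linarith [h3.1, h1.2]
  · linarith [h3.2, h1.1]

end Pool.JN
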