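import Pool.Agent.JN.Cv
import Pool.Agent.JN.Ps

/-! Module V1 (difficulty 3). Step 1 of the variance lemma.

PROOF. Expand the square: Ex (sum e_i (Xi_i - l))^2 = sum_i e_i^2 Ex (Xi_i - l)^2 + sum_{i≠k} e_i e_k Ex (Xi_i - l)(Xi_k - l).
 Ex (Xi_i - l)^2 = (1-2l) Ex Xi_i + l^2 (Xi_sq). By cov_pair the off-diagonal part equals
   [Ex W^2 - sum_i e_i^2 Ex (Ut_i - l)^2] + (1-2l) sum_{i≠k} e_i e_k Ex rr - sum_{i≠k} e_i e_k Ex [rr ((U_i - l) + (U_k - l)) + rr^2],
   W = sum_i e_i (Ut_i - l).  Drop - sum e_i^2 Ex (Ut_i-l)^2 <= 0.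
 PSD: 0 <= Ex sum_{i,k} e_i e_k par i k = sum_i e_i^2 Ex Xi_i + sum_{i≠k} e_i e_k Ex rr_ik (par i i = Xi_i, Sp_eq_par, Ex_Sp_mul with g = 1),
   and 1 - 2l < 0 (lam_lo), so (1-2l) sum_{i≠k} e_i e_k Ex rr <= (2l-1) sum_i e_i^2 Ex Xi_i, which cancels (1-2l) sum e_i^2 Ex Xi_i.
 The last sum is at most sum_{i≠k} |e_i||e_k| (Ex rr|U_i - l| + Ex rr |U_k - l| + Ex rr^2); exchanging i and k (rr_symm, H2 i k = H2 k i by
   dR_comm) the two first parts are equal.
-/

namespace Pool.JN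

open Finset Pool.KS

set_option linter.unusedSectionVars false

variable {I J : Type*} [Fintype I] [Fintype J] [DecidableEq I] [DecidableEq J]

theorem v1_sq_sum (a : I → ℝ) :
    (∑ i, a i) ^ 2 = ∑ i, a i ^ 2 + ∑ i, ∑ k ∈ univ.erase i, a i * a k := by
  rw [sq, Finset.sum_mul_sum, ← Finset.sum_add_distrib]
  refine Finset.sum_congr rfl (fun i _ => ?_)
  rw [← Finset.add_sum_erase univ (fun k => a i * a k) (Finset.mem_univ i), sq]

theorem v1_Ex_sq (p : I × J → ℝ) (e : I → ℝ) (f : I → Finset (I × J) → ℝ) :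
    Ex p (fun E => (∑ i, e i * f i E) ^ 2) = ∑ i, e i ^ 2 * Ex p (fun E => f i E ^ 2) +
      ∑ i, ∑ k ∈ univ.erase i, e i * e k * Ex p (fun E => f i E * f k E) := by
  have h1 : ∀ E : Finset (I × J), (∑ i, e i * f i E) ^ 2 = ∑ i, e i ^ 2 * f i E ^ 2 +
      ∑ i, ∑ k ∈ univ.erase i, e i * e k * (f i E * f k E) := by
    intro E
    rw [v1_sq_sum (fun i => e i * f i E)]
    congr 1
    · exact Finset.sum_congr rfl (fun i _ => by ring)
    · exact Finset.sum_congr rfl (fun i _ => Finset.sum_congr rfl (fun k _ => by ring))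
  rw [Ex_congr p h1, Ex_add, Ex_sum, Ex_sum]
  congr 1
  · exact Finset.sum_congr rfl (fun i _ => Ex_mul_left _ _ _)
  · refine Finset.sum_congr rfl (fun i _ => ?_)
    rw [Ex_sum]
    exact Finset.sum_congr rfl (fun k _ => Ex_mul_left _ _ _)

theorem v1_swap (g : I → I → ℝ) :
    ∑ i, ∑ k ∈ univ.erase i, g i k = ∑ i, ∑ k ∈ univ.erase i, g k i := by
  refine Finset.sum_comm' ?_
  intro x y
  simp [eq_comm]

theorem v1_psd {p : I × J → ℝ} (h0 : ∀ e, 0 ≤ p e) (h1 : ∀ e, p e ≤ 1) (e : I → ℝ) :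
    0 ≤ ∑ i, e i ^ 2 * Ex p (Xi i) +
      ∑ i, ∑ k ∈ univ.erase i, e i * e k * Ex p (rr p i k) := by
  have h := Ex_nonneg h0 h1 (fun E => par_psd e E)
  refine h.trans (le_of_eq ?_)
  rw [Ex_sum, ← Finset.sum_add_distrib]
  refine Finset.sum_congr rfl (fun i _ => ?_)
  rw [Ex_sum, ← Finset.add_sum_erase univ _ (Finset.mem_univ i)]
  congr 1
  · rw [Ex_mul_left, sq]
    congr 1
    refine Ex_congr p (fun E => ?_)
    unfold par Xi
    simp
  · refine Finset.sum_congr rfl (fun k hk => ?_)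
    rw [Ex_mul_left]
    congr 1
    have hki : k ≠ i := (Finset.mem_erase.mp hk).1
    have h2 := Ex_Sp_mul p hki (fun _ => 1)
    simp only [mul_one] at h2
    rw [← Ex_congr p (fun E => Sp_eq_par hki E)]
    exact h2

theorem v_step1 {p : I × J → ℝ} {l : ℝ} (hl : Real.exp (-l) = l) (h0 : ∀ e, 0 ≤ p e)
    (h1 : ∀ e, p e ≤ 1) (e : I → ℝ) :
    Ex p (fun E => (∑ i, e i * (Xi i E - l)) ^ 2) ≤
      l ^ 2 * nsq e + Ex p (fun E => (∑ i, e i * (Ut p i E - l)) ^ 2) +
      ∑ i, ∑ k ∈ univ.erase i, |e i| * |e k| *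
        (2 * Ex p (fun E => rr p i k E * |U p i (Rm (H2 i k E)) - l|) +
          Ex p (fun E => rr p i k E ^ 2)) := by
  have hlo := lam_lo hl
  have hdiag : ∀ i : I, Ex p (fun E => (Xi i E - l) ^ 2) = (1 - 2 * l) * Ex p (Xi i) + l ^ 2 := by
    intro i
    have h2 : ∀ E : Finset (I × J), (Xi i E - l) ^ 2 = (1 - 2 * l) * Xi i E + l ^ 2 := by
      intro E
      unfold Xi
      split_ifs <;> ring
    rw [Ex_congr p h2, Ex_add, Ex_mul_left, Ex_const]
  have hoff : ∀ i : I, ∀ k ∈ univ.erase i,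
      e i * e k * Ex p (fun E => (Xi i E - l) * (Xi k E - l)) =
      e i * e k * Ex p (fun E => (Ut p i E - l) * (Ut p k E - l)) +
      (1 - 2 * l) * (e i * e k * Ex p (rr p i k)) -
      e i * e k * Ex p (fun E => rr p i k E *
        ((U p i (Rm (H2 i k E)) - l) + (U p k (Rm (H2 i k E)) - l)) + rr p i k E ^ 2) := by
    intro i k hk
    rw [cov_pair p l (Finset.mem_erase.mp hk).1]
    ring
  have hX := v1_Ex_sq p e (fun i E => Xi i E - l)
  have hW := v1_Ex_sq p e (fun i E => Ut p i E - l)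
  have hX2 : ∑ i, ∑ k ∈ univ.erase i, e i * e k * Ex p (fun E => (Xi i E - l) * (Xi k E - l)) =
      ∑ i, ∑ k ∈ univ.erase i, e i * e k * Ex p (fun E => (Ut p i E - l) * (Ut p k E - l)) +
      (1 - 2 * l) * ∑ i, ∑ k ∈ univ.erase i, e i * e k * Ex p (rr p i k) -
      ∑ i, ∑ k ∈ univ.erase i, e i * e k * Ex p (fun E => rr p i k E *
        ((U p i (Rm (H2 i k E)) - l) + (U p k (Rm (H2 i k E)) - l)) + rr p i k E ^ 2) := by
    rw [Finset.sum_congr rfl (fun i _ => Finset.sum_congr rfl (hoff i))]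
    simp only [Finset.sum_sub_distrib, Finset.sum_add_distrib, Finset.mul_sum]
  have hX1 : ∑ i, e i ^ 2 * Ex p (fun E => (Xi i E - l) ^ 2) =
      (1 - 2 * l) * ∑ i, e i ^ 2 * Ex p (Xi i) + l ^ 2 * nsq e := by
    unfold nsq
    rw [Finset.mul_sum, Finset.mul_sum, ← Finset.sum_add_distrib]
    refine Finset.sum_congr rfl (fun i _ => ?_)
    rw [hdiag i]
    ring
  have hW1 : 0 ≤ ∑ i, e i ^ 2 * Ex p (fun E => (Ut p i E - l) ^ 2) :=
    Finset.sum_nonneg (fun i _ => mul_nonneg (sq_nonneg _) (Ex_nonneg h0 h1 (fun E => sq_nonneg _)))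
  have hpsd := v1_psd h0 h1 e
  have hQ : -(∑ i, ∑ k ∈ univ.erase i, e i * e k * Ex p (fun E => rr p i k E *
        ((U p i (Rm (H2 i k E)) - l) + (U p k (Rm (H2 i k E)) - l)) + rr p i k E ^ 2)) ≤
      ∑ i, ∑ k ∈ univ.erase i, |e i| * |e k| *
        (2 * Ex p (fun E => rr p i k E * |U p i (Rm (H2 i k E)) - l|) +
          Ex p (fun E => rr p i k E ^ 2)) := by
    have h3 : ∀ i : I, ∀ k ∈ univ.erase i,
        -(e i * e k * Ex p (fun E => rr p i k E *
          ((U p i (Rm (H2 i k E)) - l) + (U p k (Rm (H2 i k E)) - l)) + rr p i k E ^ 2)) ≤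
        |e i| * |e k| * Ex p (fun E => rr p i k E * |U p i (Rm (H2 i k E)) - l|) +
        |e k| * |e i| * Ex p (fun E => rr p k i E * |U p k (Rm (H2 k i E)) - l|) +
        |e i| * |e k| * Ex p (fun E => rr p i k E ^ 2) := by
      intro i k _
      have h4 : |Ex p (fun E => rr p i k E *
          ((U p i (Rm (H2 i k E)) - l) + (U p k (Rm (H2 i k E)) - l)) + rr p i k E ^ 2)| ≤
          Ex p (fun E => rr p i k E * |U p i (Rm (H2 i k E)) - l|) +
          Ex p (fun E => rr p k i E * |U p k (Rm (H2 k i E)) - l|) +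
          Ex p (fun E => rr p i k E ^ 2) := by
        rw [← Ex_add, ← Ex_add, abs_le]
        have hH : ∀ E : Finset (I × J), H2 k i E = H2 i k E := fun E => dR_comm i k E
        constructor
        · rw [neg_le, ← neg_one_mul, ← Ex_mul_left]
          refine Ex_mono h0 h1 (fun E => ?_)
          rw [rr_symm p i k E, hH]
          have hr := rr_nonneg h0 h1 i k E
          have a1 := mul_le_mul_of_nonneg_left (neg_abs_le (U p i (Rm (H2 i k E)) - l)) hr
          have a2 := mul_le_mul_of_nonneg_left (neg_abs_le (U p k (Rm (H2 i k E)) - l)) hr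
          nlinarith [sq_nonneg (rr p i k E)]
        · refine Ex_mono h0 h1 (fun E => ?_)
          rw [rr_symm p i k E, hH]
          have hr := rr_nonneg h0 h1 i k E
          have a1 := mul_le_mul_of_nonneg_left (le_abs_self (U p i (Rm (H2 i k E)) - l)) hr
          have a2 := mul_le_mul_of_nonneg_left (le_abs_self (U p k (Rm (H2 i k E)) - l)) hr
          nlinarith [sq_nonneg (rr p i k E)]
      calc -(e i * e k * Ex p (fun E => rr p i k E *
          ((U p i (Rm (H2 i k E)) - l) + (U p k (Rm (H2 i k E)) - l)) + rr p i k E ^ 2)) ≤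
          |e i * e k * Ex p (fun E => rr p i k E *
          ((U p i (Rm (H2 i k E)) - l) + (U p k (Rm (H2 i k E)) - l)) + rr p i k E ^ 2)| :=
            neg_le_abs _
        _ ≤ |e i| * |e k| * (Ex p (fun E => rr p i k E * |U p i (Rm (H2 i k E)) - l|) +
          Ex p (fun E => rr p k i E * |U p k (Rm (H2 k i E)) - l|) +
          Ex p (fun E => rr p i k E ^ 2)) := by
            rw [abs_mul, abs_mul]
            exact mul_le_mul_of_nonneg_left h4 (by positivity)
        _ = _ := by ring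
    rw [← Finset.sum_neg_distrib]
    simp only [← Finset.sum_neg_distrib]
    refine (Finset.sum_le_sum (fun i _ => Finset.sum_le_sum (h3 i))).trans (le_of_eq ?_)
    simp only [Finset.sum_add_distrib]
    rw [v1_swap (fun i k => |e k| * |e i| *
      Ex p (fun E => rr p k i E * |U p k (Rm (H2 k i E)) - l|))]
    rw [← Finset.sum_add_distrib, ← Finset.sum_add_distrib]
    refine Finset.sum_congr rfl (fun i _ => ?_)
    rw [← Finset.sum_add_distrib, ← Finset.sum_add_distrib]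
    refine Finset.sum_congr rfl (fun k _ => ?_)
    ring
  have hfin : (1 - 2 * l) * (∑ i, e i ^ 2 * Ex p (Xi i) +
      ∑ i, ∑ k ∈ univ.erase i, e i * e k * Ex p (rr p i k)) ≤ 0 :=
    mul_nonpos_of_nonpos_of_nonneg (by linarith) hpsd
  rw [hX, hX2, hX1]
  rw [hW]
  rw [mul_add] at hfin
  linarith

end Pool.JN
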